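import Pool.Agent.MP_b60a07_lc.AK.Spec

/-! Basic facts on the names of PROJECT AK. -/

open Filter Set

namespace Pool.Agent.Ctry.AK

section Sys

variable {P : Type 1} [Preorder P] {Lv : Om → Set Cb → P → Prop} {p q r : P} {α β γ : Om}
  {K K' L L' V : Set Cb} {s s' w : Cb} {n : ℕ}

theorem Sy0.mono (h : Sy0 Lv p) (k : q ≤ p) : Sy0 Lv q :=
  ⟨h.opn, fun r j => h.dns r (j.trans k), fun r j => h.cl r (j.trans k),
    fun r j => h.coh r (j.trans k)⟩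

theorem Sy0.dec (h : Sy0 Lv p) (β : Om) : ∃ r ≤ p, ∃ L, Lv β L r := h.dns p le_rfl β
theorem Sy0.closed (h : Sy0 Lv p) (k : Lv β L p) : IsClosed L := (h.cl p le_rfl β L k).1
theorem Sy0.inv (h : Sy0 Lv p) (k : Lv β L p) : Inv β L := (h.cl p le_rfl β L k).2
theorem Sy0.sub (h : Sy0 Lv p) (j : α ≤ β) (k : Lv α L p) (k' : Lv β L' p) : L' ⊆ L :=
  (h.coh p le_rfl α β L L' j k k').1
theorem Sy0.lift (h : Sy0 Lv p) (j : α ≤ β) (k : Lv α L p) (k' : Lv β L' p) (hw : w ∈ L) :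
    ∃ w' ∈ L', Ag α w' w := (h.coh p le_rfl α β L L' j k k').2 w hw
theorem Sy0.fnl (h : Sy0 Lv p) (k : Lv β L p) (k' : Lv β L' p) : L = L' :=
  (h.sub le_rfl k' k).antisymm (h.sub le_rfl k k')

theorem Mis.mono (h : Mis Lv K p) (k : q ≤ p) : Mis Lv K q :=
  let ⟨b, h⟩ := h; ⟨b, fun r j => h r (j.trans k)⟩

theorem Mis.sub (h : Mis Lv K p) (k : K' ⊆ K) : Mis Lv K' p :=
  let ⟨b, h⟩ := h; ⟨b, fun r j β i L l => (h r j β i L l).mono_left k⟩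

theorem mis_empty : Mis Lv ∅ p := ⟨⊥, fun _ _ _ _ L _ => empty_disjoint L⟩

theorem mis_of_eq (h : K = ∅) : Mis Lv K p := h ▸ mis_empty

theorem Mis.union (h : Mis Lv K p) (h' : Mis Lv K' p) : Mis Lv (K ∪ K') p :=
  let ⟨b, h⟩ := h
  let ⟨b', h'⟩ := h'
  ⟨max b b', fun r j β i L l => disjoint_union_left.2
    ⟨h r j β (le_of_max_le_left i) L l, h' r j β (le_of_max_le_right i) L l⟩⟩

theorem mis_biUnion {ι : Type*} {t : Set ι} (ht : t.Countable) {f : ι → Set Cb}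
    (h : ∀ i ∈ t, Mis Lv (f i) p) : Mis Lv (⋃ i ∈ t, f i) p := by
  have := ht.to_subtype
  choose b hb using fun i : t => h i i.2
  obtain ⟨β₀, k⟩ := exists_ge_all b
  exact ⟨β₀, fun q j β i L l => disjoint_iUnion₂_left.2 fun a ha =>
    hb ⟨a, ha⟩ q j β ((k _).le.trans i) L l⟩

theorem Sy0.mis_of (h : Sy0 Lv p) (k : Lv β L p) (d : Disjoint K L) : Mis Lv K p :=
  ⟨β, fun q j _ i _ l => d.mono_right ((h.mono j).sub i (h.opn β L p q j k) l)⟩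

/-- a condition deciding a level above the support of `K` decides whether `K` misses `X` -/
theorem Sy0.mis_iff (h : Sy0 Lv p) (hK : Inv β K) (k : Lv β L p) : Mis Lv K p ↔ Disjoint K L := by
  refine ⟨fun ⟨b, hb⟩ => disjoint_left.2 fun w j1 j2 => ?_, h.mis_of k⟩
  obtain ⟨r, j3, L', j4⟩ := h.dec (max β b)
  obtain ⟨w', j5, j6⟩ := (h.mono j3).lift (le_max_left β b) (h.opn β L p r j3 k) j4 j2
  exact disjoint_left.1 (hb r j3 _ (le_max_right β b) L' j4) (hK w w' j6.symm j1) j5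

theorem Sy0.mis_dense (h : Sy0 Lv p) (hK : Inv β K) (k : ∀ q ≤ p, ∃ r ≤ q, Mis Lv K r) :
    Mis Lv K p := ⟨β, fun q j β' i L l =>
  let ⟨r, j1, j2⟩ := k q j
  ((h.mono (j1.trans j)).mis_iff (hK.mono i) (h.opn β' L q r j1 l)).1 j2⟩

theorem Mt.mono (h : Mt Lv K p) (k : q ≤ p) : Mt Lv K q := fun r j => h r (j.trans k)
theorem Mt.sup (h : Mt Lv K p) (k : K ⊆ K') : Mt Lv K' p := fun r j i => h r j (i.sub k)
theorem Mt.not_mis (h : Mt Lv K p) (k : Mis Lv K p) : False := h p le_rfl k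

theorem Sy0.mt_iff (h : Sy0 Lv p) (hK : Inv β K) (k : Lv β L p) :
    Mt Lv K p ↔ ∃ w ∈ K, w ∈ L := by
  refine ⟨fun j => not_disjoint_iff.1 fun d => j.not_mis (h.mis_of k d), fun j q i d => ?_⟩
  exact not_disjoint_iff.2 j (((h.mono i).mis_iff hK (h.opn β L p q i k)).1 d)

theorem mis_or_mt (K : Set Cb) (p : P) : ∃ q ≤ p, Mis Lv K q ∨ Mt Lv K q := by
  by_cases h : Mt Lv K p
  · exact ⟨p, le_rfl, Or.inr h⟩
  · simp only [Mt, not_forall, not_not] at h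
    exact let ⟨q, j1, j2⟩ := h; ⟨q, j1, Or.inl j2⟩

theorem Term.mono (h : Term Lv γ s p) (k : q ≤ p) : Term Lv γ s q :=
  ⟨h.1.mono k, fun r j => h.2 r (j.trans k)⟩

theorem InP.mono (h : InP Lv γ s V p) (k : q ≤ p) : InP Lv γ s V q := Mis.mono h k

/-- the point coded by `s` read at a decided level -/
theorem Term.ext (h : Term Lv γ s p) (h0 : Sy0 Lv p) (j : γ ≤ β) (k : Lv β L p) :
    ∃ w ∈ L, Ag γ w s :=
  let ⟨w, j1, j2⟩ := (h0.mt_iff ((inv_cyl γ s).mono j) k).1 h.1; ⟨w, j2, j1⟩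

theorem Term.uniq (h : Term Lv γ s p) (k : Lv β L p) {w w' : Cb} (j1 : w ∈ L) (j2 : w' ∈ L)
    (j3 : Ag γ w s) (j4 : Ag γ w' s) : Ag β w w' := h.2 p le_rfl β L k w j1 w' j2 j3 j4

theorem Term.inP_iff (h : Term Lv γ s p) (h0 : Sy0 Lv p) (j : γ ≤ β) (k : Lv β L p)
    (hV : Inv β V) (j1 : w ∈ L) (j2 : Ag γ w s) : InP Lv γ s V p ↔ w ∈ V := by
  rw [InP, h0.mis_iff (((inv_cyl γ s).mono j).diff hV) k, disjoint_left]
  exact ⟨fun i => by_contra fun i' => i ⟨j2, i'⟩ j1,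
    fun i v i1 i2 => i1.2 (hV w v (h.uniq k j1 i2 j2 i1.1) i)⟩

theorem Term.mis_iff (h : Term Lv γ s p) (h0 : Sy0 Lv p) (j : γ ≤ β) (k : Lv β L p)
    (hV : Inv β V) (j1 : w ∈ L) (j2 : Ag γ w s) : Mis Lv (cyl γ s ∩ V) p ↔ w ∉ V := by
  have := h.inP_iff h0 j k hV.compl j1 j2
  rwa [InP, sdiff_compl] at this

theorem Term.up (h : Term Lv γ s p) (h0 : Sy0 Lv p) (j : γ ≤ β) (k : Lv β L p) (j1 : w ∈ L)
    (j2 : Ag γ w s) : Term Lv β w p :=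
  ⟨(h0.mt_iff (inv_cyl β w) k).2 ⟨w, self_mem_cyl β w, j1⟩, fun q i β' L' l v i1 v' i2 i3 i4 =>
    h.2 q i β' L' l v i1 v' i2 ((i3.mono j).trans j2) ((i4.mono j).trans j2)⟩

/-- a coded point is in no basic set of rank at most its depth that misses the code -/
theorem Term.not_inP (h : Term Lv γ s p) (hV : Inv γ V) (hs : s ∉ V) : ¬ InP Lv γ s V p :=
  fun k => h.1.not_mis (Mis.sub k fun y hy => ⟨hy, fun i => hs (hV y s hy i)⟩)

theorem BigF.mono (h : BigF Lv n α s p) (ho : ∀ β, Opn (Lv β)) (k : q ≤ p) : BigF Lv n α s q :=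
  let ⟨β, L, j1, j2, j3⟩ := h; ⟨β, L, j1, ho β L p q k j2, j3⟩

theorem BigF.mt (h : BigF Lv n α s p) (h0 : Sy0 Lv p) : Mt Lv (cyl α s) p :=
  let ⟨_, _, j1, j2, w, j3, _⟩ := h
  (h0.mt_iff ((inv_cyl α s).mono j1) j2).2 ⟨w 0, (j3 0).2, (j3 0).1⟩

theorem Thr.mono {pt : Om → Cb → P → Prop} (h : Thr Lv pt p) (k : q ≤ p) : Thr Lv pt q :=
  ⟨h.opn, fun r j => h.dns r (j.trans k), fun r j => h.coh r (j.trans k),
    fun r j => h.mem r (j.trans k)⟩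

theorem HL.mono (h : HL Lv p) (k : q ≤ p) : HL Lv q := fun r j => h r (j.trans k)
theorem FC.mono (h : FC Lv p) (k : q ≤ p) : FC Lv q := fun r j => h r (j.trans k)

end Sys

theorem ev_hyp {A : ℕ → Prop} (h : ∀ᶠ n in atTop, A n) : ∀ᶠ n in hyperfilter ℕ, A n :=
  hyperfilter_le_cofinite (Nat.cofinite_eq_atTop ▸ h)

/-- a level above the ranks of countably many basic sets -/
theorem exists_rank {t : Set (Set Cb)} (ht : t.Countable) (h : ∀ V ∈ t, ∃ β, Bas β V) (β₀ : Om) :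
    ∃ β, β₀ ≤ β ∧ ∀ V ∈ t, Bas β V := by
  have := ht.to_subtype
  choose b hb using fun V : t => h V V.2
  obtain ⟨β, k⟩ := exists_ge_all b
  exact ⟨max β₀ β, le_max_left _ _, fun V hV =>
    (hb ⟨V, hV⟩).mono ((k _).le.trans (le_max_right _ _))⟩

section Step

variable {P : Type 1} [Preorder P] {D : Dt P} {Φ : Set (Sg → P → Prop)} {p q r : P} {α β γ : Om}
  {L : Set Cb} {t : Cb} {σ : Sg} {z z' z'' w w' : Cand} {c c' : Pk} {S Y Y' : Cand → P → Prop}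
  {A A' : Sg → P → Prop}

theorem Sys.mono (h : Sys D p) (k : q ≤ p) : Sys D q :=
  ⟨h.s0.mono k, h.fc.mono k, h.opn, fun r j => h.dc r (j.trans k), fun r j => h.unb r (j.trans k),
    fun r j => h.ctb r (j.trans k), fun r j => h.big r (j.trans k)⟩

theorem GS.s0 (h : GS D) (p : P) : Sy0 D.Lv p := (h p).s0
theorem GS.dec (h : GS D) (p : P) (β : Om) : ∃ r ≤ p, ∃ L, D.Lv β L r := (h p).s0.dec β
theorem GS.lv (h : GS D) (k : D.Lv β L p) (j : q ≤ p) : D.Lv β L q := (h p).s0.opn β L p q j k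
theorem GS.t_mono (h : GS D) (k : D.T β t p) (j : q ≤ p) : D.T β t q := (h p).opn β t p q j k
theorem GS.t_cut (h : GS D) (k : D.T β t p) (j : α ≤ β) : D.T α (cut α t) p :=
  (h p).dc p le_rfl α β t j k
theorem GS.t_mt (h : GS D) (k : D.T β t p) : Mt D.Lv (cyl β t) p :=
  ((h p).big p le_rfl β t k).mt (h.s0 p)

/-- the fibre of a node meets every decided level -/
theorem GS.t_ext (h : GS D) (k : D.T α t p) (j : α ≤ β) (l : D.Lv β L p) : ∃ v ∈ L, Ag α v t :=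
  let ⟨v, j1, j2⟩ := ((h.s0 p).mt_iff ((inv_cyl α t).mono j) l).1 (h.t_mt k); ⟨v, j2, j1⟩

theorem GS.t_mem (h : GS D) (k : D.T β t p) (j : α ≤ β) (l : D.Lv α L p) : t ∈ L := by
  obtain ⟨q, j1, L', j2⟩ := h.dec p β
  obtain ⟨v, j3, j4⟩ := h.t_ext (h.t_mono k j1) le_rfl j2
  exact (h.s0 p).inv l v t (j4.mono j) ((h.s0 q).sub j (h.lv l j1) j2 j3)

/-- deciding a level of the tree -/
theorem GS.t_dec (h : GS D) (hP : Dist (univ : Set P)) (p : P) (β : Om) : ∃ q ≤ p, ∃ W : Set Cb,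
    W.Countable ∧ ∀ r ≤ q, ∀ t, D.T β t r ↔ t ∈ W := by
  obtain ⟨q, j1, W, j2, j3⟩ := (h p).ctb p le_rfl β
  obtain ⟨q', -, j4, j5⟩ := hP.set j2 (p := q) trivial
    (fun t r => D.T β t r ∨ ∀ r' ≤ r, ¬ D.T β t r')
    (fun t _ a b _ k i => i.imp (h.t_mono · k) fun i c l => i c (l.trans k)) fun t _ a _ _ => by
      by_cases k : ∃ b ≤ a, D.T β t b
      · exact let ⟨b, k1, k2⟩ := k; ⟨b, trivial, k1, Or.inl k2⟩
      · exact ⟨a, trivial, le_rfl, Or.inr fun b k1 k2 => k ⟨b, k1, k2⟩⟩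
  exact ⟨q', j4.trans j1, {t ∈ W | D.T β t q'}, j2.mono fun _ k => k.1, fun r k t =>
    ⟨fun i => ⟨j3 r (k.trans j4) t i, (j5 t (j3 r (k.trans j4) t i)).resolve_right
      fun i' => i' r k i⟩, fun i => h.t_mono i.2 k⟩⟩

theorem Cnd.mono (h : Cnd D z p) (h0 : GS D) (k : q ≤ p) : Cnd D z q :=
  fun e he => ⟨h0.t_mono (h e he).1 k, (h e he).2⟩

theorem cnd_nil : Cnd D [] p := by simp [Cnd]

theorem cnd_append : Cnd D (z ++ w) p ↔ Cnd D z p ∧ Cnd D w p := List.forall_mem_append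

theorem Cnd.rank (h : Cnd D z p) (β₀ : Om) : ∃ β, β₀ ≤ β ∧ ∀ e ∈ z, Bas β e.2.2 := by
  obtain ⟨β, j1, j2⟩ := exists_rank (t := (fun e : Lf => e.2.2) '' {e | e ∈ z})
    ((List.finite_toSet z).countable.image _) (forall_mem_image.2 fun e he => (h e he).2) β₀
  exact ⟨β, j1, fun e he => j2 _ (mem_image_of_mem _ he)⟩

theorem Sec.mono (h : Sec D σ p) (k : q ≤ p) : Sec D σ q := ⟨h.1, fun r j => h.2 r (j.trans k)⟩

theorem Acc.mono (h : Acc D σ z p) (k : q ≤ p) : Acc D σ z q :=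
  fun e he => ⟨(h e he).1, fun e' he' i => ((h e he).2 e' he' i).mono k⟩

theorem Cpt.mono (h : Cpt D z z' p) (k : q ≤ p) : Cpt D z z' q :=
  fun e he e' he' => ⟨(h e he e' he').1.mono k, (h e he e' he').2.mono k⟩

theorem Cpt.symm (h : Cpt D z z' p) : Cpt D z' z p := fun e he e' he' => (h e' he' e he).symm

theorem cpt_nil : Cpt D [] z p := by simp [Cpt]

theorem cpt_append : Cpt D (z ++ w) z' p ↔ Cpt D z z' p ∧ Cpt D w z' p := List.forall_mem_append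

theorem Ref.mono (h : Ref D z' z p) (k : q ≤ p) : Ref D z' z q :=
  List.Forall₂.imp (fun _ _ j => ⟨j.1, j.2.1, j.2.2.mono k⟩) h

theorem Ref.refl (z : Cand) (p : P) : Ref D z z p :=
  List.forall₂_same.2 fun _ _ => ⟨le_rfl, Ag.refl _ _, mis_of_eq Set.sdiff_self⟩

theorem Ref.trans (h : Ref D z'' z' p) (h' : Ref D z' z p) : Ref D z'' z p := by
  induction h generalizing z with
  | nil => exact h'
  | cons j _ ih =>
    cases h' with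
    | cons j' k => exact List.Forall₂.cons ⟨j'.1.trans j.1, (j.2.1.mono j'.1).trans j'.2.1,
        (j.2.2.union j'.2.2).sub fun x hx => by
          by_contra hn
          exact hn (Or.inr ⟨by_contra fun i => hn (Or.inl ⟨hx.1, i⟩), hx.2⟩)⟩ (ih k)

theorem Ref.append (h : Ref D z' z p) (h' : Ref D w' w p) : Ref D (z' ++ w') (z ++ w) p :=
  List.rel_append h h'

theorem Ref.mem (h : Ref D z' z p) {e' : Lf} (he : e' ∈ z') :
    ∃ e ∈ z, cy e' ⊆ cy e ∧ Mis D.Lv (e'.2.2 \ e.2.2) p := by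
  induction h with
  | nil => simp at he
  | cons j _ ih =>
    rcases List.mem_cons.1 he with rfl | he
    · exact ⟨_, List.mem_cons_self, cyl_sub j.1 j.2.1, j.2.2⟩
    · exact let ⟨e, k1, k2⟩ := ih he; ⟨e, List.mem_cons_of_mem _ k1, k2⟩

theorem Cpt.ref (h : Cpt D z w p) (h' : Ref D z' z p) : Cpt D z' w p := fun e' he' f hf => by
  obtain ⟨e, j1, j2, j3⟩ := h'.mem he'
  exact ⟨(h e j1 f hf).1.sub (inter_subset_inter_left _ j2), ((h e j1 f hf).2.union j3).sub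
    fun x hx => by
      by_contra hn
      exact hn (Or.inr ⟨hx.2, fun i => hn (Or.inl ⟨hx.1, i⟩)⟩)⟩

theorem Cpt.ref₂ (h : Cpt D z w p) (h1 : Ref D z' z p) (h2 : Ref D w' w p) : Cpt D z' w' p :=
  ((h.ref h1).symm.ref h2).symm

theorem Av.mono (h : Av D z c p) (k : q ≤ p) : Av D z c q :=
  fun e he y hy => (h e he y hy).mono k

theorem Av.ref (h : Av D z c p) (h' : Ref D z' z p) : Av D z' c p := fun e' he' y hy =>
  let ⟨e, j1, j2, _⟩ := h'.mem he'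
  (h e j1 y hy).sub (inter_subset_inter_left _ j2)

theorem av_append : Av D (z ++ w) c p ↔ Av D z c p ∧ Av D w c p := List.forall_mem_append

theorem Hit.mono (h : Hit D Y σ p) (h0 : GS D) (hY : Opn Y) (k : q ≤ p) : Hit D Y σ q :=
  let ⟨z, j1, j2, j3⟩ := h; ⟨z, hY z p q k j1, j2.mono h0 k, j3.mono k⟩

theorem Rej.mono (h : Rej D Y σ p) (k : q ≤ p) : Rej D Y σ q := fun r j => h r (j.trans k)

theorem Lim.mono' {f : ℕ → Sg} (h : Lim D f σ p) (k : q ≤ p) : Lim D f σ q :=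
  ⟨h.mono, h.lub, fun n => (h.sec n).mono k, h.sec'.mono k, fun r j => h.lim r (j.trans k)⟩

theorem Big.mono (h : Big D Φ A p) (k : q ≤ p) : Big D Φ A q :=
  let ⟨F, j1, j2⟩ := h; ⟨F, j1, fun r j => j2 r (j.trans k)⟩

theorem Big.imp (h : Big D Φ A p) (k : ∀ r ≤ p, ∀ σ, A σ r → A' σ r) : Big D Φ A' p :=
  let ⟨F, j1, j2⟩ := h
  ⟨F, j1, fun q j σ i1 i2 => let ⟨r, l1, l2⟩ := j2 q j σ i1 i2; ⟨r, l1, k r (l1.trans j) σ l2⟩⟩

theorem Big.exists (h : Big D Φ A p) (hΦ : Flt D Φ) : ∃ q ≤ p, ∃ σ, A σ q :=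
  let ⟨F, j1, j2⟩ := h
  let ⟨q, k1, σ, _, k2, k3⟩ := hΦ.unb F j1 p ⊥
  let ⟨r, l1, l2⟩ := j2 q k1 σ k2 k3
  ⟨r, l1.trans k1, σ, l2⟩

theorem Flt.and (hΦ : Flt D Φ) {F G : Sg → P → Prop} (h : F ∈ Φ) (h' : G ∈ Φ) :
    (fun σ q => F σ q ∧ G σ q) ∈ Φ := by
  convert hΦ.inter (fun n => if n = 0 then F else G) fun n => by split_ifs <;> assumption using 3
  exact ⟨fun k n => by split_ifs; exacts [k.1, k.2], fun k => ⟨by simpa using k 0, by simpa using k 1⟩⟩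

theorem Flt.set (hΦ : Flt D Φ) {ι : Type*} {t : Set ι} (ht : t.Countable)
    {F : ι → Sg → P → Prop} (h : ∀ i ∈ t, F i ∈ Φ) : ∃ G ∈ Φ, ∀ σ q, G σ q → ∀ i ∈ t, F i σ q := by
  rcases t.eq_empty_or_nonempty with rfl | k
  · exact ⟨_, hΦ.tail ⊥, by simp⟩
  · obtain ⟨e, rfl⟩ := ht.exists_eq_range k
    exact ⟨_, hΦ.inter (fun n => F (e n)) fun n => h _ (mem_range_self n),
      fun σ q j => forall_mem_range.2 j⟩

theorem Flt.opn (hΦ : Flt D Φ) {F : Sg → P → Prop} (h : F ∈ Φ) (k : F σ p) (j : q ≤ p) : F σ q :=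
  (hΦ.clo F h).1 σ p q j k

/-- every set of candidates is null or somewhere positive -/
theorem Flt.dich (hΦ : Flt D Φ) (hc : CloStmt) (h0 : GS D) (hY : Opn Y) (p : P) :
    (∃ F ∈ Φ, ∀ q ≤ p, ∀ σ, F σ q → ¬ Hit D Y σ q) ∨ ∃ q ≤ p, Big D Φ (Hit D Y) q := by
  rcases hΦ.max _ (hc P D h0 (fun z q => Y z q ∧ q ≤ p)
    fun z a b k i => ⟨hY z a b k i.1, k.trans i.2⟩) with h | ⟨F, j1, q, j2⟩
  · exact Or.inl ⟨_, h, fun q k σ i ⟨z, l1, l2⟩ => i q le_rfl ⟨z, ⟨l1, k⟩, l2⟩⟩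
  · have key : ∀ r ≤ q, ∀ σ, Sec D σ r → F σ r → ∃ r' ≤ r, r' ≤ p ∧ Hit D Y σ r' :=
      fun r k σ i1 i2 => by
        have := j2 r k σ i1 i2
        simp only [Rej, not_forall, not_not] at this
        obtain ⟨r', l1, z, l2, l3⟩ := this
        exact ⟨r', l1, l2.2, z, l2.1, l3⟩
    obtain ⟨r, k1, σ, -, k2, k3⟩ := hΦ.unb F j1 q ⊥
    obtain ⟨r', k4, k5, -⟩ := key r k1 σ k2 k3
    exact Or.inr ⟨r', k5, F, j1, fun a k σ i1 i2 =>
      let ⟨b, l1, _, l2⟩ := key a (k.trans (k4.trans k1)) σ i1 i2; ⟨b, l1, l2⟩⟩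

/-- a positive set contains a compatible pair -/
theorem Big.pair (h : Big D Φ (Hit D Y) p) (hΦ : Flt D Φ) (hY : Opn Y) :
    ∃ q ≤ p, ∃ z z', Y z q ∧ Y z' q ∧ Cnd D z q ∧ Cnd D z' q ∧ Cpt D z z' q := by
  by_contra hn
  obtain ⟨F, j1, j2⟩ := h
  obtain ⟨q, k1, σ, -, k2, k3, k4⟩ := hΦ.unb _ (hΦ.and j1 (hΦ.kl (fun z q => Y z q ∧ q ≤ p)
    (fun z a b k i => ⟨hY z a b k i.1, k.trans i.2⟩) fun q z z' i1 i2 i3 i4 i5 =>
      hn ⟨q, i1.2, z, z', i1.1, i2.1, i3, i4, i5⟩)) p ⊥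
  obtain ⟨r, l1, z, l2, l3⟩ := j2 q k1 σ k2 k3
  exact k4 r l1 ⟨z, ⟨l2, l1.trans k1⟩, l3⟩

theorem Zone.mono (h : Zone D Φ S z p) (k : q ≤ p) : Zone D Φ S z q := Big.mono h k

theorem Zone.ref (h : Zone D Φ S z' p) (h' : Ref D z' z p) : Zone D Φ S z p :=
  Big.imp h fun _ k _ ⟨y, j1, j2⟩ => ⟨y, ⟨j1.1, j1.2.trans (h'.mono k)⟩, j2⟩

theorem Zone.exists (h : Zone D Φ S z p) (hΦ : Flt D Φ) :
    ∃ q ≤ p, ∃ z', S z' q ∧ Cnd D z' q ∧ Ref D z' z q :=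
  let ⟨q, j1, _, z', j2, j3, _⟩ := Big.exists h hΦ; ⟨q, j1, z', j2.1, j3, j2.2⟩

variable [Cd P]

theorem Adm.mono (h : Adm D Φ p c z) (h0 : GS D) (k : q ≤ p) : Adm D Φ q c z :=
  let ⟨ζ, j1, j2⟩ := h.asg
  ⟨h.ctR, h.lab, h.ctG, h.can, h.av.mono k, ζ, fun g hg => ⟨(j1 g hg).1.mono h0 k,
    (j1 g hg).2.1.mono k, (j1 g hg).2.2.1.mono k, (j1 g hg).2.2.2.mono k⟩,
    fun g hg g' hg' i => (j2 g hg g' hg' i).mono k⟩

theorem Adm.ref (h : Adm D Φ p c z) (h' : Ref D z' z p) : Adm D Φ p c z' :=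
  let ⟨ζ, j1, j2⟩ := h.asg
  ⟨h.ctR, h.lab, h.ctG, h.can, h.av.ref h', ζ, fun g hg => ⟨(j1 g hg).1, (j1 g hg).2.1,
    (j1 g hg).2.2.1, (j1 g hg).2.2.2.ref h'⟩, j2⟩

theorem Adm.val (h : Adm D Φ p c z) : Val D Φ p c :=
  let ⟨ζ, j1, j2⟩ := h.asg
  ⟨h.ctR, h.lab, h.ctG, h.can, by simp [Av], ζ, fun g hg => ⟨(j1 g hg).1, (j1 g hg).2.1,
    (j1 g hg).2.2.1, cpt_nil⟩, j2⟩

theorem Val.mono (h : Val D Φ p c) (h0 : GS D) (k : q ≤ p) : Val D Φ q c := Adm.mono h h0 k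

theorem val_top : Val D Φ p top :=
  ⟨countable_empty, by simp [top], by simp [top], by simp [top], by simp [Av],
    fun _ => [], by simp [top], by simp [top]⟩

/-- raising the bound for the labels -/
theorem Adm.raise (h : Adm D Φ p c z) (k : c.α ≤ α) :
    (⟨α, c.R, c.G⟩ : Pk) ≤ c ∧ Adm D Φ p ⟨α, c.R, c.G⟩ z :=
  ⟨⟨k, subset_rfl, fun _ i _ => i, fun _ i => i⟩, h.ctR,
    fun y hy => ⟨(h.lab y hy).1.trans_le k, (h.lab y hy).2⟩, h.ctG, h.can, h.av, h.asg⟩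

end Step

theorem dist_below {P : Type 1} [Preorder P] (h : Dist (univ : Set P)) (p₀ : P) :
    Dist (univ : Set {q // q ≤ p₀}) := by
  intro p _ D h1 h2
  obtain ⟨q, -, k1, k2⟩ := h p.1 trivial (fun n q => ∃ k : q ≤ p₀, D n ⟨q, k⟩)
    (fun n q q' _ k ⟨j1, j2⟩ => ⟨k.trans j1, h1 n ⟨q, j1⟩ ⟨q', k.trans j1⟩ trivial k j2⟩)
    fun n q _ k =>
      let ⟨w, _, j1, j2⟩ := h2 n ⟨q, k.trans p.2⟩ trivial k; ⟨w.1, trivial, j1, w.2, j2⟩
  exact ⟨⟨q, k1.trans p.2⟩, trivial, k1, fun n => (k2 n).2⟩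

/-! ### stages -/

section Stage

variable {X : Type 1} [Preorder X] [Itr X] [Cd X] (g : Gnr X Pk) {ζ : Ordinal.{0}}

/-- the projection to a stage -/
noncomputable def pr (ζ : Ordinal.{0}) (r : X) : g.St ζ := (g.ι_range.1 (rs_mem r ζ)).choose

theorem ι_pr (r : X) : g.ι (pr g ζ r) = rs r ζ := (g.ι_range.1 (rs_mem r ζ)).choose_spec

theorem le_pr (r : X) : r ≤ g.ι (pr g ζ r) := (ι_pr g r).symm ▸ Itr.le_rs r ζ

variable {g}

theorem pr_le {r : X} {a : g.St ζ} (h : r ≤ g.ι a) : pr g ζ r ≤ a :=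
  g.ι_le.1 ((ι_pr g r).symm ▸ rs_le_of_le h (g.ι_mem a))

theorem pr_mono {r r' : X} (h : r ≤ r') : pr g ζ r ≤ pr g ζ r' := pr_le (h.trans (le_pr g r'))

/-- a condition of the stage below the projection is compatible with the condition -/
theorem lift {r : X} {a : g.St ζ} (h : a ≤ pr g ζ r) : ∃ r' ≤ r, r' ≤ g.ι a :=
  ⟨amal ζ (g.ι a) r, amal_le_right (ι_pr g r ▸ g.ι_le.2 h), amal_le_left (g.ι_mem a) r⟩

variable (g ζ) in
/-- `c` belongs to the generic filter of the stage -/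
def In (c : Pk) (r : X) : Prop := ∃ a : g.St ζ, g.Val a c ∧ r ≤ g.cond a c

theorem In.mono {c : Pk} {r r' : X} (h : In g ζ c r) (k : r' ≤ r) : In g ζ c r' :=
  let ⟨a, h1, h2⟩ := h; ⟨a, h1, k.trans h2⟩

theorem lift' {r : X} {a : g.St ζ} {c : Pk} (h : g.Val a c) (k : g.cond a c ≤ rs r (ζ + 1)) :
    ∃ r' ≤ r, r' ≤ g.cond a c :=
  ⟨amal (ζ + 1) (g.cond a c) r, amal_le_right k, amal_le_left (g.cond_mem h) r⟩

theorem cond_le {a : g.St ζ} {c : Pk} (h : g.Val a c) : g.cond a c ≤ g.ι a :=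
  g.rs_cond h ▸ Itr.le_rs _ ζ

theorem In.dir {c c' : Pk} {r : X} (h : In g ζ c r) (h' : In g ζ c' r) :
    ∃ a ≤ pr g ζ r, ∃ d, d ≤ c ∧ d ≤ c' ∧ g.Val a d ∧ g.cond a d ≤ rs r (ζ + 1) :=
  let ⟨_, h1, h2⟩ := h
  let ⟨_, h3, h4⟩ := h'
  g.dir (pr g ζ r) r h1 h3 h2 h4 (ι_pr g r).le

end Stage

end Pool.Agent.Ctry.AK
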