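import Pool.Agent.MP_b60a07_lc.AK.Names

/-! PROJECT AK: big fibres of a closed set and their names. -/

open Filter Set

namespace Pool.Agent.Ctry.AK.Big

open Fc Fc.Fml Fc.Link1

variable {X : Type 1} [Preorder X] [OrderTop X] {C f : Nm X} {b : Nm X} {p : X} {n : ℕ}

omit [OrderTop X] in
theorem ctb (hD : Dist (univ : Set X)) {ι : Type} [Countable ι] (D : ι → X → Prop) (h1 : Opn D)
    (h2 : ∀ i, ∀ q ≤ p, ∃ r ≤ q, D i r) : ∃ q ≤ p, ∀ i, D i q := by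
  obtain ⟨q, -, k⟩ := hD.ctble (mem_univ p) D (fun i q q' _ k h => h1 i q q' k h)
    fun i q _ k => let ⟨r, j1, j2⟩ := h2 i q k; ⟨r, trivial, j1, j2⟩
  exact ⟨q, k⟩

/-- a fibre that is not small has many names of different points -/
theorem fam (h : Fo (neg (smallF C b (nn n) f)) p) (j : ℕ) (hj : j ≤ n + 1) :
    ∃ r ≤ p, ∃ g : Fin j → Nm X, (∀ i, fM (g i) C r ∧ Fo (agrF b f (g i)) r) ∧
      ∀ i i', i ≠ i' → ∀ t ≤ r, ¬ fE (g i) (g i') t := by
  induction j with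
  | zero => exact ⟨p, le_rfl, Fin.elim0, fun i => i.elim0, fun i => i.elim0⟩
  | succ j ih =>
    obtain ⟨r, k1, g, k2, k3⟩ := ih (by omega)
    let H : Nm X := relN (ULift.{1} (Fin j)) (fun i => nn i.down) (fun i => g i.down) fun _ => ⊤
    have k4 : Fo (func H) r := func_rel fun i i' t _ _ _ e => ⟨t, le_rfl, by
      rw [Fin.ext (nn_inj e)]
      exact fE.rfl⟩
    have k5 : ∃ g', ∃ q ≤ r, fM g' C q ∧ Fo (agrF b f g') q ∧
        ¬ Fo (exIn (nn n) fun m => app H m g') q := by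
      by_contra hn
      refine h r k1 (forces_ex_of H ⟨k4, forces_allIn.2 fun g' q hq j1 =>
        forces_imp.2 fun q' hq' j2 => by_contra fun j3 => ?_⟩)
      exact hn ⟨g', q', le_trans hq' hq, fM.mono j1 hq', j2, j3⟩
    obtain ⟨g', q, j1, j2, j3, j4⟩ := k5
    obtain ⟨q', j5, j6⟩ := not_forces j4
    have j7 : q' ≤ r := le_trans j5 j1
    have j8 : ∀ i, ∀ t ≤ q', ¬ fE (g i) g' t := fun i t ht e =>
      j6 t ht (forces_exIn_of (nn i) (nn_mem_nn.2 (by omega)) (app_congr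
        (app_rel_of (I := ULift.{1} (Fin j)) (c := fun _ => ⊤) ⟨i⟩ le_top) fE.rfl fE.rfl e))
    refine ⟨q', j7.trans k1, Fin.cons g' g, Fin.forall_fin_succ.2 ⟨⟨j2.mono j5, j3.mono j5⟩,
      fun i => ⟨(k2 i).1.mono j7, (k2 i).2.mono j7⟩⟩, Fin.forall_fin_succ.2
        ⟨Fin.forall_fin_succ.2 ⟨fun e => absurd rfl e, fun i _ t ht e => j8 i t ht e.symm⟩,
        fun i => Fin.forall_fin_succ.2 ⟨fun _ => j8 i,
          fun i' e t ht => k3 i i' (fun e' => e (congrArg _ e')) t (ht.trans j7)⟩⟩⟩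

theorem big (h1 : ValStmt) (h2 : PexStmt) (h3 : AgrStmt) (h4 : ThruStmt) : BigStmt := by
  intro X _ _ hD code hc C p Lv hC hR f α s n hf hv
  have fn : ∀ {g q}, q ≤ p → fM g C q → Fo (func g) q := fun k j => (pt_of_closed hC k j).1
  constructor
  · intro h
    obtain ⟨r, k1, g, k2, k3⟩ := fam h (n + 1) le_rfl
    have pt : ∀ i, ∀ t ≤ r, Fo (ptF om oN (g i)) t := fun i t ht =>
      pt_of_closed hC (ht.trans k1) ((k2 i).1.mono ht)
    obtain ⟨r1, k4, k5⟩ := ctb (p := r) hD (fun (y : Fin (n + 1) × Fin (n + 1)) t => ∃ β,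
      y.1 ≠ y.2 → ∃ u u', val code (g y.1) β u t ∧ val code (g y.2) β u' t ∧ ¬ Ag β u u')
      (fun y t t' k ⟨β, j⟩ => ⟨β, fun e => let ⟨u, u', j1, j2, j3⟩ := j e
        ⟨u, u', j1.mono k, j2.mono k, j3⟩⟩) fun y t ht => by
        by_cases e : y.1 = y.2
        · exact ⟨t, le_rfl, α, fun e' => absurd e e'⟩
        by_contra hn
        exact k3 y.1 y.2 e t ht (h2 X hD code hc _ _ t (pt _ t ht) (pt _ t ht)
          fun q hq β u u' j1 j2 => by_contra fun j3 => hn ⟨q, hq, β, fun _ => ⟨u, u', j1, j2, j3⟩⟩)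
    choose γ hγ using k5
    obtain ⟨β₀, hβ⟩ := exists_ge_all γ
    obtain ⟨r2, k6, k7⟩ := ctb (p := r1) hD (fun i t => ∃ u, val code (g i) (max α β₀) u t)
      (fun i t t' k ⟨u, j⟩ => ⟨u, j.mono k⟩) fun i t ht =>
        h1 X hD code hc _ t (pt i t (ht.trans k4)) _
    choose w hw using k7
    obtain ⟨r3, k8, L, k9⟩ := hR.s0.dns r2 (k6.trans (k4.trans k1)) (max α β₀)
    have l1 : r3 ≤ r1 := k8.trans k6
    have l2 : r3 ≤ r := l1.trans k4
    have l3 : r3 ≤ p := l2.trans k1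
    refine ⟨r3, l3, _, L, le_max_left _ _, k9, w, fun i =>
      ⟨hR.mem r3 l3 _ L _ _ k9 ((k2 i).1.mono l2) ((hw i).mono k8),
        ((h3 X code hc f (g i) r3 α s (w i) (fn l3 (hf.mono l3)) (pt i r3 l2).1 (hv.mono l3)
          (((hw i).mono k8).down (le_max_left _ _))).1 ((k2 i).2.mono l2)).symm⟩, fun i i' e a => ?_⟩
    obtain ⟨u, u', j1, j2, j3⟩ := hγ (i, i') e
    have l4 : γ (i, i') ≤ max α β₀ := (hβ _).le.trans (le_max_right _ _)
    exact j3 (((j1.mono l1).uniq hc (pt i r3 l2).1 (((hw i).mono k8).down l4)).trans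
      ((a.mono l4).trans ((((hw i').mono k8).down l4).uniq hc (pt i' r3 l2).1 (j2.mono l1))))
  · rintro ⟨β, L, k1, k2, w, k3, k4⟩ q hq hs
    obtain ⟨r, k5, H, k6, k7⟩ := forces_ex.1 hs q le_rfl
    have k8 : r ≤ p := le_trans k5 hq
    obtain ⟨r1, k9, j⟩ := ctb (p := r) hD (fun i t => ∃ g, ∃ m : Fin n,
      val code g β (w i) t ∧ Fo (func g) t ∧ Fo (app H (nn m) g) t)
      (fun i t t' k ⟨g, m, j1, j2, j3⟩ => ⟨g, m, j1.mono k, j2.mono k, j3.mono k⟩) fun i t ht => by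
        have l1 : t ≤ p := ht.trans k8
        obtain ⟨t1, j1, g, j2, j3⟩ :=
          (hR.mono l1).real h4 hD (hR.s0.opn β L p t l1 k2) (k3 i).1
        have l2 : t1 ≤ p := j1.trans l1
        obtain ⟨t2, j4, m, j5, j6⟩ := forces_exIn.1 (forces_imp.1
          (forces_allIn.1 k7 g t1 (j1.trans ht) j2) t1 le_rfl
          ((h3 X code hc f g t1 α s (w i) (fn l2 (hf.mono l2)) (fn l2 j2) (hv.mono l2)
            (j3.down k1)).2 (k3 i).2.symm)) t1 le_rfl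
        obtain ⟨t3, j7, m', j8, j9⟩ := mem_nn j5
        have l3 : t3 ≤ t1 := j7.trans j4
        exact ⟨t3, l3.trans j1, g, ⟨m', j8⟩, j3.mono l3, (fn l2 j2).mono l3,
          app_congr (Fo.mono j6 j7) fE.rfl j9.symm fE.rfl⟩
    choose g m j1 j2 j3 using j
    obtain ⟨i, i', e, e'⟩ := Fintype.exists_ne_map_eq_of_card_lt m (by simp)
    exact k4 i i' e (((j1 i).congr (func_eq (Fo.mono k6 k9) (j3 i) (e' ▸ j3 i'))).uniq hc
      (j2 i') (j1 i'))

theorem few (h1 : ValStmt) (h3 : AgrStmt) (h4 : ThruStmt) (h5 : BigStmt) : FewStmt := by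
  intro X _ _ hD code hc C p Lv n hC hR
  have fn : ∀ {g q}, q ≤ p → fM g C q → Fo (func g) q := fun k j => (pt_of_closed hC k j).1
  constructor
  · intro h q hq α
    obtain ⟨r1, k1, b, j1, j2, j3⟩ :=
      forces_exIn.1 (forces_allIn.1 h (ordN α) q hq (ordN_mem_oN α)) q le_rfl
    obtain ⟨r2, k2, β, e⟩ := mem_oN.1 j1 r1 le_rfl
    obtain ⟨r3, k3, D, j4, j5, j6⟩ := forces_ex.1 j3 r2 k2
    obtain ⟨r4, k4, H, j7, j8⟩ := forces_ex.1 j5 r3 le_rfl
    obtain ⟨r, k5, j9⟩ := decide_all hD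
      (fun m t => ∃ g u, Fo (app H (nn m) g) t ∧ fM g C t ∧ val code g β u t)
      (fun _ _ _ k ⟨g, u, i1, i2, i3⟩ => ⟨g, u, i1.mono k, i2.mono k, i3.mono k⟩) r4
    have l3 : r ≤ r3 := k5.trans k4
    have l2 : r ≤ r2 := l3.trans k3
    have l1 : r ≤ q := l2.trans (k2.trans k1)
    have l0 : r ≤ p := l1.trans hq
    have un : ∀ {m g g' u u' t}, t ≤ r → Fo (app H (nn m) g) t → Fo (app H (nn m) g') t →
        fM g' C t → val code g β u t → val code g' β u' t → Ag β u u' :=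
      fun k i1 i2 i3 i4 i5 => (i4.congr (func_eq (Fo.mono j7 (k.trans k5)) i1 i2)).uniq hc
        (fn (k.trans l0) i3) i5
    refine ⟨r, l1, β, (ordN_mem_ordN.1 (fM.right (fM.mono j2 k2) e.symm)).le,
      ⋃ m, {v | ∃ g u, Fo (app H (nn m) g) r ∧ fM g C r ∧ val code g β u r ∧ cut β u = v},
      countable_iUnion fun m => Set.Subsingleton.countable ?_, fun t ht s hb => ?_⟩
    · rintro _ ⟨g, u, i1, -, i2, rfl⟩ _ ⟨g', u', i3, i4, i5, rfl⟩
      exact (un le_rfl i1 i3 i4 i2 i5).cut_eq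
    have m0 : t ≤ p := ht.trans l0
    obtain ⟨β', L, a1, a2, w, a3, -⟩ := id hb
    obtain ⟨t1, c1, f, a4, a5⟩ := (hR.mono m0).real h4 hD a2 (a3 0).1
    have a6 : val code f β s t1 := (a5.down a1).ag (a3 0).2
    have m1 : t1 ≤ r := c1.trans ht
    obtain ⟨t2, c2, g, a7, a8⟩ := forces_exIn.1 (forces_imp.1
      (forces_allIn.1 j6 f t1 (m1.trans l3) a4) t1 le_rfl
      (Par.fo (Par.neg (par_small fE.rfl (e.mono (m1.trans l2)) fE.rfl fE.rfl))
        ((h5 X hD code hc C t1 Lv (hC.mono (m1.trans l0)) (hR.mono (m1.trans l0)) f β s n a4 a6).2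
          (hb.mono hR.s0.opn c1)))) t1 le_rfl
    have m2 : t2 ≤ r := le_trans c2 m1
    have a9 : fM g C t2 := forces_sub.1 j4 g t2 (m2.trans l3) a7
    obtain ⟨t3, c3, m, b1⟩ := exIn_om (cong_app1 H g) (forces_allIn.1 j8 g t2 (m2.trans k5) a7)
    obtain ⟨t4, c4, u, b2⟩ := h1 X hD code hc g t3
      (pt_of_closed hC (c3.trans (m2.trans l0)) (a9.mono c3)) β
    have c5 : t4 ≤ t2 := c4.trans c3
    have c6 : t4 ≤ t1 := le_trans c5 c2
    have m4 : t4 ≤ r := c5.trans m2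
    obtain ⟨g', u', b3, b4, b5⟩ := (j9 m).resolve_right fun k =>
      k t4 m4 ⟨g, u, b1.mono c4, a9.mono c5, b2⟩
    refine mem_iUnion.2 ⟨m, g', u', b3, b4, b5, Ag.cut_eq (Ag.symm (Ag.trans ?_
      (un m4 (b1.mono c4) (b3.mono m4) (b4.mono m4) b2 (b5.mono m4))))⟩
    exact (h3 X code hc f g t4 β s u (fn (m4.trans l0) (a4.mono c6)) (fn (m4.trans l0) (a9.mono c5))
      (a6.mono c6) b2).1 (Par.fo (par_agr (e.mono (m4.trans l2)).symm fE.rfl fE.rfl)
        (Fo.mono a8 c5))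
  · intro h q hq α
    have k : ∃ f, ∃ r ≤ q, fM f C r ∧ ¬ Fo (smallF C (ordN α) (nn n) f) r := by
      by_contra hn
      exact h q hq (forces_exIn_of (ordN α) (ordN_mem_oN α) (forces_allIn.2 fun f r k j =>
        by_contra fun j' => hn ⟨f, r, k, j, j'⟩))
    obtain ⟨f, r, k1, j1, j2⟩ := k
    obtain ⟨r1, k2, j3⟩ := not_forces j2
    have l1 : r1 ≤ q := le_trans k2 k1
    obtain ⟨r2, k3, s, j4⟩ := h1 X hD code hc f r1 (pt_of_closed hC (l1.trans hq) (j1.mono k2)) α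
    have l2 : r2 ≤ p := k3.trans (l1.trans hq)
    obtain ⟨r3, k4, j5⟩ := (h5 X hD code hc C r2 Lv (hC.mono l2) (hR.mono l2) f α s n
      (j1.mono (k3.trans k2)) j4).1 (Fo.mono j3 k3)
    exact ⟨r3, k4.trans (k3.trans l1), s, j5⟩

end Pool.Agent.Ctry.AK.Big
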