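import Pool.Agent.MP_77405c_lc.Conc
import Pool.Agent.MP_77405c_lc.Link2
import Pool.Agent.MP_b60a07_lc.AK.Basic

/-! Bookkeeping for PROJECT AK and the stage that forces the continuum hypothesis. -/

open Filter Set

namespace Pool.Agent.Ctry.AK.Book

open Pool.Agent.Ctry.Book (up up_code exists_book)

/-- the data generated by two codes, read below `p₀` -/
def Dup {P : Type 1} [Preorder P] [Cd P] (t t' : U) (p₀ : P) : Dt {q // q ≤ p₀} :=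
  ⟨fun β L a => up t (β, L) a.1, fun β s a => up t' (β, s) a.1⟩

theorem small_can {P : Type 1} [Cd P] [Small.{0} P] :
    Small.{0} {z : P × Pk | ∀ g ∈ z.2.G, Can P g} := by
  obtain ⟨W, h1, -⟩ := exists_code (univ : Set (Cand × P))
  refine small_of_injective (β := P × Om × Set (Om × Set Cb) × W.powerset.powerset)
    (f := fun z => (z.1.1, z.1.2.α, z.1.2.R, ⟨z.1.2.G, ZFSet.mem_powerset.2 fun g hg =>
      ZFSet.mem_powerset.2 fun y hy => let ⟨w, e⟩ := z.2 g hg y hy; e ▸ (h1 w).2 trivial⟩)) ?_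
  rintro ⟨⟨p, a, u, G⟩, _⟩ ⟨⟨p', a', u', G'⟩, _⟩ h
  simpa using h

theorem valC_top : ValC top := ⟨countable_empty, by simp [top], rfl⟩

theorem book (h1 : FltStmt) (h2 : SchStmt') (h3 : RstStmt) (h4 : TrvStmt) (h5 : ChsStmt)
    (h6 : BridgeStmt') (h7 : IterStmt') : BookStmt := by
  obtain ⟨f, hf⟩ := exists_book (Y := ℕ × U × U × U)
  choose F hF using h1
  obtain ⟨X, i1, i2, i3, g, hg⟩ := Conc.conc Pk
    (fun ζ P _ _ p c => ((f ζ).1 = 0 ∧ ValC c) ∨ ((f ζ).1 ≠ 0 ∧ (c = top ∨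
      ∃ p₀ : P, cd p₀ = (f ζ).2.2.2 ∧ ∃ h : p ≤ p₀,
        ∃ H : Dist (univ : Set P) ∧ GS (Dup (f ζ).2.1 (f ζ).2.2.1 p₀),
          Val (Dup (f ζ).2.1 (f ζ).2.2.1 p₀) (F _ (dist_below H.1 p₀) _ H.2) ⟨p, h⟩ c)))
    (fun ζ P _ _ p q c k => Or.imp_right (And.imp_right (Or.imp_right
      fun ⟨p₀, j1, j2, H, j3⟩ => ⟨p₀, j1, k.trans j2, H, Val.mono j3 H.2 k⟩)))
    (fun ζ P _ _ p => ⟨top, (em _).imp (fun h => ⟨h, valC_top⟩) fun h => ⟨h, Or.inl rfl⟩⟩)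
    fun ζ P _ _ _ => by
      refine @small_subset _ _ _ (fun z hz => ?_) (small_can (P := P))
      rcases hz with ⟨-, k⟩ | ⟨-, k | ⟨p₀, -, j, H, k⟩⟩
      · simp [k.2.2]
      · simp [k, top]
      · exact fun y hy x hx => let ⟨w, e⟩ := (k.can y hy).1 x hx; ⟨(w.1, w.2.1), e⟩
  have h0 : ∀ ζ, (f ζ).1 = 0 → ∀ (a : g.St ζ) c, g.Val a c ↔ ValC c := fun ζ h a c =>
    (hg ζ a c).trans ⟨fun k => k.elim (fun k => k.2) fun k => absurd h k.1, fun k => Or.inl ⟨h, k⟩⟩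
  have hv : ∀ ζ, (f ζ).1 ≠ 0 → ∀ a₀ : g.St ζ, cd a₀ = (f ζ).2.2.2 →
      ∀ H : Dist (univ : Set (g.St ζ)) ∧ GS (Dup (f ζ).2.1 (f ζ).2.2.1 a₀), ∀ a c, g.Val a c ↔
        c = top ∨ ∃ h : a ≤ a₀,
          Val (Dup (f ζ).2.1 (f ζ).2.2.1 a₀) (F _ (dist_below H.1 a₀) _ H.2) ⟨a, h⟩ c :=
    fun ζ h a₀ e H a c => (hg ζ a c).trans ⟨fun k => (k.resolve_left fun k => h k.1).2.imp_right
      fun ⟨p₀, j1, j2, H', j3⟩ => by
        obtain rfl : p₀ = a₀ := Cd.inj (j1.trans e.symm)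
        exact ⟨j2, j3⟩,
      fun k => Or.inr ⟨h, k.imp_right fun ⟨j2, j3⟩ => ⟨a₀, e, j2, H, j3⟩⟩⟩
  have hd : ∀ η, Dist (PP X η) := h7 X (h6 X Pk fun ζ h => by
    by_cases k : (f ζ).1 = 0
    · rw [show (g.Val : g.St ζ → Pk → Prop) = fun _ c => ValC c from
        funext fun a => funext fun c => propext (h0 ζ k a c)]
      exact h5 _ h
    by_cases k' : ∃ a₀ : g.St ζ, cd a₀ = (f ζ).2.2.2 ∧ GS (Dup (f ζ).2.1 (f ζ).2.2.1 a₀)
    · obtain ⟨a₀, e, H⟩ := k'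
      rw [show (g.Val : g.St ζ → Pk → Prop) = _ from
        funext fun a => funext fun c => propext (hv ζ k a₀ e ⟨h, H⟩ a c)]
      exact h3 _ a₀ _ (fun _ => val_top) (h2 _ (dist_below h a₀) _ H _ (hF _ _ _ _))
    · rw [show (g.Val : g.St ζ → Pk → Prop) = fun _ c => c = top from
        funext fun a => funext fun c => propext ((hg ζ a c).trans
          ⟨fun j => (j.resolve_left fun j => k j.1).2.resolve_right
            fun ⟨p₀, j1, _, H, _⟩ => k' ⟨p₀, j1, H.2⟩, fun j => Or.inr ⟨k, Or.inl j⟩⟩)]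
      exact h4 _)
  refine ⟨X, i1, i2, i3, g, hd, fun ξ D p k1 k2 k3 k4 ξ' => ?_, ?_⟩
  · obtain ⟨t, ht⟩ := up_code g ξ (R := fun (y : Om × Set Cb) q => D.Lv y.1 y.2 q)
      (fun y => k1 y.1 y.2) fun y => k3 y.1 y.2
    obtain ⟨t', ht'⟩ := up_code g ξ (R := fun (y : Om × Cb) q => D.T y.1 y.2 q)
      (fun y => k2 y.1 y.2) fun y => k4 y.1 y.2
    obtain ⟨ζ, j1, j2⟩ := hf (1, t, t', cd p) (max ξ ξ')
    refine ⟨ζ, (le_max_right _ _).trans j1, fun a₀ e H => ?_⟩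
    have key : D.st g a₀ = Dup (f ζ).2.1 (f ζ).2.2.1 a₀ := by
      rw [j2, Dup, ← ht ζ ((le_max_left _ _).trans j1), ← ht' ζ ((le_max_left _ _).trans j1)]
      rfl
    rw [key] at H ⊢
    exact ⟨_, hF _ _ _ _, hv ζ (by rw [j2]; exact one_ne_zero) a₀ (by rw [j2, ← g.ι_cd, e])
      ⟨g.dist_iff.2 (hd ζ), H⟩⟩
  · obtain ⟨ζ, -, j2⟩ := hf (0, ∅, ∅, ∅) 0
    exact ⟨ζ, h0 ζ (by rw [j2])⟩

theorem chf : ChfStmt := by
  rintro X _ _ _ g ⟨-, ζ, hζ⟩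
  have : Infinite Iv := Set.Icc.infinite zero_lt_one
  have : Infinite Cb := Pi.infinite_of_right
  obtain ⟨e, he⟩ : ∃ e : (ℕ → Prop) → Set Cb, Function.Injective e :=
    ⟨fun s => Infinite.natEmbedding Cb '' {n | s n}, fun s s' h =>
      (image_injective.2 (Infinite.natEmbedding Cb).injective h :)⟩
  refine ⟨fun a s r => ∃ c, In g ζ c r ∧ a < c.α ∧ ∀ V, (a, V) ∈ c.R ↔ V = e s,
    fun a s p q k ⟨c, j1, j2⟩ => ⟨c, j1.mono k, j2⟩,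
    fun a s s' p ⟨c, j1, _, j3⟩ ⟨c', j4, j5, j6⟩ => ?_, fun s p => ?_⟩
  · obtain ⟨-, -, d, k1, k2, -⟩ := j1.dir j4
    exact he ((j6 _).1 (k2.2.2.1 _ (k1.2.1 ((j3 _).2 rfl)) j5))
  · obtain ⟨a, -, c, k1, k2⟩ := g.exists_cond (pr g ζ p) p (ι_pr g p).le
    obtain ⟨β, hβ⟩ := exists_gt c.α
    obtain ⟨l1, l2, l3⟩ := (hζ a c).1 k1
    have k3 : g.Val a ⟨β, insert (c.α, e s) c.R, c.G⟩ := (hζ a _).2
      ⟨l1.insert _, forall_mem_insert.2 ⟨hβ, fun y hy => (l2 y hy).trans hβ⟩, l3⟩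
    have k4 : (⟨β, insert (c.α, e s) c.R, c.G⟩ : Pk) ≤ c := ⟨hβ.le, subset_insert _ _,
      fun y hy i => hy.resolve_left fun i' => i.ne (congrArg Prod.fst i'), fun _ i => i⟩
    obtain ⟨r, k5, k6⟩ := lift' k3 ((g.cond_mono k3 k1 le_rfl k4).trans k2)
    exact ⟨r, k5, c.α, _, ⟨a, k3, k6⟩, hβ, fun V => ⟨fun i => i.elim (congrArg Prod.snd)
      fun i' => absurd (l2 _ i') (lt_irrefl _), fun i => Or.inl (by rw [i])⟩⟩

end Pool.Agent.Ctry.AK.Book
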