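import Pool.Agent.MP_b60a07_lc.AK.Basic

/-! Closing off under bounds, accumulation points and copies. -/

open Filter Set

namespace Pool.Agent.Ctry.AK.Cls

variable {P : Type 1} [Preorder P] {D : Dt P} {m : ℕ}
  {𝒟 : Om → (Fin m → Cb) → Om → P → Prop}

variable (D 𝒟) in
/-- the alternative -/
def Alt (ρ ρ' : Om) (q : P) : Prop := (∀ r ≤ q, ∀ β t s, ρ' ≤ β → ¬ 𝒟 β t s r) ∨
  ∃ γ, ∃ u : Fin m → Cb, ρ ≤ γ ∧ (∀ a, Term D.Lv γ (u a) q) ∧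
    ∀ B : Fin m → Set Cb, (∀ a, Bas γ (B a) ∧ u a ∉ B a) →
      ∃ β t s, γ ≤ β ∧ s ≤ ρ' ∧ 𝒟 β t s q ∧ ∀ a, t a ∉ B a

theorem Alt.mono (ho : ∀ β t s p q, q ≤ p → 𝒟 β t s p → 𝒟 β t s q) {ρ ρ' ρ'' : Om} {q q' : P}
    (h : Alt D 𝒟 ρ ρ' q) (k : q' ≤ q) (k' : ρ' ≤ ρ'') : Alt D 𝒟 ρ ρ'' q' :=
  h.imp (fun h r j β t s i => h r (j.trans k) β t s (k'.trans i))
    fun ⟨γ, u, h1, h2, h3⟩ => ⟨γ, u, h1, fun a => (h2 a).mono k, fun B hB =>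
      let ⟨β, t, s, j1, j2, j3, j4⟩ := h3 B hB
      ⟨β, t, s, j1, j2.trans k', ho _ _ _ _ _ k j3, j4⟩⟩

theorem one (h : PtStmt) (hP : Dist (univ : Set P)) (hD : GS D)
    (ho : ∀ β t s p q, q ≤ p → 𝒟 β t s p → 𝒟 β t s q)
    (hT : ∀ β t s q, 𝒟 β t s q → ∀ a, D.T β (t a) q) (ρ : Om) (q : P) :
    ∃ r ≤ q, ∃ ρ', Alt D 𝒟 ρ ρ' r := by
  by_cases hb : ∃ r ≤ q, ∃ ρ', ∀ r' ≤ r, ∀ β t s, ρ' ≤ β → ¬ 𝒟 β t s r'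
  · exact let ⟨r, j1, ρ', j2⟩ := hb; ⟨r, j1, ρ', .inl j2⟩
  push Not at hb
  obtain ⟨r, j1, γ, u, j2, j3, j4⟩ := h P hP D.Lv q (hD.s0 q) (hD q).fc (Fin m)
    (fun l r => (∀ y ∈ l, ∃ β, Bas β y.2) ∧
      ∃ η, ∀ r' ≤ r, ∀ β t s, η ≤ β → 𝒟 β t s r' → Cls t l)
    (fun _ _ _ k ⟨k1, η, k2⟩ => ⟨k1, η, fun r' j => k2 r' (j.trans k)⟩) (fun _ _ k => k.1)
    (fun q₁ i ls hl β₀ => by
      have := (List.finite_toSet ls).to_subtype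
      choose η hη using fun l : {l | l ∈ ls} => (hl l l.2).2
      obtain ⟨b, k⟩ := exists_ge_all η
      obtain ⟨r', k1, β, t, s, k2, k3⟩ := hb q₁ i (max β₀ b)
      obtain ⟨r, k4, L, k5⟩ := hD.dec r' β
      exact ⟨r, k4.trans k1, β, L, le_of_max_le_left k2, k5, t,
        fun a => hD.t_mem (hD.t_mono (hT _ _ _ _ k3 a) k4) le_rfl k5,
        fun l i' => hη ⟨l, i'⟩ r' k1 β t s ((k _).le.trans (le_of_max_le_right k2)) k3⟩) ρ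
  have hS : {B : Fin m → Set Cb | ∀ a, Bas γ (B a) ∧ u a ∉ B a}.Countable :=
    (countable_pi fun _ => ctble_bas γ).mono fun _ k a => (k a).1
  obtain ⟨r₁, -, j5, j6⟩ := hP.set hS (p := r) trivial
    (fun B r' => ∃ s β t, γ ≤ β ∧ 𝒟 β t s r' ∧ ∀ a, t a ∉ B a)
    (fun _ _ _ _ _ k ⟨s, β, t, k1, k2, k3⟩ => ⟨s, β, t, k1, ho _ _ _ _ _ k k2, k3⟩)
    fun B hB q₁ _ i => by
      by_contra hn
      obtain ⟨q₂, k1, y, k2, k3⟩ := j4 q₁ i (List.ofFn fun a => (a, B a))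
        ⟨List.forall_mem_ofFn_iff.2 fun a => ⟨γ, (hB a).1⟩, γ, fun r' k β t s k' k'' => by
          by_contra hc
          exact hn ⟨r', trivial, k, s, β, t, k', k'', fun a ha =>
            hc ⟨(a, B a), List.mem_ofFn.2 ⟨a, rfl⟩, ha⟩⟩⟩
      obtain ⟨a, rfl⟩ := List.mem_ofFn.1 k2
      exact ((j3 a).mono (k1.trans i)).not_inP (hB a).1.inv (hB a).2 k3
  have := hS.to_subtype
  choose s hs using fun B : {B : Fin m → Set Cb | ∀ a, Bas γ (B a) ∧ u a ∉ B a} => j6 B B.2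
  obtain ⟨b, k⟩ := exists_ge_all s
  exact ⟨r₁, j5.trans j1, b, .inr ⟨γ, u, j2, fun a => (j3 a).mono j5, fun B hB =>
    let ⟨β, t, k1, k2⟩ := hs ⟨B, hB⟩
    ⟨β, t, _, k1, (k _).le, k2⟩⟩⟩

theorem cls (h : PtStmt) : ClsStmt := by
  intro P _ hP D hD ι rk m 𝒟 hr ho hT p δ₀
  have all : ∀ ρ q, ∃ r ∈ (univ : Set P), r ≤ q ∧
      ∃ ρ', ρ < ρ' ∧ ∀ τ ∈ rk ρ, Alt D (𝒟 τ) ρ ρ' r := fun ρ q => by
    obtain ⟨r, -, j1, j2⟩ := hP.set (hr ρ) (p := q) trivial (fun τ r => ∃ ρ', Alt D (𝒟 τ) ρ ρ' r)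
      (fun τ _ _ _ _ k ⟨ρ', k'⟩ => ⟨ρ', k'.mono (ho τ) k le_rfl⟩) fun τ _ q₁ _ _ =>
        let ⟨r, k1, k2⟩ := one h hP hD (ho τ) (hT τ) ρ q₁
        ⟨r, trivial, k1, k2⟩
    have := (hr ρ).to_subtype
    choose b hb using fun τ : rk ρ => j2 τ τ.2
    obtain ⟨β, k⟩ := exists_ge_all fun o : Option (rk ρ) => o.elim ρ b
    exact ⟨r, trivial, j1, β, k none, fun τ i =>
      (hb ⟨τ, i⟩).mono (ho τ) le_rfl (k (some ⟨τ, i⟩)).le⟩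
  obtain ⟨q, -, j1, f, j2, j3⟩ := hP.rec
    (fun _ a s s' => s < s' ∧ ∀ τ ∈ rk s, Alt D (𝒟 τ) s s' a)
    (fun _ _ _ _ _ _ k k' => ⟨k'.1, fun τ i => (k'.2 τ i).mono (ho τ) k le_rfl⟩)
    (p := p) trivial δ₀ (fun q _ _ => all δ₀ q) fun _ q _ _ _ s' _ => all s' q
  exact ⟨q, j1, f, strictMono_nat_of_lt_succ fun n => (j3 n).1, j2.ge, fun n => (j3 n).2⟩

end Pool.Agent.Ctry.AK.Cls
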