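import Pool.Agent.MP_b60a07_lc.AK.Basic
import Pool.Agent.MP_77405c_lc.Sch

/-! Conditions of the step of PROJECT AK: genericity, new zones, new closed sets, the reservoir. -/

open Filter Set

namespace Pool.Agent.Ctry.AK.Cond

theorem new (h : SplStmt) : NewStmt := by
  classical
  intro P _ _ hP D hD Φ hΦ p c z₀ g ha hg
  obtain ⟨ζ, j1, j2⟩ := ha.asg
  obtain ⟨q, k, z₁, z₂, c1, c2, r1, r2, o1, o2, cp⟩ := h P hP D hD Φ hΦ (nm g) (ζ g) p
    (ha.can g hg).2 (j1 g hg).1 (j1 g hg).2.1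
  have a0 : Av D (ζ g) c q := (j1 g hg).2.2.1.mono k
  have b0 : Cpt D (ζ g) z₀ q := ((j1 g hg).2.2.2.mono k).symm
  refine ⟨q, k, z₁, c1, o1, (b0.ref r1).symm, ha.ctR, ha.lab, ha.ctG, ha.can,
    av_append.2 ⟨ha.av.mono k, a0.ref r1⟩, Function.update ζ g z₂, fun g' hg' => ?_,
    fun g' hg' g'' hg'' ne => ?_⟩
  · by_cases e : g' = g
    · subst e
      rw [Function.update_self]
      exact ⟨c2, o2, a0.ref r2, cpt_append.2 ⟨(b0.ref r2).symm, cp⟩⟩
    · rw [Function.update_of_ne e]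
      exact ⟨(j1 g' hg').1.mono hD k, (j1 g' hg').2.1.mono k, (j1 g' hg').2.2.1.mono k,
        cpt_append.2 ⟨(j1 g' hg').2.2.2.mono k,
          ((j2 g hg g' hg' (Ne.symm e)).mono k).ref r1⟩⟩
  · by_cases e : g' = g
    · subst e
      rw [Function.update_self, Function.update_of_ne (Ne.symm ne)]
      exact ((j2 g' hg' g'' hg'' ne).mono k).ref r2
    · rw [Function.update_of_ne e]
      by_cases e' : g'' = g
      · subst e'
        rw [Function.update_self]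
        exact (((j2 g'' hg'' g' hg' (Ne.symm ne)).mono k).ref r2).symm
      · rw [Function.update_of_ne e']
        exact (j2 g' hg' g'' hg'' ne).mono k

theorem gen (h1 : SplStmt) (h2 : CloStmt) : GenStmt := by
  classical
  intro P _ _ _ hP D hD Φ hΦ p c z₀ u ha hz hu
  let Y : Cand → P → Prop := fun z q => Ref D z z₀ q ∧
    ∀ r ≤ q, ∀ (h : P) (c' : Pk), cd (h, c') ∈ u → r ≤ h → c' ≤ c → ¬ Adm D Φ r c' z
  have hY : Opn Y := fun z a b k i => ⟨i.1.mono k, fun r j => i.2 r (j.trans k)⟩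
  rcases hΦ.dich h2 hD hY p with ⟨F, j1, j2⟩ | ⟨q, k, hb⟩
  · refine ⟨F, j1, fun q k σ z _ i2 i3 i4 i5 => ?_⟩
    by_contra hn
    exact j2 q k σ i2 ⟨z, ⟨i4, fun r l h c' l1 l2 l3 l4 => hn ⟨r, l, h, c', l1, l2, l3, l4⟩⟩, i3, i5⟩
  exfalso
  obtain ⟨g, g1, g2⟩ := Sch.exists_nm Y
  obtain ⟨ζ, j1, j2⟩ := (ha.mono hD k).asg
  have le1 : (⟨c.α, c.R, insert g c.G⟩ : Pk) ≤ c :=
    ⟨le_rfl, subset_rfl, fun _ i _ => i, fun _ i => ZFSet.mem_insert_of_mem _ i⟩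
  have v1 : Val D Φ q ⟨c.α, c.R, insert g c.G⟩ := by
    refine ⟨ha.ctR, ha.lab, ?_, fun g' hg' => ?_, by simp [Av], Function.update ζ g z₀,
      fun g' hg' => ?_, fun g' hg' g'' hg'' ne => ?_⟩
    · refine (ha.ctG.insert g).mono fun x hx => ?_
      rcases ZFSet.mem_insert_iff.1 hx with rfl | hx
      · exact mem_insert _ _
      · exact mem_insert_of_mem _ hx
    · rcases ZFSet.mem_insert_iff.1 hg' with rfl | hx
      · exact ⟨g2, g1 ▸ hY⟩
      · exact ha.can g' hx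
    · by_cases e : g' = g
      · subst e
        rw [Function.update_self]
        refine ⟨hz.mono hD k, ?_, ha.av.mono k, cpt_nil⟩
        rw [g1]
        exact Big.imp hb fun _ _ _ ⟨y, l1, l2⟩ => ⟨y, ⟨l1, l1.1⟩, l2⟩
      · rw [Function.update_of_ne e]
        have hx := (ZFSet.mem_insert_iff.1 hg').resolve_left e
        exact ⟨(j1 g' hx).1, (j1 g' hx).2.1, (j1 g' hx).2.2.1, cpt_nil⟩
    · by_cases e : g' = g
      · subst e
        rw [Function.update_self, Function.update_of_ne (Ne.symm ne)]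
        exact (j1 g'' ((ZFSet.mem_insert_iff.1 hg'').resolve_left (Ne.symm ne))).2.2.2
      · rw [Function.update_of_ne e]
        have hx := (ZFSet.mem_insert_iff.1 hg').resolve_left e
        by_cases e' : g'' = g
        · subst e'
          rw [Function.update_self]
          exact (j1 g' hx).2.2.2.symm
        · rw [Function.update_of_ne e']
          exact j2 g' hx g'' ((ZFSet.mem_insert_iff.1 hg'').resolve_left e') ne
  obtain ⟨p', k1, c', k2, v2, k3⟩ := hu q _ v1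
  obtain ⟨q', k4, w, -, o1, -, a1⟩ := new h1 P hP D hD Φ hΦ p' c' [] g v2
    (k2.2.2.2 (ZFSet.mem_insert g c.G))
  obtain ⟨r, k5, z, y1, -, y2⟩ := o1.exists hΦ
  rw [g1] at y1
  exact y1.2 r le_rfl p' c' k3 (k5.trans k4) (k2.trans le1) ((a1.mono hD k5).ref y2)

theorem add (h : SplStmt) : AddStmt := by
  intro P _ _ hP D hD Φ hΦ p c g hv hg hr
  obtain ⟨q, k, w, -, o1, -, a1⟩ := new h P hP D hD Φ hΦ p c [] g hv hg
  obtain ⟨r, k1, z, y1, y2, y3⟩ := o1.exists hΦ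
  rw [hr] at y1
  obtain ⟨β, t, V, B, rfl, ⟨γ, b1⟩, b2, b3⟩ := y1
  have a2 : Adm D Φ r c [(β, t, V)] := (a1.mono hD k1).ref y3
  obtain ⟨α, hα⟩ := exists_ge_all fun _ : Unit => c.α
  have hα := hα ()
  obtain ⟨ζ, j1, j2⟩ := a2.asg
  refine ⟨r, k1.trans k, ⟨α, insert (c.α, V) c.R, c.G⟩, ⟨hα.le, subset_insert _ _,
    fun y hy i => ?_, fun _ i => i⟩, ⟨a2.ctR.insert _, fun y hy => ?_, a2.ctG, a2.can,
    by simp [Av], ζ, fun g' hg' => ⟨(j1 g' hg').1, (j1 g' hg').2.1, fun e he y hy => ?_, cpt_nil⟩,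
    j2⟩, β, t, V, B, γ, mem_insert _ _, b1, b2, b3,
    fun y hy => a2.av _ List.mem_cons_self y hy⟩
  · rcases hy with rfl | hy
    · exact absurd i (lt_irrefl _)
    · exact hy
  · rcases hy with rfl | hy
    · exact ⟨hα, (y2 _ List.mem_cons_self).2⟩
    · exact ⟨(a2.lab y hy).1.trans hα, (a2.lab y hy).2⟩
  · rcases hy with rfl | hy
    · exact ((j1 g' hg').2.2.2 _ List.mem_cons_self e he).2
    · exact (j1 g' hg').2.2.1 e he y hy

theorem third {β : Om} (w : Fin 3 → Cb) (hw : ∀ i j, i ≠ j → ¬ Ag β (w i) (w j))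
    (x : Bool → Cb) : ∃ k, ∀ i, ¬ Ag β (w k) (x i) := by
  by_contra hn
  simp only [not_exists, not_forall, not_not] at hn
  choose f hf using hn
  obtain ⟨a, b, h1, h2⟩ := Fintype.exists_ne_map_eq_of_card_lt f (by simp)
  exact hw a b h1 ((hf a).trans (h2 ▸ (hf b).symm))

theorem res : ResStmt := by
  intro P _ D hD Φ hΦ p
  obtain ⟨q, k, t, ht⟩ := (hD p).unb p le_rfl ⊥
  refine ⟨q, k, [(⊥, t, univ)], fun e he => ?_, _, hΦ.tail ⊥, fun q' _ σ hσ _ => ?_⟩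
  · rw [List.mem_singleton.1 he]
    exact ⟨ht, ⊥, bas_univ ⊥⟩
  obtain ⟨q₁, k1, t', ht'⟩ := (hD q').unb q' le_rfl σ.δ
  obtain ⟨β₀, L₀, j1, j2, w, j3, j4⟩ := (hD q₁).big q₁ le_rfl σ.δ t' ht'
  obtain ⟨r, k2, L, l⟩ := hD.dec q₁ (max β₀ σ.γ)
  have s0 := hD.s0 r
  choose v v1 v2 using fun i => s0.lift (le_max_left β₀ σ.γ) (hD.lv j2 k2) l (j3 i).1
  have tm : ∀ i, Term D.Lv σ.γ (σ.x i (cut σ.δ t')) r := fun i =>
    (hσ.2 r (k2.trans k1) _ (hD.t_cut (hD.t_mono ht' k2) le_rfl) i).1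
  choose x x1 x2 using fun i => (tm i).ext s0 (le_max_right β₀ σ.γ) l
  obtain ⟨a, ha⟩ := third (β := max β₀ σ.γ) v (fun i j ne i1 => j4 i j ne
    ((v2 i).symm.trans ((i1.mono (le_max_left _ _)).trans (v2 j)))) x
  obtain ⟨O, B, b1, b2, b3, b4, b5⟩ := sep (β := max β₀ σ.γ) (x := v a)
    (K := ⋃ i, cyl (max β₀ σ.γ) (x i)) (isClosed_iUnion_of_finite fun i => cyl_closed _ _)
    (disjoint_iUnion_right.2 fun i => disjoint_left.2 fun y i1 i2 =>
      ha i (Ag.trans (Ag.symm i1) i2))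
  refine ⟨r, k2.trans k1, [(σ.δ, t', O)], ⟨⟨σ.δ, t', O, B, rfl, ⟨_, b2⟩, b3, ?_⟩,
    List.Forall₂.cons ⟨bot_le, fun i hi => absurd hi not_lt_bot, mis_of_eq (by simp)⟩
      List.Forall₂.nil⟩, fun e he => ?_, fun e he => ?_⟩
  · exact (s0.mt_iff (((inv_cyl _ _).mono (j1.trans (le_max_left _ _))).diff b2.inv) l).2
      ⟨v a, ⟨((v2 a).mono j1).trans (j3 a).2, b4⟩, v1 a⟩
  · rw [List.mem_singleton.1 he]
    exact ⟨hD.t_mono ht' k2, _, b1⟩
  · rw [List.mem_singleton.1 he]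
    refine ⟨le_rfl, fun e' he' i => ?_⟩
    rw [List.mem_singleton.1 he']
    exact ((tm i).mis_iff s0 (le_max_right _ _) l b1.inv (x1 i) (x2 i)).2 fun i1 =>
      disjoint_left.1 b5 i1 (mem_iUnion.2 ⟨i, self_mem_cyl _ _⟩)

end Pool.Agent.Ctry.AK.Cond
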