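import Pool.Agent.MP_77405c_lc.Defs

/-! Closed subspaces of the cube `[0,1]^ω₁`, read inside a structure `(M, E)`; `w` is `ω` and
`o` is `ω₁`. -/

namespace Pool.Agent.Ctry.AK

variable {M : Type 2} (E : M → M → Prop)

/-- `x` is a point of `[0,1]`: an empty or infinite subset of `ω`, the set of places with digit one
in the non terminating binary expansion -/
def IUnit (w x : M) : Prop :=
  ISub E x w ∧ ((∀ z, ¬ E z x) ∨ ∀ n, E n w → ∃ m, E m x ∧ E n m)

/-- the order of `[0,1]`: the lexicographic order of binary expansions -/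
def ILt (x y : M) : Prop := ∃ n, E n y ∧ ¬ E n x ∧ ∀ m, E m n → (E m x ↔ E m y)

/-- `f` is a point of the cube: a function from `ω₁` to `[0,1]` -/
def IPt (w o f : M) : Prop := IFunc E f ∧ (∀ a, E a o → ∃ x, IApp E f a x ∧ IUnit E w x) ∧
  ∀ z, E z f → ∃ a, E a o ∧ ∃ x u v, IPair E a a u ∧ IPair E a x v ∧ IPair E u v z

/-- `H` is finite -/
def IFin (w H : M) : Prop := ∃ n, E n w ∧ ICtble E n H

/-- `g` is in the neighbourhood of `f` given by the set `H` of pairs (coordinate `a`, real `d`):
`g a` is strictly on the same side of `d` whenever `f a` is -/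
def INear (w H f g : M) : Prop := ∀ a d x y, IApp E H a d → IUnit E w d → IApp E f a x →
  IApp E g a y → (ILt E x d → ILt E y d) ∧ (ILt E d x → ILt E d y)

/-- `X` is a closed subset of the cube -/
def IClosed (w o X : M) : Prop := (∀ f, E f X → IPt E w o f) ∧
  ∀ f, IPt E w o f → (∀ H, IFin E w H → ∃ g, E g X ∧ INear E w H f g) → E f X

/-- `U` is a relatively open subset of `X` -/
def IOpen (w X U : M) : Prop :=
  ISub E U X ∧ ∀ f, E f U → ∃ H, IFin E w H ∧ ∀ g, E g X → INear E w H f g → E g U

/-- every relatively open subset of `X` is the union of a sequence of closed sets -/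
def IPerf (w o X : M) : Prop := ∀ U, IOpen E w X U → ∃ s, IFunc E s ∧
  (∀ n C, E n w → IApp E s n C → IClosed E w o C ∧ ISub E C U) ∧
  ∀ f, E f U → ∃ n C, E n w ∧ IApp E s n C ∧ E f C

/-- `f` and `g` agree below `b` -/
def IAgr (b f g : M) : Prop := ∀ a, E a b → ∀ x, IApp E f a x → IApp E g a x

/-- at most `k` points of `X` agree with `f` below `b` -/
def ISmall (X b k f : M) : Prop :=
  ∃ h, IFunc E h ∧ ∀ g, E g X → IAgr E b f g → ∃ m, E m k ∧ IApp E h m g

/-- for unboundedly many `b < ω₁` only countably many fibres of the projection of `X` to the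
coordinates below `b` have more than `k` points -/
def IFew (w o X k : M) : Prop := ∀ a, E a o → ∃ b, E b o ∧ E a b ∧ ∃ D, ISub E D X ∧
  ICtble E w D ∧ ∀ f, E f X → ¬ ISmall E X b k f → ∃ g, E g D ∧ IAgr E b f g

end Pool.Agent.Ctry.AK
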