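import Pool.Agent.MP_b60a07_lc.AK.Basic
import Mathlib.Order.Zorn

/-! A maximal countably complete filter of closed unbounded sets of sections. -/

open Filter Set

namespace Pool.Agent.Ctry.AK.Flt

variable {P : Type 1} [Preorder P] {D : Dt P} {Φ t : Set (Sg → P → Prop)} {G : Sg → P → Prop}

variable (D) in
/-- the members of `t` have common sections on unboundedly many levels -/
def Com (t : Set (Sg → P → Prop)) : Prop :=
  ∀ p δ₀, ∃ q ≤ p, ∃ σ, δ₀ ≤ σ.δ ∧ Sec D σ q ∧ ∀ F ∈ t, F σ q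

variable (D) in
/-- consistent families of closed sets -/
def Good (Φ : Set (Sg → P → Prop)) : Prop :=
  (∀ F ∈ Φ, Clo D F) ∧ ∀ t ⊆ Φ, t.Finite → Com D t

theorem exists_max (h : Good D Φ) : ∃ M, Φ ⊆ M ∧ Maximal (Good D) M := by
  refine zorn_subset_nonempty {U | Good D U} (fun c h1 h2 h3 => ⟨⋃₀ c, ⟨?_, fun t ht hf => ?_⟩,
    fun s hs => subset_sUnion_of_mem hs⟩) Φ h
  · rintro F ⟨A, k1, k2⟩
    exact (h1 k1).1 F k2
  · obtain ⟨A, k1, k2⟩ : ∃ A ∈ c, t ⊆ A := by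
      induction t, hf using Set.Finite.induction_on with
      | empty => exact h3.imp fun A k => ⟨k, empty_subset _⟩
      | insert _ _ ih =>
        obtain ⟨A, k1, k2⟩ := ih ((subset_insert _ _).trans ht)
        obtain ⟨B, k3, k4⟩ := ht (mem_insert _ _)
        rcases h2.total k1 k3 with j | j
        · exact ⟨B, k3, insert_subset k4 (k2.trans j)⟩
        · exact ⟨A, k1, insert_subset (j k4) k2⟩
    exact (h1 k1).2 t k2 hf

theorem base (h1 : KLStmt) (h3 : CloStmt) (hP : Dist (univ : Set P)) (h0 : GS D) :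
    Good D {F | ∃ Y, (Opn Y ∧ NoP D Y) ∧ F = Rej D Y} := by
  refine ⟨fun F ⟨Y, k1, k2⟩ => k2 ▸ h3 P D h0 Y k1.1, fun t ht hf p δ₀ => ?_⟩
  obtain ⟨Y, k1, k2⟩ : ∃ Y : ℕ → Cand → P → Prop, (∀ n, Opn (Y n) ∧ NoP D (Y n)) ∧
      ∀ F ∈ t, ∃ n, F = Rej D (Y n) := by
    induction t, hf using Set.Finite.induction_on with
    | empty => exact ⟨fun _ _ _ => False, fun _ => ⟨fun _ _ _ _ k => k, fun _ _ _ k => k.elim⟩, by simp⟩
    | insert _ _ ih =>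
      obtain ⟨Y, k1, k2⟩ := ih ((subset_insert _ _).trans ht)
      obtain ⟨Z, k3, k4⟩ := ht (mem_insert _ _)
      exact ⟨fun n => Nat.casesOn n Z Y, fun n => Nat.casesOn n k3 k1, forall_mem_insert.2
        ⟨⟨0, k4⟩, fun F k => let ⟨n, j⟩ := k2 F k; ⟨n + 1, j⟩⟩⟩
  obtain ⟨q, j1, σ, j2, j3, j4⟩ := h1 P hP D h0 Y k1 p δ₀
  exact ⟨q, j1, σ, j2, j3, fun F k => let ⟨n, j⟩ := k2 F k; j ▸ j4 n⟩

theorem Good.ctble (h : Good D Φ) (h2 : LimStmt) (hP : Dist (univ : Set P)) (h0 : GS D)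
    (ht : t ⊆ Φ) (hc : t.Countable) : Com D t := by
  rcases t.eq_empty_or_nonempty with rfl | k
  · exact h.2 _ ht finite_empty
  obtain ⟨G, rfl⟩ := hc.exists_eq_range k
  intro p δ₀
  have hG : ∀ n, Clo D (G n) := fun n => h.1 _ (ht (mem_range_self n))
  have step : ∀ n q (s : Sg), ∃ q' ∈ (univ : Set P), q' ≤ q ∧ ∃ s' : Sg,
      s.δ < s'.δ ∧ Sec D s' q' ∧ ∀ j ≤ n, G j s' q' := fun n q s => by
    obtain ⟨b, hb⟩ := exists_ge_all fun _ : Unit => s.δ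
    obtain ⟨q', j1, s', j2, j3, j4⟩ := h.2 (G '' Iic n) ((image_subset_range _ _).trans ht)
      ((finite_Iic n).image G) q b
    exact ⟨q', trivial, j1, s', (hb ()).trans_le j2, j3, fun j i => j4 _ (mem_image_of_mem G i)⟩
  obtain ⟨q, -, j1, f, j2, j3⟩ := hP.rec
    (fun n q (s s' : Sg) => s.δ < s'.δ ∧ Sec D s' q ∧ ∀ j ≤ n, G j s' q)
    (fun n a s s' a' _ k i => ⟨i.1, i.2.1.mono k, fun j l => (hG j).1 s' a a' k (i.2.2 j l)⟩)
    (mem_univ p) ⟨δ₀, δ₀, fun _ x => x⟩ (fun q _ _ => step 0 q _) fun n q _ _ _ s' _ =>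
      step (n + 1) q s'
  obtain ⟨δ, hδ⟩ := exists_lub fun n => (f (n + 1)).δ
  obtain ⟨r, l1, σ, l2, l3⟩ := h2 P hP D h0 (fun n => f (n + 1)) δ q
    (strictMono_nat_of_lt_succ fun n => (j3 (n + 1)).1) hδ fun n => (j3 n).2.1
  refine ⟨r, l1.trans j1, σ, ?_, l3.sec', forall_mem_range.2 fun j => (hG j).2 r _ σ l3
    (ev_hyp (eventually_atTop.2 ⟨j, fun n i => (hG j).1 _ q r l1 ((j3 n).2.2 j i)⟩))⟩
  have := (j3 0).1
  rw [j2] at this
  exact this.le.trans (l3.lub.1 (mem_range_self 0))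

theorem mem_of (h : Maximal (Good D) Φ) (hG : Clo D G)
    (k : ∀ t ⊆ Φ, t.Finite → Com D (insert G t)) : G ∈ Φ := by
  refine h.2 (y := insert G Φ) ⟨forall_mem_insert.2 ⟨hG, h.1.1⟩, fun t ht hf p δ₀ => ?_⟩
    (subset_insert _ _) (mem_insert _ _)
  obtain ⟨q, j1, σ, j2, j3, j4⟩ := k (t ∩ Φ) inter_subset_right (hf.inter_of_left _) p δ₀
  exact ⟨q, j1, σ, j2, j3, fun F i => j4 F ((ht i).imp_right fun i' => ⟨i, i'⟩)⟩

theorem flt (h1 : KLStmt) (h2 : LimStmt) (h3 : CloStmt) : FltStmt := by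
  intro P _ hP D h0
  obtain ⟨Φ, k1, k2⟩ := exists_max (base h1 h3 hP h0)
  have g := k2.1
  have inter : ∀ t ⊆ Φ, t.Countable → (fun σ q => ∀ F ∈ t, F σ q) ∈ Φ := fun t ht hc => by
    refine mem_of k2 ⟨fun σ p q k j F i => (g.1 F (ht i)).1 σ p q k (j F i), fun p f σ k j F i =>
      (g.1 F (ht i)).2 p f σ k (j.mono fun n l => l F i)⟩ fun s hs hf p δ₀ => ?_
    obtain ⟨q, j1, σ, j2, j3, j4⟩ := g.ctble h2 hP h0 (union_subset ht hs)
      (hc.union hf.countable) p δ₀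
    exact ⟨q, j1, σ, j2, j3, forall_mem_insert.2
      ⟨fun F i => j4 F (Or.inl i), fun F i => j4 F (Or.inr i)⟩⟩
  have tail : ∀ δ₀, (fun (σ : Sg) (_ : P) => δ₀ ≤ σ.δ) ∈ Φ := fun δ₁ => by
    refine mem_of k2 ⟨fun _ _ _ _ j => j, fun p f σ k j => ?_⟩ fun s hs hf p δ₀ => ?_
    · obtain ⟨n, i⟩ := j.exists
      exact i.trans (k.lub.1 (mem_range_self n))
    · obtain ⟨q, j1, σ, j2, j3, j4⟩ := g.2 s hs hf p (Max.max δ₀ δ₁)
      exact ⟨q, j1, σ, le_of_max_le_left j2, j3, forall_mem_insert.2 ⟨le_of_max_le_right j2, j4⟩⟩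
  refine ⟨Φ, g.1, fun F hF => ?_, fun F hF p δ₀ => ?_, tail, fun G hG => ?_,
    fun Y a b => k1 ⟨Y, ⟨a, b⟩, rfl⟩⟩
  · simpa only [forall_mem_range] using inter (range F) (range_subset_iff.2 hF) (countable_range F)
  · obtain ⟨q, j1, σ, j2, j3, j4⟩ := g.2 {F} (singleton_subset_iff.2 hF) (finite_singleton F) p δ₀
    exact ⟨q, j1, σ, j2, j3, j4 F rfl⟩
  · refine (em _).symm.imp_left fun hn => mem_of k2 hG fun t ht hf p δ₀ => by_contra fun z => ?_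
    refine hn ⟨_, inter (insert (fun σ _ => δ₀ ≤ σ.δ) t) (insert_subset (tail δ₀) ht)
      (hf.countable.insert _), p, fun r j1 σ j2 j3 j4 => z ⟨r, j1, σ, j3 _ (mem_insert _ _), j2,
        forall_mem_insert.2 ⟨j4, fun F i => j3 F (mem_insert_of_mem _ i)⟩⟩⟩

end Pool.Agent.Ctry.AK.Flt
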