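import Mathlib.Topology.UnitInterval
import Mathlib.Topology.Bases
import Mathlib.Topology.Compactness.Compact
import Mathlib.Topology.Instances.Real.Lemmas
import Mathlib.Order.Filter.Ultrafilter.Basic
import Pool.Agent.MP_77405c_lc.Spec

/-! The cube `[0,1]^ω₁`, cylinders and basic closed sets. -/

open Filter Set

namespace Pool.Agent.Ctry.AK

/-- the unit interval -/
abbrev Iv : Type := unitInterval

/-- the cube -/
abbrev Cb : Type := Om → Iv

noncomputable instance : Cd Cb := cdSmall Cb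
noncomputable instance : Cd (Set Cb) := cdSmall (Set Cb)

/-- agreement below `β` -/
def Ag (β : Om) (x y : Cb) : Prop := ∀ i < β, x i = y i

/-- truncation -/
noncomputable def cut (β : Om) (x : Cb) : Cb := fun i => if i < β then x i else 0

/-- cylinder -/
def cyl (β : Om) (x : Cb) : Set Cb := {y | Ag β y x}

/-- `K` depends only on the coordinates below `β` -/
def Inv (β : Om) (K : Set Cb) : Prop := ∀ x y, Ag β x y → x ∈ K → y ∈ K

theorem exists_bs : ∃ b : ℕ → Set Iv, (∀ n, IsOpen (b n)) ∧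
    ∀ y U, IsOpen U → y ∈ U → ∃ n, y ∈ b n ∧ b n ⊆ U := by
  obtain ⟨B, h1, -, h2⟩ := TopologicalSpace.exists_countable_basis Iv
  obtain ⟨b, hb⟩ := (h1.insert ∅).exists_eq_range (insert_nonempty _ _)
  refine ⟨b, fun n => ?_, fun y U hU hy => ?_⟩
  · rcases (hb ▸ mem_range_self n : b n ∈ insert ∅ B) with h | h
    · exact h ▸ isOpen_empty
    · exact h2.isOpen h
  · obtain ⟨V, k1, k2, k3⟩ := h2.exists_subset_of_mem_open hy hU
    obtain ⟨n, rfl⟩ : V ∈ range b := hb ▸ mem_insert_of_mem _ k1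
    exact ⟨n, k2, k3⟩

/-- a countable base of the interval -/
noncomputable def bs : ℕ → Set Iv := exists_bs.choose

theorem bs_open (n : ℕ) : IsOpen (bs n) := exists_bs.choose_spec.1 n

theorem bs_base {y : Iv} {U : Set Iv} (h : IsOpen U) (hy : y ∈ U) : ∃ n, y ∈ bs n ∧ bs n ⊆ U :=
  exists_bs.choose_spec.2 y U h hy

/-- the closed set with code `F` -/
def ev (F : List (List (Om × ℕ))) : Set Cb := {x | ∀ A ∈ F, ∃ y ∈ A, x y.1 ∉ bs y.2}

/-- basic closed sets using only coordinates below `β` -/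
def Bas (β : Om) (V : Set Cb) : Prop :=
  ∃ F : List (List (Om × ℕ)), (∀ A ∈ F, ∀ y ∈ A, y.1 < β) ∧ V = ev F

variable {α β γ : Om} {x y z : Cb} {K K' V W : Set Cb}

theorem Ag.refl (β : Om) (x : Cb) : Ag β x x := fun _ _ => rfl
theorem Ag.symm (h : Ag β x y) : Ag β y x := fun i hi => (h i hi).symm
theorem Ag.trans (h : Ag β x y) (h' : Ag β y z) : Ag β x z := fun i hi => (h i hi).trans (h' i hi)
theorem Ag.mono (h : Ag β x y) (h' : α ≤ β) : Ag α x y := fun i hi => h i (hi.trans_le h')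
theorem ag_cut (β : Om) (x : Cb) : Ag β (cut β x) x := fun _ hi => if_pos hi

theorem Ag.cut_eq (h : Ag β x y) : cut β x = cut β y := funext fun i => by
  unfold cut
  split_ifs with hi
  · exact h i hi
  · rfl

theorem ag_of_cut_eq (h : cut β x = cut β y) : Ag β x y :=
  (ag_cut β x).symm.trans (h ▸ ag_cut β y)

theorem cut_cut (h : α ≤ β) (x : Cb) : cut α (cut β x) = cut α x := ((ag_cut β x).mono h).cut_eq

theorem mem_cyl : y ∈ cyl β x ↔ Ag β y x := Iff.rfl
theorem self_mem_cyl (β : Om) (x : Cb) : x ∈ cyl β x := Ag.refl β x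

theorem cyl_sub (h : α ≤ β) (h' : Ag α x y) : cyl β x ⊆ cyl α y := fun _ k => (k.mono h).trans h'

theorem Ag.cyl_eq (h : Ag β x y) : cyl β x = cyl β y :=
  (cyl_sub le_rfl h).antisymm (cyl_sub le_rfl h.symm)

theorem cyl_closed (β : Om) (x : Cb) : IsClosed (cyl β x) := by
  have : cyl β x = ⋂ i ∈ Iio β, {y : Cb | y i = x i} := by ext y; simp [cyl, Ag]
  rw [this]
  exact isClosed_biInter fun i _ => isClosed_eq (continuous_apply i) continuous_const

theorem Inv.mono (h : Inv α K) (h' : α ≤ β) : Inv β K := fun x y k => h x y (k.mono h')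
theorem inv_cyl (β : Om) (x : Cb) : Inv β (cyl β x) := fun _ _ k k' => k.symm.trans k'
theorem Inv.inter (h : Inv β K) (h' : Inv β K') : Inv β (K ∩ K') :=
  fun x y k k' => ⟨h x y k k'.1, h' x y k k'.2⟩
theorem Inv.union (h : Inv β K) (h' : Inv β K') : Inv β (K ∪ K') :=
  fun x y k k' => k'.imp (h x y k) (h' x y k)
theorem Inv.compl (h : Inv β K) : Inv β Kᶜ := fun x y k k' k'' => k' (h y x k.symm k'')
theorem Inv.diff (h : Inv β K) (h' : Inv β K') : Inv β (K \ K') := h.inter h'.compl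
theorem Inv.cyl_subset (h : Inv β K) (hx : x ∈ K) : cyl β x ⊆ K := fun y k => h x y k.symm hx
theorem Inv.cyl_disjoint (h : Inv β K) (hx : x ∉ K) : cyl β x ∩ K = ∅ :=
  eq_empty_of_forall_notMem fun y k => hx (h y x k.1 k.2)

theorem Bas.mono (h : Bas α V) (h' : α ≤ β) : Bas β V :=
  let ⟨F, k1, k2⟩ := h; ⟨F, fun A hA y hy => (k1 A hA y hy).trans_le h', k2⟩

theorem Bas.inv (h : Bas β V) : Inv β V := by
  obtain ⟨F, k1, rfl⟩ := h
  intro x y k hx A hA
  obtain ⟨w, k2, k3⟩ := hx A hA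
  exact ⟨w, k2, k w.1 (k1 A hA w k2) ▸ k3⟩

theorem Bas.closed (h : Bas β V) : IsClosed V := by
  obtain ⟨F, -, rfl⟩ := h
  have : ev F = ⋂ A ∈ {A | A ∈ F}, ⋃ y ∈ {y | y ∈ A}, {x : Cb | x y.1 ∈ (bs y.2)ᶜ} := by
    ext x; simp [ev]
  rw [this]
  exact isClosed_biInter fun A _ => (List.finite_toSet A).isClosed_biUnion fun y _ =>
    (bs_open y.2).isClosed_compl.preimage (continuous_apply y.1)

theorem bas_univ (β : Om) : Bas β univ := ⟨[], by simp, by ext; simp [ev]⟩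
theorem bas_empty (β : Om) : Bas β ∅ := ⟨[[]], by simp, by ext; simp [ev]⟩

theorem bas_sub {i : Om} (h : i < β) (n : ℕ) : Bas β {x | x i ∉ bs n} :=
  ⟨[[(i, n)]], by simpa using h, by ext; simp [ev]⟩

theorem Bas.inter (h : Bas β V) (h' : Bas β W) : Bas β (V ∩ W) := by
  obtain ⟨F, k1, rfl⟩ := h
  obtain ⟨G, k2, rfl⟩ := h'
  refine ⟨F ++ G, fun A hA => (List.mem_append.1 hA).elim (k1 A) (k2 A), ?_⟩
  ext x
  simp only [ev, mem_inter_iff, mem_ofPred_eq, List.forall_mem_append]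

theorem Bas.union (h : Bas β V) (h' : Bas β W) : Bas β (V ∪ W) := by
  obtain ⟨F, k1, rfl⟩ := h
  obtain ⟨G, k2, rfl⟩ := h'
  refine ⟨F.flatMap fun A => G.map (A ++ ·), fun C hC y hy => ?_, ?_⟩
  · obtain ⟨A, hA, hC⟩ := List.mem_flatMap.1 hC
    obtain ⟨B, hB, rfl⟩ := List.mem_map.1 hC
    exact (List.mem_append.1 hy).elim (k1 A hA y) (k2 B hB y)
  · ext x
    simp only [ev, mem_union, mem_ofPred_eq]
    constructor
    · intro h C hC
      obtain ⟨A, hA, hC⟩ := List.mem_flatMap.1 hC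
      obtain ⟨B, hB, rfl⟩ := List.mem_map.1 hC
      rcases h with h | h
      · exact let ⟨y, j1, j2⟩ := h A hA; ⟨y, List.mem_append_left _ j1, j2⟩
      · exact let ⟨y, j1, j2⟩ := h B hB; ⟨y, List.mem_append_right _ j1, j2⟩
    · intro h
      by_contra hn
      push Not at hn
      obtain ⟨⟨A, hA, j1⟩, B, hB, j2⟩ := hn
      obtain ⟨y, j3, j4⟩ := h (A ++ B) (List.mem_flatMap.2 ⟨A, hA, List.mem_map.2 ⟨B, hB, rfl⟩⟩)
      exact j4 ((List.mem_append.1 j3).elim (j1 y) (j2 y))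

theorem bas_biInter {ι : Type*} {s : Set ι} (hs : s.Finite) {f : ι → Set Cb}
    (h : ∀ i ∈ s, Bas β (f i)) : Bas β (⋂ i ∈ s, f i) := by
  induction s, hs using Set.Finite.induction_on with
  | empty => simpa using bas_univ β
  | insert _ _ ih =>
    rw [biInter_insert]
    exact (h _ (mem_insert _ _)).inter (ih fun i hi => h i (mem_insert_of_mem _ hi))

theorem bas_biUnion {ι : Type*} {s : Set ι} (hs : s.Finite) {f : ι → Set Cb}
    (h : ∀ i ∈ s, Bas β (f i)) : Bas β (⋃ i ∈ s, f i) := by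
  induction s, hs using Set.Finite.induction_on with
  | empty => simpa using bas_empty β
  | insert _ _ ih =>
    rw [biUnion_insert]
    exact (h _ (mem_insert _ _)).union (ih fun i hi => h i (mem_insert_of_mem _ hi))

theorem ctble_lists {A : Type*} {s : Set A} (h : s.Countable) :
    {l : List A | ∀ a ∈ l, a ∈ s}.Countable := by
  have := h.to_subtype
  exact (countable_range fun l : List s => l.map Subtype.val).mono fun l hl =>
    mem_range.2 ⟨l.attachWith _ hl, by simp⟩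

theorem ctble_bas (β : Om) : {V | Bas β V}.Countable :=
  ((ctble_lists (ctble_lists ((ctble_Iio β).prod (countable_univ (α := ℕ))))).image ev).mono
    fun _ h => by
      obtain ⟨F, k1, k2⟩ := h
      exact ⟨F, fun A hA y hy => mem_prod.2 ⟨k1 A hA y hy, trivial⟩, k2.symm⟩

/-- a basic set of limit rank has a smaller rank -/
theorem Bas.lim {ρ : ℕ → Om} (hρ : Monotone ρ) (h1 : ∀ i < β, ∃ n, i < ρ n) (h : Bas β V) :
    ∃ n, Bas (ρ n) V := by
  obtain ⟨F, k1, rfl⟩ := h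
  have : ∀ᶠ n in atTop, ∀ y ∈ {y | y ∈ F.flatten}, y.1 < ρ n :=
    (eventually_all_finite (List.finite_toSet _)).2 fun y hy => by
      obtain ⟨A, j1, j2⟩ := List.mem_flatten.1 hy
      obtain ⟨n, hn⟩ := h1 _ (k1 A j1 y j2)
      exact eventually_atTop.2 ⟨n, fun m hm => hn.trans_le (hρ hm)⟩
  obtain ⟨n, hn⟩ := this.exists
  exact ⟨n, F, fun A hA y hy => hn y (List.mem_flatten.2 ⟨A, hA, hy⟩), rfl⟩

/-- separation of a fibre from a closed set -/
theorem sep (hK : IsClosed K) (h : Disjoint (cyl β x) K) : ∃ O B, Bas β O ∧ Bas β B ∧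
    O ∪ B = univ ∧ x ∉ B ∧ Disjoint O K := by
  have h1 : ∀ w : K, ∃ i < β, ∃ m n, w.1 i ∈ bs m ∧ x i ∈ bs n ∧ Disjoint (bs m) (bs n) := by
    intro w
    obtain ⟨i, hi, k⟩ : ∃ i < β, w.1 i ≠ x i := by
      by_contra hn
      push Not at hn
      exact disjoint_left.1 h hn w.2
    obtain ⟨U, U', j1, j2, j3, j4, j5⟩ := t2_separation k
    obtain ⟨m, j6, j7⟩ := bs_base j1 j3
    obtain ⟨n, j8, j9⟩ := bs_base j2 j4
    exact ⟨i, hi, m, n, j6, j8, j5.mono j7 j9⟩
  choose i hi m n h2 h3 h4 using h1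
  obtain ⟨t, ht⟩ := hK.isCompact.elim_finite_subcover (fun w : K => {v : Cb | v (i w) ∈ bs (m w)})
    (fun w => (bs_open (m w)).preimage (continuous_apply (i w))) fun w hw => mem_iUnion.2 ⟨⟨w, hw⟩, h2 _⟩
  refine ⟨⋂ w ∈ (t : Set K), {v | v (i w) ∉ bs (m w)}, ⋃ w ∈ (t : Set K), {v | v (i w) ∉ bs (n w)},
    bas_biInter t.finite_toSet fun w _ => bas_sub (hi w) _,
    bas_biUnion t.finite_toSet fun w _ => bas_sub (hi w) _, eq_univ_of_forall fun v => ?_,
    fun k => ?_, disjoint_left.2 fun v k k' => ?_⟩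
  · by_contra hn
    simp only [mem_union, mem_iInter, mem_iUnion, mem_ofPred_eq, not_or, not_forall, not_not,
      not_exists] at hn
    obtain ⟨⟨w, j1, j2⟩, j3⟩ := hn
    exact disjoint_left.1 (h4 w) j2 (j3 w j1)
  · simp only [mem_iUnion, mem_ofPred_eq] at k
    obtain ⟨w, -, k⟩ := k
    exact k (h3 w)
  · obtain ⟨w, j1, j2⟩ := mem_iUnion₂.1 (ht k')
    exact mem_iInter₂.1 k w j1 j2

/-- a basic set containing a closed set and missing a point -/
theorem sep' (hK : IsClosed K) (h : Disjoint (cyl β x) K) : ∃ B, Bas β B ∧ K ⊆ B ∧ x ∉ B := by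
  obtain ⟨O, B, -, k1, k2, k3, k4⟩ := sep hK h
  exact ⟨B, k1, fun v hv => (k2 ▸ mem_univ v : v ∈ O ∪ B).resolve_left
    fun k => disjoint_left.1 k4 k hv, k3⟩

theorem prime (h : ¬ Ag β x y) : ∃ V W, Bas β V ∧ Bas β W ∧ V ∪ W = univ ∧ x ∉ V ∧ y ∉ W := by
  obtain ⟨O, B, k1, k2, k3, k4, k5⟩ := sep (x := x) (β := β) (cyl_closed β y)
    (disjoint_left.2 fun v j1 j2 => h (Ag.trans (Ag.symm j1) j2))
  exact ⟨B, O, k2, k1, union_comm _ _ ▸ k3, k4, fun k => disjoint_left.1 k5 k (self_mem_cyl β y)⟩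

theorem exists_ge_all {ι : Type*} [Countable ι] (f : ι → Om) : ∃ β, ∀ i, f i < β :=
  let ⟨b, h⟩ := exists_bound (countable_range f); ⟨b, fun i => h _ (mem_range_self i)⟩

theorem exists_lub (f : ℕ → Om) : ∃ δ, IsLUB (range f) δ := by
  obtain ⟨b, hb⟩ := exists_ge_all f
  have h : (upperBounds (range f)).Nonempty := ⟨b, forall_mem_range.2 fun n => (hb n).le⟩
  exact ⟨_, wellFounded_lt.min_mem _ h, fun c hc => not_lt.1 (wellFounded_lt.not_lt_min _ hc)⟩

theorem lt_of_lub {f : ℕ → Om} {δ : Om} (hf : StrictMono f) (h : IsLUB (range f) δ) (n : ℕ) :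
    f n < δ := (hf n.lt_succ_self).trans_le (h.1 (mem_range_self _))

theorem exists_of_lub {f : ℕ → Om} {δ i : Om} (h : IsLUB (range f) δ) (hi : i < δ) :
    ∃ n, i < f n := by
  by_contra hn
  push Not at hn
  exact hi.not_ge (h.2 (forall_mem_range.2 hn))

/-- the basic sets in a model -/
theorem ev_bas : ∀ᶠ M in club, ∀ V : Set Cb, (Bas (del M) V → cd V ∈ M) ∧
    ((∃ β, Bas β V) → cd V ∈ M → Bas (del M) V) := by
  filter_upwards [ev_mod0, ev_del, ev_ctble fun n : ℕ => ev_const n, ev_fun ev,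
    ev_el fun (V : Set Cb) (F : List (List (Om × ℕ))) => V = ev F] with M h0 h1 h2 h3 h4 V
  refine ⟨fun ⟨F, k1, k2⟩ => k2 ▸ h3 F (h0.list.2 fun A hA => h0.list.2 fun y hy =>
    h0.prod.2 ⟨(h1 _).2 (k1 A hA y hy), h2 _⟩), fun ⟨_, F, _, k⟩ k' => ?_⟩
  obtain ⟨G, j1, j2⟩ := h4 V k' ⟨F, k⟩
  exact ⟨G, fun A hA y hy => (h1 _).1 (h0.prod.1 (h0.list.1 (h0.list.1 j1 A hA) y hy)).1, j2⟩

end Pool.Agent.Ctry.AK
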