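import Pool.Agent.MP_b60a07_lc.AK.Names

/-! Row HL of PROJECT AK: perfect normality gives the hereditary Lindeloef property. -/

open Filter Set

namespace Pool.Agent.Ctry.AK.Hl

open Fc Fc.Fml Fc.Link1

variable {X : Type 1} [Preorder X] [OrderTop X] (code : Iv → ℕ → Prop)
  (O : Om → Set Cb → X → Prop)

/-- `r` forces that `f` lies outside a closed set with label `ξ` -/
def InL (f : Nm X) (ξ : Om) (r : X) : Prop :=
  ∃ B β s, O ξ B r ∧ Bas β B ∧ val code f β s r ∧ s ∉ B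

/-- the union of the open sets of the family, inside `C` -/
def UN (C : Nm X) : Nm X :=
  .mk {z : nI C × X // z.2 ≤ nc C z.1 ∧ ∃ ξ, InL code O (nA C z.1) ξ z.2} (fun z => nA C z.1.1)
    fun z => z.1.2

variable {code O} {f g C : Nm X} {ξ : Om} {p q r : X}

theorem InL.mono (hO : ∀ ξ, Opn (O ξ)) (h : InL code O f ξ p) (k : q ≤ p) : InL code O f ξ q :=
  let ⟨B, β, s, j1, j2, j3, j4⟩ := h
  ⟨B, β, s, hO ξ B p q k j1, j2, j3.mono k, j4⟩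

theorem InL.congr (h : InL code O f ξ p) (k : fE f g p) : InL code O g ξ p :=
  let ⟨B, β, s, j1, j2, j3, j4⟩ := h
  ⟨B, β, s, j1, j2, j3.congr k, j4⟩

theorem mem_UN (hO : ∀ ξ, Opn (O ξ)) : fM f (UN code O C) r ↔
    ∀ t ≤ r, ∃ u ≤ t, fM f C u ∧ ∃ ξ, InL code O f ξ u := by
  constructor
  · intro h t ht
    obtain ⟨u, j1, ⟨⟨i, v⟩, j2, ξ, j3⟩, j4, j5⟩ := fMem_mk_iff.1 h t ht
    have j6 : u ≤ v := j4
    exact ⟨u, j1, fM.left (mem_self C i (j6.trans j2)) j5, ξ, (j3.mono hO j6).congr j5⟩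
  · intro h
    refine fMem_mk_iff.2 fun t ht => ?_
    obtain ⟨u, j1, j2, ξ, j3⟩ := h t ht
    obtain ⟨v, j4, i, j5, j6⟩ := mem_iff.1 j2 u le_rfl
    have j7 : v ≤ u := j4
    exact ⟨v, j7.trans j1, ⟨(i, v), j5, ξ, (j3.mono hO j7).congr (fE.symm j6)⟩, le_rfl, j6⟩

theorem open_UN (h1 : NbStmt) (h2 : ValStmt) (h3 : NearStmt) (hD : Dist (univ : Set X))
    (hc : Cod code) (hO : ∀ ξ, Opn (O ξ)) (hC : Fo (closedF om oN C) p) :
    Fo (openF om C (UN code O C)) p := by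
  refine ⟨forces_sub.2 fun z t _ hz => fMem_dense fun t' ht' => ?_,
    forces_allIn.2 fun f t ht hf => forces_ex.2 fun t' ht' => ?_⟩
  · exact let ⟨u, j1, j2, _⟩ := (mem_UN hO).1 hz t' ht'; ⟨u, j1, j2⟩
  · obtain ⟨u, j1, -, ξ, B, β, s, j2, j3, j4, j5⟩ := (mem_UN hO).1 hf t' ht'
    obtain ⟨l, l1, l2⟩ := h1.2 Bᶜ s β j3.closed.isOpen_compl j3.inv.compl j5
    obtain ⟨H, H1, H2⟩ := (h3 X hD code hc).2 l
    refine ⟨u, j1, H, H1 u, forces_allIn.2 fun g v hv hg => forces_imp.2 fun v' hv' hn =>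
      (mem_UN hO).2 fun v₂ i2 => ?_⟩
    have i3 : v₂ ≤ v := le_trans i2 hv'
    have i4 : v₂ ≤ u := le_trans i3 hv
    have i5 : v₂ ≤ p := i4.trans (j1.trans (le_trans ht' ht))
    obtain ⟨v₃, i6, s', i7⟩ := h2 X hD code hc g v₂ (pt_of_closed hC i5 (fM.mono hg i3)) β
    exact ⟨v₃, i6, fM.mono hg (i6.trans i3), ξ, B, β, s', hO ξ B u v₃ (i6.trans i4) j2, j3, i7,
      l2 (H2 v₃ f g β s s' l1 (j4.mono (i6.trans i4)) i7 (Fo.mono hn (i6.trans i2)))⟩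

/-- a closed set covered by the family is covered by countably many members -/
theorem cpt (h2 : ValStmt) (h4 : RpStmt) (h5 : ThrStmt) (hD : Dist (univ : Set X))
    (hc : Cod code) (hO : ∀ ξ, Opn (O ξ)) (hB : ∀ ξ B r, O ξ B r → ∃ β, Bas β B)
    (hC : Fo (closedF om oN C) p)
    (h : ∀ f, ∀ t ≤ p, fM f C t → ∃ u ≤ t, ∃ ξ, InL code O f ξ u) :
    ∃ q ≤ p, ∃ α, ∀ t ≤ q, ∀ f, fM f C t → ∃ u ≤ t, ∃ ξ < α, InL code O f ξ u := by
  obtain ⟨Lv, hR⟩ := h4 X hD code hc C p hC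
  by_cases hF : Fip Lv (fun (l : List (Unit × Set Cb)) r => ∃ ξ B, O ξ B r ∧ l = [((), B)]) p
  · exfalso
    obtain ⟨pt, -, o2, o3, o4⟩ := h5 X hD Lv p hR.s0 Unit _
      (fun l a b k ⟨ξ, B, j1, j2⟩ => ⟨ξ, B, hO ξ B a b k j1, j2⟩)
      (fun l a ⟨ξ, B, j1, j2⟩ y hy => by
        rw [j2, List.mem_singleton] at hy
        exact hy ▸ hB ξ B a j1) hF
    obtain ⟨f, f1, f2⟩ := hR.thr p le_rfl _ (o3 ())
    obtain ⟨u, j1, ξ, B, β, s, j2, j3, j4, j5⟩ := h f p le_rfl f1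
    obtain ⟨v, j6, x, j7⟩ := o2 u j1 β
    obtain ⟨y, j8, j9⟩ := o4 v (j6.trans j1) β x [((), B)] ⟨ξ, B, hO ξ B u v j6 j2, rfl⟩
      (fun y hy => by rw [List.mem_singleton] at hy; exact hy ▸ j3) j7
    rw [List.mem_singleton] at j8
    subst j8
    exact j5 (j3.inv _ _ (val.uniq hc (pt_of_closed hC (j6.trans j1) (f1.mono (j6.trans j1))).1
      (f2 v (j6.trans j1) β (x ()) ⟨x, j7, rfl⟩) (j4.mono j6)) j9)
  · simp only [Fip, not_forall] at hF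
    obtain ⟨q, j1, ls, j2, β₀, j3⟩ := hF
    have : Finite {l // l ∈ ls} := (List.finite_toSet ls).to_subtype
    choose ξ B k1 k2 using fun l : {l // l ∈ ls} => j2 l.1 l.2
    choose ρ k3 using fun l => hB _ _ _ (k1 l)
    obtain ⟨α, k4⟩ := exists_ge_all ξ
    obtain ⟨ρ₀, k5⟩ := exists_ge_all ρ
    refine ⟨q, j1, α, fun t ht f hf => ?_⟩
    obtain ⟨u, i1, s, i2⟩ := h2 X hD code hc f t (pt_of_closed hC (ht.trans j1) hf) (max β₀ ρ₀)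
    obtain ⟨v, i3, L, i4⟩ := hR.s0.dns u (i1.trans (ht.trans j1)) (max β₀ ρ₀)
    have i5 : v ≤ q := i3.trans (i1.trans ht)
    have i6 : s ∈ L := hR.mem v (i5.trans j1) _ L f s i4 (hf.mono (i3.trans i1)) (i2.mono i3)
    by_contra hn
    refine j3 ⟨v, i5, _, L, le_max_left β₀ ρ₀, i4, fun _ => s, fun _ => i6, fun l hl => ?_⟩
    refine ⟨((), B ⟨l, hl⟩), (congrArg (((), B ⟨l, hl⟩) ∈ ·) (k2 ⟨l, hl⟩)).mpr List.mem_cons_self, ?_⟩
    by_contra hs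
    exact hn ⟨v, i3.trans i1, ξ ⟨l, hl⟩, k4 _, B ⟨l, hl⟩, _, s, hO _ _ q v i5 (k1 _),
      (k3 _).mono ((k5 _).le.trans (le_max_right β₀ ρ₀)), i2.mono i3, hs⟩

theorem hl (h1 : NbStmt) (h2 : ValStmt) (h3 : NearStmt) (h4 : RpStmt) (h5 : ThrStmt)
    (h6 : ThruStmt) : HLStmt := by
  intro X _ _ hD code hc C p Lv hC hP hR q hq O hO hB
  obtain ⟨q₁, k1, s, s1, s2, s3⟩ := forces_ex.1 (forces_imp.1 (hP (UN code O C)) q hq
    (open_UN h1 h2 h3 hD hc hO (hC.mono hq))) q le_rfl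
  have k1' : q₁ ≤ q := k1
  obtain ⟨r, -, k2, k3⟩ := hD q₁ trivial (fun n t => ∃ α, ∀ t' ≤ t, ∀ C' f,
      Fo (app s (nn n) C') t' → fM f C' t' → ∃ u ≤ t', ∃ ξ < α, InL code O f ξ u)
    (fun n t t' _ k ⟨α, h⟩ => ⟨α, fun u hu => h u (hu.trans k)⟩) fun n t _ ht => by
      by_cases hn : ∃ t₁ ≤ t, ∃ C', Fo (app s (nn n) C') t₁
      · obtain ⟨t₁, j1, C₀, j2⟩ := hn
        obtain ⟨j3, j4⟩ := forces_imp.1 (forces_imp.1 (s2 (nn n) C₀) t₁ (j1.trans ht)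
          (nn_mem_om n)) t₁ le_rfl j2
        obtain ⟨t₂, j5, α, j6⟩ := cpt h2 h4 h5 hD hc hO hB j3 fun f u hu hf =>
          let ⟨v, i1, _, i2⟩ := (mem_UN hO).1 (forces_sub.1 j4 f u hu hf) u le_rfl
          ⟨v, i1, i2⟩
        exact ⟨t₂, trivial, j5.trans j1, α, fun u hu C' f i1 i2 => j6 u hu f (i2.right
          (func_eq (Fo.mono s1 (hu.trans (j5.trans (j1.trans ht)))) i1 (j2.mono (hu.trans j5))))⟩
      · exact ⟨t, trivial, le_rfl, ⊥, fun u hu C' f i1 _ => absurd ⟨u, hu, C', i1⟩ hn⟩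
  choose a ha using k3
  obtain ⟨α, hα⟩ := exists_ge_all a
  refine ⟨r, k2.trans k1', α, fun r' e0 ξ B β w m1 m2 => ?_⟩
  have p0 : r' ≤ p := e0.trans (k2.trans (k1'.trans hq))
  obtain ⟨ρ, m3⟩ := hB ξ B r' m1
  obtain ⟨r₁, e1, L, m4⟩ := hR.s0.dns r' p0 (max β ρ)
  have p1 : r₁ ≤ p := e1.trans p0
  obtain ⟨v, m5, m6⟩ := ((hR.s0.mono p1).mt_iff (((inv_cyl β w).mono (le_max_left β ρ)).diff
    (m3.inv.mono (le_max_right β ρ))) m4).1 (m2.mono e1)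
  obtain ⟨r₂, e2, g, m7, m8⟩ := (hR.mono p1).real h6 hD m4 m6
  have m9 : fM g (UN code O C) r₂ := (mem_UN hO).2 fun t ht => ⟨t, le_rfl, m7.mono ht, ξ, B, _, v,
    hO ξ B r' t (ht.trans (e2.trans e1)) m1, m3.mono (le_max_right β ρ), m8.mono ht, m5.2⟩
  obtain ⟨r₃, e3, n', n1⟩ := forces_ex.1 (forces_allIn.1 s3 g r₂
    (e2.trans (e1.trans (e0.trans k2))) m9) r₂ le_rfl
  obtain ⟨r₄, e4, C', n2, n3, n4⟩ := forces_ex.1 n1 r₃ le_rfl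
  obtain ⟨r₅, e5, n, n5⟩ := mem_om n2
  have e6 : r₅ ≤ r₂ := e5.trans (le_trans e4 e3)
  obtain ⟨r₆, e7, ξ', n6, B', β', s', n7, n8, n9, n10⟩ := ha n r₅
    (e6.trans (e2.trans (e1.trans e0))) C' g
    (app_congr (Fo.mono n3 e5) fE.rfl n5.symm fE.rfl) (fM.mono n4 e5)
  have e8 : r₆ ≤ r₂ := e7.trans e6
  have p6 : r₆ ≤ p := e8.trans (e2.trans p1)
  obtain ⟨r₇, e9, y, n11⟩ := h2 X hD code hc g r₆ (pt_of_closed hC p6 (m7.mono e8))
    (max (max β ρ) β')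
  obtain ⟨r₈, e10, L', n12⟩ := hR.s0.dns r₇ (e9.trans p6) (max (max β ρ) β')
  have e11 : r₈ ≤ r₆ := e10.trans e9
  have p8 : r₈ ≤ p := e11.trans p6
  have n13 := n11.mono e10
  have n14 : Fo (func g) r₈ := (pt_of_closed hC p8 (m7.mono (e11.trans e8))).1
  have n15 : Ag (max β ρ) y v :=
    val.uniq hc n14 (n13.down (le_max_left _ _)) (m8.mono (e11.trans e8))
  have n16 : Ag β' y s' := val.uniq hc n14 (n13.down (le_max_right _ _)) (n9.mono e11)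
  refine ⟨r₈, e11.trans (e8.trans (e2.trans e1)), ξ', n6.trans (hα n), B',
    hO ξ' B' r₆ r₈ e11 n7, ((hR.s0.mono p8).mt_iff (((inv_cyl β w).mono
      ((le_max_left β ρ).trans (le_max_left _ _))).diff (n8.inv.mono (le_max_right _ _))) n12).2
      ⟨y, ⟨(n15.mono (le_max_left β ρ)).trans m5.1, fun k => n10 (n8.inv _ _ n16 k)⟩,
        hR.mem r₈ p8 _ L' g y n12 (m7.mono (e11.trans e8)) n13⟩⟩

end Pool.Agent.Ctry.AK.Hl
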