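import Pool.Agent.MP_b60a07_lc.AK.Geo

/-! Definitions and module statements of PROJECT AK (name free part). -/

open Filter Set

namespace Pool.Agent.Ctry.AK

/-! ### names for closed subsets of the cube -/

section Sys

variable {P : Type 1} [Preorder P] (Lv : Om → Set Cb → P → Prop)

/-- `Lv β L q`: `q` forces that `L` is the set of points agreeing below `β` with a point of `X` -/
structure Sy0 (p : P) : Prop where
  opn : ∀ β, Opn (Lv β)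
  dns : ∀ q ≤ p, ∀ β, ∃ r ≤ q, ∃ L, Lv β L r
  cl : ∀ q ≤ p, ∀ β L, Lv β L q → IsClosed L ∧ Inv β L
  coh : ∀ q ≤ p, ∀ α β L L', α ≤ β → Lv α L q → Lv β L' q →
    L' ⊆ L ∧ ∀ w ∈ L, ∃ w' ∈ L', Ag α w' w

/-- `p` forces that `K` misses `X` -/
def Mis (K : Set Cb) (p : P) : Prop :=
  ∃ β₀, ∀ q ≤ p, ∀ β, β₀ ≤ β → ∀ L, Lv β L q → Disjoint K L

/-- `p` forces that `K` meets `X` -/
def Mt (K : Set Cb) (p : P) : Prop := ∀ q ≤ p, ¬ Mis Lv K q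

/-- `p` forces that exactly one point of `X` agrees with `s` below `γ` -/
def Term (γ : Om) (s : Cb) (p : P) : Prop := Mt Lv (cyl γ s) p ∧
  ∀ q ≤ p, ∀ β L, Lv β L q → ∀ w ∈ L, ∀ w' ∈ L, Ag γ w s → Ag γ w' s → Ag β w w'

/-- `p` forces that the points of `X` agreeing with `s` below `γ` lie in `V` -/
def InP (γ : Om) (s : Cb) (V : Set Cb) (p : P) : Prop := Mis Lv (cyl γ s \ V) p

/-- `p` forces that more than `n` points of `X` agree with `s` below `α` -/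
def BigF (n : ℕ) (α : Om) (s : Cb) (p : P) : Prop := ∃ β L, α ≤ β ∧ Lv β L p ∧
  ∃ w : Fin (n + 1) → Cb, (∀ i, w i ∈ L ∧ Ag α (w i) s) ∧ ∀ i j, i ≠ j → ¬ Ag β (w i) (w j)

/-- a name for a point of `X` -/
structure Thr (pt : Om → Cb → P → Prop) (p : P) : Prop where
  opn : ∀ β, Opn (pt β)
  dns : ∀ q ≤ p, ∀ β, ∃ r ≤ q, ∃ s, pt β s r
  coh : ∀ q ≤ p, ∀ α β s s', α ≤ β → pt α s q → pt β s' q → Ag α s s'
  mem : ∀ q ≤ p, ∀ β s L, pt β s q → Lv β L q → s ∈ L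

/-- first countability -/
def FC (p : P) : Prop := ∀ q ≤ p, ∀ pt, Thr Lv pt q → ∃ r ≤ q, ∃ γ s, pt γ s r ∧ Term Lv γ s r

/-- every family of basic open sets (complements of the `B` with `O ξ B`) has a countable
subfamily (labels below `α`) with the same union -/
def HL (p : P) : Prop := ∀ q ≤ p, ∀ O : Om → Set Cb → P → Prop, (∀ ξ, Opn (O ξ)) →
  (∀ ξ B r, O ξ B r → ∃ β, Bas β B) → ∃ r ≤ q, ∃ α, ∀ r' ≤ r, ∀ ξ B β w, O ξ B r' →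
    Mt Lv (cyl β w \ B) r' → ∃ r'' ≤ r', ∃ ξ' < α, ∃ B', O ξ' B' r'' ∧ Mt Lv (cyl β w \ B') r''

/-- on unboundedly many levels only countably many fibres have more than `n` points -/
def Few (n : ℕ) (p : P) : Prop := ∀ q ≤ p, ∀ α, ∃ r ≤ q, ∃ β, α ≤ β ∧ ∃ W : Set Cb, W.Countable ∧
  ∀ r' ≤ r, ∀ s, BigF Lv n β s r' → cut β s ∈ W

/-- on every level some fibre has more than `n` points -/
def Many (n : ℕ) (p : P) : Prop := ∀ q ≤ p, ∀ α, ∃ r ≤ q, ∃ s, BigF Lv n α s r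

/-- the tuple `x` satisfies the clause `l` -/
def Cls {J : Type} (x : J → Cb) (l : List (J × Set Cb)) : Prop := ∃ y ∈ l, x y.1 ∈ y.2

/-- finitely many clauses of `𝒞` are satisfied by a tuple of points of `X` -/
def Fip {J : Type} (𝒞 : List (J × Set Cb) → P → Prop) (p : P) : Prop :=
  ∀ q ≤ p, ∀ ls : List (List (J × Set Cb)), (∀ l ∈ ls, 𝒞 l q) → ∀ β₀, ∃ r ≤ q, ∃ β L, β₀ ≤ β ∧
    Lv β L r ∧ ∃ x : J → Cb, (∀ j, x j ∈ L) ∧ ∀ l ∈ ls, Cls x l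

end Sys

/-- a space and a tree of nodes -/
structure Dt (P : Type 1) where
  Lv : Om → Set Cb → P → Prop
  T : Om → Cb → P → Prop

/-- a pair of sections over the level `δ` of the tree; the points are determined below `γ` -/
structure Sg : Type where
  δ : Om
  γ : Om
  x : Bool → Cb → Cb

noncomputable instance : Cd Sg := cdSmall Sg
noncomputable instance : Cd (ℕ → Sg) := cdSmall _

/-- a node (level, point) and a closed set -/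
abbrev Lf : Type := Om × Cb × Set Cb

/-- candidates -/
abbrev Cand : Type := List Lf

/-- the fibre of the node of a leaf -/
abbrev cy (e : Lf) : Set Cb := cyl e.1 e.2.1

/-- preconditions: a bound for the labels, labelled closed sets, codes of promises -/
structure Pk : Type 1 where
  α : Om
  R : Set (Om × Set Cb)
  G : U

noncomputable instance : Cd (Set (Om × Set Cb)) := cdSmall _

noncomputable instance : Cd Pk := ⟨fun c => cd (c.α, c.R, c.G), fun c c' h => by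
  cases c; cases c'; simpa using Cd.inj h⟩

instance : Preorder Pk where
  le c' c := c.α ≤ c'.α ∧ c.R ⊆ c'.R ∧ (∀ y ∈ c'.R, y.1 < c.α → y ∈ c.R) ∧ c.G ⊆ c'.G
  le_refl _ := ⟨le_rfl, subset_rfl, fun _ h _ => h, fun _ h => h⟩
  le_trans _ _ _ h h' := ⟨h'.1.trans h.1, h'.2.1.trans h.2.1,
    fun x k k' => h'.2.2.1 x (h.2.2.1 x k (k'.trans_le h'.1)) k', fun _ k => h.2.2.2 (h'.2.2.2 k)⟩

/-- the trivial precondition -/
noncomputable def top : Pk := ⟨⊥, ∅, ∅⟩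

theorem le_top' (c : Pk) : c ≤ top :=
  ⟨bot_le, empty_subset _, fun _ _ h => absurd h not_lt_bot, ZFSet.empty_subset _⟩

section Step

variable {P : Type 1} [Preorder P] (D : Dt P) (Φ : Set (Sg → P → Prop))

/-- the hypotheses on the space and the tree below `p` -/
structure Sys (p : P) : Prop where
  s0 : Sy0 D.Lv p
  fc : FC D.Lv p
  opn : ∀ β, Opn (D.T β)
  dc : ∀ q ≤ p, ∀ α β t, α ≤ β → D.T β t q → D.T α (cut α t) q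
  unb : ∀ q ≤ p, ∀ β, ∃ r ≤ q, ∃ t, D.T β t r
  ctb : ∀ q ≤ p, ∀ β, ∃ r ≤ q, ∃ W : Set Cb, W.Countable ∧ ∀ r' ≤ r, ∀ t, D.T β t r' → t ∈ W
  big : ∀ q ≤ p, ∀ β t, D.T β t q → BigF D.Lv 2 β t q

/-- the hypotheses hold everywhere -/
def GS : Prop := ∀ p, Sys D p

/-- the nodes are in the tree and the closed sets are basic -/
def Cnd (z : Cand) (p : P) : Prop := ∀ e ∈ z, D.T e.1 e.2.1 p ∧ ∃ β, Bas β e.2.2

/-- `σ` is a pair of sections -/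
def Sec (σ : Sg) (p : P) : Prop := σ.δ ≤ σ.γ ∧
  ∀ q ≤ p, ∀ t, D.T σ.δ t q → ∀ i, Term D.Lv σ.γ (σ.x i t) q ∧ Ag σ.δ (σ.x i t) t

/-- `σ` accepts `z` -/
def Acc (σ : Sg) (z : Cand) (p : P) : Prop := ∀ e ∈ z, σ.δ ≤ e.1 ∧
  ∀ e' ∈ z, ∀ i, Mis D.Lv (cyl σ.γ (σ.x i (cut σ.δ e.2.1)) ∩ e'.2.2) p

/-- mutually compatible candidates -/
def Cpt (z z' : Cand) (p : P) : Prop :=
  ∀ e ∈ z, ∀ e' ∈ z', Mis D.Lv (cy e ∩ e'.2.2) p ∧ Mis D.Lv (cy e' ∩ e.2.2) p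

/-- `z'` refines `z` -/
def Ref (z' z : Cand) (p : P) : Prop := List.Forall₂
  (fun e' e : Lf => e.1 ≤ e'.1 ∧ Ag e.1 e'.2.1 e.2.1 ∧ Mis D.Lv (e'.2.2 \ e.2.2) p) z' z

/-- `σ` accepts a member of `Y` -/
def Hit (Y : Cand → P → Prop) (σ : Sg) (p : P) : Prop := ∃ z, Y z p ∧ Cnd D z p ∧ Acc D σ z p

/-- `σ` accepts no member of `Y` -/
def Rej (Y : Cand → P → Prop) (σ : Sg) (p : P) : Prop := ∀ q ≤ p, ¬ Hit D Y σ q

/-- `σ` is the limit of the increasing sequence `f` along the fixed ultrafilter -/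
structure Lim (f : ℕ → Sg) (σ : Sg) (p : P) : Prop where
  mono : StrictMono fun n => (f n).δ
  lub : IsLUB (range fun n => (f n).δ) σ.δ
  sec : ∀ n, Sec D (f n) p
  sec' : Sec D σ p
  lim : ∀ q ≤ p, ∀ t, D.T σ.δ t q → ∀ i β V, Bas β V →
    (∀ᶠ n in hyperfilter ℕ, InP D.Lv (f n).γ ((f n).x i (cut (f n).δ t)) V q) →
      InP D.Lv σ.γ (σ.x i t) V q

/-- closed sets of sections -/
def Clo (F : Sg → P → Prop) : Prop :=
  Opn F ∧ ∀ p f σ, Lim D f σ p → (∀ᶠ n in hyperfilter ℕ, F (f n) p) → F σ p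

/-- no compatible pair -/
def NoP (Y : Cand → P → Prop) : Prop :=
  ∀ q z z', Y z q → Y z' q → Cnd D z q → Cnd D z' q → ¬ Cpt D z z' q

/-- a maximal countably complete filter of closed unbounded sets of sections -/
structure Flt : Prop where
  clo : ∀ F ∈ Φ, Clo D F
  inter : ∀ F : ℕ → Sg → P → Prop, (∀ n, F n ∈ Φ) → (fun σ q => ∀ n, F n σ q) ∈ Φ
  unb : ∀ F ∈ Φ, ∀ p δ₀, ∃ q ≤ p, ∃ σ, δ₀ ≤ σ.δ ∧ Sec D σ q ∧ F σ q
  tail : ∀ δ₀, (fun σ _ => δ₀ ≤ σ.δ) ∈ Φ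
  max : ∀ G, Clo D G → G ∈ Φ ∨ ∃ F ∈ Φ, ∃ q, ∀ r ≤ q, ∀ σ, Sec D σ r → F σ r → ¬ G σ r
  kl : ∀ Y, Opn Y → NoP D Y → Rej D Y ∈ Φ

/-- `p` forces that `A` contains a member of the filter -/
def Big (A : Sg → P → Prop) (p : P) : Prop :=
  ∃ F ∈ Φ, ∀ q ≤ p, ∀ σ, Sec D σ q → F σ q → ∃ r ≤ q, A σ r

/-- the members of `S` that refine `z` are a positive set -/
def Zone (S : Cand → P → Prop) (z : Cand) (p : P) : Prop :=
  Big D Φ (Hit D fun z' r => S z' r ∧ Ref D z' z r) p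

/-- the fibres of `z` avoid the closed sets of `c` -/
def Av (z : Cand) (c : Pk) (p : P) : Prop := ∀ e ∈ z, ∀ y ∈ c.R, Mis D.Lv (cy e ∩ y.2) p

/-- the reservoir -/
def Res (z : Cand) (p : P) : Prop := ∃ β t V B, z = [(β, t, V)] ∧ (∃ γ, Bas γ B) ∧
  V ∪ B = univ ∧ Mt D.Lv (cyl β t \ B) p

variable [Cd P]

variable (P) in
/-- `g` consists of codes of pairs (candidate, condition) -/
def Can (g : U) : Prop := ∀ y ∈ g, ∃ z : Cand × P, cd z = y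

/-- `c` is a condition whose promises have zones compatible with `z` -/
structure Adm (p : P) (c : Pk) (z : Cand) : Prop where
  ctR : c.R.Countable
  lab : ∀ y ∈ c.R, y.1 < c.α ∧ ∃ β, Bas β y.2
  ctG : (c.G : Set U).Countable
  can : ∀ g ∈ c.G, Can P g ∧ Opn (nm g : Cand → P → Prop)
  av : Av D z c p
  asg : ∃ ζ : U → Cand, (∀ g ∈ c.G, Cnd D (ζ g) p ∧ Zone D Φ (nm g) (ζ g) p ∧ Av D (ζ g) c p ∧
    Cpt D z (ζ g) p) ∧ ∀ g ∈ c.G, ∀ g' ∈ c.G, g ≠ g' → Cpt D (ζ g) (ζ g') p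

/-- `p` forces that `c` is a condition -/
def Val (p : P) (c : Pk) : Prop := Adm D Φ p c []

/-- dense sets of pairs -/
def Den (u : U) : Prop :=
  ∀ p c, Val D Φ p c → ∃ p' ≤ p, ∃ c' ≤ c, Val D Φ p' c' ∧ cd (p', c') ∈ u

end Step

/-- the conditions of the stage that forces the continuum hypothesis -/
def ValC (c : Pk) : Prop := c.R.Countable ∧ (∀ y ∈ c.R, y.1 < c.α) ∧ c.G = ∅

/-! ### compactness -/

/-- compactness for names -/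
def NlcStmt : Prop := ∀ (P : Type 1) [Preorder P], Dist (univ : Set P) →
  ∀ (K : Type) [TopologicalSpace K] [CompactSpace K] (ag : Om → K → K → Prop)
    (Bs : Om → Set (Set K)), (∀ β, (Bs β).Countable) → Monotone Bs →
    (∀ β, ∀ V ∈ Bs β, IsClosed V) →
    (∀ β s s', ¬ ag β s s' → ∃ V ∈ Bs β, ∃ V' ∈ Bs β, V ∪ V' = univ ∧ s ∉ V ∧ s' ∉ V') →
    ∀ (𝒞 : Set K → P → Prop) (p : P), Opn 𝒞 →
    (∀ q ≤ p, ∀ l : List (Set K), (∀ V ∈ l, 𝒞 V q) → ∃ x, ∀ V ∈ l, x ∈ V) →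
    ∃ pt : Om → K → P → Prop, (∀ β, Opn (pt β)) ∧ (∀ q ≤ p, ∀ β, ∃ r ≤ q, ∃ s, pt β s r) ∧
      (∀ q ≤ p, ∀ α β s s', α ≤ β → pt α s q → pt β s' q → ag α s s') ∧
      ∀ q ≤ p, ∀ β s, ∀ V ∈ Bs β, 𝒞 V q → pt β s q → s ∈ V

/-- compactness of the countable powers of `X` -/
def ThrStmt : Prop := ∀ (P : Type 1) [Preorder P], Dist (univ : Set P) →
  ∀ (Lv : Om → Set Cb → P → Prop) (p : P), Sy0 Lv p → ∀ (J : Type) [Countable J]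
    (𝒞 : List (J × Set Cb) → P → Prop), Opn 𝒞 → (∀ l q, 𝒞 l q → ∀ y ∈ l, ∃ β, Bas β y.2) →
    Fip Lv 𝒞 p → ∃ pt : Om → (J → Cb) → P → Prop, (∀ β, Opn (pt β)) ∧
      (∀ q ≤ p, ∀ β, ∃ r ≤ q, ∃ x, pt β x r) ∧
      (∀ j, Thr Lv (fun β s q => ∃ x, pt β x q ∧ x j = s) p) ∧
      ∀ q ≤ p, ∀ β x l, 𝒞 l q → (∀ y ∈ l, Bas β y.2) → pt β x q → Cls x l

/-- a point of `X` through a given point of a level -/
def ThruStmt : Prop := ∀ (P : Type 1) [Preorder P], Dist (univ : Set P) →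
  ∀ (Lv : Om → Set Cb → P → Prop) (p : P), Sy0 Lv p → ∀ β L w, Lv β L p → w ∈ L →
    ∃ pt, Thr Lv pt p ∧ ∀ q ≤ p, ∀ s, pt β s q → Ag β s w

/-- compactness with points given by finitely determined codes -/
def PtStmt : Prop := ∀ (P : Type 1) [Preorder P], Dist (univ : Set P) →
  ∀ (Lv : Om → Set Cb → P → Prop) (p : P), Sy0 Lv p → FC Lv p → ∀ (J : Type) [Countable J]
    (𝒞 : List (J × Set Cb) → P → Prop), Opn 𝒞 → (∀ l q, 𝒞 l q → ∀ y ∈ l, ∃ β, Bas β y.2) →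
    Fip Lv 𝒞 p → ∀ γ₀, ∃ r ≤ p, ∃ γ, ∃ s : J → Cb, γ₀ ≤ γ ∧ (∀ j, Term Lv γ (s j) r) ∧
      ∀ q ≤ r, ∀ l, 𝒞 l q → ∃ q' ≤ q, ∃ y ∈ l, InP Lv γ (s y.1) y.2 q'

/-! ### the filter -/

/-- limits exist -/
def LimStmt : Prop := ∀ (P : Type 1) [Preorder P], Dist (univ : Set P) → ∀ D : Dt P, GS D →
  ∀ (f : ℕ → Sg) (δ : Om) (p : P), StrictMono (fun n => (f n).δ) →
    IsLUB (range fun n => (f n).δ) δ → (∀ n, Sec D (f n) p) →
    ∃ q ≤ p, ∃ σ, σ.δ = δ ∧ Lim D f σ q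

/-- what the limit accepts is accepted by almost all terms -/
def AclStmt : Prop := ∀ (P : Type 1) [Preorder P] (D : Dt P), GS D →
  ∀ (f : ℕ → Sg) (σ : Sg) (r : P) (β : Om) (L : Set Cb) (z : Cand), Lim D f σ r → D.Lv β L r →
    (∀ n, (f n).γ ≤ β) → σ.γ ≤ β → (∀ e ∈ z, Inv β e.2.2) → Cnd D z r → Acc D σ z r →
    ∀ᶠ n in hyperfilter ℕ, Acc D (f n) z r

/-- rejection sets are closed -/
def CloStmt : Prop := ∀ (P : Type 1) [Preorder P] (D : Dt P), GS D →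
  ∀ Y : Cand → P → Prop, Opn Y → Clo D (Rej D Y)

/-- closing off under bounds, accumulation points and copies -/
def ClsStmt : Prop := ∀ (P : Type 1) [Preorder P], Dist (univ : Set P) → ∀ D : Dt P, GS D →
  ∀ (ι : Type) (rk : Om → Set ι) (m : ι → ℕ)
    (𝒟 : ∀ τ, Om → (Fin (m τ) → Cb) → Om → P → Prop), (∀ ρ, (rk ρ).Countable) →
    (∀ τ β t s p q, q ≤ p → 𝒟 τ β t s p → 𝒟 τ β t s q) →
    (∀ τ β t s q, 𝒟 τ β t s q → ∀ a, D.T β (t a) q) → ∀ p δ₀,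
    ∃ q ≤ p, ∃ ρ : ℕ → Om, StrictMono ρ ∧ δ₀ ≤ ρ 0 ∧ ∀ n, ∀ τ ∈ rk (ρ n),
      (∀ r ≤ q, ∀ β t s, ρ (n + 1) ≤ β → ¬ 𝒟 τ β t s r) ∨
      ∃ γ, ∃ u : Fin (m τ) → Cb, ρ n ≤ γ ∧ (∀ a, Term D.Lv γ (u a) q) ∧
        ∀ B : Fin (m τ) → Set Cb, (∀ a, Bas γ (B a) ∧ u a ∉ B a) →
          ∃ β t s, γ ≤ β ∧ s ≤ ρ (n + 1) ∧ 𝒟 τ β t s q ∧ ∀ a, t a ∉ B a

/-- the key lemma -/
def KLStmt : Prop := ∀ (P : Type 1) [Preorder P], Dist (univ : Set P) → ∀ D : Dt P, GS D →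
  ∀ Y : ℕ → Cand → P → Prop, (∀ n, Opn (Y n) ∧ NoP D (Y n)) → ∀ p δ₀,
    ∃ q ≤ p, ∃ σ, δ₀ ≤ σ.δ ∧ Sec D σ q ∧ ∀ n, Rej D (Y n) σ q

def FltStmt : Prop := ∀ (P : Type 1) [Preorder P], Dist (univ : Set P) → ∀ D : Dt P, GS D →
  ∃ Φ, Flt D Φ

/-! ### zones and conditions -/

/-- an accepted refinement can be coarsened to the level and depth of the section -/
def CoaStmt : Prop := ∀ (P : Type 1) [Preorder P] (D : Dt P), GS D →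
  ∀ (σ : Sg) (r : P) (β β₁ : Om) (L : Set Cb) (z' z : Cand), Sec D σ r → D.Lv β L r → σ.γ ≤ β →
    (∀ e ∈ z', Inv β e.2.2) → Cnd D z' r → Ref D z' z r → Acc D σ z' r → σ.γ ≤ β₁ →
    (∀ e ∈ z, e.1 ≤ σ.δ ∧ Bas β₁ e.2.2) →
    ∃ z'', (∀ e ∈ z'', e.1 = σ.δ ∧ Bas β₁ e.2.2) ∧ Cnd D z'' r ∧ Ref D z' z'' r ∧
      Ref D z'' z r ∧ Acc D σ z'' r

/-- the subzones of a zone are a positive set -/
def ZonStmt : Prop := ∀ (P : Type 1) [Preorder P], Dist (univ : Set P) → ∀ D : Dt P, GS D →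
  ∀ Φ, Flt D Φ → ∀ (S : Cand → P → Prop) (z : Cand) (p : P), Opn S → Cnd D z p →
    Zone D Φ S z p → ∃ q ≤ p, Big D Φ (Hit D fun z' r => Ref D z' z r ∧ Zone D Φ S z' r) q

/-- a zone splits into two compatible zones -/
def SplStmt : Prop := ∀ (P : Type 1) [Preorder P], Dist (univ : Set P) → ∀ D : Dt P, GS D →
  ∀ Φ, Flt D Φ → ∀ (S : Cand → P → Prop) (z : Cand) (p : P), Opn S → Cnd D z p →
    Zone D Φ S z p → ∃ q ≤ p, ∃ z₁ z₂, Cnd D z₁ q ∧ Cnd D z₂ q ∧ Ref D z₁ z q ∧ Ref D z₂ z q ∧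
      Zone D Φ S z₁ q ∧ Zone D Φ S z₂ q ∧ Cpt D z₁ z₂ q

/-- almost every section accepts only refinements that are admitted inside a given dense set -/
def GenStmt : Prop := ∀ (P : Type 1) [Preorder P] [Cd P] [Small.{0} P], Dist (univ : Set P) →
  ∀ D : Dt P, GS D → ∀ Φ, Flt D Φ → ∀ (p : P) (c : Pk) (z₀ : Cand) (u : U), Adm D Φ p c z₀ →
    Cnd D z₀ p → Den D Φ u → ∃ F ∈ Φ, ∀ q ≤ p, ∀ σ z, Sec D σ q → F σ q → Cnd D z q →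
      Ref D z z₀ q → Acc D σ z q →
      ∃ r ≤ q, ∃ h c', cd (h, c') ∈ u ∧ r ≤ h ∧ c' ≤ c ∧ Adm D Φ r c' z

/-- protecting one more zone -/
def NewStmt : Prop := ∀ (P : Type 1) [Preorder P] [Cd P], Dist (univ : Set P) →
  ∀ D : Dt P, GS D → ∀ Φ, Flt D Φ → ∀ (p : P) (c : Pk) (z₀ : Cand) (g : U), Adm D Φ p c z₀ →
    g ∈ c.G → ∃ q ≤ p, ∃ w, Cnd D w q ∧ Zone D Φ (nm g) w q ∧ Cpt D z₀ w q ∧
      Adm D Φ q c (z₀ ++ w)

/-- the reservoir has a zone -/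
def ResStmt : Prop := ∀ (P : Type 1) [Preorder P] (D : Dt P), GS D → ∀ Φ, Flt D Φ → ∀ p : P,
  ∃ q ≤ p, ∃ z, Cnd D z q ∧ Zone D Φ (Res D) z q

/-- adding a closed set with a new interior point -/
def AddStmt : Prop := ∀ (P : Type 1) [Preorder P] [Cd P], Dist (univ : Set P) →
  ∀ D : Dt P, GS D → ∀ Φ, Flt D Φ → ∀ (p : P) (c : Pk) (g : U), Val D Φ p c → g ∈ c.G →
    nm g = Res D → ∃ q ≤ p, ∃ c' ≤ c, Val D Φ q c' ∧ ∃ β t V B γ, (c.α, V) ∈ c'.R ∧ Bas γ B ∧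
      V ∪ B = univ ∧ Mt D.Lv (cyl β t \ B) q ∧ ∀ y ∈ c.R, Mis D.Lv (cyl β t ∩ y.2) q

/-! ### the iteration -/

/-- weak properness and finite completeness of one step, with the tower inside `N'` -/
def SP' (P C : Type 1) [Preorder P] [Cd P] [Preorder C] [Cd C] (Val : P → C → Prop) : Prop :=
  ∃ Q : U → Prop, (∀ᶠ N in club, Q N) ∧ ∀ (S : U) (β : Ordinal.{0}) (B N N' : U) (A : List P)
    (h₀ : P) (c₀ : C), (S : Set U).Countable → S ∈ N → Rk S β B N → (∀ M ∈ B, Q M) → Q N' →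
    N ∈ N' → B ∈ N' → cd β ∈ N' → A ≠ [] →
    (∀ a ∈ A, TG univ a N' ∧ (∀ M ∈ B, TG univ a M) ∧ a ≤ h₀ ∧
      ∀ a' ∈ A, LB univ N a a') → cd h₀ ∈ N → cd c₀ ∈ N → Val h₀ c₀ →
    ∃ B' ⊆ B, Rk S β B' N ∧ ∃ c ≤ c₀, (∀ a ∈ A, Val a c) ∧ ∀ M ∈ B', ∀ u ∈ M,
      (∀ p c, Val p c → ∃ p' ≤ p, ∃ c' ≤ c, Val p' c' ∧ cd (p', c') ∈ u) →
      ∃ h c', cd (h, c') ∈ u ∧ cd h ∈ M ∧ cd c' ∈ M ∧ c ≤ c' ∧ ∀ a ∈ A, a ≤ h

/-- the single step hypothesis, with the tower inside `N'` -/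
def Succ' (X : Type 1) [Preorder X] [Itr X] [Cd X] : Prop := ∀ ζ, Dist (PP X ζ) →
  ∃ Q : U → Prop, (∀ᶠ N in club, Q N) ∧
  ∀ (S : U) (β : Ordinal.{0}) (B N N' : U) (A : List X) (p : X), (S : Set U).Countable → S ∈ N →
    Rk S β B N → (∀ M ∈ B, Q M) → Q N' → N ∈ N' → B ∈ N' → cd β ∈ N' → A ≠ [] →
    (∀ a ∈ A, a ∈ PP X ζ ∧ TG (PP X ζ) a N' ∧ (∀ M ∈ B, TG (PP X ζ) a M) ∧ a ≤ rs p ζ ∧
      ∀ a' ∈ A, LB (PP X ζ) N a a') → p ∈ PP X (ζ + 1) → cd p ∈ N →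
    ∃ B' ⊆ B, Rk S β B' N ∧ ∃ r : X → X,
      (∀ a ∈ A, r a ∈ PP X (ζ + 1) ∧ rs (r a) ζ = a ∧ r a ≤ p) ∧
      ∀ M ∈ B', ∀ u ∈ M, Dns (PP X (ζ + 1)) (fun w => cd w ∈ u) →
        ∃ w ∈ PP X (ζ + 1), cd w ∈ u ∧ cd w ∈ M ∧ ∀ a ∈ A, r a ≤ w

def IterStmt' : Prop := ∀ (X : Type 1) [Preorder X] [Itr X] [Cd X], Succ' X → ∀ η, Dist (PP X η)

def BridgeStmt' : Prop := ∀ (X C : Type 1) [Preorder X] [Itr X] [Cd X] [Preorder C] [Cd C]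
  [g : Gnr X C], (∀ ζ, Dist (univ : Set (g.St ζ)) → SP' (g.St ζ) C g.Val) → Succ' X

def SchStmt' : Prop := ∀ (P : Type 1) [Preorder P] [Cd P] [Small.{0} P], Dist (univ : Set P) →
  ∀ D : Dt P, GS D → ∀ Φ, Flt D Φ → SP' P Pk (Val D Φ)

/-- a step that is defined below `p₀` only -/
def RstStmt : Prop := ∀ (P : Type 1) [Preorder P] [Cd P] [Small.{0} P] (p₀ : P)
  (V : {q // q ≤ p₀} → Pk → Prop), (∀ a, V a top) → SP' {q // q ≤ p₀} Pk V →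
    SP' P Pk fun p c => c = top ∨ ∃ h : p ≤ p₀, V ⟨p, h⟩ c

/-- the trivial step -/
def TrvStmt : Prop := ∀ (P : Type 1) [Preorder P] [Cd P] [Small.{0} P],
  SP' P Pk fun _ c => c = top

/-- the countably closed step -/
def ChsStmt : Prop := ∀ (P : Type 1) [Preorder P] [Cd P] [Small.{0} P], Dist (univ : Set P) →
  SP' P Pk fun _ c => ValC c

section Book

variable {X : Type 1} [Preorder X] [Itr X] [Cd X] (g : Gnr X Pk)

/-- the data read at the stage `ζ` below `a₀` -/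
def Dt.st (D : Dt X) {ζ : Ordinal.{0}} (a₀ : g.St ζ) : Dt {a : g.St ζ // a ≤ a₀} :=
  ⟨fun β L a => D.Lv β L (g.ι a.1), fun β t a => D.T β t (g.ι a.1)⟩

/-- the bookkeeping properties of the iteration -/
def Book : Prop :=
  (∀ ξ (D : Dt X) (p : X), (∀ β, Opn (D.Lv β)) → (∀ β, Opn (D.T β)) →
    (∀ β L q, D.Lv β L q → D.Lv β L (rs q ξ)) → (∀ β t q, D.T β t q → D.T β t (rs q ξ)) →
    ∀ ξ', ∃ ζ, ξ' ≤ ζ ∧ ∀ a₀ : g.St ζ, g.ι a₀ = p → GS (D.st g a₀) →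
      ∃ Φ, Flt (D.st g a₀) Φ ∧
        ∀ a c, g.Val a c ↔ c = top ∨ ∃ h : a ≤ a₀, Val (D.st g a₀) Φ ⟨a, h⟩ c) ∧
  ∃ ζ, ∀ (a : g.St ζ) c, g.Val a c ↔ ValC c

end Book

def BookStmt : Prop := ∃ (X : Type 1) (_ : Preorder X) (_ : Itr X) (_ : Cd X) (g : Gnr X Pk),
  (∀ η, Dist (PP X η)) ∧ Book g

def ChfStmt : Prop := ∀ (X : Type 1) [Preorder X] [Itr X] [Cd X] (g : Gnr X Pk),
  Book g → CHf X

/-- the hypotheses reflect to a stage -/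
def RflStmt : Prop := ∀ (X : Type 1) [Preorder X] [Itr X] [Cd X] (g : Gnr X Pk), Refl X →
  ∀ (D : Dt X) (p : X), Sys D p → ∃ ξ, p ∈ PP X ξ ∧ ∀ ζ, ξ ≤ ζ → ∀ a₀ : g.St ζ, g.ι a₀ = p →
    GS (Dt.st g ⟨fun β L q => D.Lv β L (rs q ξ), fun β t q => D.T β t (rs q ξ)⟩ a₀) ∧
    ∀ K β (a : g.St ζ) (h : a ≤ a₀), Inv β K →
      (Mis (fun β L (b : {a : g.St ζ // a ≤ a₀}) => D.Lv β L (rs (g.ι b.1) ξ)) K ⟨a, h⟩ →
        Mis D.Lv K (g.ι a)) ∧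
      (Mt (fun β L (b : {a : g.St ζ // a ≤ a₀}) => D.Lv β L (rs (g.ι b.1) ξ)) K ⟨a, h⟩ →
        Mt D.Lv K (g.ι a))

/-- the generic family of closed sets destroys the hereditary Lindeloef property -/
def KillStmt : Prop := ∀ (X : Type 1) [Preorder X] [Itr X] [Cd X] (g : Gnr X Pk),
  (∀ η, Dist (PP X η)) → Refl X → Book g → ∀ (D : Dt X) (p : X), Sys D p → HL D.Lv p → False

/-- first countability from the hereditary Lindeloef property -/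
def FcStmt : Prop := ∀ (P : Type 1) [Preorder P] (Lv : Om → Set Cb → P → Prop) (p : P),
  Sy0 Lv p → HL Lv p → FC Lv p

/-- the tree of big fibres -/
def RedStmt : Prop := ∀ (P : Type 1) [Preorder P], Dist (univ : Set P) →
  ∀ (Lv : Om → Set Cb → P → Prop) (p : P) (n : ℕ), 1 ≤ n → Sy0 Lv p → FC Lv p → Few Lv n p →
    Many Lv n p → ∃ T, Sys ⟨Lv, T⟩ p

/-- the name free form of the theorem -/
def MainF (X : Type 1) [Preorder X] : Prop := ∀ (Lv : Om → Set Cb → X → Prop) (p : X) (n : ℕ),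
  1 ≤ n → Sy0 Lv p → HL Lv p → Few Lv n p → Many Lv n p → False

def MainStmt : Prop := ∃ (X : Type 1) (_ : Preorder X) (t : X), (∀ p, p ≤ t) ∧
  Dist (univ : Set X) ∧ CHf X ∧ MainF X

theorem main_of (h1 : BookStmt) (h2 : ReflStmt) (h3 : KillStmt) (h4 : ChfStmt) (h5 : FcStmt)
    (h6 : RedStmt) : MainStmt := by
  obtain ⟨X, i1, i2, i3, g, k1, k2⟩ := h1
  obtain ⟨p⟩ := Itr.ne (X := X)
  refine ⟨X, i1, rs p 0, fun q => Itr.rs_zero q p ▸ Itr.le_rs q 0, dist_univ k1 (h2 X),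
    h4 X g k2, fun Lv q n j1 j2 j3 j4 j5 => ?_⟩
  obtain ⟨T, hT⟩ := h6 X (dist_univ k1 (h2 X)) Lv q n j1 j2 (h5 X Lv q j2 j3) j4 j5
  exact h3 X g k1 (h2 X) k2 ⟨Lv, T⟩ q hT j3

end Pool.Agent.Ctry.AK
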