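import Pool.Agent.MP_77405c_lc.Iter
import Pool.Agent.MP_77405c_lc.Link2
import Pool.Agent.MP_b60a07_lc.AK.Spec

/-! The iteration theorem and the bridge, with the tower inside the second model. -/

open Filter Set

namespace Pool.Agent.Ctry.AK.It

open Pool.Agent.Ctry.Iter (psi use_psi R1 R2 R3 R4 Ec RE Gd ev_gd)

section

variable {X : Type 1} [Preorder X] [Itr X] [Cd X]

variable (X) in
/-- a class of good models -/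
structure Ctx (G : U → Prop) : Prop where
  ev : ∀ᶠ M in club, G M
  gd : ∀ {M}, G M → Gd X M
  sc : ∀ ζ, Dist (PP X ζ) → ∀ (S : U) (β : Ordinal.{0}) (B N N' : U) (A : List X) (p : X),
    (S : Set U).Countable → S ∈ N → Rk S β B N → (∀ M ∈ B, G M ∧ cd ζ ∈ M) → G N' → cd ζ ∈ N' →
    N ∈ N' → B ∈ N' → cd β ∈ N' → A ≠ [] →
    (∀ a ∈ A, a ∈ PP X ζ ∧ TG (PP X ζ) a N' ∧ (∀ M ∈ B, TG (PP X ζ) a M) ∧ a ≤ rs p ζ ∧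
      ∀ a' ∈ A, LB (PP X ζ) N a a') → p ∈ PP X (ζ + 1) → cd p ∈ N →
    ∃ B' ⊆ B, Rk S β B' N ∧ ∃ r : X → X,
      (∀ a ∈ A, r a ∈ PP X (ζ + 1) ∧ rs (r a) ζ = a ∧ r a ≤ p) ∧
      ∀ M ∈ B', ∀ u ∈ M, Dns (PP X (ζ + 1)) (fun w => cd w ∈ u) →
        ∃ w ∈ PP X (ζ + 1), cd w ∈ u ∧ cd w ∈ M ∧ ∀ a ∈ A, r a ≤ w
  aa : ∀ {N}, G N → ∀ η, cd η ∈ N →
    (∀ ζ < η, cd ζ ∈ N → Dist (PP X ζ) ∧ KL0 X ζ (ζ + 1) N) → ∀ ξ ≤ η, cd ξ ∈ N → AP X ξ η N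
  cc : ∀ (N₂ N₃ : U) (ξ η : Ordinal.{0}), G N₂ → G N₃ → N₂ ∈ N₃ → ξ ≤ η →
    cd ξ ∈ N₂ → cd η ∈ N₂ → Dist (PP X ξ) → KL0 X ξ η N₂ → AP X ξ η N₃ →
    ∀ b, Bd (PP X ξ) N₂ b → ∀ Δ : Set X, Δ.Finite → (∀ p ∈ Δ, p ∈ PP X η ∧ cd p ∈ N₂) →
    ∃ b', Bd (PP X η) N₂ b' ∧ ∀ q ∈ PP X ξ, FG (PP X ξ) q b N₂ → Gen (PP X ξ) q N₃ →
      (∀ a ∈ PP X ξ, a ≤ q → ∃ p ∈ Δ, Cmp (PP X ξ) a (rs p ξ)) →
      ∃ q' ∈ PP X η, rs q' ξ = q ∧ Gen (PP X η) q' N₃ ∧ FG (PP X η) q' b' N₂ ∧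
        ∀ a ∈ PP X ξ, a ≤ q → ∃ a' ∈ PP X ξ, a' ≤ a ∧ ∃ p ∈ Δ, amal ξ a' q' ≤ p

theorem exists_ctx (hA : AStmt) (hC : CStmt) (hS : Succ' X) : ∃ G, Ctx X G := by
  choose Q h1 h2 using hS
  obtain ⟨Q', h3, h4⟩ := hC X
  refine ⟨fun M => Gd X M ∧ (∀ ζ, cd ζ ∈ M → ∀ h, Q ζ h M) ∧ Q' M ∧ _,
    ev_gd.and ((ev_diag fun ζ => ?_).and (h3.and (hA X))), fun h => h.1,
    fun ζ h S β B N N' A p k1 k2 k3 k4 k5 k6 => h2 ζ h S β B N N' A p k1 k2 k3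
      (fun M hM => (k4 M hM).1.2.1 ζ (k4 M hM).2 h) (k5.2.1 ζ k6 h), fun h => h.2.2.2,
    fun N₂ N₃ ξ η k1 k2 => h4 N₂ N₃ ξ η k1.2.2.1 k2.2.2.1⟩
  by_cases h : Dist (PP X ζ)
  · exact (h1 ζ h).mono fun _ k _ => k
  · exact .of_forall fun _ k => absurd k h

/-- a tower of good models -/
structure Tw (G : U → Prop) (S : U) (β : Ordinal.{0}) (B N : U) : Prop where
  ct : (S : Set U).Countable
  mem : S ∈ N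
  rk : Rk S β B N
  gd : ∀ M ∈ B, G M

variable {G : U → Prop} {S B B' V N N' K M : U} {ξ η ζ β β' : Ordinal.{0}} {a p : X} {A : List X}

theorem Tw.top (h : Tw G S β B N) : G N := h.gd N h.rk.mem

theorem Tw.sub (h : Tw G S β B N) (h1 : B' ⊆ B) (h2 : N' ∈ B' → S ∈ N') (h3 : Rk S β' B' N') :
    Tw G S β' B' N' := ⟨h.ct, h2 h3.mem, h3, fun M hM => h.gd M (h1 hM)⟩

theorem Tw.wit (c : Ctx X G) (h : Tw G S β B N) (h1 : β' < β) (h2 : cd β' ∈ S) {x : U}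
    (hx : x ∈ N) : ∃ N' B' : U, N' ∈ N ∧ B' ∈ N ∧ x ∈ N' ∧ B' ⊆ B ∧ Tw G S β' B' N' := by
  obtain ⟨N', B', k1, k2, k3, k4, k5⟩ := h.rk.wit h1 h2 (((c.gd h.top).m0.pair S x).2 ⟨h.mem, hx⟩)
  have k6 := ((c.gd (h.gd _ (k4 k5.mem))).m0.pair S x).1 k3
  exact ⟨N', B', k1, k2, k6.2, k4, h.sub k4 (fun _ => k6.1) k5⟩

theorem Ctx.sub (c : Ctx X G) (h : G N) (h' : G N') (hm : N ∈ N') : N ⊆ N' :=
  (c.gd h').m0.sub' (c.gd h).m0 hm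

variable (X G ξ η β) in
/-- the extension statement for finitely many candidates -/
def EE : Prop := ∀ (S B N V N' : U) (A : List X) (p : X), Tw G S β B N → Tw G N (η + 1) V N' →
  B ∈ N' → cd β ∈ N' → cd ξ ∈ N → cd η ∈ N → p ∈ PP X η → cd p ∈ N → A ≠ [] →
  (∀ a ∈ A, a ∈ PP X ξ ∧ (∀ M ∈ B, TG (PP X ξ) a M) ∧ (∀ M ∈ V, TG (PP X ξ) a M) ∧ a ≤ rs p ξ ∧
    ∀ a' ∈ A, LB (PP X ξ) N a a') → ∃ g B', Ec ξ η S β B N A p g B'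

variable (X G ξ η β) in
/-- weak properness of the quotient for towers -/
def KL : Prop := ∀ (S B N : U) (a p : X), Tw G S β B N → cd ξ ∈ N → cd η ∈ N → p ∈ PP X η →
  cd p ∈ N → a ∈ PP X ξ → (∀ M ∈ B, TG (PP X ξ) a M) → a ≤ rs p ξ →
  ∃ z : X × U, rs z.1 ξ ≤ a ∧ R2 (η, S, β, B, N, p) z

theorem kl_refl : KL X G ξ ξ β := fun _ B _ a _ h _ _ hp _ ha h1 h2 =>
  ⟨(a, B), (pp_eq ha).le, fun _ h => h, h.rk, ha, pp_eq hp ▸ h2, h1⟩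

theorem ee_refl : EE X G ξ ξ β := fun _ B _ _ _ A _ h _ _ _ _ _ hp _ hA h1 => by
  obtain ⟨a, ha⟩ := List.exists_mem_of_ne_nil A hA
  exact ⟨a, B, (h1 a ha).1, pp_eq hp ▸ (h1 a ha).2.2.2.1, fun _ h => h, h.rk, (h1 a ha).2.1,
    fun b hb q hq k => ⟨q, hq, (pp_eq hq).le, ((h1 b hb).2.2.2.2 a ha).mono k⟩⟩

theorem tg_zero (h : Gd X M) (p : X) : TG (PP X 0) (rs p 0) M := fun _ _ hd => by
  obtain ⟨w, k1, -, k2⟩ := hd _ (rs_mem p 0)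
  obtain rfl : rs p 0 = w := (Itr.rs_zero p w).trans (pp_eq k1)
  exact ⟨_, k1, k2, h.zero p, le_rfl⟩

theorem kl_of_ee (c : Ctx X G) (h0 : KL X G 0 ξ (η + 1)) (hE : EE X G ξ η β) : KL X G ξ η β := by
  intro S B N a p h h1 h2 hp hp' ha h3 h4
  have g := c.gd h.top
  obtain ⟨V, N', k1, k2⟩ := exists_tower c.ev g.m0.ctble (η + 1) (cd (N, B, β, a))
  have g' := c.gd (k2 _ k1.mem).1
  have k3 := (k2 _ k1.mem).2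
  simp only [g'.m0.prod, cd_U] at k3
  have k4 : Tw G N (η + 1) V N' := ⟨g.m0.ctble, k3.1, k1, fun M hM => (k2 M hM).1⟩
  obtain ⟨⟨a', V'⟩, -, j1, j2, j3, j4, j5⟩ := h0 N V N' (rs a 0) a k4 g'.zero'
    (c.sub h.top k4.top k3.1 h1) ha k3.2.2.2 (rs_mem _ _)
    (fun M hM => tg_zero (c.gd (k2 M hM).1) a) le_rfl
  obtain ⟨r, B', i1, i2, i3, i4, i5, i6⟩ := hE S B N V' N' [a'] p h (k4.sub j1 (fun _ => k3.1) j2)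
    k3.2.1 k3.2.2.1 h1 h2 hp hp' (List.cons_ne_nil _ _) (by
      simpa using ⟨j3, fun M hM => (h3 M hM).mono j4, j5, le_trans j4 h4, LB.of_le le_rfl⟩)
  obtain ⟨r', l1, l2, l3⟩ := i6 a' List.mem_cons_self a' j3 le_rfl
  exact ⟨(r', B'), l2.trans j4, i3, i4, l1, l3 p hp hp' i2, fun M hM => l3.tg (i4.sub hM) (i5 M hM)⟩

theorem KL.kl0 (c : Ctx X G) (h : KL X G ξ η 0) (hN : G N) (h1 : cd ξ ∈ N) (h2 : cd η ∈ N) :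
    KL0 X ξ η N := fun a ha p hp hp' h3 h4 => by
  obtain ⟨z, k1, -, k2, k3, k4, k5⟩ := h ∅ {N} N a p ⟨by simp, (c.gd hN).m0.emp, rk_zero _ _,
    by simpa using hN⟩ h1 h2 hp hp' ha (by simpa using h3) h4
  exact ⟨z.1, k3, k4, k1, k5 N k2.mem⟩

theorem KL.dist (c : Ctx X G) (h : KL X G 0 η 0) : Dist (PP X η) := by
  intro p hp D h1 h2
  obtain ⟨N, ⟨k1, k2, k3⟩, k4⟩ := ev_exists (c.ev.and ((ev_cap (PP X η)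
    fun (n : ℕ) w (_ : Unit) => D n w ∨ ¬ Cmp (PP X η) w p).and
      (ev_ctble fun n : ℕ => ev_const n))) (cd (η, p))
  have g := c.gd k1
  obtain ⟨r, j1, j2, -, j3⟩ := h.kl0 c k1 g.zero' (g.m0.prod.1 k4).1 _ (rs_mem p 0) p hp
    (g.m0.prod.1 k4).2 (tg_zero g p) le_rfl
  refine ⟨r, j1, j2, fun n => ?_⟩
  obtain ⟨w, -, -, i1, _, -, i2⟩ := j3.use0 k2 (k3 n) fun q hq => by
    by_cases hc : Cmp (PP X η) q p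
    · obtain ⟨d, l1, l2, l3⟩ := hc
      obtain ⟨w, l4, l5, l6⟩ := h2 n d l1 l3
      exact ⟨w, l4, l5.trans l2, (), Or.inl l6⟩
    · exact ⟨q, hq, le_rfl, (), Or.inr hc⟩
  exact h1 n w r j1 i1 (i2.resolve_right fun k => k ⟨r, j1, i1, j2⟩)

theorem exists_b (c : Ctx X G) (hD : Dist (PP X ξ)) (hN : G N) (hK : G K) (hm : N ∈ K)
    (hξ : cd ξ ∈ K) (ha : a ∈ PP X ξ) (h : TG (PP X ξ) a K) : ∃ b ∈ PP X ξ, cd b ∈ K ∧ a ≤ b ∧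
      LB (PP X ξ) N b a ∧ ∀ M ⊆ N, TG (PP X ξ) a M → TG (PP X ξ) b M := by
  obtain ⟨b, k1, k2, k3, k4⟩ := h.exists_dec hD ((c.gd hK).dec ξ hξ) hm (c.gd hN).m0.ctble
  exact ⟨b, k1, k2, k3, k4.lb ha k3, fun M hM k => k4.tg hM k.gen ⟨a, ha, k3, le_rfl⟩⟩

theorem KL.inside (c : Ctx X G) (h : KL X G ξ η β) (hD : Dist (PP X ξ)) (hT : Tw G S β B N)
    (hK : G K) (hm : N ∈ K) (hB : B ∈ K) (hβ : cd β ∈ K) (h1 : cd ξ ∈ N) (h2 : cd η ∈ N)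
    (hp : p ∈ PP X η) (hp' : cd p ∈ N) (ha : a ∈ PP X ξ) (h3 : ∀ M ∈ B, TG (PP X ξ) a M)
    (h4 : TG (PP X ξ) a K) (h5 : a ≤ rs p ξ) :
    ∃ z : X × U, cd z ∈ K ∧ a ≤ rs z.1 ξ ∧ R2 (η, S, β, B, N, p) z := by
  have s := c.sub hT.top hK hm
  have g := c.gd hK
  obtain ⟨b, -, k2, k3, k4, k5⟩ := exists_b c hD hT.top hK hm (s h1) ha h4
  exact use_psi (g.c2 ξ (s h1)) h4 ha
    (by simpa only [g.m0.prod, cd_U] using ⟨s h2, s hT.mem, hβ, hB, hm, s hp'⟩) k2 k3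
    fun q hq k => h S B N q p hT h1 h2 hp hp' hq
      (fun M hM => (k5 M (hT.rk.sub hM) (h3 M hM)).mono k)
      (k.trans (k4 _ (rs_mem _ _) ((c.gd hT.top).rs p ξ hp' h1) h5))

theorem kl0_dns (h : KL0 X ξ η N) (hp : p ∈ PP X η) (hp' : cd p ∈ N) (h3 : TG (PP X ξ) a N)
    (h5 : a ≤ rs p ξ) : ∀ q ∈ PP X ξ, q ≤ a → ∃ z, rs (id z) ξ ≤ q ∧ R4 (η, N, p) z :=
  fun q hq k =>
    let ⟨r, j1, j2, j3, j4⟩ := h q hq p hp hp' (h3.mono k) (k.trans h5)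
    ⟨r, j3, j1, j2, j4⟩

theorem EE.inside (c : Ctx X G) (h : EE X G ξ η β) (hD : Dist (PP X ξ)) (hT : Tw G S β B N)
    (hV : Tw G N (η + 1) V N') (hK : G K) (hm : N' ∈ K) (hB : B ∈ N') (hβ : cd β ∈ N')
    (h1 : cd ξ ∈ N) (h2 : cd η ∈ N) (hp : p ∈ PP X η) (hp' : cd p ∈ N) (hA : A ≠ [])
    (h3 : ∀ a ∈ A, a ∈ PP X ξ ∧ TG (PP X ξ) a K ∧ (∀ M ∈ B, TG (PP X ξ) a M) ∧
      (∀ M ∈ V, TG (PP X ξ) a M) ∧ a ≤ rs p ξ ∧ ∀ a' ∈ A, LB (PP X ξ) N a a') :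
    ∃ g B', B' ∈ K ∧ g ∈ PP X η ∧ g ≤ p ∧ B' ⊆ B ∧ Rk S β B' N ∧ (∀ M ∈ B', TG (PP X η) g M) ∧
      ∀ a ∈ A, ∃ r, cd r ∈ K ∧ a ≤ rs r ξ ∧ r ∈ PP X η ∧ LB (PP X η) N r g := by
  have := Itr.ne (X := X)
  have s1 := c.sub hT.top hV.top hV.mem
  have s2 := c.sub hV.top hK hm
  have g := c.gd hK
  choose! f f1 f2 f3 f4 f5 using fun a (ha : a ∈ A) =>
    exists_b c hD hV.top hK hm (s2 (s1 h1)) (h3 a ha).1 (h3 a ha).2.1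
  obtain ⟨⟨r, B'⟩, k0, k1, k2, k3, k4, k5, k6⟩ := g.el (ξ, η, S, β, B, N, A.map f, p)
    (by
      simp only [g.m0.prod, cd_U, g.m0.list, List.forall_mem_map]
      exact ⟨s2 (s1 h1), s2 (s1 h2), s2 (s1 hT.mem), s2 hβ, s2 hB, s2 hV.mem, f2, s2 (s1 hp')⟩)
    (by
      obtain ⟨r, B', k⟩ := h S B N V N' (A.map f) p hT hV hB hβ h1 h2 hp hp' (by simpa using hA) (by
        simp only [List.forall_mem_map]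
        exact fun a ha => ⟨f1 a ha,
          fun M hM => f5 a ha M (fun _ k => s1 (hT.rk.sub hM k)) ((h3 a ha).2.2.1 M hM),
          fun M hM => f5 a ha M (hV.rk.sub hM) ((h3 a ha).2.2.2.1 M hM),
          f4 a ha _ (rs_mem _ _) (s1 ((c.gd hT.top).rs p ξ hp' h1)) (h3 a ha).2.2.2.2.1,
          fun a' ha' => ((f4 a ha).anti s1).trans
            (((h3 a ha).2.2.2.2.2 a' ha').trans (LB.of_le (f3 a' ha')))⟩)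
      exact ⟨(r, B'), k⟩)
  refine ⟨r, B', (g.m0.prod.1 k0).2, k1, k2, k3, k4, k5, fun a ha => ?_⟩
  exact use_psi (y := (η, N, r)) (g.c1 ξ (s2 (s1 h1))) (h3 a ha).2.1 (h3 a ha).1
    (by simpa only [g.m0.prod, cd_U] using ⟨s2 (s1 h2), s2 hV.mem, (g.m0.prod.1 k0).1⟩) (f2 a ha)
    (f3 a ha) fun q hq k =>
      let ⟨r', j1, j2, j3⟩ := k6 (f a) (List.mem_map_of_mem ha) q hq k
      ⟨r', j2, j1, j3⟩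

theorem ee_succ (c : Ctx X G) (hξ : ξ ≤ ζ) (hD : Dist (PP X ξ)) (hD' : Dist (PP X ζ))
    (hE : EE X G ξ ζ β) (hK : KL X G ξ ζ 0) : EE X G ξ (ζ + 1) β := by
  intro S B N V K A p hT hV hB hβ h1 h2 hp hp' hA h3
  have := Itr.ne (X := X)
  have g := c.gd hT.top
  have gK := c.gd hV.top
  have h2' := (g.succ ζ).2 h2
  obtain ⟨N₁, V₁, k1, -, k2, k3, k4⟩ := hV.wit c (lt_add_one _) h2 (x := cd (B, β))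
    (gK.m0.prod.2 ⟨hB, hβ⟩)
  rw [(c.gd k4.top).m0.prod] at k2
  obtain ⟨g₁, B₁, j0, j1, j2, j3, j4, j5, j6⟩ := hE.inside c hD hT k4 hV.top k1 k2.1 k2.2 h1 h2'
    (rs_mem p ζ) (g.rs p ζ hp' h2') hA fun a ha => ⟨(h3 a ha).1, (h3 a ha).2.2.1 K hV.rk.mem,
      (h3 a ha).2.1, fun M hM => (h3 a ha).2.2.1 M (k3 hM),
      (rs_rs_le p hξ).symm ▸ (h3 a ha).2.2.2.1, (h3 a ha).2.2.2.2⟩
  choose! r₁ r1 r2 r3 r4 using j6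
  obtain ⟨N₂, V₂, i1, -, i2, i3, i4⟩ := hV.wit c (lt_add_one _) h2 (x := cd (A.map r₁, B₁, β))
    (gK.m0.prod.2 ⟨gK.m0.list.2 (by simpa using r1), gK.m0.prod.2 ⟨j0, hβ⟩⟩)
  have g₂ := c.gd i4.top
  rw [g₂.m0.prod, g₂.m0.prod] at i2
  obtain ⟨i2, i5, i6⟩ := i2
  simp only [g₂.m0.list, List.forall_mem_map] at i2
  have s := c.sub hT.top i4.top i4.mem
  have s' := c.sub i4.top hV.top i1
  have key : ∀ a ∈ A, ∃ r, a ≤ rs r ξ ∧ r ∈ PP X ζ ∧ r ≤ r₁ a ∧ TG (PP X ζ) r N₂ := fun a ha => by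
    have t := (h3 a ha).2.2.1 K hV.rk.mem
    obtain ⟨b, -, l2, l3, l4, l5⟩ := exists_b c hD i4.top hV.top i1 (s' (s h1)) (h3 a ha).1 t
    obtain ⟨r, -, l6⟩ := use_psi (y := (ζ, N₂, r₁ a)) (gK.c4 ξ (s' (s h1))) t (h3 a ha).1
      (by simpa only [gK.m0.prod, cd_U] using ⟨s' (s h2'), i1, r1 a ha⟩) l2 l3
      (kl0_dns (hK.kl0 c i4.top (s h1) (s h2')) (r3 a ha) (i2 a ha)
        (l5 N₂ (fun _ h => h) ((h3 a ha).2.2.1 N₂ (i3 i4.rk.mem)))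
        (l4 _ (rs_mem _ _) (g₂.rs _ ξ (i2 a ha) (s h1)) (r2 a ha)))
    exact ⟨r, l6⟩
  choose! r₂ t1 t2 t3 t4 using key
  have lb : ∀ a ∈ A, LB (PP X ζ) N (r₂ a) g₁ := fun a ha => (r4 a ha).mono (t3 a ha)
  have hs : B₁.sep (cd ζ ∈ ·) ⊆ B₁ := fun M hM => (ZFSet.mem_sep.1 hM).1
  obtain ⟨B', u1, u2, r, u3, u4⟩ := c.sc ζ hD' S β (B₁.sep (cd ζ ∈ ·)) N N₂ (A.map r₂) p hT.ct hT.mem
    (j4.restrict h2' (fun M hM => (c.gd (hT.gd M (j3 hM))).m0)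
      fun M hM B' k k' => (c.gd (hT.gd M (j3 hM))).sep _ k' B' k)
    (fun M hM => ⟨hT.gd M (j3 (hs hM)), (ZFSet.mem_sep.1 hM).2⟩) i4.top (s h2') i4.mem
    (g₂.sep _ (s h2') B₁ i5) i6 (by simpa using hA) (by
      simp only [List.forall_mem_map]
      exact fun a ha => ⟨t2 a ha, t4 a ha, fun M hM => (lb a ha).tg (j4.sub (hs hM)) (j5 M (hs hM)),
        lb a ha _ (rs_mem _ _) (g.rs p ζ hp' h2') j2, fun a' ha' => (lb a ha).trans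
          ((lb a' ha').symm (t2 a' ha') (j5 N j4.mem) (g.cmp ζ h2'))⟩) hp hp'
  simp only [List.forall_mem_map] at u3 u4
  obtain ⟨a₀, ha₀⟩ := List.exists_mem_of_ne_nil A hA
  refine ⟨r (r₂ a₀), B', (u3 a₀ ha₀).1, (u3 a₀ ha₀).2.2, fun M hM => j3 (hs (u1 hM)), u2,
    fun M hM u hu hd => ?_, fun a ha q hq k => ⟨amal ξ q (r (r₂ a)),
      amal_mem q (u3 a ha).1 (hξ.trans le_self_add), (rs_amal hq _).le, LB.mono ?_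
        (amal_le_right ?_)⟩⟩
  · obtain ⟨w, l1, l2, l3, l4⟩ := u4 M hM u hu hd
    exact ⟨w, l1, l2, l3, l4 a₀ ha₀⟩
  · intro p' l1 l2 l3
    obtain ⟨u, m1, m2, m3⟩ := g.cmp _ h2 p' l2 (dns_cmp p')
    obtain ⟨w, m4, m5, m6, m7⟩ := u4 N u2.mem u m1 m2
    obtain ⟨_, -, m8⟩ := m3 w m4 m5 m6
    exact (m7 a ha).trans (m8.resolve_right fun k' => k' ⟨_, (u3 a₀ ha₀).1, m7 a₀ ha₀, l3⟩)
  · rw [← rs_rs_le _ hξ, (u3 a ha).2.1]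
    exact k.trans (t1 a ha)

/-- extending the condition in the small model: one dense set and one piece of the tower -/
theorem pstep (c : Ctx X G) (hξ : ξ ≤ η) (hD : Dist (PP X ξ)) (hK : ∀ β' < β, KL X G ξ η β')
    (hT : Tw G S β B N) (h1 : cd ξ ∈ N) (h2 : cd η ∈ N) (hp : p ∈ PP X η) (hp' : cd p ∈ N)
    (ha : a ∈ PP X ξ) (h3 : ∀ M ∈ B, TG (PP X ξ) a M) (h4 : a ≤ rs p ξ) {x : U} (hx : x ∈ N) :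
    ∃ p' ∈ PP X η, cd p' ∈ N ∧ p' ≤ p ∧ a ≤ rs p' ξ ∧
      (Dns (PP X η) (fun w => cd w ∈ x) → ∃ w ∈ PP X η, cd w ∈ x ∧ cd w ∈ N ∧ p' ≤ w) ∧
      ∃ B' ⊆ B, (∀ M ∈ B', TG (PP X η) p' M) ∧ ∀ β' < β, cd β' ∈ S → ∀ y : U, x = cd (β', y) →
        ∃ M ∈ N, B' ∈ N ∧ y ∈ M ∧ Rk S β' B' M := by
  have g := c.gd hT.top
  obtain ⟨p₁, k1, k2, k3, k4, k5⟩ : ∃ p₁, cd p₁ ∈ N ∧ a ≤ rs p₁ ξ ∧ p₁ ∈ PP X η ∧ p₁ ≤ p ∧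
      (Dns (PP X η) (fun w => cd w ∈ x) → cd p₁ ∈ x) := by
    by_cases hd : Dns (PP X η) fun w => cd w ∈ x
    · obtain ⟨r, j1, j2, j3, j4, j5⟩ := use_psi (y := (η, x, p)) (g.c3 ξ h1) (h3 N hT.rk.mem) ha
        (by simpa only [g.m0.prod, cd_U] using ⟨h2, hx, hp'⟩) (g.rs p ξ hp' h1) h4 fun q hq k =>
          let ⟨w, i1, i2, i3⟩ := hd _ (amal_mem q hp hξ)
          ⟨w, rs_le_of_le (i2.trans (amal_le_left hq p)) hq, i1, i2.trans (amal_le_right k), i3⟩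
      exact ⟨r, j1, j2, j3, j4, fun _ => j5⟩
    · exact ⟨p, hp', h4, hp, le_rfl, fun h => absurd h hd⟩
  by_cases ht : ∃ β' < β, cd β' ∈ S ∧ ∃ y : U, x = cd (β', y)
  swap
  · exact ⟨p₁, k3, k1, k4, k2, fun hd => ⟨p₁, k3, k5 hd, k1, le_rfl⟩, ∅, ZFSet.empty_subset _,
      by simp, fun β' j1 j2 y j3 => absurd ⟨β', j1, j2, y, j3⟩ ht⟩
  obtain ⟨β', j1, j2, y, rfl⟩ := ht
  obtain ⟨M, B₁, i1, i2, i3, i4, i5⟩ := hT.wit c j1 j2 (x := cd (y, ξ, η, p₁))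
    (by simpa only [g.m0.prod, cd_U] using ⟨(g.m0.prod.1 hx).2, h1, h2, k1⟩)
  simp only [(c.gd i5.top).m0.prod, cd_U] at i3
  obtain ⟨z, l1, l2, l3, l4, l5, l6, l7⟩ := (hK β' j1).inside c hD i5 hT.top i1 i2
    (g.m0.prod.1 hx).1 i3.2.1 i3.2.2.1 k3 i3.2.2.2 ha (fun M hM => h3 M (i4 hM)) (h3 N hT.rk.mem) k2
  have l8 := g.m0.prod.1 (show cd (z.1, z.2) ∈ N from l1)
  refine ⟨z.1, l5, l8.1, le_trans l6 k4, l2, fun hd => ⟨p₁, k3, k5 hd, k1, l6⟩, z.2,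
    fun M hM => i4 (l3 hM), l7, fun β'' _ _ y' e => ?_⟩
  obtain ⟨rfl, rfl⟩ := Prod.mk.inj (Cd.inj e)
  exact ⟨M, i1, l8.2, i3.1, l4⟩

/-- thinning a tower for finitely many candidates -/
theorem thin (c : Ctx X G) (h : KL X G ξ η β) (hD : Dist (PP X ξ)) (hK : G K) (hm : N ∈ K)
    (hβ : cd β ∈ K) (h1 : cd ξ ∈ N) (h2 : cd η ∈ N) (r : X → X) (A : List X) : ∀ B, Tw G S β B N →
      B ∈ K → (∀ a ∈ A, a ∈ PP X ξ ∧ TG (PP X ξ) a K ∧ (∀ M ∈ B, TG (PP X ξ) a M) ∧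
        r a ∈ PP X η ∧ cd (r a) ∈ N ∧ a ≤ rs (r a) ξ) →
      ∃ B' ∈ K, B' ⊆ B ∧ Rk S β B' N ∧ ∀ a ∈ A, ∃ r' ∈ PP X η, cd r' ∈ K ∧ r' ≤ r a ∧
        a ≤ rs r' ξ ∧ ∀ M ∈ B', TG (PP X η) r' M := by
  induction A with
  | nil => exact fun B hT hB _ => ⟨B, hB, fun _ h => h, hT.rk, by simp⟩
  | cons a A ih =>
    intro B hT hB h3
    rw [List.forall_mem_cons] at h3
    obtain ⟨⟨k1, k2, k3, k4, k5, k6⟩, h3⟩ := h3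
    obtain ⟨z, l1, l2, l3, l4, l5, l6, l7⟩ := h.inside c hD hT hK hm hB hβ h1 h2 k4 k5 k1 k3 k2 k6
    have l8 := (c.gd hK).m0.prod.1 (show cd (z.1, z.2) ∈ K from l1)
    obtain ⟨B', j1, j2, j3, j4⟩ := ih z.2 (hT.sub l3 (fun _ => hT.mem) l4) l8.2 fun b hb =>
      ⟨(h3 b hb).1, (h3 b hb).2.1, fun M hM => (h3 b hb).2.2.1 M (l3 hM), (h3 b hb).2.2.2⟩
    exact ⟨B', j1, fun M hM => l3 (j2 hM), j3, List.forall_mem_cons.2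
      ⟨⟨z.1, l5, l8.1, l6, l2, fun M hM => l7 M (j2 hM)⟩, j4⟩⟩

/-- the state of the construction at a limit stage -/
structure Sta (X : Type 1) where
  g : X
  B : U
  p : X
  V : U
  b : U → Set X

/-- the conditions that can be extended -/
def Qn (N N₂ N₃ N₄ : U) (ξ : Ordinal.{0}) (s : Sta X) (q : X) : Prop :=
  q ∈ PP X ξ ∧ FG (PP X ξ) q s.b N₃ ∧ Gen (PP X ξ) q N₄ ∧ Gen (PP X ξ) q N₂ ∧
    (∀ M ∈ s.V, Gen (PP X ξ) q M) ∧ LB (PP X ξ) N q s.g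

/-- the invariant -/
structure Inv (G : U → Prop) (S : U) (β η : Ordinal.{0}) (N N₁ N₂ N₃ N₄ : U) (ξ : Ordinal.{0})
    (s : Sta X) : Prop where
  B : s.B ∈ N₁
  tw : Tw G S β s.B N
  g : s.g ∈ PP X ξ
  tg : ∀ M ∈ s.B, TG (PP X ξ) s.g M
  p : s.p ∈ PP X η
  p' : cd s.p ∈ N
  le : s.g ≤ rs s.p ξ
  V : s.V ∈ N₂
  tv : Tw G N η s.V N₁
  b : Bd (PP X ξ) N₃ s.b
  ne : ∃ q, Qn N N₂ N₃ N₄ ξ s q

theorem step (c : Ctx X G)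
    (ih : ∀ ζ < η, Dist (PP X ζ) ∧ ∀ ξ ≤ ζ, ∀ β, EE X G ξ ζ β ∧ KL X G ξ ζ β) {N₁ N₂ N₃ N₄ : U}
    (g₂ : G N₂) (g₃ : G N₃) (g₄ : G N₄) (m₂ : N₁ ∈ N₂) (m₃ : N₂ ∈ N₃) (m₄ : N₃ ∈ N₄)
    (hβ : cd β ∈ N₁) (hη : cd η ∈ N) (hξ : ξ ≤ ζ) (hζ : ζ + 1 < η) (h1 : cd ξ ∈ N) (h2 : cd ζ ∈ N)
    {s : Sta X} (h : Inv G S β η N N₁ N₂ N₃ N₄ ξ s) (hp : p ∈ PP X η) (hp' : cd p ∈ N)
    (h3 : s.g ≤ rs p ξ) : ∃ s', Inv G S β η N N₁ N₂ N₃ N₄ ζ s' ∧ s'.p = p ∧ s'.B ⊆ s.B ∧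
      ∀ q, Qn N N₂ N₃ N₄ ξ s q → ∃ q', Qn N N₂ N₃ N₄ ζ s' q' ∧ rs q' ξ = q := by
  have := Itr.ne (X := X)
  have hζ' : ζ < η := (lt_add_one ζ).trans hζ
  have hD := (ih ξ (hξ.trans_lt hζ')).1
  have hE := fun β => ((ih ζ hζ').2 ξ hξ β).1
  have hK := fun β => ((ih ζ hζ').2 ξ hξ β).2
  have g := c.gd h.tw.top
  have g₁ := c.gd h.tv.top
  have s₁ := c.sub h.tw.top h.tv.top h.tv.mem
  have s₂ := c.sub h.tv.top g₂ m₂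
  have s₃ := c.sub g₂ g₃ m₃
  have s₄ := c.sub g₃ g₄ m₄
  -- the candidates
  obtain ⟨u, u1, u2, u3⟩ := (c.gd g₃).dec ξ (s₃ (s₂ (s₁ h1))) N₂ m₃ fun q hq =>
    let ⟨w, k1, k2, k3⟩ := hD.dec (c.gd g₂).m0.ctble q hq; ⟨w, k1, k2, (), k3⟩
  have fin : {w ∈ s.b u | ∃ q, Qn N N₂ N₃ N₄ ξ s q ∧ Cmp (PP X ξ) w q}.Finite :=
    (h.b u).1.subset fun _ k => k.1
  obtain ⟨A, hA⟩ : ∃ A : List X, ∀ w, w ∈ A ↔
      w ∈ s.b u ∧ ∃ q, Qn N N₂ N₃ N₄ ξ s q ∧ Cmp (PP X ξ) w q :=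
    ⟨fin.toFinset.toList, fun w => by simp⟩
  have pre : ∀ q, Qn N N₂ N₃ N₄ ξ s q → ∀ a ∈ PP X ξ, a ≤ q → ∃ w ∈ A, Cmp (PP X ξ) a w :=
    fun q hq a ha k =>
      let ⟨w, k1, d, k2, k3, k4⟩ := hq.2.1 u u1 u2 a ha k
      ⟨w, (hA w).2 ⟨k1, q, hq, d, k2, k4, k3.trans k⟩, d, k2, k3, k4⟩
  have hw : ∀ w ∈ A, w ∈ PP X ξ ∧ cd w ∈ N₃ ∧ TG (PP X ξ) w N₂ ∧ (∀ M ∈ s.V, TG (PP X ξ) w M) ∧
      LB (PP X ξ) N w s.g := fun w hw => by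
    obtain ⟨k1, q, hq, k2⟩ := (hA w).1 hw
    obtain ⟨k3, k4, k5⟩ := (h.b u).2 w k1
    obtain ⟨_, -, k6⟩ := u3 w k3 k4 k5
    refine ⟨k3, k5, Dec.tg k6 (fun _ h => h) hq.2.2.2.1 k2, fun M hM =>
      Dec.tg k6 (fun _ k => s₂ (h.tv.rk.sub hM k)) (hq.2.2.2.2.1 M hM) k2, fun p' j1 j2 j3 => ?_⟩
    obtain ⟨d, j4, j5, j6⟩ := k2
    exact Dec.le k6 j1 (s₂ (s₁ j2)) ⟨d, j4, j5, j6.trans (hq.2.2.2.2.2 p' j1 j2 j3)⟩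
  have hA0 : A ≠ [] := by
    obtain ⟨q, hq⟩ := h.ne
    obtain ⟨w, k, -⟩ := pre q hq q hq.1 le_rfl
    exact List.ne_nil_of_mem k
  have sy : ∀ w ∈ A, LB (PP X ξ) N s.g w := fun w k =>
    (hw w k).2.2.2.2.symm (hw w k).1 (h.tg N h.tw.rk.mem) (g.cmp ξ h1)
  -- the new filter on the small model
  obtain ⟨N', V', k1, -, k2, k3, k4⟩ := h.tv.wit c hζ ((g.succ ζ).1 h2) (x := cd (s.B, β))
    (g₁.m0.prod.2 ⟨h.B, hβ⟩)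
  rw [(c.gd k4.top).m0.prod] at k2
  obtain ⟨g', B', j0, j1, j2, j3, j4, j5, j6⟩ := (hE β).inside c hD h.tw k4 h.tv.top k1 k2.1 k2.2 h1
    h2 (rs_mem p ζ) (g.rs p ζ hp' h2) hA0 fun w k => ⟨(hw w k).1, (hw w k).2.2.2.1 _ h.tv.rk.mem,
      fun M hM => (hw w k).2.2.2.2.tg (h.tw.rk.sub hM) (h.tg M hM),
      fun M hM => (hw w k).2.2.2.1 M (k3 hM),
      (rs_rs_le p hξ).symm ▸ (hw w k).2.2.2.2 _ (rs_mem _ _) (g.rs p ξ hp' h1) h3,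
      fun w' k' => (hw w k).2.2.2.2.trans (sy w' k')⟩
  choose! r₁ r1 r2 r3 r4 using j6
  obtain ⟨V₁, i1, i2, i3, i4⟩ := thin c (hK η) hD g₂ m₂ (s₂ (s₁ hη)) (s₁ h1) (s₁ h2) r₁ A s.V h.tv
    h.V fun w k => ⟨(hw w k).1, (hw w k).2.2.1, (hw w k).2.2.2.1, r3 w k, r1 w k, r2 w k⟩
  choose! r₂ t1 t2 t3 t4 t5 using i4
  -- the finite set of extensions
  have key : ∀ w ∈ A, ∃ u ∈ N₃, Dns (PP X ξ) (fun v => cd v ∈ u) ∧ ∀ v ∈ PP X ξ, cd v ∈ u →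
      cd v ∈ N₃ → Cmp (PP X ξ) v w → ∃ z, cd z ∈ N₃ ∧ psi id R4 ξ (ζ, N₂, r₂ w) v z := fun w k =>
    (c.gd g₃).c4 ξ (s₃ (s₂ (s₁ h1))) (ζ, N₂, r₂ w) w
      (by simpa only [(c.gd g₃).m0.prod, cd_U] using ⟨s₃ (s₂ (s₁ h2)), m₃, s₃ (t2 w k)⟩)
      (hw w k).2.1 fun q hq l =>
        let ⟨z, l1, l2⟩ := kl0_dns ((hK 0).kl0 c g₂ (s₂ (s₁ h1)) (s₂ (s₁ h2))) (t1 w k) (t2 w k)
          (hw w k).2.2.1 (t4 w k) q hq l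
        ⟨_, rs_mem _ _, l1, z, le_rfl, l2⟩
  choose! v v1 v2 v3 using key
  choose! t w1 w2 using v3
  let Δ : Set X := ⋃ w ∈ {w | w ∈ A}, t w '' {y ∈ s.b (v w) | Cmp (PP X ξ) y w}
  have hΔ : ∀ z ∈ Δ, ∃ w ∈ A, cd z ∈ N₃ ∧ R4 (ζ, N₂, r₂ w) z := fun z hz => by
    obtain ⟨w, k, y, ⟨l1, l2⟩, rfl⟩ := mem_iUnion₂.1 hz
    obtain ⟨l3, l4, l5⟩ := (h.b _).2 y l1
    exact ⟨w, k, w1 w k y l3 l4 l5 l2, (w2 w k y l3 l4 l5 l2).2⟩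
  obtain ⟨b', o1, o2⟩ := c.cc N₃ N₄ ξ ζ g₃ g₄ m₄ hξ (s₃ (s₂ (s₁ h1))) (s₃ (s₂ (s₁ h2))) hD
    ((hK 0).kl0 c g₃ (s₃ (s₂ (s₁ h1))) (s₃ (s₂ (s₁ h2))))
    (c.aa g₄ ζ (s₄ (s₃ (s₂ (s₁ h2)))) (fun θ l1 l2 => ⟨(ih θ (l1.trans hζ')).1,
      ((ih (θ + 1) ((Order.add_one_le_of_lt l1).trans_lt hζ')).2 θ le_self_add 0).2.kl0 c g₄ l2
        (((c.gd g₄).succ θ).1 l2)⟩) ξ hξ (s₄ (s₃ (s₂ (s₁ h1))))) s.b h.b Δ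
    ((List.finite_toSet A).biUnion fun w _ => ((h.b _).1.subset fun _ k => k.1).image _)
    fun z hz => let ⟨_, _, l1, l2⟩ := hΔ z hz; ⟨l2.1, l1⟩
  have ext : ∀ q, Qn N N₂ N₃ N₄ ξ s q →
      ∃ q', Qn N N₂ N₃ N₄ ζ ⟨g', B', p, V₁, b'⟩ q' ∧ rs q' ξ = q := fun q hq => by
    obtain ⟨q', l1, l2, l3, l4, l5⟩ := o2 q hq.1 hq.2.1 hq.2.2.1 fun a ha k => by
      obtain ⟨w, k1, d, k2, k3, k4⟩ := pre q hq a ha k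
      obtain ⟨y, k5, e, k6, k7, k8⟩ := hq.2.1 _ (v1 w k1) (v2 w k1) d k2 (k3.trans k)
      obtain ⟨l3, l4, l5⟩ := (h.b _).2 y k5
      have l2 : Cmp (PP X ξ) y w := ⟨e, k6, k8, k7.trans k4⟩
      exact ⟨t w y, mem_iUnion₂.2 ⟨w, k1, y, ⟨k5, l2⟩, rfl⟩, e, k6, k7.trans k3,
        k8.trans (w2 w k1 y l3 l4 l5 l2).1⟩
    have gen : ∀ M, (∀ z ∈ Δ, TG (PP X ζ) z M) → Gen (PP X ζ) q' M := fun M hM u k1 k2 d hd k3 => by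
      obtain ⟨a, k4, k5, z, k6, k7⟩ := l5 _ (rs_mem d ξ) (l2 ▸ Itr.rs_mono ξ k3)
      obtain ⟨w, k8, k9, k10, k11⟩ := hM z k6 u k1 k2
      exact ⟨w, k8, k9, k10, amal ξ a d, amal_mem a hd hξ, amal_le_right k5,
        ((amal_mono k4 k5 k3).trans k7).trans k11⟩
    refine ⟨q', ⟨l1, l4, l3, gen _ fun z hz => let ⟨_, _, _, k⟩ := hΔ z hz; k.2.2,
      fun M hM => gen M fun z hz => let ⟨w, k, _, k'⟩ := hΔ z hz; (t5 w k M hM).mono k'.2.1,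
      fun p' k1 k2 k3 => Itr.reg ξ q' p' ?_ fun a ha k => ?_⟩, l2⟩
    · obtain ⟨w, k4⟩ := List.exists_mem_of_ne_nil A hA0
      rw [l2]
      exact hq.2.2.2.2.2 _ (rs_mem _ _) (g.rs p' ξ k2 h1) (sy w k4 _ (rs_mem _ _) (g.rs p' ξ k2 h1)
        ((r2 w k4).trans (Itr.rs_mono ξ (r4 w k4 p' k1 k2 k3))))
    · obtain ⟨a', k4, k5, z, k6, k7⟩ := l5 a ha (l2 ▸ k)
      obtain ⟨w, k8, -, k9⟩ := hΔ z k6
      exact ⟨a', k4, k5, k7.trans (k9.2.1.trans ((t3 w k8).trans (r4 w k8 p' k1 k2 k3)))⟩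
  obtain ⟨q, hq⟩ := h.ne
  obtain ⟨q', hq', -⟩ := ext q hq
  exact ⟨⟨g', B', p, V₁, b'⟩, ⟨j0, h.tw.sub j3 (fun _ => h.tw.mem) j4, j1, j5, hp, hp', j2, i1,
    h.tv.sub i2 (fun _ => h.tv.mem) i3, o1, q', hq'⟩, rfl, j3, ext⟩

theorem exists_cof (hN : Mod0 N) (hξ : ξ < η) (h1 : cd ξ ∈ N) : ∃ γ : ℕ → Ordinal.{0}, γ 0 = ξ ∧
    Monotone γ ∧ (∀ n, γ n < η ∧ cd (γ n) ∈ N) ∧ ∀ ζ < η, cd ζ ∈ N → ∃ n, ζ ≤ γ n := by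
  obtain ⟨f, hf⟩ := ((hN.ctble' Ordinal.{0}).mono (s₁ := {ζ | ζ < η ∧ cd ζ ∈ N})
    fun _ h => h.2).exists_eq_range ⟨ξ, hξ, h1⟩
  have hf' : ∀ n, f n < η ∧ cd (f n) ∈ N := fun n =>
    (hf ▸ ⟨n, rfl⟩ : f n ∈ {ζ | ζ < η ∧ cd ζ ∈ N})
  refine ⟨fun n => Nat.rec ξ (fun n γ => max γ (f n)) n, rfl,
    monotone_nat_of_le_succ fun n => le_max_left _ _, fun n => ?_, fun ζ k1 k2 => ?_⟩
  · induction n with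
    | zero => exact ⟨hξ, h1⟩
    | succ n ih =>
      change max _ _ < η ∧ cd (max _ _) ∈ N
      rcases max_choice (Nat.rec ξ (fun n γ => max γ (f n)) n : Ordinal.{0}) (f n) with e | e <;>
        rw [e]
      exacts [ih, hf' n]
  · obtain ⟨n, rfl⟩ : ζ ∈ range f := hf ▸ ⟨k1, k2⟩
    exact ⟨n + 1, le_max_right _ _⟩

theorem ee_lim (c : Ctx X G)
    (ih : ∀ ζ < η, Dist (PP X ζ) ∧ ∀ ξ ≤ ζ, ∀ β, EE X G ξ ζ β ∧ KL X G ξ ζ β)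
    (hl : ∀ ζ < η, ζ + 1 < η) (hξ : ξ < η) (hK : ∀ β' < β, ∀ ξ ≤ η, KL X G ξ η β') :
    EE X G ξ η β := by
  classical
  intro S B N V K A p hT hV hB hβ h1 h2 hp hp' hA h3
  have := Itr.ne (X := X)
  have g := c.gd hT.top
  have gK := c.gd hV.top
  obtain ⟨N₁, V₁, k1, k2, k3, k4, k5⟩ := hV.wit c (lt_add_one η) h2 (x := cd (B, β))
    (gK.m0.prod.2 ⟨hB, hβ⟩)
  rw [(c.gd k5.top).m0.prod] at k3
  obtain ⟨N₂, _, l1, -, l3, l4, l5⟩ := hV.wit c (lt_add_one η) h2 (x := cd (N₁, V₁))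
    (gK.m0.prod.2 ⟨k1, k2⟩)
  rw [(c.gd l5.top).m0.prod] at l3
  obtain ⟨N₃, _, m1, -, m3, m4, m5⟩ := hV.wit c (lt_add_one η) h2 l1
  obtain ⟨N₄, _, -, -, n3, n4, n5⟩ := hV.wit c (lt_add_one η) h2 m1
  obtain ⟨γ, γ0, γ1, γ2, γ3⟩ := exists_cof g.m0 hξ h1
  obtain ⟨e, e1, e2⟩ := g.m0.enum
  obtain ⟨a₀, ha₀⟩ := List.exists_mem_of_ne_nil A hA
  obtain ⟨g₀, i1, -, i2, i3, i4⟩ := exists_b c (ih ξ hξ).1 hT.top hV.top hV.mem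
    (c.sub hT.top hV.top hV.mem h1) (h3 a₀ ha₀).1 ((h3 a₀ ha₀).2.2.1 K hV.rk.mem)
  choose! w w1 w2 w3 w4 using fun a (ha : a ∈ A) => (h3 a ha).2.2.1 N₃ (m4 m5.rk.mem)
  let s₀ : Sta X := ⟨g₀, B, p, V₁, fun u =>
    {y | ∃ a ∈ A, (u ∈ N₃ ∧ Dns (PP X ξ) fun w => cd w ∈ u) ∧ w a u = y}⟩
  have q0 : ∀ a ∈ A, ∀ q ∈ PP X ξ, q ≤ a → Qn N N₂ N₃ N₄ ξ s₀ q := fun a ha q hq k =>
    ⟨hq, fun u j1 j2 q' j3 j4 => ⟨w a u, ⟨a, ha, ⟨j1, j2⟩, rfl⟩, q', j3, le_rfl,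
      (j4.trans k).trans (w4 a ha u j1 j2)⟩, (((h3 a ha).2.2.1 _ (n4 n5.rk.mem)).mono k).gen,
      (((h3 a ha).2.2.1 _ (l4 l5.rk.mem)).mono k).gen,
      fun M hM => (((h3 a ha).2.2.1 M (k4 hM)).mono k).gen,
      (((h3 a ha).2.2.2.2 a₀ ha₀).trans (LB.of_le i2)).mono k⟩
  obtain ⟨s, s0, hs⟩ := rec_choice
    (fun n (s : Sta X) => Inv G S β η N N₁ N₂ N₃ N₄ (γ n) s ∧ s.B ⊆ B)
    (fun n s s' => s'.p ≤ s.p ∧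
      (Dns (PP X η) (fun w => cd w ∈ e n) → ∃ w ∈ PP X η, cd w ∈ e n ∧ cd w ∈ N ∧ s'.p ≤ w) ∧
      (∃ B' ⊆ B, (∀ M ∈ B', TG (PP X η) s'.p M) ∧ ∀ β' < β, cd β' ∈ S → ∀ y : U,
        e n = cd (β', y) → ∃ M ∈ N, B' ∈ N ∧ y ∈ M ∧ Rk S β' B' M) ∧
      ∀ q, Qn N N₂ N₃ N₄ (γ n) s q → ∃ q', Qn N N₂ N₃ N₄ (γ (n + 1)) s' q' ∧ rs q' (γ n) = q) s₀
    ⟨γ0 ▸ ⟨k3.1, hT, i1, fun M hM => i4 M (hT.rk.sub hM) ((h3 a₀ ha₀).2.1 M hM), hp, hp',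
      i3 _ (rs_mem _ _) (g.rs p ξ hp' h1) (h3 a₀ ha₀).2.2.2.1, l3.2, k5, fun u =>
        ⟨((List.finite_toSet A).image (w · u)).subset fun y ⟨a, j1, _, j2⟩ => ⟨a, j1, j2⟩,
          fun y ⟨a, j1, j2, j3⟩ => j3 ▸ ⟨w1 a j1 u j2.1 j2.2, w2 a j1 u j2.1 j2.2,
            w3 a j1 u j2.1 j2.2⟩⟩, a₀, q0 a₀ ha₀ a₀ (h3 a₀ ha₀).1 le_rfl⟩, fun _ h => h⟩
    fun n s ⟨h, hs⟩ => by
      obtain ⟨p', j1, j2, j3, j4, j5, B', j6, j7⟩ := pstep c (γ2 n).1.le (ih _ (γ2 n).1).1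
        (fun β' k => hK β' k _ (γ2 n).1.le) h.tw (γ2 n).2 h2 h.p h.p' h.g h.tg h.le (e1 n)
      obtain ⟨s', o1, rfl, o2, o3⟩ := step c ih l5.top m5.top n5.top l3.1 m3 n3 k3.2 h2
        (γ1 n.le_succ) (hl _ (γ2 (n + 1)).1) (γ2 n).2 (γ2 (n + 1)).2 h j1 j2 j4
      exact ⟨s', ⟨o1, fun M hM => hs (o2 hM)⟩, j3, j5, ⟨B', fun M hM => hs (j6 hM), j7⟩, o3⟩
  have anti : Antitone fun n => (s n).p := antitone_nat_of_succ_le fun n => (hs n).2.1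
  have lim : ∀ a ∈ A, ∀ q ∈ PP X ξ, q ≤ a → ∃ r ∈ PP X η, rs r ξ = q ∧ ∀ n, r ≤ (s n).p := by
    intro a ha q hq k
    obtain ⟨f, f0, hf⟩ := rec_choice (fun n q => Qn N N₂ N₃ N₄ (γ n) (s n) q)
      (fun n q q' => rs q' (γ n) = q) q (by rw [s0, γ0]; exact q0 a ha q hq k)
      fun n => (hs n).2.2.2.2
    obtain ⟨r, r1, r2⟩ := Itr.lim γ f γ1 (fun n => (hf n).1.1) fun n => (hf n).2
    refine ⟨r, (Itr.rs_eq_iff r η).2 fun ζ j => let ⟨n, j'⟩ := r2 ζ j; j'.trans (γ2 n).1,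
      by rw [← γ0, r1, f0], fun n => Itr.le_of_supp _ _ fun ζ j => ?_⟩
    obtain ⟨m, hm⟩ := γ3 (ζ + 1) (hl ζ ((Itr.rs_eq_iff _ η).1 (hs n).1.1.p ζ j))
      ((g.succ ζ).1 (g.supp _ (hs n).1.1.p' ζ j))
    have j1 := hm.trans (γ1 (le_max_left m n))
    have j2 := (hs (max m n)).1.1
    rw [← rs_rs_le r j1, ← rs_rs_le (s n).p j1, r1]
    exact Itr.rs_mono _ (((hf _).1.2.2.2.2.2 _ (rs_mem _ _) (g.rs _ _ j2.p' (γ2 _).2) j2.le).trans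
      (Itr.rs_mono _ (anti (le_max_right m n))))
  obtain ⟨r₀, j1, -, j2⟩ := lim a₀ ha₀ a₀ (h3 a₀ ha₀).1 le_rfl
  choose C C1 C2 C3 using fun n => (hs n).2.2.2.1
  have tg : ∀ r, (∀ n, r ≤ (s n).p) → ∀ u ∈ N, Dns (PP X η) (fun w => cd w ∈ u) →
      ∃ w ∈ PP X η, cd w ∈ u ∧ cd w ∈ N ∧ ∀ r, (∀ n, r ≤ (s n).p) → r ≤ w := fun r _ u j3 j4 => by
    obtain ⟨n, rfl⟩ := e2 u j3
    obtain ⟨w, j5, j6, j7, j8⟩ := (hs n).2.2.1 j4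
    exact ⟨w, j5, j6, j7, fun r k => (k _).trans j8⟩
  have sub : insert N (ZFSet.iUnion C) ⊆ B := fun M hM => by
    rcases ZFSet.mem_insert_iff.1 hM with rfl | hM
    · exact hT.rk.mem
    · exact let ⟨n, hn⟩ := ZFSet.mem_iUnion.1 hM; C1 n hn
  refine ⟨r₀, insert N (ZFSet.iUnion C), j1, by simpa only [s0] using j2 0, sub,
    rk_iff.2 ⟨ZFSet.mem_insert _ _, fun M hM => hT.rk.sub (sub hM), fun β' j3 j4 y hy => ?_⟩,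
    fun M hM => ?_, fun a ha q hq k => ?_⟩
  · obtain ⟨n, hn⟩ := e2 (cd (β', y)) (g.m0.prod.2 ⟨g.m0.sub S hT.mem hT.ct j4, hy⟩)
    obtain ⟨M, j5, j6, j7, j8⟩ := C3 n β' j3 j4 y hn
    exact ⟨M, C n, j5, j6, j7, fun M hM =>
      ZFSet.mem_insert_of_mem _ (ZFSet.mem_iUnion.2 ⟨n, hM⟩), j8⟩
  · rcases ZFSet.mem_insert_iff.1 hM with rfl | hM
    · exact fun u j3 j4 => let ⟨w, j5, j6, j7, j8⟩ := tg r₀ j2 u j3 j4; ⟨w, j5, j6, j7, j8 r₀ j2⟩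
    · exact let ⟨n, hn⟩ := ZFSet.mem_iUnion.1 hM; (C2 n M hn).mono (j2 _)
  · obtain ⟨r, j3, j4, j5⟩ := lim a ha q hq k
    refine ⟨r, j3, j4.le, fun p' j6 j7 j8 => ?_⟩
    obtain ⟨u, o1, o2, o3⟩ := g.cmp η h2 p' j7 (dns_cmp p')
    obtain ⟨w, o4, o5, o6, o7⟩ := tg r j5 u o1 o2
    obtain ⟨_, -, o8⟩ := o3 w o4 o5 o6
    exact (o7 r j5).trans (o8.resolve_right fun k' => k' ⟨r₀, j1, o7 r₀ j2, j8⟩)

theorem main (c : Ctx X G) (η : Ordinal.{0}) :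
    Dist (PP X η) ∧ ∀ ξ ≤ η, ∀ β, EE X G ξ η β ∧ KL X G ξ η β := by
  induction η using WellFoundedLT.induction with
  | _ η ih =>
    suffices H : ∀ β, ∀ ξ ≤ η, EE X G ξ η β ∧ KL X G ξ η β from
      ⟨(H 0 0 zero_le).2.dist c, fun ξ h β => H β ξ h⟩
    intro β
    induction β using WellFoundedLT.induction with
    | _ β ih' =>
      intro ξ hξ
      rcases hξ.eq_or_lt with rfl | hξ
      · exact ⟨ee_refl, kl_refl⟩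
      suffices H : EE X G ξ η β from ⟨H, kl_of_ee c ((ih ξ hξ).2 0 zero_le _).2 H⟩
      by_cases hl : ∀ ζ < η, ζ + 1 < η
      · exact ee_lim c ih hl hξ fun β' k ξ' k' => (ih' β' k ξ' k').2
      · push Not at hl
        obtain ⟨ζ, k1, k2⟩ := hl
        obtain rfl := le_antisymm k2 (Order.add_one_le_of_lt k1)
        have k3 := Order.lt_add_one_iff.1 hξ
        exact ee_succ c k3 (ih ξ hξ).1 (ih ζ k1).1 ((ih ζ k1).2 ξ k3 β).1 ((ih ζ k1).2 ξ k3 0).2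

end

theorem iter' : IterStmt' := fun _ _ _ _ hS η =>
  let ⟨_, c⟩ := exists_ctx Ap.ap cs hS
  (main c η).1

open Pool.Agent.Ctry.Bridge (exists_inv tg_st lb_st)

theorem bridge' : BridgeStmt' := by
  intro X C _ _ _ _ _ g H ζ hD
  obtain ⟨Q, hQ, H⟩ := H ζ (g.dist_iff.2 hD)
  obtain ⟨iv, hiv⟩ := exists_inv g ζ
  have hiv' : ∀ a ∈ PP X ζ, g.ι (iv a) = a := fun a h => (hiv a).trans h
  have hF : ∀ u : U, ∃ u' : U, ∀ z : g.St ζ × C, cd z ∈ u' ↔ g.Val z.1 z.2 ∧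
      ∃ w, w ∈ PP X (ζ + 1) ∧ cd w ∈ u ∧ g.cond z.1 z.2 ≤ w := fun u => by
    have := g.small_val ζ
    have : Small.{0} {z : g.St ζ × C | g.Val z.1 z.2 ∧
        ∃ w, w ∈ PP X (ζ + 1) ∧ cd w ∈ u ∧ g.cond z.1 z.2 ≤ w} :=
      small_subset (s := {z : g.St ζ × C | g.Val z.1 z.2}) fun _ h => h.1
    exact (exists_code {z : g.St ζ × C | g.Val z.1 z.2 ∧
      ∃ w, w ∈ PP X (ζ + 1) ∧ cd w ∈ u ∧ g.cond z.1 z.2 ≤ w}).imp fun _ h => h.1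
  choose F hF using hF
  let ψ : X → X → C → Prop := fun p w c =>
    ∃ h : g.St ζ, g.ι h = w ∧ g.Val h c ∧ g.cond h c ≤ rs p (ζ + 1)
  let φ : (g.St ζ × C) × U → X → Prop := fun z w =>
    w ∈ PP X (ζ + 1) ∧ cd w ∈ z.2 ∧ g.cond z.1.1 z.1.2 ≤ w
  refine ⟨fun N => Q N ∧ Mod0 N ∧ CapB (PP X ζ) ψ N ∧ (∀ p : X, cd p ∈ N → cd (rs p ζ) ∈ N) ∧
    (∀ u : U, cd u ∈ N → cd (F u) ∈ N) ∧ El φ N, hQ.and (ev_mod0.and ((ev_capB _ _).and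
      ((ev_fun _).and ((ev_fun _).and (ev_el _))))),
    fun S β B N N' A p h1 h2 h3 h4 h5 h6 hB hβ h7 h8 h9 h10 => ?_⟩
  obtain ⟨a₀, ha₀⟩ := List.exists_mem_of_ne_nil A h7
  obtain ⟨-, -, j1, j2, -⟩ := h4 N h3.mem
  obtain ⟨i1, -, i2, i3, -⟩ := h8 a₀ ha₀
  obtain ⟨_, -, k1, k2, c₀, k3, h₀, rfl, k4, k5⟩ := (i2 N h3.mem).use j1 i1 h10 (j2 p h10) i3
    fun q hq k => by
      obtain ⟨q, rfl⟩ := g.ι_range.1 hq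
      obtain ⟨a, k1, c, k2, k3⟩ := g.exists_cond q p k
      exact ⟨g.ι a, g.ι_mem a, g.ι_le.2 k1, c, a, rfl, k2, k3⟩
  have k6 : ∀ a ∈ A, iv a ≤ h₀ := fun a ha => g.ι_le.1 ((hiv' a (h8 a ha).1).symm ▸
    (h8 a ha).2.2.2.2 a₀ ha₀ _ (g.ι_mem h₀) k1 k2)
  obtain ⟨B', l1, l2, c, l3, l4, l5⟩ := H S β B N N' (A.map iv) h₀ c₀ h1 h2 h3
    (fun M hM => (h4 M hM).1) h5.1 h6 hB hβ (by simpa using h7) (List.forall_mem_map.2 fun a ha => by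
      obtain ⟨m1, m2, m3, -, m4⟩ := h8 a ha
      refine ⟨tg_st g ((hiv' a m1).symm ▸ m2), fun M hM => tg_st g ((hiv' a m1).symm ▸ m3 M hM),
        k6 a ha, List.forall_mem_map.2 fun a' ha' => lb_st g ?_⟩
      rw [hiv' a m1, hiv' a' (h8 a' ha').1]
      exact m4 a' ha') (g.ι_cd h₀ ▸ k1) k3 k4
  have l6 : ∀ a ∈ A, g.Val (iv a) c := List.forall_mem_map.1 l4
  refine ⟨B', l1, l2, fun a => g.cond (iv a) c, fun a ha => ⟨g.cond_mem (l6 a ha),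
    (g.rs_cond (l6 a ha)).trans (hiv' a (h8 a ha).1),
    (g.cond_mono (l6 a ha) k4 (k6 a ha) l3).trans (pp_eq h9 ▸ k5)⟩, fun M hM u hu hd => ?_⟩
  obtain ⟨-, m1, -, -, m2, m3⟩ := h4 M (l1 hM)
  obtain ⟨h, c', n1, n2, n3, n4, n5⟩ := l5 M hM (F u) (m2 u hu) fun p₁ c₁ v => by
    obtain ⟨w, n1, n2, n3⟩ := hd _ (g.cond_mem v)
    obtain ⟨a, n4, c', n5, -, n6, n7⟩ := g.dir (iv w) w v v n2 n2 (hiv w).le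
    refine ⟨a, n4.trans (g.ι_le.1 ?_), c', n5, n6, (hF u (a, c')).2 ⟨n6, w, n1, n3, pp_eq n1 ▸ n7⟩⟩
    rw [hiv w, ← g.rs_cond v]
    exact Itr.rs_mono ζ n2
  obtain ⟨n6, n7⟩ := (hF u (h, c')).1 n1
  obtain ⟨w, o1, o2, o3, o4⟩ := m3 ((h, c'), u) (m1.prod.2 ⟨m1.prod.2 ⟨n2, n3⟩, hu⟩) n7
  exact ⟨w, o2, o3, o1, fun a ha =>
    (g.cond_mono (l6 a ha) n6 (n5 _ (List.mem_map_of_mem ha)) n4).trans o4⟩

end Pool.Agent.Ctry.AK.It
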