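import Pool.Agent.MP_b60a07_lc.AK.Basic

/-! The key lemma of PROJECT AK. -/

open Filter Set

namespace Pool.Agent.Ctry.AK.KL

/-- types of configurations -/
structure Ty : Type where
  m : ℕ
  n : ℕ
  i : Fin n → ℕ
  I : Fin n → Set (Fin m)
  O : Fin m → Set Cb
  JJ : Fin m → Set (Set (Fin n))

theorem ctble_ty (ρ : Om) : {τ : Ty | ∀ a, Bas ρ (τ.O a)}.Countable := by
  have := (ctble_bas ρ).to_subtype
  refine (countable_range fun x : Σ m : ℕ, Σ n : ℕ, (Fin n → ℕ) × (Fin n → Set (Fin m)) ×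
    (Fin m → {V | Bas ρ V}) × (Fin m → Set (Set (Fin n))) =>
      (⟨x.1, x.2.1, x.2.2.1, x.2.2.2.1, fun a => (x.2.2.2.2.1 a).1, x.2.2.2.2.2⟩ : Ty)).mono
    fun τ h => mem_range.2 ⟨⟨τ.m, τ.n, τ.i, τ.I, fun a => ⟨τ.O a, h a⟩, τ.JJ⟩, rfl⟩

variable {P : Type 1} [Preorder P] {D : Dt P} {Y : ℕ → Cand → P → Prop}

variable (D Y) in
/-- configurations -/
def Cf (τ : Ty) (β : Om) (t : Fin τ.m → Cb) (s : Om) (q : P) : Prop :=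
  (∀ a, D.T β (t a) q ∧ t a ∈ τ.O a) ∧ ∃ C : Fin τ.n → Set Cb, (∀ j, Bas s (C j)) ∧
    (∀ j, ∃ z, Y (τ.i j) z q ∧ Cnd D z q ∧ ∀ e ∈ z, β ≤ e.1 ∧
      (∃ a ∈ τ.I j, cut β e.2.1 = t a) ∧ e.2.2 ⊆ C j) ∧
    ∀ a, ∀ J ∈ τ.JJ a, Mis D.Lv (τ.O a ∩ ⋂ j ∈ J, C j) q

theorem Cf.mono (h0 : GS D) (hY : ∀ n, Opn (Y n)) {τ : Ty} {β s : Om} {t : Fin τ.m → Cb} {p q : P}
    (k : q ≤ p) (h : Cf D Y τ β t s p) : Cf D Y τ β t s q :=
  let ⟨h1, C, h2, h3, h4⟩ := h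
  ⟨fun a => ⟨h0.t_mono (h1 a).1 k, (h1 a).2⟩, C, h2,
    fun j => let ⟨z, j1, j2, j3⟩ := h3 j; ⟨z, hY _ z p q k j1, j2.mono h0 k, j3⟩,
    fun a J hJ => (h4 a J hJ).mono k⟩

variable (D Y) in
/-- the clauses that come from candidates -/
def ClA (δ : Om) {W : Set Cb} (k : ℕ) (z : Cand) (l : List ((W × Bool) × Set Cb)) (r : P) : Prop :=
  Y k z r ∧ Cnd D z r ∧ (∀ e ∈ z, δ ≤ e.1) ∧
    ∀ y, y ∈ l ↔ ∃ e ∈ z, ∃ e' ∈ z, y.1.1.1 = cut δ e.2.1 ∧ y.2 = e'.2.2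

variable (D Y) in
/-- all clauses -/
def Cl (δ : Om) (W : Set Cb) (l : List ((W × Bool) × Set Cb)) (r : P) : Prop :=
  (∃ k z, ClA D Y δ k z l r) ∨ ∃ j B, Bas δ B ∧ j.1.1 ∈ B ∧ l = [(j, B)]

theorem exists_cl (δ : Om) (W : Set Cb) (z : Cand) : ∃ l : List ((W × Bool) × Set Cb),
    ∀ y, y ∈ l ↔ ∃ e ∈ z, ∃ e' ∈ z, y.1.1.1 = cut δ e.2.1 ∧ y.2 = e'.2.2 := by
  have h : {y : (W × Bool) × Set Cb |
      ∃ e ∈ z, ∃ e' ∈ z, y.1.1.1 = cut δ e.2.1 ∧ y.2 = e'.2.2}.Finite :=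
    (((((List.finite_toSet z).image fun e : Lf => cut δ e.2.1).preimage
      (Subtype.val_injective (p := (· ∈ W))).injOn).prod (finite_univ (α := Bool))).prod
      ((List.finite_toSet z).image fun e : Lf => e.2.2)).subset
      fun y ⟨e, j1, e', j2, j3, j4⟩ => ⟨⟨⟨e, j1, j3.symm⟩, trivial⟩, e', j2, j4.symm⟩
  exact ⟨h.toFinset.toList, fun y => by rw [Finset.mem_toList, h.mem_toFinset]; rfl⟩

/-- the compact case -/
theorem good (h1 : PtStmt) (hP : Dist (univ : Set P)) (h0 : GS D) (hY : ∀ n, Opn (Y n)) {δ : Om}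
    {W : Set Cb} (hW : W.Countable) {p : P} (hT : ∀ r ≤ p, ∀ t, D.T δ t r ↔ t ∈ W)
    (hF : Fip D.Lv (Cl D Y δ W) p) : ∃ q ≤ p, ∃ σ, σ.δ = δ ∧ Sec D σ q ∧ ∀ n, Rej D (Y n) σ q := by
  classical
  have := hW.to_subtype
  obtain ⟨r, k1, γ, s, k2, k3, k4⟩ := h1 P hP D.Lv p (h0.s0 p) (h0 p).fc (W × Bool) (Cl D Y δ W)
    (fun l a b k h => h.imp_left fun ⟨n, z, j1, j2, j3⟩ => ⟨n, z, hY n z a b k j1, j2.mono h0 k, j3⟩)
    (by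
      rintro l q (⟨n, z, -, j2, -, j3⟩ | ⟨j, B, j1, -, rfl⟩) y hy
      · obtain ⟨-, -, e, j4, -, j5⟩ := (j3 y).1 hy
        exact j5 ▸ (j2 e j4).2
      · exact ⟨δ, List.mem_singleton.1 hy ▸ j1⟩) hF δ
  refine ⟨r, k1, ⟨δ, γ, fun i t => if h : t ∈ W then s (⟨t, h⟩, i) else t⟩, rfl,
    ⟨k2, fun q k t ht i => ?_⟩, fun n q k ⟨z, j1, j2, j3⟩ => ?_⟩
  · have h := (hT q (k.trans k1) t).1 ht
    simp only [dif_pos h]
    refine ⟨(k3 _).mono k, by_contra fun hn => ?_⟩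
    obtain ⟨V, V', j1, -, j2, j3, j4⟩ := prime hn
    obtain ⟨q', j5, y, j6, j7⟩ := k4 r le_rfl [((⟨t, h⟩, i), V)]
      (Or.inr ⟨_, V, j1, (j2 ▸ mem_univ t : t ∈ V ∪ V').resolve_right j4, rfl⟩)
    rw [List.mem_singleton.1 j6] at j7
    exact ((k3 _).mono j5).not_inP (j1.inv.mono k2) j3 j7
  · obtain ⟨l, hl⟩ := exists_cl δ W z
    obtain ⟨q', j5, y, j6, j7⟩ := k4 q k l (Or.inl ⟨n, z, j1, j2, fun e he => (j3 e he).1, hl⟩)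
    obtain ⟨e, i1, e', i2, i3, i4⟩ := (hl y).1 j6
    have h := ((j3 e i1).2 e' i2 y.1.2).mono j5
    simp only [← i3, ← i4, dif_pos y.1.1.2] at h
    exact ((k3 y.1).mono (j5.trans k)).1.not_mis ((Mis.union j7 h).sub fun v hv =>
      (em (v ∈ y.2)).elim (fun i => Or.inr ⟨hv, i⟩) fun i => Or.inl ⟨hv, i⟩)

/-- finitely many candidates that cover all pairs of sections -/
theorem cover (h0 : GS D) {δ : Om} {W : Set Cb} {p : P} (hT : ∀ r ≤ p, ∀ t, D.T δ t r ↔ t ∈ W)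
    (hF : ¬ Fip D.Lv (Cl D Y δ W) p) : ∃ q ≤ p, ∃ (n : ℕ) (i : Fin n → ℕ) (z : Fin n → Cand)
    (β₀ : Om), δ ≤ β₀ ∧ (∀ j, Y (i j) (z j) q ∧ Cnd D (z j) q ∧ ∀ e ∈ z j, δ ≤ e.1) ∧
      ∀ r ≤ q, ∀ β L, β₀ ≤ β → D.Lv β L r → ∀ x : Bool → Cb → Cb,
        (∀ b j, ∀ e ∈ z j, x b (cut δ e.2.1) ∈ L ∧ Ag δ (x b (cut δ e.2.1)) (cut δ e.2.1)) →
        ∃ j, ∀ b, ∀ e ∈ z j, ∀ e' ∈ z j, x b (cut δ e.2.1) ∉ e'.2.2 := by
  classical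
  simp only [Fip, not_forall, not_exists, not_and] at hF
  obtain ⟨q, k1, ls, k2, β₀, k3⟩ := hF
  have hA : {l | l ∈ ls ∧ ∃ k z, ClA D Y δ k z l q}.Finite :=
    (List.finite_toSet ls).subset fun _ h => h.1
  obtain ⟨n, f, -, hf⟩ := hA.fin_param
  choose i z hz using fun j : Fin n =>
    (hf ▸ mem_range_self j : f j ∈ {l | l ∈ ls ∧ ∃ k z, ClA D Y δ k z l q}).2
  refine ⟨q, k1, n, i, z, max δ β₀, le_max_left _ _, fun j => ⟨(hz j).1, (hz j).2.1, (hz j).2.2.1⟩,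
    fun r k β L j1 j2 x hx => ?_⟩
  choose v hv1 hv2 using fun w : W =>
    h0.t_ext ((hT r (k.trans k1) w).2 w.2) (le_of_max_le_left j1) j2
  let X : W × Bool → Cb := fun y =>
    if ∃ j, ∃ e ∈ z j, y.1.1 = cut δ e.2.1 then x y.2 y.1 else v y.1
  have hX : ∀ y, X y ∈ L ∧ Ag δ (X y) y.1 := fun y => by
    simp only [X]
    split_ifs with h
    · obtain ⟨j, e, i1, i2⟩ := h
      exact i2 ▸ hx y.2 j e i1
    · exact ⟨hv1 _, hv2 _⟩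
  obtain ⟨l, i1, i2⟩ := k3 r k β L (le_of_max_le_right j1) j2 X fun y => (hX y).1
  rcases k2 l i1 with h | ⟨y, B, i3, i4, rfl⟩
  · obtain ⟨j, rfl⟩ : l ∈ range f := hf ▸ ⟨i1, h⟩
    refine ⟨j, fun b e he e' he' hn => i2 ⟨((⟨cut δ e.2.1, (hT q k1 _).1
      (h0.t_cut ((hz j).2.1 e he).1 ((hz j).2.2.1 e he))⟩, b), e'.2.2),
      ((hz j).2.2.2 _).2 ⟨e, he, e', he', rfl, rfl⟩, ?_⟩⟩
    simp only [X]
    rwa [if_pos ⟨j, e, he, rfl⟩]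
  · exact absurd ⟨_, List.mem_singleton_self _, i3.inv _ _ (hX y).2.symm i4⟩ i2

theorem kl (h1 : PtStmt) (h2 : ClsStmt) : KLStmt := by
  classical
  intro P _ hP D h0 Y hY p δ₀
  have hO : ∀ n, Opn (Y n) := fun n => (hY n).1
  obtain ⟨q, k1, ρ, hρ, k2, hq⟩ := h2 P hP D h0 Ty (fun ρ => {τ | ∀ a, Bas ρ (τ.O a)}) Ty.m
    (Cf D Y) ctble_ty (fun _ _ _ _ _ _ => Cf.mono h0 hO) (fun _ _ _ _ _ h a => (h.1 a).1) p δ₀
  obtain ⟨δ, hδ⟩ := exists_lub ρ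
  have hle : ∀ n, ρ n ≤ δ := fun n => hδ.1 (mem_range_self n)
  obtain ⟨q1, k3, W, hW, hT⟩ := h0.t_dec hP q δ
  by_cases hF : Fip D.Lv (Cl D Y δ W) q1
  · obtain ⟨r, j1, σ, j2, j3⟩ := good h1 hP h0 hO hW hT hF
    exact ⟨r, j1.trans (k3.trans k1), σ, j2 ▸ k2.trans (hle 0), j3⟩
  exfalso
  obtain ⟨q2, k4, n, i, z, β₀, k5, hz, cov⟩ := cover h0 hT hF
  obtain ⟨m, t, ht, hr⟩ := (finite_iUnion fun j => (List.finite_toSet (z j)).image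
    fun e : Lf => cut δ e.2.1).fin_param
  have hr1 : ∀ j, ∀ e ∈ z j, ∃ a, t a = cut δ e.2.1 := fun j e he =>
    (hr ▸ mem_iUnion.2 ⟨j, e, he, rfl⟩ : cut δ e.2.1 ∈ range t)
  choose b hb1 hb2 using fun j => (hz j).2.1.rank β₀
  obtain ⟨β', hβ'⟩ := exists_ge_all b
  set β := max β₀ β'
  have kβ : δ ≤ β := k5.trans (le_max_left _ _)
  let C : Fin n → Set Cb := fun j => ⋃ e ∈ {e | e ∈ z j}, e.2.2
  have hC : ∀ j, Bas β (C j) := fun j => bas_biUnion (List.finite_toSet _) fun e he =>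
    (hb2 j e he).mono ((hβ' j).le.trans (le_max_right _ _))
  have hC' : ∀ j, ∀ e ∈ z j, e.2.2 ⊆ C j := fun j e he =>
    subset_biUnion_of_mem (u := fun e : Lf => e.2.2) he
  obtain ⟨r, k6, L, hL⟩ := h0.dec q2 β
  have kr : r ≤ q := k6.trans (k4.trans k3)
  let JJ : Fin m → Set (Set (Fin n)) := fun a => {J | Disjoint (cyl δ (t a) ∩ ⋂ j ∈ J, C j) L}
  have hs : ∀ a, ∃ O, Bas δ O ∧ t a ∈ O ∧ ∀ J ∈ JJ a, Disjoint (O ∩ ⋂ j ∈ J, C j) L := fun a => by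
    obtain ⟨O, B, j1, -, j2, j3, j4⟩ := sep (K := ⋃ J ∈ JJ a, (⋂ j ∈ J, C j) ∩ L) (β := δ)
      (x := t a) ((toFinite _).isClosed_biUnion fun J _ =>
        (isClosed_biInter fun j _ => (hC j).closed).inter ((h0.s0 r).closed hL))
      (disjoint_iUnion₂_right.2 fun J hJ => disjoint_left.2 fun v i1 i2 =>
        disjoint_left.1 hJ ⟨i1, i2.1⟩ i2.2)
    exact ⟨O, j1, (j2 ▸ mem_univ _ : t a ∈ O ∪ B).resolve_right j3, fun J hJ =>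
      disjoint_left.2 fun v i1 i2 => disjoint_left.1 j4 i1.1 (mem_biUnion hJ ⟨i1.2, i2⟩)⟩
  choose O hO1 hO2 hO3 using hs
  choose N hN using fun a => (hO1 a).lim hρ.monotone fun _ => exists_of_lub hδ
  obtain ⟨M, hM⟩ := (finite_range N).bddAbove
  have hOM : ∀ a, Bas (ρ M) (O a) := fun a =>
    (hN a).mono (hρ.monotone (hM (mem_range_self a)))
  have hTt : ∀ a, D.T δ (t a) r := fun a => by
    obtain ⟨j, e, j1, j2⟩ := mem_iUnion.1 (hr ▸ mem_range_self a :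
      t a ∈ ⋃ j, (fun e : Lf => cut δ e.2.1) '' {e | e ∈ z j})
    exact j2 ▸ h0.t_mono (h0.t_cut ((hz j).2.1 e j1).1 ((hz j).2.2 e j1)) k6
  let τ : Ty := ⟨m, n, i, fun j => {a | ∃ e ∈ z j, t a = cut δ e.2.1}, O, JJ⟩
  rcases hq M τ hOM with h | ⟨γ, u, k7, hu, hB⟩
  · exact h r kr δ t β (hle _) ⟨fun a => ⟨hTt a, hO2 a⟩, C, hC, fun j => ⟨z j,
      hO _ _ _ _ k6 (hz j).1, (hz j).2.1.mono h0 k6, fun e he => ⟨(hz j).2.2 e he,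
        let ⟨a, ha⟩ := hr1 j e he; ⟨a, ⟨e, he, ha⟩, ha.symm⟩, hC' j e he⟩⟩,
      fun a J hJ => (h0.s0 r).mis_of hL (hO3 a J hJ)⟩
  obtain ⟨r', k8, L', hL'⟩ := h0.dec r (max β γ)
  have kr' : r' ≤ q := k8.trans kr
  choose w hw1 hw2 using fun a =>
    ((hu a).mono kr').ext (h0.s0 r') (le_max_right β γ) hL'
  have huO : ∀ a, u a ∈ O a := fun a => by
    obtain ⟨β₁, t', s, -, -, j1, j2⟩ := hB (fun a => if u a ∈ O a then ∅ else O a) fun a => by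
      split_ifs with h
      exacts [⟨bas_empty _, notMem_empty _⟩, ⟨(hOM a).mono k7, h⟩]
    by_contra hn
    exact j2 a (by rw [if_neg hn]; exact (j1.1 a).2)
  have hs' : ∀ a, ∃ B, Bas γ B ∧ (⋃ j ∈ {j | w a ∉ C j}, C j ∩ L') ⊆ B ∧ u a ∉ B := fun a =>
    sep' ((toFinite _).isClosed_biUnion fun j _ => (hC j).closed.inter ((h0.s0 r').closed hL'))
      (disjoint_iUnion₂_right.2 fun j hj => disjoint_left.2 fun v i1 i2 => hj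
        ((hC j).inv.mono (le_max_left β γ) v _
          (((hu a).mono kr').uniq hL' i2.2 (hw1 a) i1 (hw2 a)) i2.1))
  choose B hB1 hB2 hB3 using hs'
  obtain ⟨β₁, t', s, k9, k10, ⟨-, C', c1, c2, c3⟩, c4⟩ := hB B fun a => ⟨hB1 a, hB3 a⟩
  have c5 : ∀ j, Inv δ (C' j) := fun j => (c1 j).inv.mono (k10.trans (hle _))
  have hx : ∀ a, {j | w a ∈ C j} ∉ JJ a := fun a hn => disjoint_left.1 (hO3 a _ hn)
    ⟨(hOM a).inv.mono k7 _ _ (hw2 a).symm (huO a), mem_iInter₂.2 fun j hj => hj⟩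
    ((h0.s0 r').sub (le_max_left β γ) (h0.lv hL k8) hL' (hw1 a))
  have hy : ∀ a, {j | t a ∈ C' j} ∉ JJ a := fun a hn => by
    obtain ⟨v, j1, j2⟩ := h0.t_ext (hTt a) kβ hL
    have j3 : Inv β (O a ∩ ⋂ j ∈ {j | t a ∈ C' j}, C' j) := ((hO1 a).inv.inter fun x y k h =>
      mem_iInter₂.2 fun j hj => c5 j x y k (mem_iInter₂.1 h j hj)).mono kβ
    exact disjoint_left.1 (((h0.s0 r).mis_iff j3 hL).1 ((c3 a _ hn).mono kr))
      ⟨(hO1 a).inv _ _ j2.symm (hO2 a), mem_iInter₂.2 fun j hj => c5 j _ _ j2.symm hj⟩ j1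
  choose x hx1 hx2 using fun a => not_disjoint_iff.1 (hx a)
  choose y hy1 hy2 using fun a => not_disjoint_iff.1 (hy a)
  obtain ⟨j, hj⟩ := cov r k6 β L (le_max_left _ _) hL
    (fun b => Function.extend t (cond b x y) id) fun b j e he => by
      obtain ⟨a, ha⟩ := hr1 j e he
      rw [← ha, ht.extend_apply]
      cases b
      exacts [⟨hy2 a, (hy1 a).1⟩, ⟨hx2 a, (hx1 a).1⟩]
  have hj' : ∀ a, ∀ e ∈ z j, t a = cut δ e.2.1 → w a ∉ C j ∧ t a ∉ C' j := fun a e he ha => by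
    have h3 : ∀ b, cond b x y a ∉ C j := fun b hn => by
      obtain ⟨e', i1, i2⟩ := mem_iUnion₂.1 hn
      exact hj b e he e' i1 (by rwa [← ha, ht.extend_apply])
    exact ⟨fun h => h3 true (mem_iInter₂.1 (hx1 a).2 j h),
      fun h => h3 false (mem_iInter₂.1 (hy1 a).2 j h)⟩
  obtain ⟨z', d1, d2, d3⟩ := c2 j
  refine (hY (i j)).2 r' (z j) z' (hO _ _ _ _ (k8.trans k6) (hz j).1) (hO _ _ _ _ kr' d1)
    ((hz j).2.1.mono h0 (k8.trans k6)) (d2.mono h0 kr') fun e he e' he' => ⟨?_, ?_⟩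
  · obtain ⟨a, ha⟩ := hr1 j e he
    exact (mis_of_eq ((c5 j).cyl_disjoint (hj' a e he ha).2)).sub (inter_subset_inter
      (cyl_sub ((hz j).2.2 e he) (ha ▸ (ag_cut δ _).symm)) (d3 e' he').2.2)
  · obtain ⟨j1, ⟨a, ⟨e₀, j2, j3⟩, j4⟩, -⟩ := d3 e' he'
    refine (h0.s0 r').mis_of hL' (disjoint_left.2 fun v i1 i2 => c4 a ((hB1 a).inv v _ ?_
      (hB2 a (mem_biUnion (hj' a e₀ j2 j3).1 ⟨hC' j e he i1.2, i2⟩))))
    exact (Ag.mono i1.1 (k9.trans j1)).trans (j4 ▸ ((ag_cut β₁ _).symm.mono k9))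

end Pool.Agent.Ctry.AK.KL
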