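import Pool.Agent.MP_b60a07_lc.AK.Basic

/-! The generic family of closed sets destroys the hereditary Lindeloef property. -/

open Filter Set

namespace Pool.Agent.Ctry.AK.Kill

/-- every name over a small order has a code -/
theorem exists_nm {P : Type 1} [Cd P] [Small.{0} P] (Γ : Cand → P → Prop) :
    ∃ g : U, nm g = Γ ∧ Can P g := by
  obtain ⟨u, h1, h2⟩ := exists_code {z : Cand × P | Γ z.1 z.2}
  exact ⟨u, funext fun y => funext fun p => propext (h1 (y, p)),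
    fun y hy => let ⟨z, _, h⟩ := h2 y hy; ⟨z, h⟩⟩

theorem res_opn {P : Type 1} [Preorder P] (D : Dt P) : Opn (Res D) :=
  fun _ _ _ k ⟨β, t, V, B, j1, j2, j3, j4⟩ => ⟨β, t, V, B, j1, j2, j3, j4.mono k⟩

/-- the condition whose only promise is the reservoir -/
theorem val_res {P : Type 1} [Preorder P] [Cd P] {D : Dt P} {Φ : Set (Sg → P → Prop)} {q : P}
    {z : Cand} {g₀ : U} (h1 : nm g₀ = Res D) (h2 : Can P g₀) (h3 : Cnd D z q)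
    (h4 : Zone D Φ (Res D) z q) : Val D Φ q ⟨⊥, ∅, {g₀}⟩ := by
  refine ⟨countable_empty, by simp, ?_, fun g hg => ?_, by simp [Av], fun _ => z,
    fun g hg => ?_, fun g hg g' hg' i => ?_⟩
  · exact (countable_singleton g₀).mono fun x hx => ZFSet.mem_singleton.1 hx
  · rw [ZFSet.mem_singleton.1 hg]
    exact ⟨h2, h1 ▸ res_opn D⟩
  · rw [ZFSet.mem_singleton.1 hg]
    exact ⟨h3, h1 ▸ h4, by simp [Av], cpt_nil⟩
  · exact absurd ((ZFSet.mem_singleton.1 hg).trans (ZFSet.mem_singleton.1 hg').symm) i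

theorem kill (h1 : RflStmt) (h2 : ResStmt) (h3 : AddStmt) : KillStmt := by
  intro X _ _ _ g hD hR hB D p hS hL
  obtain ⟨ξ, hp, hξ⟩ := h1 X g hR D p hS
  obtain ⟨ζ, hζ, hΦ⟩ := hB.1 ξ ⟨fun β L q => D.Lv β L (rs q ξ), fun β t q => D.T β t (rs q ξ)⟩ p
    (fun β L _ _ k j => hS.s0.opn β L _ _ (Itr.rs_mono ξ k) j)
    (fun β t _ _ k j => hS.opn β t _ _ (Itr.rs_mono ξ k) j)
    (fun β L q j => by
      show D.Lv β L (rs (rs q ξ) ξ)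
      rw [pp_eq (rs_mem q ξ)]
      exact j)
    (fun β t q j => by
      show D.T β t (rs (rs q ξ) ξ)
      rw [pp_eq (rs_mem q ξ)]
      exact j) ξ
  obtain ⟨a₀, ha₀⟩ := g.ι_range.1 (pp_mono hp hζ)
  obtain ⟨hG, hM⟩ := hξ ζ hζ a₀ ha₀
  obtain ⟨Φ, hF, hV⟩ := hΦ a₀ ha₀ hG
  have hP : Dist (univ : Set {a : g.St ζ // a ≤ a₀}) := dist_below (g.dist_iff.2 (hD ζ)) a₀
  obtain ⟨q, -, z, hz1, hz2⟩ := h2 _ _ hG Φ hF ⟨a₀, le_rfl⟩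
  obtain ⟨g₀, k1, k2⟩ := exists_nm (Res (Dt.st g
    ⟨fun β L q => D.Lv β L (rs q ξ), fun β t q => D.T β t (rs q ξ)⟩ a₀))
  have v0 : g.Val q.1 ⟨⊥, ∅, {g₀}⟩ := (hV _ _).2 (Or.inr ⟨q.2, val_res k1 k2 hz1 hz2⟩)
  obtain ⟨r, hr, α, H⟩ := hL (g.cond q.1 ⟨⊥, ∅, {g₀}⟩)
    ((cond_le v0).trans (ha₀ ▸ g.ι_le.2 q.2))
    (fun η B r => ∃ c V, In g ζ c r ∧ (η, V) ∈ c.R ∧ (∃ γ, Bas γ B) ∧ V ∪ B = univ)
    (fun _ _ _ _ k ⟨c, V, j1, j2⟩ => ⟨c, V, j1.mono k, j2⟩) fun _ _ _ ⟨_, _, _, _, j, _⟩ => j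
  have i0 : In g ζ ⟨⊥, ∅, {g₀}⟩ r := ⟨q.1, v0, hr⟩
  obtain ⟨a, -, d, hd, -, v1, l1⟩ := i0.dir i0
  have hg : g₀ ∈ d.G := hd.2.2.2 (ZFSet.mem_singleton.2 rfl)
  obtain ⟨ha, v2⟩ := ((hV a d).1 v1).resolve_left fun e => by
    rw [e] at hg
    exact ZFSet.notMem_empty _ hg
  obtain ⟨l2, v3⟩ := Adm.raise v2 (le_max_right α d.α)
  obtain ⟨q₂, l3, c', l4, v4, β, t, V, B, γ, m1, m2, m3, m4, m5⟩ :=
    h3 _ hP _ hG Φ hF ⟨a, ha⟩ ⟨max α d.α, d.R, d.G⟩ g₀ v3 hg k1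
  have v5 : g.Val q₂.1 c' := (hV _ _).2 (Or.inr ⟨q₂.2, v4⟩)
  obtain ⟨r', l5, l6⟩ := lift' v5 ((g.cond_mono v5 v1 l3 (l4.trans l2)).trans l1)
  have l7 : r' ≤ g.ι q₂.1 := l6.trans (cond_le v5)
  have i1 : In g ζ c' r' := ⟨q₂.1, v5, l6⟩
  obtain ⟨r'', l8, η, hη, B', ⟨c'', V', i2, n1, -, n2⟩, n3⟩ := H r' l5 (max α d.α) B β t
    ⟨c', V, i1, m1, ⟨γ, m2⟩, m3⟩
    (((hM _ (max β γ) q₂.1 q₂.2 (((inv_cyl β t).mono (le_max_left β γ)).diff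
      (m2.inv.mono (le_max_right β γ)))).2 m4).mono l7)
  obtain ⟨_, -, e, e1, e2, -⟩ := (i1.mono l8).dir i2
  have n4 : (η, V') ∈ d.R := (e1.trans l4).2.2.1 _ (e2.2.1 n1) (hη.trans_le (le_max_left α d.α))
  obtain ⟨γ', n5⟩ := (v2.lab _ n4).2
  have n6 := ((hM _ (max β γ') q₂.1 q₂.2 (((inv_cyl β t).mono (le_max_left β γ')).inter
    (n5.inv.mono (le_max_right β γ')))).1 (m5 _ n4)).mono (l8.trans l7)
  exact n3.not_mis (n6.sub fun x hx =>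
    ⟨hx.1, (n2 ▸ mem_univ x : x ∈ V' ∪ B').resolve_right hx.2⟩)

end Pool.Agent.Ctry.AK.Kill
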