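import Pool.Agent.MP_b60a07_lc.AK.Basic

/-! Limits of increasing sequences of sections. -/

open Filter Set

namespace Pool.Agent.Ctry.AK.Lim

theorem acl : AclStmt := by
  intro P _ D hD f σ r β L z hl hL hγ _ hz hc ha
  have h0 := hD.s0 r
  have hlt : ∀ n, (f n).δ ≤ σ.δ := fun n => hl.lub.1 (mem_range_self n)
  have key : ∀ e ∈ z, ∀ e' ∈ z, ∀ i, ∀ᶠ n in hyperfilter ℕ,
      Mis D.Lv (cyl (f n).γ ((f n).x i (cut (f n).δ e.2.1)) ∩ e'.2.2) r := by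
    intro e he e' he' i
    have ht : D.T σ.δ (cut σ.δ e.2.1) r := hD.t_cut (hc e he).1 (ha e he).1
    by_contra hn
    obtain ⟨b, hb⟩ := (hc e' he').2
    have h2 := hl.lim r le_rfl _ ht i b _ hb ((Ultrafilter.eventually_not.2 hn).mono fun n k => by
      rw [cut_cut (hlt n)]
      have hT := ((hl.sec n).2 r le_rfl _
        (hD.t_cut (hc e he).1 ((hlt n).trans (ha e he).1)) i).1
      obtain ⟨w, j1, j2⟩ := hT.ext h0 (hγ n) hL
      rw [hT.mis_iff h0 (hγ n) hL (hz e' he') j1 j2] at k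
      exact (hT.inP_iff h0 (hγ n) hL (hz e' he') j1 j2).2 (not_not.1 k))
    exact (hl.sec'.2 r le_rfl _ ht i).1.1.not_mis
      ((Mis.union h2 ((ha e he).2 e' he' i)).sub fun y hy =>
        (em (y ∈ e'.2.2)).elim (fun k => Or.inr ⟨hy, k⟩) fun k => Or.inl ⟨hy, k⟩)
  have : ∀ᶠ n in hyperfilter ℕ, ∀ e ∈ {e | e ∈ z}, ∀ e' ∈ {e | e ∈ z}, ∀ i,
      Mis D.Lv (cyl (f n).γ ((f n).x i (cut (f n).δ e.2.1)) ∩ e'.2.2) r :=
    (eventually_all_finite (List.finite_toSet z)).2 fun e he =>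
      (eventually_all_finite (List.finite_toSet z)).2 fun e' he' =>
        eventually_all.2 (key e he e' he')
  exact this.mono fun n k e he => ⟨(hlt n).trans (ha e he).1, fun e' he' => k e he e' he'⟩

theorem clo (h : AclStmt) : CloStmt := by
  intro P _ D hD Y hY
  refine ⟨fun σ p q k j => j.mono k, fun p f σ hl hf q hq ⟨z, j1, j2, j3⟩ => ?_⟩
  obtain ⟨b, hb⟩ := exists_ge_all fun n => (f n).γ
  obtain ⟨β, k1, k2⟩ := j2.rank (max b σ.γ)
  obtain ⟨r, k3, L, k4⟩ := hD.dec q β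
  obtain ⟨n, i1, i2⟩ := (hf.and (h P D hD f σ r β L z (hl.mono' (k3.trans hq)) k4
    (fun n => (hb n).le.trans (le_of_max_le_left k1)) (le_of_max_le_right k1)
    (fun e he => (k2 e he).inv) (j2.mono hD k3) (j3.mono k3))).exists
  exact i1 r (k3.trans hq) ⟨z, hY z q r k3 j1, j2.mono hD k3, i2⟩

theorem lim' (h : PtStmt) : LimStmt := by
  classical
  intro P _ hP D hD f δ p h1 h2 h3
  obtain ⟨q₁, k1, W, k2, k3⟩ := hD.t_dec hP p δ
  have := k2.to_subtype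
  have hlt : ∀ n, (f n).δ ≤ δ := fun n => h2.1 (mem_range_self n)
  have hs : ∀ q ≤ q₁, ∀ n, ∀ t ∈ W, ∀ i, Term D.Lv (f n).γ ((f n).x i (cut (f n).δ t)) q ∧
      Ag (f n).δ ((f n).x i (cut (f n).δ t)) (cut (f n).δ t) := fun q hq n t ht i =>
    (h3 n).2 q (hq.trans k1) _ (hD.t_cut ((k3 q hq t).2 ht) (hlt n)) i
  obtain ⟨r, j1, γ, s, j2, j3, j4⟩ := h P hP D.Lv q₁ (hD.s0 q₁) (hD q₁).fc (W × Bool)
    (fun l r => ∃ j β V, l = [(j, V)] ∧ Bas β V ∧ ∀ᶠ n in hyperfilter ℕ,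
      InP D.Lv (f n).γ ((f n).x j.2 (cut (f n).δ j.1)) V r)
    (fun l a b k ⟨j, β, V, i1, i2, i3⟩ => ⟨j, β, V, i1, i2, i3.mono fun n i => i.mono k⟩)
    (fun l q ⟨j, β, V, i1, i2, _⟩ y hy => ⟨β, by
      rw [i1, List.mem_singleton] at hy
      exact hy ▸ i2⟩)
    (fun q hq ls hls β₀ => by
      have := (List.finite_toSet ls).to_subtype
      choose j b V i1 i2 i3 using fun l : {l | l ∈ ls} => hls l.1 l.2
      obtain ⟨b₁, hb₁⟩ := exists_ge_all fun n => (f n).γ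
      obtain ⟨b₂, hb₂⟩ := exists_ge_all b
      obtain ⟨r, i4, L, i5⟩ := hD.dec q (max β₀ (max b₁ b₂))
      obtain ⟨n, hn⟩ := (eventually_all.2 i3).exists
      have e1 : (f n).γ ≤ max β₀ (max b₁ b₂) :=
        (hb₁ n).le.trans ((le_max_left _ _).trans (le_max_right _ _))
      choose x i6 i7 using fun j : W × Bool =>
        (hs r (i4.trans hq) n j.1 j.1.2 j.2).1.ext (hD.s0 r) e1 i5
      refine ⟨r, i4, _, L, le_max_left _ _, i5, x, i6, fun l hl => ?_⟩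
      refine ⟨(j ⟨l, hl⟩, V ⟨l, hl⟩),
        (congrArg (_ ∈ ·) (i1 ⟨l, hl⟩)).mpr (List.mem_singleton_self _), ?_⟩
      exact ((hs r (i4.trans hq) n _ (j ⟨l, hl⟩).1.2 _).1.inP_iff (hD.s0 r) e1 i5
        ((i2 ⟨l, hl⟩).mono ((hb₂ _).le.trans ((le_max_right _ _).trans (le_max_right _ _)))).inv
        (i6 _) (i7 _)).1 ((hn ⟨l, hl⟩).mono i4)) δ
  have key : ∀ q ≤ r, ∀ (j : W × Bool) β V, Bas β V → (∀ᶠ n in hyperfilter ℕ,
      InP D.Lv (f n).γ ((f n).x j.2 (cut (f n).δ j.1)) V q) →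
      ∃ q' ≤ q, InP D.Lv γ (s j) V q' := fun q hq j β V i1 i2 => by
    obtain ⟨q', i3, y, i4, i5⟩ := j4 q hq _ ⟨j, β, V, rfl, i1, i2⟩
    rw [List.mem_singleton] at i4
    subst i4
    exact ⟨q', i3, i5⟩
  have hag : ∀ j : W × Bool, Ag δ (s j) j.1 := fun j i hi => by
    by_contra hn
    obtain ⟨m, hm⟩ := exists_of_lub h2 hi
    obtain ⟨B, i1, i2, i3⟩ := sep' (β := (f m).δ) (x := s j) (cyl_closed (f m).δ j.1)
      (disjoint_left.2 fun v l1 l2 => hn ((Ag.trans (Ag.symm l1) l2) i hm))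
    obtain ⟨q', i4, i5⟩ := key r le_rfl j _ B i1 (ev_hyp (eventually_atTop.2 ⟨m, fun n hn' =>
      mis_of_eq (Set.sdiff_eq_empty.2 ((cyl_sub ((h1.monotone hn').trans (h3 n).1)
        (((hs r j1 n j.1 j.1.2 j.2).2.trans (ag_cut _ _)).mono (h1.monotone hn'))).trans i2))⟩))
    exact ((j3 j).mono i4).not_inP (i1.mono ((hlt m).trans j2)).inv i3 i5
  refine ⟨r, j1.trans k1, ⟨δ, γ, fun i t => if h : t ∈ W then s (⟨t, h⟩, i) else t⟩, rfl, h1, h2,
    fun n => (h3 n).mono (j1.trans k1), ⟨j2, fun q hq t ht i => ?_⟩,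
    fun q hq t ht i β V hV hf => ?_⟩
  · have hW : t ∈ W := (k3 q (hq.trans j1) t).1 ht
    simp only [dif_pos hW]
    exact ⟨(j3 _).mono hq, hag (⟨t, hW⟩, i)⟩
  · have hW : t ∈ W := (k3 q (hq.trans j1) t).1 ht
    simp only [dif_pos hW]
    exact (hD.s0 q).mis_dense (((inv_cyl γ _).mono (le_max_left γ β)).diff
      (hV.mono (le_max_right γ β)).inv) fun q' hq' =>
        key q' (hq'.trans hq) (⟨t, hW⟩, i) β V hV (hf.mono fun n k => k.mono hq')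

end Pool.Agent.Ctry.AK.Lim
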