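import Pool.Agent.MP_77405c_lc.Link2
import Pool.Agent.MP_b60a07_lc.AK.Defs
import Pool.Agent.MP_b60a07_lc.AK.Basic

/-! The notions of PROJECT AK as formulas and the statements of the link modules. -/

open Filter Set

namespace Pool.Agent.Ctry.AK

open Fc Fc.Fml Fc.Link1

section Formulas

variable {V : Type 2}

def unitF (w x : V) : Fml V :=
  and (sub x w) (or (all fun z => neg (mem z x)) (allIn w fun n => exIn x fun m => mem n m))
def ltF (x y : V) : Fml V :=
  exIn y fun n => and (neg (mem n x)) (allIn n fun m => iff (mem m x) (mem m y))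
def opF (a x z : V) : Fml V := ex fun u => ex fun v => and (pair a a u) (and (pair a x v) (pair u v z))
def ptF (w o f : V) : Fml V := and (func f)
  (and (allIn o fun a => ex fun x => and (app f a x) (unitF w x))
    (allIn f fun z => exIn o fun a => ex fun x => opF a x z))
def finF (w H : V) : Fml V := exIn w fun n => ctble n H
def nearF (w H f g : V) : Fml V := all fun a => all fun d => all fun x => all fun y =>
  imp (app H a d) (imp (unitF w d) (imp (app f a x) (imp (app g a y)
    (and (imp (ltF x d) (ltF y d)) (imp (ltF d x) (ltF d y))))))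
def closedF (w o X : V) : Fml V := and (allIn X fun f => ptF w o f)
  (all fun f => imp (ptF w o f)
    (imp (all fun H => imp (finF w H) (exIn X fun g => nearF w H f g)) (mem f X)))
def openF (w X U : V) : Fml V := and (sub U X)
  (allIn U fun f => ex fun H => and (finF w H) (allIn X fun g => imp (nearF w H f g) (mem g U)))
def perfF (w o X : V) : Fml V := all fun U => imp (openF w X U) (ex fun s => and (func s)
  (and (all fun n => all fun C => imp (mem n w) (imp (app s n C) (and (closedF w o C) (sub C U))))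
    (allIn U fun f => ex fun n => ex fun C => and (mem n w) (and (app s n C) (mem f C)))))
def agrF (b f g : V) : Fml V := allIn b fun a => all fun x => imp (app f a x) (app g a x)
def smallF (X b k f : V) : Fml V := ex fun h => and (func h)
  (allIn X fun g => imp (agrF b f g) (exIn k fun m => app h m g))
def fewF (w o X k : V) : Fml V := allIn o fun a => exIn o fun b => and (mem a b)
  (ex fun D => and (sub D X) (and (ctble w D)
    (allIn X fun f => imp (neg (smallF X b k f)) (exIn D fun g => agrF b f g))))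
def goalF (o X k : V) : Fml V := exIn o fun a => allIn X fun f => smallF X a k f
def sentF : Fml V := ex fun w => ex fun o => and (omega w) (and (omega1 w o) (and (ch w o)
  (all fun X => imp (closedF w o X) (imp (perfF w o X) (all fun k => imp (mem k w)
    (imp (ex fun z => mem z k) (imp (fewF w o X k) (goalF o X k))))))))

end Formulas

section ParL

variable {V W : Type 2} {R : V → W → Prop} {a b c d : V} {a' b' c' d' : W}

theorem par_unit (h1 : R a a') (h2 : R b b') : Par R (unitF a b) (unitF a' b') := by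
  repeat' first | assumption | constructor | intro _ _ _

theorem par_lt (h1 : R a a') (h2 : R b b') : Par R (ltF a b) (ltF a' b') := by
  repeat' first | assumption | constructor | intro _ _ _

theorem par_pt (h1 : R a a') (h2 : R b b') (h3 : R c c') : Par R (ptF a b c) (ptF a' b' c') := by
  repeat' first
    | assumption | with_reducible apply par_app | with_reducible apply par_func
    | with_reducible apply par_unit | constructor | intro _ _ _

theorem par_fin (h1 : R a a') (h2 : R b b') : Par R (finF a b) (finF a' b') := by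
  repeat' first | assumption | with_reducible apply par_ctble | constructor | intro _ _ _

theorem par_near (h1 : R a a') (h2 : R b b') (h3 : R c c') (h4 : R d d') :
    Par R (nearF a b c d) (nearF a' b' c' d') := by
  repeat' first
    | assumption | with_reducible apply par_app | with_reducible apply par_lt
    | with_reducible apply par_unit | constructor | intro _ _ _

theorem par_closed (h1 : R a a') (h2 : R b b') (h3 : R c c') :
    Par R (closedF a b c) (closedF a' b' c') := by
  repeat' first
    | assumption | with_reducible apply par_pt | with_reducible apply par_fin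
    | with_reducible apply par_near | constructor | intro _ _ _

theorem par_open (h1 : R a a') (h2 : R b b') (h3 : R c c') :
    Par R (openF a b c) (openF a' b' c') := by
  repeat' first
    | assumption | with_reducible apply par_fin | with_reducible apply par_near | constructor
    | intro _ _ _

theorem par_perf (h1 : R a a') (h2 : R b b') (h3 : R c c') :
    Par R (perfF a b c) (perfF a' b' c') := by
  repeat' first
    | assumption | with_reducible apply par_app | with_reducible apply par_func
    | with_reducible apply par_open | with_reducible apply par_closed | constructor | intro _ _ _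

theorem par_agr (h1 : R a a') (h2 : R b b') (h3 : R c c') : Par R (agrF a b c) (agrF a' b' c') := by
  repeat' first | assumption | with_reducible apply par_app | constructor | intro _ _ _

theorem par_small (h1 : R a a') (h2 : R b b') (h3 : R c c') (h4 : R d d') :
    Par R (smallF a b c d) (smallF a' b' c' d') := by
  repeat' first
    | assumption | with_reducible apply par_app | with_reducible apply par_func
    | with_reducible apply par_agr | constructor | intro _ _ _

theorem par_few (h1 : R a a') (h2 : R b b') (h3 : R c c') (h4 : R d d') :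
    Par R (fewF a b c d) (fewF a' b' c' d') := by
  repeat' first
    | assumption | with_reducible apply par_ctble | with_reducible apply par_small
    | with_reducible apply par_agr | constructor | intro _ _ _

theorem par_goal (h1 : R a a') (h2 : R b b') (h3 : R c c') :
    Par R (goalF a b c) (goalF a' b' c') := by
  repeat' first | assumption | with_reducible apply par_small | constructor | intro _ _ _

theorem par_sent : Par R sentF sentF := by
  repeat' first
    | assumption | with_reducible apply par_app | with_reducible apply par_func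
    | with_reducible apply par_ctble | with_reducible apply par_closed
    | with_reducible apply par_perf | with_reducible apply par_few | with_reducible apply par_goal
    | with_reducible apply par_omega | constructor | intro _ _ _

end ParL

/-- empty or infinite -/
def UnitP (s : ℕ → Prop) : Prop := (∀ n, ¬ s n) ∨ ∀ n, ∃ m, s m ∧ n < m

/-- the lexicographic order -/
def LexLt (s t : ℕ → Prop) : Prop := ∃ n, t n ∧ ¬ s n ∧ ∀ m < n, (s m ↔ t m)

/-- binary expansions -/
structure Cod (code : Iv → ℕ → Prop) : Prop where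
  unit : ∀ y, UnitP (code y)
  surj : ∀ s, UnitP s → ∃ y, code y = s
  lt : ∀ y y', y < y' ↔ LexLt (code y) (code y')

theorem Cod.inj {code : Iv → ℕ → Prop} (h : Cod code) : Function.Injective code := fun y y' e => by
  rcases lt_trichotomy y y' with k | k | k
  · exact let ⟨_, j1, j2, _⟩ := (h.lt y y').1 k; absurd j1 (e ▸ j2)
  · exact k
  · exact let ⟨_, j1, j2, _⟩ := (h.lt y' y).1 k; absurd j1 (e ▸ j2)

/-- the neighbourhood of `s` given by a list of pairs (coordinate, real) -/
def Nb (l : List (Om × Iv)) (s : Cb) : Set Cb :=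
  {v | ∀ y ∈ l, (s y.1 < y.2 → v y.1 < y.2) ∧ (y.2 < s y.1 → y.2 < v y.1)}

theorem self_mem_nb (l : List (Om × Iv)) (s : Cb) : s ∈ Nb l s := fun _ _ => ⟨id, id⟩

theorem inv_nb {l : List (Om × Iv)} {β : Om} (h : ∀ y ∈ l, y.1 < β) (s : Cb) : Inv β (Nb l s) :=
  fun _ _ k j y hy => k y.1 (h y hy) ▸ j y hy

theorem nb_congr {l : List (Om × Iv)} {β : Om} (h : ∀ y ∈ l, y.1 < β) {s s' : Cb} (k : Ag β s s') :
    Nb l s = Nb l s' := by
  ext v
  exact forall₂_congr fun y hy => by rw [k y.1 (h y hy)]

section Link

variable {X : Type 1} [Preorder X] [OrderTop X] (code : Iv → ℕ → Prop)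

/-- `q` forces that `f` agrees with `s` below `β` -/
def val (f : Nm X) (β : Om) (s : Cb) (q : X) : Prop :=
  ∀ i < β, Fo (app f (ordN i) (sN (code (s i)))) q

/-- `Lv` is the system of levels of the closed set named `C` below `p` -/
structure Rp (C : Nm X) (Lv : Om → Set Cb → X → Prop) (p : X) : Prop where
  s0 : Sy0 Lv p
  mem : ∀ q ≤ p, ∀ β L f s, Lv β L q → fM f C q → val code f β s q → s ∈ L
  thr : ∀ q ≤ p, ∀ pt, Thr Lv pt q → ∃ f, fM f C q ∧ ∀ r ≤ q, ∀ β s, pt β s r → val code f β s r

variable {code} {f g C : Nm X} {α β : Om} {s s' : Cb} {p q : X}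

theorem val.mono (h : val code f β s p) (k : q ≤ p) : val code f β s q :=
  fun i hi => (h i hi).mono k

theorem val.down (h : val code f β s p) (k : α ≤ β) : val code f α s p :=
  fun i hi => h i (hi.trans_le k)

theorem val.ag (h : val code f β s p) (k : Ag β s s') : val code f β s' p :=
  fun i hi => k i hi ▸ h i hi

theorem val.congr (h : val code f β s p) (k : fE f g p) : val code g β s p :=
  fun i hi => app_congr (h i hi) k fE.rfl fE.rfl

theorem nn_mem_sN {t : ℕ → Prop} {n : ℕ} : fM (nn n) (sN t : Nm X) p ↔ t n :=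
  ⟨fun h => let ⟨_, _, _, j1, j2⟩ := mem_sN.1 h p le_rfl; nn_inj j2 ▸ j1,
    fun h => mem_sN.2 fun q _ => ⟨q, le_rfl, n, h, fE.rfl⟩⟩

theorem sN_inj {t t' : ℕ → Prop} (h : fE (sN t : Nm X) (sN t') p) : t = t' :=
  funext fun _ => propext ⟨fun k => nn_mem_sN.1 ((nn_mem_sN.2 k).right h),
    fun k => nn_mem_sN.1 ((nn_mem_sN.2 k).right h.symm)⟩

theorem val.uniq (hc : Cod code) (hf : Fo (func f) p) (h : val code f β s p)
    (h' : val code f β s' p) : Ag β s s' :=
  fun i hi => hc.inj (sN_inj (func_eq hf (h i hi) (h' i hi)))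

theorem Rp.mono {Lv : Om → Set Cb → X → Prop} (h : Rp code C Lv p) (k : q ≤ p) : Rp code C Lv q :=
  ⟨h.s0.mono k, fun r j => h.mem r (j.trans k), fun r j => h.thr r (j.trans k)⟩

theorem pt_of_closed (h : Fo (closedF om oN C) p) (hq : q ≤ p) (hf : fM f C q) :
    Fo (ptF om oN f) q := forces_allIn.1 h.1 f q hq hf

/-- a member of the closed set through a given point of a level -/
theorem Rp.real (hT : ThruStmt) (hD : Dist (univ : Set X)) {Lv : Om → Set Cb → X → Prop}
    (h : Rp code C Lv p) {L : Set Cb} (k : Lv β L p) (hs : s ∈ L) :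
    ∃ r ≤ p, ∃ g, fM g C r ∧ val code g β s r := by
  obtain ⟨pt, j1, j2⟩ := hT X hD Lv p h.s0 β L s k hs
  obtain ⟨g, j3, j4⟩ := h.thr p le_rfl pt j1
  obtain ⟨r, j5, s', j6⟩ := j1.dns p le_rfl β
  exact ⟨r, j5, g, j3.mono j5, (j4 r j5 β s' j6).ag (j2 r j5 s' j6)⟩

theorem forces_op {a x z : Nm X} : Fo (opF a x z) p ↔ fE z (opN a x) p := by
  constructor
  · intro h
    refine fEq_dense fun q hq => ?_
    obtain ⟨r, j1, u, j2⟩ := forces_ex.1 h q hq
    obtain ⟨r', j3, v, j4, j5, j6⟩ := forces_ex.1 j2 r le_rfl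
    exact ⟨r', le_trans j3 j1,
      (forces_pair.1 j6).trans (upN_congr (forces_pair.1 j4) (forces_pair.1 j5))⟩
  · exact fun h => forces_ex_of (upN a a) (forces_ex_of (upN a x)
      ⟨forces_pair.2 fE.rfl, forces_pair.2 fE.rfl, forces_pair.2 h⟩)

end Link

def UnitStmt : Prop := ∃ code, Cod code

/-- the sets `Nb l s` are a base of open neighbourhoods of `s` -/
def NbStmt : Prop := (∀ l s, IsOpen (Nb l s)) ∧
  ∀ (V : Set Cb) (s : Cb) (β : Om), IsOpen V → Inv β V → s ∈ V →
    ∃ l : List (Om × Iv), (∀ y ∈ l, y.1 < β) ∧ Nb l s ⊆ V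

/-- forcing the formulas on reals -/
def RealStmt : Prop := ∀ (X : Type 1) [Preorder X] [OrderTop X],
  (∀ (t : ℕ → Prop) (p : X), UnitP t → Fo (unitF om (sN t)) p) ∧
  (∀ (t t' : ℕ → Prop) (p : X), Fo (ltF (sN t) (sN t')) p ↔ LexLt t t') ∧
  (Dist (univ : Set X) → ∀ (x : Nm X) (p : X), Fo (unitF om x) p →
    ∃ r ≤ p, ∃ t, UnitP t ∧ fE (sN t) x r)

/-- the values of a point are decided -/
def ValStmt : Prop := ∀ (X : Type 1) [Preorder X] [OrderTop X], Dist (univ : Set X) →
  ∀ code, Cod code → ∀ (f : Nm X) (p : X), Fo (ptF om oN f) p →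
    ∀ β, ∃ r ≤ p, ∃ s, val code f β s r

/-- points with the same values are equal -/
def PexStmt : Prop := ∀ (X : Type 1) [Preorder X] [OrderTop X], Dist (univ : Set X) →
  ∀ code, Cod code → ∀ (f g : Nm X) (p : X), Fo (ptF om oN f) p → Fo (ptF om oN g) p →
    (∀ q ≤ p, ∀ β s s', val code f β s q → val code g β s' q → Ag β s s') → fE f g p

def AgrStmt : Prop := ∀ (X : Type 1) [Preorder X] [OrderTop X], ∀ code, Cod code →
  ∀ (f g : Nm X) (p : X) (α : Om) (s s' : Cb), Fo (func f) p → Fo (func g) p →
    val code f α s p → val code g α s' p → (Fo (agrF (ordN α) f g) p ↔ Ag α s s')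

/-- the name of a thread -/
def MkStmt : Prop := ∀ (X : Type 1) [Preorder X] [OrderTop X], ∀ code, Cod code →
  ∀ (pt : Om → Cb → X → Prop) (p : X), (∀ β, Opn (pt β)) →
    (∀ q ≤ p, ∀ β, ∃ r ≤ q, ∃ s, pt β s r) →
    (∀ q ≤ p, ∀ α β s s', α ≤ β → pt α s q → pt β s' q → Ag α s s') →
    ∃ f : Nm X, Fo (ptF om oN f) p ∧ ∀ q ≤ p, ∀ β s, pt β s q → val code f β s q

/-- finite sets of pairs and basic neighbourhoods -/
def NearStmt : Prop := ∀ (X : Type 1) [Preorder X] [OrderTop X], Dist (univ : Set X) →
  ∀ code, Cod code →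
  (∀ (H : Nm X) (p : X), Fo (finF om H) p → ∃ r ≤ p, ∃ l : List (Om × Iv), ∀ q ≤ r,
    ∀ f g β s s', (∀ y ∈ l, y.1 < β) → Fo (ptF om oN f) q → Fo (ptF om oN g) q →
      val code f β s q → val code g β s' q → s' ∈ Nb l s → Fo (nearF om H f g) q) ∧
  ∀ l : List (Om × Iv), ∃ H : Nm X, (∀ p, Fo (finF om H) p) ∧ ∀ q f g β s s',
    (∀ y ∈ l, y.1 < β) → val code f β s q → val code g β s' q → Fo (nearF om H f g) q →
      s' ∈ Nb l s

def RpStmt : Prop := ∀ (X : Type 1) [Preorder X] [OrderTop X], Dist (univ : Set X) →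
  ∀ code, Cod code → ∀ (C : Nm X) (p : X), Fo (closedF om oN C) p → ∃ Lv, Rp code C Lv p

def HLStmt : Prop := ∀ (X : Type 1) [Preorder X] [OrderTop X], Dist (univ : Set X) →
  ∀ code, Cod code → ∀ (C : Nm X) (p : X) (Lv : Om → Set Cb → X → Prop),
    Fo (closedF om oN C) p → Fo (perfF om oN C) p → Rp code C Lv p → HL Lv p

def BigStmt : Prop := ∀ (X : Type 1) [Preorder X] [OrderTop X], Dist (univ : Set X) →
  ∀ code, Cod code → ∀ (C : Nm X) (p : X) (Lv : Om → Set Cb → X → Prop),
    Fo (closedF om oN C) p → Rp code C Lv p → ∀ f α s n, fM f C p → val code f α s p →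
      (Fo (neg (smallF C (ordN α) (nn n) f)) p → ∃ r ≤ p, BigF Lv n α s r) ∧
      (BigF Lv n α s p → Fo (neg (smallF C (ordN α) (nn n) f)) p)

def FewStmt : Prop := ∀ (X : Type 1) [Preorder X] [OrderTop X], Dist (univ : Set X) →
  ∀ code, Cod code → ∀ (C : Nm X) (p : X) (Lv : Om → Set Cb → X → Prop) (n : ℕ),
    Fo (closedF om oN C) p → Rp code C Lv p →
      (Fo (fewF om oN C (nn n)) p → Few Lv n p) ∧ (Fo (neg (goalF oN C (nn n))) p → Many Lv n p)

theorem final_of (h : MainStmt) (h0 : UnitStmt) (h1 : RpStmt) (h2 : HLStmt) (h3 : FewStmt) :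
    ∃ (M : Type 2) (E : M → M → Prop), ZFC E ∧ ∃ w o, IOmega E w ∧ IOmega1 E w o ∧ ICH E w o ∧
      ∀ X, IClosed E w o X → IPerf E w o X → ∀ k, E k w → (∃ z, E z k) → IFew E w o X k →
        ∃ a, E a o ∧ ∀ f, E f X → ISmall E X a k f := by
  obtain ⟨X, _, t, k1, k2, k3, k4⟩ := h
  obtain ⟨code, hc⟩ := h0
  let _ : OrderTop X := { top := t, le_top := k1 }
  obtain ⟨M, E, e1, e2⟩ := exists_model (le := cle X) htop sentF (fun _ _ _ => par_sent)
    fun p => forces_ex_of om (forces_ex_of oN ⟨forces_omega htop p, om1 X k2 p, chf X k2 k3 p,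
      fun C => forces_imp.2 fun q₁ _ j1 => forces_imp.2 fun q₂ i2 j2 k =>
        forces_imp.2 fun q₃ i3 j3 => forces_imp.2 fun q₄ i4 j4 => forces_imp.2 fun q₅ i5 j5 => by
        by_contra hn
        obtain ⟨q₆, i6, j6⟩ := not_forces hn
        obtain ⟨q₇, i7, n, j7⟩ := mem_om (fM.mono j3 (le_trans i6 (le_trans i5 i4)))
        obtain ⟨q, i8, z, j8⟩ := forces_ex.1 j4 q₇ (le_trans i7 (le_trans i6 i5))
        have l6 : q ≤ q₆ := le_trans i8 i7
        have l5 : q ≤ q₅ := le_trans l6 i6
        have l2 : q ≤ q₂ := le_trans l5 (le_trans i5 (le_trans i4 i3))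
        have e : fE k (nn n) q := (j7.mono i8).symm
        obtain ⟨_, -, m, l7, -⟩ := mem_nn (fM.right j8 e)
        have c1 : Fo (closedF om oN C) q := Fo.mono j1 (l2.trans i2)
        obtain ⟨Lv, hL⟩ := h1 X k2 code hc C q c1
        obtain ⟨c2, c3⟩ := h3 X k2 code hc C q Lv n c1 hL
        exact k4 Lv q n (by omega) hL.s0 (h2 X k2 code hc C q Lv c1 (Fo.mono j2 l2) hL)
          (c2 (Par.fo (par_few fE.rfl fE.rfl fE.rfl e) (Fo.mono j5 l5)))
          (c3 (Par.fo (Par.neg (par_goal fE.rfl fE.rfl e)) (Fo.mono j6 l6)))⟩)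
  refine ⟨M, E, e1, ?_⟩
  simpa only [sentF, omega1, ch, ctble, func, unitF, ltF, opF, ptF, finF, nearF, closedF, openF,
    perfF, agrF, smallF, fewF, goalF, IOmega1, ICH, ICtble, IFunc, IUnit, ILt, IPt, IFin, INear,
    IClosed, IOpen, IPerf, IAgr, ISmall, IFew, sat_ex, sat_and, sat_omega, sat_all, sat_imp,
    sat_allIn, sat_exIn, sat_sub, sat_app, sat_neg, sat_mem, sat_eq, sat_or, sat_iff,
    sat_pair] using e2

end Pool.Agent.Ctry.AK
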