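import Pool.Agent.MP_b60a07_lc.AK.Names

/-! Finite sets of pairs in the extension and basic neighbourhoods of the cube. -/

open Filter Set

namespace Pool.Agent.Ctry.AK.Near

open Fc Fc.Fml Fc.Link1

variable {X : Type 1} [Preorder X] [OrderTop X] {code : Iv → ℕ → Prop}

theorem lt_iff (h : RealStmt) (hc : Cod code) {x d : Nm X} {u : X} {y y' : Iv}
    (hx : fE (sN (code y)) x u) (hd : fE (sN (code y')) d u) : Fo (ltF x d) u ↔ y < y' := by
  rw [hc.lt, ← (h X).2.1 _ _ u]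
  exact ⟨fun k => Par.fo (par_lt hx.symm hd.symm) k, fun k => Par.fo (par_lt hx hd) k⟩

theorem dom_pt {f a x : Nm X} {t : X} (hf : Fo (ptF om oN f) t) (h : Fo (app f a x) t) :
    ∃ r ≤ t, ∃ i : Om, fE (ordN i) a r := by
  obtain ⟨t1, j1, a', j2, j3⟩ :=
    forces_exIn.1 (forces_allIn.1 hf.2.2 _ t le_rfl (forces_app.1 h)) t le_rfl
  obtain ⟨t2, j4, x', j5⟩ := forces_ex.1 j3 t1 le_rfl
  obtain ⟨t3, j6, i, j7⟩ := mem_oN.1 j2 t2 j4
  exact ⟨t3, j6.trans (le_trans j4 j1), i,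
    j7.trans ((opN_inj (forces_op.1 j5)).1.mono j6).symm⟩

theorem part1 (h : RealStmt) (hD : Dist (univ : Set X)) (hc : Cod code) (H : Nm X) (p : X)
    (hH : Fo (finF om H) p) : ∃ r ≤ p, ∃ l : List (Om × Iv), ∀ q ≤ r,
    ∀ f g β s s', (∀ y ∈ l, y.1 < β) → Fo (ptF om oN f) q → Fo (ptF om oN g) q →
      val code f β s q → val code g β s' q → s' ∈ Nb l s → Fo (nearF om H f g) q := by
  obtain ⟨r0, k0, x, k1, k2⟩ := forces_exIn.1 hH p le_rfl
  obtain ⟨r1, k3, n, k4⟩ := mem_om k1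
  have k5 : Fo (ctble (nn n) H) r1 := Par.fo (par_ctble k4.symm fE.rfl) (Fo.mono k2 k3)
  obtain ⟨r2, k6, e, k7, k8⟩ := forces_ex.1 k5 r1 le_rfl
  obtain ⟨r, k9, k10⟩ := decide_all hD
    (fun m t => ∃ z : Om × Iv, Fo (app e (nn m) (opN (ordN z.1) (sN (code z.2)))) t)
    (fun _ _ _ k ⟨z, j⟩ => ⟨z, j.mono k⟩) r2
  obtain ⟨y₀, -⟩ := hc.surj (fun _ => False) (Or.inl fun _ => id)
  have hz : ∀ m : ℕ, ∃ z : Om × Iv,
      (∃ z : Om × Iv, Fo (app e (nn m) (opN (ordN z.1) (sN (code z.2)))) r) →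
        Fo (app e (nn m) (opN (ordN z.1) (sN (code z.2)))) r := fun m => by
    by_cases j : ∃ z : Om × Iv, Fo (app e (nn m) (opN (ordN z.1) (sN (code z.2)))) r
    · exact let ⟨z, j'⟩ := j; ⟨z, fun _ => j'⟩
    · exact ⟨(⊥, y₀), fun j' => absurd j' j⟩
  choose c hcz using hz
  refine ⟨r, k9.trans (le_trans k6 (k3.trans k0)), (List.range n).map c,
    fun q hq f g β s s' hl hf hg vf vg hn a d x y =>
      forces_imp.2 fun q1 i1 e1 => forces_imp.2 fun q2 i2 e2 => forces_imp.2 fun q3 i3 e3 =>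
        forces_imp.2 fun q4 i4 e4 => Forces.dense fun t ht => ?_⟩
  have l3 : t ≤ q3 := le_trans ht i4
  have l2 : t ≤ q2 := le_trans l3 i3
  have l1 : t ≤ q1 := le_trans l2 i2
  have l0 : t ≤ q := le_trans l1 i1
  obtain ⟨t1, j1, i, j2⟩ := dom_pt (Fo.mono hf l0) (Fo.mono e3 l3)
  obtain ⟨t2, j3, T, j4, j5⟩ := (h X).2.2 hD d t1 (Fo.mono e2 (j1.trans l2))
  obtain ⟨y0, rfl⟩ := hc.surj T j4
  have m2 : t2 ≤ t := j3.trans j1
  have w2 : t2 ≤ r := m2.trans (l0.trans hq)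
  obtain ⟨t3, j6, m', j7, j8⟩ := forces_exIn.1 (forces_allIn.1 k8 _ t2 (w2.trans k9)
    (forces_app.1 (Fo.mono e1 (m2.trans l1)))) t2 le_rfl
  obtain ⟨u, j9, j, j10, j11⟩ := mem_nn j7
  have u2 : u ≤ t2 := j9.trans j6
  have ut : u ≤ t := u2.trans m2
  have ur : u ≤ r := u2.trans w2
  have ea : fE (ordN i) a u := j2.mono (u2.trans j3)
  have ed : fE (sN (code y0)) d u := j5.mono u2
  have j12 : Fo (app e (nn j) (opN (ordN i) (sN (code y0)))) u :=
    app_congr (Fo.mono j8 j9) fE.rfl j11.symm (opN_congr ea.symm ed.symm)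
  have j13 := hcz j ((k10 j).resolve_right fun k => k u ur ⟨(i, y0), j12⟩)
  obtain ⟨j14, j15⟩ := opN_inj (func_eq (Fo.mono k7 (ur.trans k9)) j12 (Fo.mono j13 ur))
  have hm : c j ∈ (List.range n).map c := List.mem_map.2 ⟨j, List.mem_range.2 j10, rfl⟩
  have hi : i < β := ordN_inj j14 ▸ hl _ hm
  have hb := hn _ hm
  rw [← ordN_inj j14, ← hc.inj (sN_inj j15)] at hb
  have uq : u ≤ q := ut.trans l0
  have ex : fE (sN (code (s i))) x u := func_eq (Fo.mono hf.1 uq) (Fo.mono (vf i hi) uq)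
    (app_congr (Fo.mono e3 (ut.trans l3)) fE.rfl ea.symm fE.rfl)
  have ey : fE (sN (code (s' i))) y u := func_eq (Fo.mono hg.1 uq) (Fo.mono (vg i hi) uq)
    (app_congr (Fo.mono e4 (le_trans ut ht)) fE.rfl ea.symm fE.rfl)
  exact ⟨u, ut, forces_imp.2 fun v hv k => (lt_iff h hc (ey.mono hv) (ed.mono hv)).2
      (hb.1 ((lt_iff h hc (ex.mono hv) (ed.mono hv)).1 k)),
    forces_imp.2 fun v hv k => (lt_iff h hc (ed.mono hv) (ey.mono hv)).2
      (hb.2 ((lt_iff h hc (ed.mono hv) (ex.mono hv)).1 k))⟩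

theorem part2 (h : RealStmt) (hc : Cod code) (l : List (Om × Iv)) :
    ∃ H : Nm X, (∀ p, Fo (finF om H) p) ∧ ∀ q f g β s s',
    (∀ y ∈ l, y.1 < β) → val code f β s q → val code g β s' q → Fo (nearF om H f g) q →
      s' ∈ Nb l s := by
  refine ⟨relN (ULift.{1} (Fin l.length)) (fun i => ordN (l.get i.down).1)
    (fun i => sN (code (l.get i.down).2)) fun _ => ⊤, fun p => exIn_om_of l.length
      (forces_ex_of (relN (ULift.{1} (Fin l.length)) (fun i => nn i.down)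
        (fun i => opN (ordN (l.get i.down).1) (sN (code (l.get i.down).2))) fun _ => ⊤)
        ⟨func_rel fun i j t _ _ _ k => ⟨t, le_rfl, ?_⟩,
          forces_allIn.2 fun y t _ k => Forces.dense fun t' ht' => ?_⟩),
    fun q f g β s s' hl vf vg hn y hy => ?_⟩
  · rw [Fin.ext (nn_inj k)]
    exact fE.rfl
  · obtain ⟨u, j1, i, -, j2⟩ := fMem_mk_iff.1 k t' ht'
    exact ⟨u, j1, forces_exIn_of (nn i.down) (nn_mem_nn.2 i.down.2)
      (app_congr (app_rel_of (I := ULift.{1} (Fin l.length)) (c := fun _ => ⊤) i le_top)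
        fE.rfl fE.rfl j2)⟩
  · obtain ⟨i, rfl⟩ := List.mem_iff_get.1 hy
    have k := forces_imp.1 (forces_imp.1 (forces_imp.1 (forces_imp.1
      (hn (ordN (l.get i).1) (sN (code (l.get i).2)) (sN (code (s (l.get i).1)))
        (sN (code (s' (l.get i).1)))) q le_rfl
      (app_rel_of (I := ULift.{1} (Fin l.length)) (c := fun _ => ⊤) ⟨i⟩ le_top)) q le_rfl
      ((h X).1 _ q (hc.unit _))) q le_rfl (vf _ (hl _ hy))) q le_rfl (vg _ (hl _ hy))
    exact ⟨fun j => (lt_iff h hc fE.rfl fE.rfl).1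
        (forces_imp.1 k.1 q le_rfl ((lt_iff h hc fE.rfl fE.rfl).2 j)),
      fun j => (lt_iff h hc fE.rfl fE.rfl).1
        (forces_imp.1 k.2 q le_rfl ((lt_iff h hc fE.rfl fE.rfl).2 j))⟩

theorem near (h : RealStmt) : NearStmt := fun _ _ _ hD _ hc =>
  ⟨part1 h hD hc, part2 h hc⟩

end Pool.Agent.Ctry.AK.Near
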