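import Pool.Agent.MP_b60a07_lc.AK.Basic
import Mathlib.Order.Zorn

/-! Compactness for names. -/

open Filter Set

namespace Pool.Agent.Ctry.AK.Nlc

variable {P : Type 1} [Preorder P] {K : Type} {p q r : P} {U : Set (Set K × P)} {V : Set K}

/-- open names with the finite intersection property below `p` -/
def Good (p : P) (U : Set (Set K × P)) : Prop := (∀ V q r, r ≤ q → (V, q) ∈ U → (V, r) ∈ U) ∧
  ∀ q ≤ p, ∀ l : List (Set K), (∀ V ∈ l, (V, q) ∈ U) → ∃ x, ∀ V ∈ l, x ∈ V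

/-- `r` forces that `V` misses a finite intersection -/
def Out (U : Set (Set K × P)) (V : Set K) (r : P) : Prop :=
  ∃ l : List (Set K), (∀ W ∈ l, (W, r) ∈ U) ∧ ∀ x ∈ V, ∃ W ∈ l, x ∉ W

theorem exists_max (h : Good p U) : ∃ M, U ⊆ M ∧ Maximal (Good p) M := by
  refine zorn_subset_nonempty {U | Good p U} (fun c h1 h2 h3 => ⟨⋃₀ c, ⟨?_, fun q hq l hl => ?_⟩,
    fun s hs => subset_sUnion_of_mem hs⟩) U h
  · rintro V q r k ⟨A, k1, k2⟩
    exact ⟨A, k1, (h1 k1).1 V q r k k2⟩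
  · obtain ⟨A, k1, k2⟩ : ∃ A ∈ c, ∀ V ∈ l, (V, q) ∈ A := by
      induction l with
      | nil => exact h3.imp fun A k => ⟨k, by simp⟩
      | cons V l ih =>
        obtain ⟨A, k1, k2⟩ := ih fun W k => hl W (List.mem_cons_of_mem _ k)
        obtain ⟨B, k3, k4⟩ := hl V List.mem_cons_self
        rcases h2.total k1 k3 with j | j
        · exact ⟨B, k3, List.forall_mem_cons.2 ⟨k4, fun W k => j (k2 W k)⟩⟩
        · exact ⟨A, k1, List.forall_mem_cons.2 ⟨j k4, k2⟩⟩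
    exact (h1 k1).2 q hq l k2

theorem dich (h : Maximal (Good p) U) (V : Set K) (q : P) : (V, q) ∈ U ∨ ∃ r ≤ q, Out U V r := by
  classical
  refine (em _).symm.imp_left fun hn => ?_
  refine h.2 (y := U ∪ {y | y.1 = V ∧ y.2 ≤ q}) ⟨fun W a b k j => j.imp (h.1.1 W a b k)
    fun i => ⟨i.1, k.trans i.2⟩, fun a ha l hl => ?_⟩ subset_union_left (Or.inr ⟨rfl, le_rfl⟩)
  by_cases k : a ≤ q
  · by_contra z
    refine hn ⟨a, k, l.filter fun W => (W, a) ∈ U, fun W j => by simpa using (List.mem_filter.1 j).2,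
      fun x hx => ?_⟩
    by_contra y
    refine z ⟨x, fun W j => (hl W j).elim (fun i => ?_) fun i => (show W = V from i.1) ▸ hx⟩
    by_contra i'
    exact y ⟨W, List.mem_filter.2 ⟨j, by simpa using i⟩, i'⟩
  · exact h.1.2 a ha l fun W j => (hl W j).resolve_right fun i => k i.2

theorem Out.mono (h : Good p U) (k : r ≤ q) (j : Out U V q) : Out U V r :=
  let ⟨l, j1, j2⟩ := j; ⟨l, fun W i => h.1 W q r k (j1 W i), j2⟩

theorem Out.not (h : Good p U) (k : q ≤ p) (j : Out U V q) : (V, q) ∉ U := fun i => by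
  obtain ⟨l, j1, j2⟩ := j
  obtain ⟨x, hx⟩ := h.2 q k (V :: l) (List.forall_mem_cons.2 ⟨i, j1⟩)
  obtain ⟨W, j3, j4⟩ := j2 x (hx V List.mem_cons_self)
  exact j4 (hx W (List.mem_cons_of_mem _ j3))

theorem nlc : NlcStmt := by
  intro P _ hP K _ _ ag Bs h1 h2 h3 h4 𝒞 p h5 h6
  obtain ⟨U, k1, k2⟩ := exists_max (p := p) (U := {y | 𝒞 y.1 y.2}) ⟨fun V q r => h5 V q r, h6⟩
  have g := k2.1
  refine ⟨fun β s r => r ≤ p ∧ (∀ V ∈ Bs β, (V, r) ∈ U ∨ Out U V r) ∧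
    ∀ V ∈ Bs β, (V, r) ∈ U → s ∈ V, fun β s q r k j => ⟨k.trans j.1, fun V i => (j.2.1 V i).imp
      (g.1 V q r k) (Out.mono g k), fun V i i' => j.2.2 V i ((j.2.1 V i).resolve_right fun z =>
        (z.mono g k).not g (k.trans j.1) i')⟩, fun q hq β => ?_, fun q hq α β s s' k j j' => ?_,
    fun q _ β s V i i' j => j.2.2 V i (k1 i')⟩
  · obtain ⟨r, -, j1, j2⟩ := hP.set (h1 β) (mem_univ q) (fun V r => (V, r) ∈ U ∨ Out U V r)
      (fun V _ a b _ k j => j.imp (g.1 V a b k) (Out.mono g k)) fun V _ a _ _ =>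
        (dich k2 V a).elim (fun z => ⟨a, trivial, le_rfl, Or.inl z⟩)
          fun ⟨b, z, z'⟩ => ⟨b, trivial, z, Or.inr z'⟩
    obtain ⟨s, -, hs⟩ := isCompact_univ.inter_iInter_nonempty
      (fun V : {V // V ∈ Bs β ∧ (V, r) ∈ U} => V.1) (fun V => h3 β V.1 V.2.1) fun u => by
        obtain ⟨x, hx⟩ := g.2 r (j1.trans hq) (u.toList.map Subtype.val) fun V i => by
          obtain ⟨W, -, rfl⟩ := List.mem_map.1 i
          exact W.2.2
        exact ⟨x, trivial, mem_iInter₂.2 fun W i =>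
          hx W.1 (List.mem_map.2 ⟨W, Finset.mem_toList.2 i, rfl⟩)⟩
    exact ⟨r, j1, s, j1.trans hq, j2, fun V i i' => mem_iInter.1 hs ⟨V, i, i'⟩⟩
  · by_contra hn
    obtain ⟨V, i, V', i', e, a, a'⟩ := h4 α s s' hn
    obtain ⟨l, b1, b2⟩ := (j.2.1 V i).resolve_left fun z => a (j.2.2 V i z)
    obtain ⟨l', c1, c2⟩ := (j.2.1 V' i').resolve_left fun z => a' (j'.2.2 V' (h2 k i') z)
    obtain ⟨x, hx⟩ := g.2 q hq (l ++ l') (List.forall_mem_append.2 ⟨b1, c1⟩)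
    rcases (e ▸ mem_univ x : x ∈ V ∪ V') with z | z
    · exact let ⟨W, d1, d2⟩ := b2 x z; d2 (hx W (List.mem_append_left _ d1))
    · exact let ⟨W, d1, d2⟩ := c2 x z; d2 (hx W (List.mem_append_right _ d1))

end Pool.Agent.Ctry.AK.Nlc
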