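import Pool.Agent.MP_b60a07_lc.AK.Names

/-! Row REAL of PROJECT AK: forcing the formulas on reals and on points of the cube. -/

open Filter Set

namespace Pool.Agent.Ctry.AK.Real

open Fc Fc.Fml Fc.Link1

variable {X : Type 1} [Preorder X] [OrderTop X]

theorem unit_of {t : ℕ → Prop} (p : X) (h : UnitP t) : Fo (unitF om (sN t)) p := by
  refine ⟨forces_sub.2 fun z q _ hz => fMem_dense fun r hr => ?_, ?_⟩
  · obtain ⟨r', j, n, -, e⟩ := mem_sN.1 hz r hr
    exact ⟨r', j, (nn_mem_om n).left e⟩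
  · rcases h with h | h
    · refine or_left fun z q _ hz => ?_
      obtain ⟨_, -, n, hn, -⟩ := mem_sN.1 hz q le_rfl
      exact h n hn
    · refine or_right (forces_allIn.2 fun z q _ hz => Forces.dense fun r hr => ?_)
      obtain ⟨r', j, n, e⟩ := mem_om (fM.mono hz hr)
      obtain ⟨m, k1, k2⟩ := h n
      exact ⟨r', j, forces_exIn_of (nn m) (nn_mem_sN.2 k1) ((nn_mem_nn.2 k2).left e)⟩

theorem lt_iff (t t' : ℕ → Prop) (p : X) : Fo (ltF (sN t) (sN t')) p ↔ LexLt t t' := by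
  constructor
  · intro h
    obtain ⟨r, -, z, k1, k2, k3⟩ := forces_exIn.1 h p le_rfl
    obtain ⟨r', j, n, k4, e⟩ := mem_sN.1 k1 r le_rfl
    refine ⟨n, k4, fun k => k2 r' j ((nn_mem_sN.2 k).left e), fun m hm => ?_⟩
    exact nn_mem_sN.symm.trans ((forces_iff.1 (forces_allIn.1 k3 (nn m) r' j
      ((nn_mem_nn.2 hm).right e)) r' le_rfl).trans nn_mem_sN)
  · rintro ⟨n, h1, h2, h3⟩
    refine forces_exIn_of (nn n) (nn_mem_sN.2 h1) ⟨fun q _ k => h2 (nn_mem_sN.1 k),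
      forces_allIn.2 fun z q _ hz => Forces.dense fun r hr => ?_⟩
    obtain ⟨r', j, m, hm, e⟩ := mem_nn (fM.mono hz hr)
    exact ⟨r', j, forces_iff.2 fun a ha =>
      ⟨fun k => (nn_mem_sN.2 ((h3 m hm).1 (nn_mem_sN.1 (fM.left k (e.mono ha).symm)))).left
        (e.mono ha),
      fun k => (nn_mem_sN.2 ((h3 m hm).2 (nn_mem_sN.1 (fM.left k (e.mono ha).symm)))).left
        (e.mono ha)⟩⟩

theorem dec_unit (hD : Dist (univ : Set X)) (x : Nm X) (p : X) (h : Fo (unitF om x) p) :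
    ∃ r ≤ p, ∃ t, UnitP t ∧ fE (sN t) x r := by
  obtain ⟨r1, k1, k2⟩ := decide_all hD (fun n t => fM (nn n) x t) (fun _ _ _ k h => h.mono k) p
  have k5 : fE (sN fun n => fM (nn n) x r1) x r1 := by
    refine fEq_of_ext fun z t ht => ⟨fun h => fMem_dense fun t' ht' => ?_,
      fun h' => mem_sN.2 fun t' ht' => ?_⟩
    · obtain ⟨t1, j1, n, j2, j3⟩ := mem_sN.1 h t' ht'
      exact ⟨t1, j1, fM.left (j2.mono (j1.trans (le_trans ht' ht))) j3⟩
    · have j0 : t' ≤ r1 := le_trans ht' ht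
      obtain ⟨t1, j1, n, j2⟩ := mem_om (forces_sub.1 h.1 z t' (j0.trans k1) (fM.mono h' ht'))
      exact ⟨t1, j1, n, (k2 n).resolve_right fun k =>
        k t1 (j1.trans j0) (fM.left (fM.mono h' (j1.trans ht')) j2.symm), j2⟩
  refine ⟨r1, k1, _, ?_, k5⟩
  obtain ⟨r2, k3, k4 | k4⟩ := forces_or.1 h.2 r1 k1
  · exact Or.inl fun n k => k4 (nn n) r2 le_rfl (k.mono k3)
  · refine Or.inr fun n => ?_
    obtain ⟨r3, j1, z, j2, j3⟩ := forces_exIn.1 (allIn_om' k4 n) r2 le_rfl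
    obtain ⟨r4, j4, m, j5, j6⟩ :=
      mem_sN.1 (fM.right j2 (k5.mono (le_trans j1 k3)).symm) r3 le_rfl
    exact ⟨m, j5, nn_mem_nn.1 (fM.right (fM.mono j3 j4) j6.symm)⟩

theorem real : RealStmt := fun _ _ _ => ⟨fun _ p h => unit_of p h, lt_iff, dec_unit⟩

theorem vl (h : RealStmt) : ValStmt := by
  intro X _ _ hD code hc f p hf β
  obtain ⟨r, -, k1, k2⟩ := hD.set (ctble_Iio β) (p := p) trivial
    (fun i r => ∃ y, Fo (app f (ordN i) (sN (code y))) r)
    (fun _ _ _ _ _ k ⟨y, j⟩ => ⟨y, j.mono k⟩) fun i _ q _ hq => by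
      obtain ⟨r, j1, x, j2, j3⟩ :=
        forces_ex.1 (forces_allIn.1 hf.2.1 (ordN i) q hq (ordN_mem_oN i)) q le_rfl
      obtain ⟨r', j4, t, j5, j6⟩ := (h X).2.2 hD x r j3
      obtain ⟨y, rfl⟩ := hc.surj t j5
      exact ⟨r', trivial, j4.trans j1, y, app_congr (Fo.mono j2 j4) fE.rfl fE.rfl j6.symm⟩
  choose! s hs using k2
  exact ⟨r, k1, s, hs⟩

theorem agr : AgrStmt := by
  intro X _ _ code hc f g p α s s' h1 h2 hf hg
  refine ⟨fun h i hi => hc.inj (sN_inj (func_eq h2 (forces_imp.1 (forces_allIn.1 h (ordN i) p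
    le_rfl (ordN_mem_of_lt hi) _) p le_rfl (hf i hi)) (hg i hi))), fun h => forces_allIn.2
    fun a q hq ha x => forces_imp.2 fun r hr hx => Forces.dense fun r1 k1 => ?_⟩
  obtain ⟨r2, k2, i, hi, e⟩ := mem_ordN.1 ha r1 (le_trans k1 hr)
  have k3 : r2 ≤ p := k2.trans (le_trans k1 (le_trans hr hq))
  refine ⟨r2, k2, app_congr ((hg i hi).mono k3) fE.rfl e ?_⟩
  rw [← h i hi]
  exact func_eq (h1.mono k3) ((hf i hi).mono k3)
    (app_congr (Fo.mono hx (k2.trans k1)) fE.rfl e.symm fE.rfl)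

theorem pex (h : ValStmt) : PexStmt := by
  intro X _ _ hD code hc
  have key : ∀ (f g : Nm X) (p : X), Fo (ptF om oN f) p → Fo (ptF om oN g) p →
      (∀ q ≤ p, ∀ β s s', val code f β s q → val code g β s' q → Ag β s s') →
      ∀ z, ∀ q ≤ p, fM z f q → fM z g q := fun f g p hf hg H z q hq hz =>
    fMem_dense fun r hr => by
      have k0 : r ≤ p := le_trans hr hq
      obtain ⟨r1, k1, a, k2, k3⟩ :=
        forces_exIn.1 (forces_allIn.1 hf.2.2 z r k0 (hz.mono hr)) r le_rfl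
      obtain ⟨r2, k4, x, k5⟩ := forces_ex.1 k3 r1 le_rfl
      obtain ⟨r3, k6, i, e⟩ := mem_oN.1 k2 r2 k4
      have l3 : r3 ≤ r := k6.trans (le_trans k4 k1)
      obtain ⟨r4, k7, s, k8⟩ := h X hD code hc f r3 (hf.mono (l3.trans k0)) (Order.succ i)
      obtain ⟨r5, k9, s', k10⟩ :=
        h X hD code hc g r4 (hg.mono (k7.trans (l3.trans k0))) (Order.succ i)
      have l5 : r5 ≤ r3 := k9.trans k7
      have l6 : r5 ≤ p := l5.trans (l3.trans k0)
      have e1 : fE z (opN a x) r5 := (forces_op.1 k5).mono (l5.trans k6)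
      have e2 : fE (sN (code (s i))) x r5 := func_eq (Fo.mono hf.1 l6)
        ((k8 i (Order.lt_succ i)).mono k9) (app_congr (forces_app.2
          ((hz.mono (l5.trans (l3.trans hr))).left e1)) fE.rfl (e.mono l5).symm fE.rfl)
      rw [H r5 l6 _ s s' (k8.mono k9) k10 i (Order.lt_succ i)] at e2
      exact ⟨r5, l5.trans l3, (forces_app.1 (k10 i (Order.lt_succ i))).left
        ((opN_congr (e.mono l5) e2).trans e1.symm)⟩
  exact fun f g p hf hg H => fEq_of_ext fun z q hq => ⟨key f g p hf hg H z q hq,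
    key g f p hg hf (fun q hq β s s' k k' => (H q hq β s' s k' k).symm) z q hq⟩

theorem mk (h : RealStmt) : MkStmt := by
  intro X _ _ code hc pt p h1 h2 h3
  let I : Type 1 := {z : Om × Iv × X // ∃ β s, z.1 < β ∧ pt β s z.2.2 ∧ s z.1 = z.2.1}
  have hv : ∀ q β s, pt β s q → val code (relN I (fun i => ordN i.1.1)
      (fun i => sN (code i.1.2.1)) fun i => i.1.2.2) β s q := fun q β s k i hi =>
    app_rel_of (I := I) (c := fun i => i.1.2.2) ⟨(i, s i, q), β, s, hi, k, rfl⟩ le_rfl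
  refine ⟨_, ⟨func_rel ?_, forces_allIn.2 fun a q hq ha => Forces.dense fun r hr => ?_,
    forces_allIn.2 fun z q _ hz => Forces.dense fun r hr => ?_⟩, fun q _ => hv q⟩
  · rintro ⟨⟨i, y, a⟩, β, s, j1, j2, j3⟩ ⟨⟨i', y', a'⟩, β', s', j4, j5, j6⟩ q hq k1 k2 k3
    obtain rfl : i = i' := ordN_inj k3
    have e : y = y' := by
      rw [← show s i = y from j3, ← show s' i = y' from j6]
      rcases le_total β β' with k | k
      · exact h3 q hq β β' s s' k (h1 _ _ _ _ k1 j2) (h1 _ _ _ _ k2 j5) i j1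
      · exact (h3 q hq β' β s' s k (h1 _ _ _ _ k2 j5) (h1 _ _ _ _ k1 j2) i j4).symm
    exact ⟨q, le_rfl, e ▸ fE.rfl⟩
  · obtain ⟨r1, k1, i, e⟩ := mem_oN.1 ha r hr
    obtain ⟨r2, k2, s, k3⟩ := h2 r1 (k1.trans (le_trans hr hq)) (Order.succ i)
    exact ⟨r2, k2.trans k1, forces_ex_of (sN (code (s i))) ⟨app_congr
      (hv r2 _ s k3 i (Order.lt_succ i)) fE.rfl (e.mono k2) fE.rfl, (h X).1 _ _ (hc.unit _)⟩⟩
  · obtain ⟨r1, k1, i, -, e⟩ := fMem_mk_iff.1 hz r hr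
    exact ⟨r1, k1, forces_exIn_of (ordN i.1.1) (ordN_mem_oN _)
      (forces_ex_of _ (forces_op.2 (fE.symm e)))⟩

end Pool.Agent.Ctry.AK.Real
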