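import Pool.Agent.MP_b60a07_lc.AK.Basic

/-! PROJECT AK: first countability, and the tree of big fibres. -/

open Filter Set

namespace Pool.Agent.Ctry.AK.Red

theorem fc : FcStmt := by
  intro P _ Lv p h0 hl q hq pt ht
  obtain ⟨r, hr, α, H⟩ := hl q hq (fun ξ B r => Bas ξ B ∧ ∃ s, pt ξ s r ∧ s ∈ B)
    (fun ξ B a b k ⟨i1, s, i2, i3⟩ => ⟨i1, s, ht.opn ξ s a b k i2, i3⟩) fun ξ B r i => ⟨ξ, i.1⟩
  obtain ⟨r1, j1, s, j2⟩ := ht.dns r hr α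
  obtain ⟨r2, j3, L, j4⟩ := h0.dns r1 (j1.trans (hr.trans hq)) α
  have k1 : r2 ≤ r := j3.trans j1
  have k2 : r2 ≤ q := k1.trans hr
  have j5 : pt α s r2 := ht.opn α s r1 r2 j3 j2
  refine ⟨r2, k2, α, s, j5, ((h0.mono (k2.trans hq)).mt_iff (inv_cyl α s) j4).2
    ⟨s, self_mem_cyl α s, ht.mem r2 k2 α s L j5 j4⟩, fun a ha β L' l w i1 w' i2 i3 i4 => ?_⟩
  rcases le_total β α with hb | hb
  · exact (i3.trans i4.symm).mono hb
  obtain ⟨b, l1, s', l2⟩ := ht.dns a (ha.trans k2) β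
  have l3 : b ≤ r2 := l1.trans ha
  have key : ∀ v ∈ L', Ag α v s → Ag β v s' := fun v v1 v2 => by
    by_contra hn
    obtain ⟨V, W, m1, -, m2, m3, m4⟩ := prime hn
    obtain ⟨c, n1, ξ, n2, B, ⟨n3, u, n4, n5⟩, n6⟩ := H b (l3.trans k1) β V β v
      ⟨m1, s', l2, (m2 ▸ mem_univ s' : s' ∈ V ∪ W).resolve_right m4⟩
      (((h0.mono (l3.trans (k2.trans hq))).mt_iff ((inv_cyl β v).diff m1.inv)
        (h0.opn β L' a b l1 l)).2 ⟨v, ⟨self_mem_cyl β v, m3⟩, v1⟩)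
    have n7 : Ag ξ u s := ht.coh c (n1.trans (l3.trans k2)) ξ α u s n2.le n4
      (ht.opn α s r2 c (n1.trans l3) j5)
    exact n6.not_mis (mis_of_eq (eq_empty_of_forall_notMem fun y hy => hy.2
      (n3.inv u y (n7.trans (((Ag.mono hy.1 hb).trans v2).mono n2.le).symm) n5)))
  exact (key w i1 i3).trans (key w' i2 i4).symm

section

variable {P : Type 1} [Preorder P] {Lv : Om → Set Cb → P → Prop} {p q r : P} {α β : Om}
  {s t : Cb} {m n : ℕ}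

omit [Preorder P] in
theorem big_le (h : BigF Lv m β s p) (h1 : n ≤ m) (h2 : α ≤ β) (h3 : Ag α s t) :
    BigF Lv n α t p :=
  let ⟨γ, L, j1, j2, w, j3, j4⟩ := h
  ⟨γ, L, h2.trans j1, j2, fun i => w (Fin.castLE (Nat.succ_le_succ h1) i),
    fun _ => ⟨(j3 _).1, ((j3 _).2.mono h2).trans h3⟩,
    fun _ _ k => j4 _ _ fun e => k (Fin.castLE_injective _ e)⟩

/-- deciding countably many open statements -/
theorem dec (hP : Dist (univ : Set P)) {ι : Type*} {W : Set ι} (hW : W.Countable)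
    (A : ι → P → Prop) (hA : ∀ i a b, b ≤ a → A i a → A i b) (q : P) :
    ∃ r ≤ q, ∀ i ∈ W, ∀ r' ≤ r, A i r' → A i r := by
  obtain ⟨r, -, j1, j2⟩ := hP.set hW (p := q) trivial (fun i r => A i r ∨ ∀ r' ≤ r, ¬ A i r')
    (fun i _ a b _ k j => j.imp (hA i a b k) fun j c l => j c (l.trans k)) fun i _ a _ _ => by
      by_cases k : ∃ b ≤ a, A i b
      · exact let ⟨b, k1, k2⟩ := k; ⟨b, trivial, k1, Or.inl k2⟩
      · exact ⟨a, trivial, le_rfl, Or.inr fun b k1 k2 => k ⟨b, k1, k2⟩⟩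
  exact ⟨r, j1, fun i hi r' k j => (j2 i hi).resolve_right fun j' => j' r' k j⟩

theorem many2 (hP : Dist (univ : Set P)) (h0 : Sy0 Lv p) (h1 : Few Lv 1 p) (h2 : Many Lv 1 p) :
    Many Lv 2 p := by
  intro q hq α
  obtain ⟨r, j1, β, j2, W, j3, j4⟩ := h1 q hq α
  obtain ⟨r1, j5, j6⟩ := dec hP j3 (fun t a => BigF Lv 1 β t a)
    (fun _ _ _ k i => i.mono h0.opn k) r
  have := (j3.mono (sep_subset W fun t => BigF Lv 1 β t r1)).to_subtype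
  choose γ hγ using fun t : {t ∈ W | BigF Lv 1 β t r1} => t.2.2
  obtain ⟨δ, hδ⟩ := exists_ge_all γ
  obtain ⟨r2, k1, s, k2⟩ := h2 r1 (j5.trans (j1.trans hq)) (max β δ)
  have k3 : r2 ≤ q := k1.trans (j5.trans j1)
  have k4 : cut β s ∈ W := j4 r2 (k1.trans j5) s (big_le k2 le_rfl (le_max_left _ _) (Ag.refl _ _))
  have k5 := j6 _ k4 r2 k1 (big_le k2 le_rfl (le_max_left _ _) (ag_cut β s).symm)
  obtain ⟨L', l1, l2, v, l3, l4⟩ := hγ ⟨_, k4, k5⟩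
  have l5 : γ ⟨_, k4, k5⟩ ≤ max β δ := (hδ _).le.trans (le_max_right _ _)
  generalize γ ⟨_, k4, k5⟩ = ε at l1 l2 l4 l5
  obtain ⟨η, L, m1, m2, w, m3, m4⟩ := k2
  obtain ⟨i, hi⟩ : ∃ i, ¬ Ag ε (v i) s := by
    by_contra hn
    push Not at hn
    exact l4 0 1 (by decide) ((hn 0).trans (hn 1).symm)
  obtain ⟨u, n1, n2⟩ := (h0.mono (k3.trans hq)).lift (l5.trans m1) (h0.opn ε L' r1 r2 k1 l2) m2
    (l3 i).1
  have n3 : ∀ a, ¬ Ag η u (w a) := fun a k =>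
    hi (n2.symm.trans ((k.mono (l5.trans m1)).trans ((m3 a).2.mono l5)))
  have n4 : α ≤ max β δ := j2.trans (le_max_left _ _)
  refine ⟨r2, k3, s, η, L, n4.trans m1, m2, Fin.cons u w, fun a => ?_, fun a b => ?_⟩
  · refine Fin.cases ⟨n1, ?_⟩ (fun a => ⟨(m3 a).1, (m3 a).2.mono n4⟩) a
    exact (((n2.mono l1).trans (l3 i).2).trans (ag_cut β s)).mono j2
  · refine Fin.cases (Fin.cases (fun k => absurd rfl k) (fun b _ => n3 b) b) (fun a => ?_) a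
    exact Fin.cases (fun _ k => n3 a k.symm) (fun b k => m4 a b fun e => k (e ▸ rfl)) b

variable (Lv) in
/-- only countably many fibres over the level `β` are big -/
def Good (n : ℕ) (β : Om) (q : P) : Prop :=
  ∃ W : Set Cb, W.Countable ∧ ∀ r ≤ q, ∀ s, BigF Lv n β s r → cut β s ∈ W

theorem Good.mono (h : Good Lv n β p) (k : q ≤ p) : Good Lv n β q :=
  let ⟨W, j1, j2⟩ := h; ⟨W, j1, fun r j => j2 r (j.trans k)⟩

end

theorem red : RedStmt := by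
  intro P _ hP Lv p n hn h0 hf h1 h2
  have h3 : Many Lv (max n 2) p := by
    rcases hn.eq_or_lt with rfl | k
    · exact many2 hP h0 h1 h2
    · rwa [max_eq_left k]
  refine ⟨fun α t q => ∃ β, α ≤ β ∧ Good Lv n β q ∧ ∃ s, BigF Lv (max n 2) β s q ∧ cut α s = t,
    h0, hf, fun α t a b k ⟨β, j1, j2, s, j3, j4⟩ => ⟨β, j1, j2.mono k, s, j3.mono h0.opn k, j4⟩,
    fun q _ α β t k ⟨γ, j1, j2, s, j3, j4⟩ => ⟨γ, k.trans j1, j2, s, j3, j4 ▸ (cut_cut k s).symm⟩,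
    fun q hq α => ?_, fun q hq α => ?_, fun q _ α t ⟨β, j1, _, s, j3, j4⟩ =>
      big_le j3 (le_max_right _ _) j1 (j4 ▸ (ag_cut α s).symm)⟩
  · obtain ⟨r, j1, β, j2, j3⟩ := h1 q hq α
    obtain ⟨r', j4, s, j5⟩ := h3 r (j1.trans hq) β
    exact ⟨r', j4.trans j1, _, β, j2, Good.mono j3 j4, s, j5, rfl⟩
  · obtain ⟨r, j1, β₁, j2, j3⟩ := h1 q hq α
    obtain ⟨r1, j4, j5⟩ := dec hP (ctble_Iic β₁) (Good Lv n) (fun _ _ _ k i => i.mono k) r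
    obtain ⟨β₀, ⟨k1, W, k2, k3⟩, k4⟩ := wellFounded_lt.has_min {β | α ≤ β ∧ Good Lv n β r1}
      ⟨β₁, j2, Good.mono j3 j4⟩
    have k5 : β₀ ≤ β₁ := not_lt.1 (k4 β₁ ⟨j2, Good.mono j3 j4⟩)
    refine ⟨r1, j4.trans j1, cut α '' W, k2.image _, fun a ha t ⟨β, l1, l2, s, l3, l4⟩ => ?_⟩
    have l5 : β₀ ≤ β := not_lt.1 fun k => k4 β ⟨l1, j5 β (k.le.trans k5) a ha l2⟩ k
    exact ⟨_, k3 a ha s (big_le l3 (le_max_left _ _) l5 (Ag.refl _ _)), (cut_cut k1 s).trans l4⟩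

end Pool.Agent.Ctry.AK.Red
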