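import Pool.Agent.MP_b60a07_lc.AK.Basic

/-! PROJECT AK, row RFL: the hypotheses reflect to a stage. -/

open Filter Set

namespace Pool.Agent.Ctry.AK.Rfl

variable {X : Type 1} [Preorder X] [Itr X] [Cd X] {g : Gnr X Pk} {ζ ξ : Ordinal.{0}}
  {a₀ : g.St ζ} {D : Dt X}

/-- the levels read at the stage -/
abbrev LvS (D : Dt X) (ξ : Ordinal.{0}) (a₀ : g.St ζ) :
    Om → Set Cb → {a : g.St ζ // a ≤ a₀} → Prop := fun β L b => D.Lv β L (rs (g.ι b.1) ξ)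

/-- the projection of a condition below `a₀` -/
noncomputable def pq {r : X} (h : r ≤ g.ι a₀) : {a : g.St ζ // a ≤ a₀} := ⟨pr g ζ r, pr_le h⟩

theorem le0 (b : {a : g.St ζ // a ≤ a₀}) : g.ι b.1 ≤ g.ι a₀ := g.ι_le.2 b.2

theorem pq_le {r : X} {b : {a : g.St ζ // a ≤ a₀}} (h : r ≤ g.ι b.1) (h' : r ≤ g.ι a₀) :
    pq h' ≤ b := pr_le h

/-- the data needed at a stage -/
structure Ok (D : Dt X) (ξ : Ordinal.{0}) (a₀ : g.St ζ) : Prop where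
  sys : Sys D (g.ι a₀)
  mem : g.ι a₀ ∈ PP X ξ
  dns : ∀ (b : {a : g.St ζ // a ≤ a₀}) β, ∃ b' ≤ b, (∃ L, LvS D ξ a₀ β L b') ∧
    ∃ t, D.T β t (rs (g.ι b'.1) ξ)

theorem Ok.le (h : Ok D ξ a₀) (b : {a : g.St ζ // a ≤ a₀}) : rs (g.ι b.1) ξ ≤ g.ι a₀ :=
  rs_le_of_le (le0 b) h.mem

theorem Ok.lv (h : Ok D ξ a₀) {b : {a : g.St ζ // a ≤ a₀}} {β : Om} {L : Set Cb} {r : X}
    (k : LvS D ξ a₀ β L b) (j : r ≤ g.ι b.1) : D.Lv β L r :=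
  h.sys.s0.opn β L _ r (le_rs_of_le j ξ) k

theorem Ok.s0 (h : Ok D ξ a₀) (b : {a : g.St ζ // a ≤ a₀}) : Sy0 (LvS D ξ a₀) b :=
  ⟨fun β L _ _ j k => h.sys.s0.opn β L _ _ (Itr.rs_mono ξ (g.ι_le.2 j)) k,
    fun q _ β => let ⟨b', j, k, _⟩ := h.dns q β; ⟨b', j, k⟩,
    fun q _ => h.sys.s0.cl _ (h.le q), fun q _ => h.sys.s0.coh _ (h.le q)⟩

theorem Ok.dec (h : Ok D ξ a₀) {r : X} (k : r ≤ g.ι a₀) (β : Om) :
    ∃ r' ≤ r, ∃ b ≤ pq k, ∃ L, LvS D ξ a₀ β L b ∧ D.Lv β L r' := by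
  obtain ⟨b, j1, ⟨L, j2⟩, -⟩ := h.dns (pq k) β
  obtain ⟨r', j3, j4⟩ := lift (r := r) (a := b.1) j1
  exact ⟨r', j3, b, j1, L, j2, h.lv j2 j4⟩

theorem Ok.mis (h : Ok D ξ a₀) {b : {a : g.St ζ // a ≤ a₀}} {β : Om} {K : Set Cb} (hK : Inv β K)
    (k : Mis (LvS D ξ a₀) K b) : Mis D.Lv K (g.ι b.1) := by
  refine (h.sys.s0.mono (le0 b)).mis_dense hK fun q j => ?_
  obtain ⟨r, j1, b', j2, L, j3, j4⟩ := h.dec (j.trans (le0 b)) β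
  exact ⟨r, j1, (h.sys.s0.mono (j1.trans (j.trans (le0 b)))).mis_of j4
    (((h.s0 b').mis_iff hK j3).1 (k.mono (j2.trans (pq_le j _))))⟩

theorem Ok.mt (h : Ok D ξ a₀) {b : {a : g.St ζ // a ≤ a₀}} {β : Om} {K : Set Cb} (hK : Inv β K)
    (k : Mt (LvS D ξ a₀) K b) : Mt D.Lv K (g.ι b.1) := by
  intro q j i
  obtain ⟨r, j1, b', j2, L, j3, j4⟩ := h.dec (j.trans (le0 b)) β
  exact k b' (j2.trans (pq_le j _)) ((h.s0 b').mis_of j3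
    (((h.sys.s0.mono (j1.trans (j.trans (le0 b)))).mis_iff hK j4).1 (i.mono j1)))

theorem Ok.term (h : Ok D ξ a₀) {r : X} (k : r ≤ g.ι a₀) {γ : Om} {s : Cb}
    (j : Term D.Lv γ s r) : Term (LvS D ξ a₀) γ s (pq k) := by
  refine ⟨fun b i l => ?_, fun b i β L l => ?_⟩
  · obtain ⟨r', j1, j2⟩ := lift (r := r) (a := b.1) i
    exact j.1 r' j1 ((h.mis (inv_cyl γ s) l).mono j2)
  · obtain ⟨r', j1, j2⟩ := lift (r := r) (a := b.1) i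
    exact j.2 r' j1 β L (h.lv l j2)

theorem Ok.fc (h : Ok D ξ a₀) (b : {a : g.St ζ // a ≤ a₀}) : FC (LvS D ξ a₀) b := by
  intro q _ pt hp
  obtain ⟨r, j1, γ, s, ⟨b', j2, j3⟩, j4⟩ := h.sys.fc (g.ι q.1) (le0 q)
    (fun β s r => ∃ b : {a : g.St ζ // a ≤ a₀}, r ≤ g.ι b.1 ∧ pt β s b)
    ⟨fun β s _ _ i ⟨b, k1, k2⟩ => ⟨b, i.trans k1, k2⟩, fun r i β => by
      obtain ⟨b, k1, s, k2⟩ := hp.dns (pq (i.trans (le0 q))) (pq_le i _) β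
      obtain ⟨r', k3, k4⟩ := lift (r := r) (a := b.1) k1
      exact ⟨r', k3, s, b, k4, k2⟩,
    fun r i α β s s' l ⟨b, k1, k2⟩ ⟨b', k3, k4⟩ =>
      hp.coh (pq (i.trans (le0 q))) (pq_le i _) α β s s' l (hp.opn α s _ _ (pq_le k1 _) k2)
        (hp.opn β s' _ _ (pq_le k3 _) k4),
    fun r i β s L ⟨b, k1, k2⟩ l => by
      obtain ⟨r', j1, b', j2, L', j3, j4⟩ := h.dec (i.trans (le0 q)) β
      rw [(h.sys.s0.mono (j1.trans (i.trans (le0 q)))).fnl (h.sys.s0.opn β L _ _ j1 l) j4]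
      exact hp.mem b' (j2.trans (pq_le i _)) β s L' (hp.opn β s _ _ (j2.trans (pq_le k1 _)) k2) j3⟩
  exact ⟨pq (j1.trans (le0 q)), pq_le j1 _, γ, s, hp.opn γ s _ _ (pq_le j2 _) j3, h.term _ j4⟩

theorem Ok.gs (h : Ok D ξ a₀) :
    GS (Dt.st g ⟨fun β L q => D.Lv β L (rs q ξ), fun β t q => D.T β t (rs q ξ)⟩ a₀) := by
  intro b
  refine ⟨h.s0 b, h.fc b, fun β t _ _ j k => h.sys.opn β t _ _ (Itr.rs_mono ξ (g.ι_le.2 j)) k,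
    fun q _ => h.sys.dc _ (h.le q), fun q _ β => let ⟨b', j, _, k⟩ := h.dns q β; ⟨b', j, k⟩,
    fun q _ β => ?_, fun q _ β t k => h.sys.big _ (h.le q) β t k⟩
  obtain ⟨r, j1, W, j2, j3⟩ := h.sys.ctb _ (le0 q) β
  refine ⟨pq (j1.trans (le0 q)), pq_le j1 _, W, j2, fun b' i t k => ?_⟩
  obtain ⟨r', k1, k2⟩ := lift (r := r) (a := b'.1) i
  exact j3 r' k1 t (h.sys.opn β t _ _ (le_rs_of_le k2 ξ) k)

theorem rfl' : RflStmt := by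
  intro X _ _ _ g hR D p hS
  obtain ⟨ξ₀, h0⟩ := exists_mem_PP p
  obtain ⟨ξ, k1, k2⟩ := hR (fun β q => ((∃ L, D.Lv β L q) ∧ ∃ t, D.T β t q) ∨ ¬ Cmp univ q p)
    (fun β q _ => by
      by_cases hc : Cmp univ q p
      · obtain ⟨c, -, j1, j2⟩ := hc
        obtain ⟨r, j3, L, j4⟩ := hS.s0.dns c j2 β
        obtain ⟨r', j5, j6⟩ := hS.unb r (j3.trans j2) β
        exact ⟨r', trivial, j5.trans (j3.trans j1), Or.inl ⟨⟨L, hS.s0.opn β L _ _ j5 j4⟩, j6⟩⟩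
      · exact ⟨q, trivial, le_rfl, Or.inr hc⟩) ξ₀
  refine ⟨ξ, pp_mono h0 k1, fun ζ hζ a₀ ha => ?_⟩
  subst ha
  have h : Ok D ξ a₀ := ⟨hS, pp_mono h0 k1, fun b β => by
    obtain ⟨w, j1, j2, j3⟩ := k2 β (rs (g.ι b.1) ξ) (rs_mem _ ξ)
    obtain ⟨a, ha⟩ := g.ι_range.1 (amal_mem w (g.ι_mem b.1) hζ)
    have j4 : a ≤ b.1 := g.ι_le.1 (ha ▸ amal_le_right j2)
    have j5 : rs (g.ι a) ξ = w := ha ▸ rs_amal j1 _
    refine ⟨⟨a, j4.trans b.2⟩, j4, ?_⟩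
    simp only [LvS, j5]
    exact j3.resolve_right fun i => i ⟨w, trivial, le_rfl,
      j2.trans (rs_le_of_le (le0 b) (pp_mono h0 k1))⟩⟩
  exact ⟨h.gs, fun K β a i hK => ⟨h.mis (b := ⟨a, i⟩) hK, h.mt (b := ⟨a, i⟩) hK⟩⟩

end Pool.Agent.Ctry.AK.Rfl
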