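import Pool.Agent.MP_b60a07_lc.AK.Names

/-! The system of levels of a name for a closed set. -/

open Filter Set

namespace Pool.Agent.Ctry.AK.Rp

open Fc Fc.Fml Fc.Link1

section

variable {X : Type 1} [Preorder X] [OrderTop X] (code : Iv → ℕ → Prop) (C : Nm X)

/-- a member of `C` has a value outside `B` -/
def Out (β : Om) (B : Set Cb) (r : X) : Prop := ∃ f s, fM f C r ∧ val code f β s r ∧ s ∉ B

/-- the levels -/
def Lev (β : Om) (L : Set Cb) (q : X) : Prop := IsClosed L ∧ Inv β L ∧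
  (∀ r ≤ q, ∀ f s, fM f C r → val code f β s r → s ∈ L) ∧
  ∀ s ∈ L, ∀ B, Bas β B → s ∉ B → Out code C β B q

variable {code C}

theorem Out.mono {β : Om} {B : Set Cb} {q r : X} (h : Out code C β B q) (k : r ≤ q) :
    Out code C β B r :=
  let ⟨f, s, j1, j2, j3⟩ := h; ⟨f, s, j1.mono k, j2.mono k, j3⟩

theorem lev_opn (β : Om) : Opn (Lev code C β) := fun _ _ _ k ⟨j1, j2, j3, j4⟩ =>
  ⟨j1, j2, fun r i => j3 r (i.trans k), fun s hs B i1 i2 => (j4 s hs B i1 i2).mono k⟩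

theorem lev_dns (hD : Dist (univ : Set X)) (q : X) (β : Om) : ∃ r ≤ q, ∃ L, Lev code C β L r := by
  obtain ⟨r, -, j1, j2⟩ := hD.set (ctble_bas β) (p := q) trivial
    (fun B r => Out code C β B r ∨ ∀ r' ≤ r, ¬ Out code C β B r')
    (fun B _ a b _ k i => i.imp (·.mono k) fun i c l => i c (l.trans k)) fun B _ a _ _ => by
      by_cases k : ∃ b ≤ a, Out code C β B b
      · exact let ⟨b, k1, k2⟩ := k; ⟨b, trivial, k1, Or.inl k2⟩
      · exact ⟨a, trivial, le_rfl, Or.inr fun b k1 k2 => k ⟨b, k1, k2⟩⟩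
  refine ⟨r, j1, ⋂ B ∈ {B | Bas β B ∧ ∀ r' ≤ r, ¬ Out code C β B r'}, B,
    isClosed_biInter fun B hB => hB.1.closed,
    fun x y k i => mem_iInter₂.2 fun B hB => hB.1.inv x y k (mem_iInter₂.1 i B hB),
    fun r' k f s i1 i2 => mem_iInter₂.2 fun B hB => ?_, fun s hs B i1 i2 => ?_⟩
  · by_contra hn
    exact hB.2 r' k ⟨f, s, i1, i2, hn⟩
  · exact (j2 B i1).resolve_right fun i => i2 (mem_iInter₂.1 hs B ⟨i1, i⟩)

theorem lev_s0 (h2 : ValStmt) (hD : Dist (univ : Set X)) (hc : Cod code) {p : X}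
    (hC : Fo (closedF om oN C) p) : Sy0 (Lev code C) p := by
  refine ⟨lev_opn, fun q _ β => lev_dns hD q β, fun q _ β L k => ⟨k.1, k.2.1⟩,
    fun q hq α β L L' hα k k' => ⟨fun s hs => ?_, fun w hw => ?_⟩⟩
  · by_contra hn
    obtain ⟨B, j1, j2, j3⟩ := sep' (β := α) (x := s) k.1
      (disjoint_iff_inter_eq_empty.2 (k.2.1.cyl_disjoint hn))
    obtain ⟨f, s', i1, i2, i3⟩ := k'.2.2.2 s hs B (j1.mono hα) j3
    exact i3 (j2 (k.2.2.1 q le_rfl f s' i1 (i2.down hα)))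
  · by_contra hn
    obtain ⟨B, j1, j2, j3⟩ := sep' (β := α) (x := w) k'.1
      (disjoint_left.2 fun v i1 i2 => hn ⟨v, i2, i1⟩)
    obtain ⟨f, s', i1, i2, i3⟩ := k.2.2.2 w hw B j1 j3
    have hf := pt_of_closed hC hq i1
    obtain ⟨r, l1, s'', l2⟩ := h2 X hD code hc f q hf β
    exact i3 (j1.inv s'' s' (val.uniq hc (Fo.mono hf.1 l1) (l2.down hα) (i2.mono l1))
      (j2 (k'.2.2.1 r l1 f s'' (i1.mono l1) l2)))

end

theorem rp (h1 : NbStmt) (h2 : ValStmt) (h3 : MkStmt) (h4 : NearStmt) : RpStmt := by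
  intro X _ _ hD code hc C p hC
  refine ⟨Lev code C, lev_s0 h2 hD hc hC, fun q _ β L f s k => k.2.2.1 q le_rfl f s,
    fun q hq pt hpt => ?_⟩
  obtain ⟨f, hf, hv⟩ := h3 X code hc pt q hpt.opn hpt.dns hpt.coh
  refine ⟨f, ?_, hv⟩
  refine forces_imp.1 (forces_imp.1 (hC.2 f) q hq hf) q le_rfl fun H =>
    forces_imp.2 fun r hr hH => forces_exIn.2 fun r₁ hr₁ => ?_
  have hr : r ≤ q := hr
  have hr₁ : r₁ ≤ r := hr₁
  obtain ⟨r₂, l2, l, hN⟩ := (h4 X hD code hc).1 H r₁ (Fo.mono hH hr₁)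
  obtain ⟨β, hβ⟩ := exists_bound ((List.finite_toSet l).countable.image Prod.fst)
  have hβ' : ∀ y ∈ l, y.1 < β := fun y hy => hβ _ (mem_image_of_mem _ hy)
  have l2' : r₂ ≤ q := l2.trans (hr₁.trans hr)
  obtain ⟨r₃, l3, s, hs⟩ := hpt.dns r₂ l2' β
  obtain ⟨r₄, l4, L, hL⟩ := lev_dns (code := code) (C := C) hD r₃ β
  have l5 : r₄ ≤ q := l4.trans (l3.trans l2')
  have hs' : pt β s r₄ := hpt.opn β s r₃ r₄ l4 hs
  obtain ⟨B, j1, j2, j3⟩ := sep' (β := β) (x := s) (h1.1 l s).isClosed_compl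
    (disjoint_compl_right_iff_subset.2 ((inv_nb hβ' s).cyl_subset (self_mem_nb l s)))
  obtain ⟨g, s', i1, i2, i3⟩ := hL.2.2.2 s (hpt.mem r₄ l5 β s L hs' hL) B j1 j3
  exact ⟨r₄, l4.trans (l3.trans l2), g, i1, hN r₄ (l4.trans l3) f g β s s' hβ' (Fo.mono hf l5)
    (pt_of_closed hC (l5.trans hq) i1) (hv r₄ l5 β s hs') i2 (by_contra fun i => i3 (j2 i))⟩

end Pool.Agent.Ctry.AK.Rp
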