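import Pool.Agent.MP_b60a07_lc.AK.Basic
import Pool.Agent.MP_77405c_lc.Sch

/-! The trivial step, restricted steps and the countably closed step. -/

open Filter Set

namespace Pool.Agent.Ctry.AK.Rst

variable {P : Type 1} [Preorder P] [Cd P]

/-- a dense set of pairs is met by the trivial precondition -/
theorem meet {Val : P → Pk → Prop} (hV : ∀ p, Val p top) {N M u : U} {A : List P} {a : P}
    (hc : Cap univ (fun (u : U) (w : P) (c : Pk) => Val w c ∧ cd (w, c) ∈ u) M) (hu : u ∈ M)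
    (ha : TG univ a M) (hMN : M ⊆ N) (hA : ∀ a' ∈ A, LB univ N a' a)
    (ht : ∀ w c, a ≤ w → Val w c → c = top)
    (hd : ∀ p c, Val p c → ∃ p' ≤ p, ∃ c' ≤ c, Val p' c' ∧ cd (p', c') ∈ u) :
    ∃ h c', cd (h, c') ∈ u ∧ cd h ∈ M ∧ cd c' ∈ M ∧ top ≤ c' ∧ ∀ a ∈ A, a ≤ h := by
  obtain ⟨w, -, k1, k2, c, k3, k4, k5⟩ := ha.use0 hc (y := u) hu fun q _ =>
    let ⟨p', j1, c', _, j2⟩ := hd q top (hV q); ⟨p', trivial, j1, c', j2⟩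
  exact ⟨w, c, k5, k1, k3, (ht w c k2 k4).ge, fun a' h => hA a' h w trivial (hMN k1) k2⟩

theorem trv : TrvStmt := by
  intro P _ _ _
  refine ⟨_, ev_cap univ fun (u : U) (w : P) (c : Pk) => c = top ∧ cd (w, c) ∈ u,
    fun S β B N N' A h₀ c₀ _ _ hr hB _ _ _ _ hne hA _ _ k3 => ?_⟩
  obtain ⟨a, ha⟩ := List.exists_mem_of_ne_nil A hne
  exact ⟨B, fun _ h => h, hr, top, k3.ge, fun _ _ => rfl, fun M hM u hu hd =>
    meet (Val := fun _ c => c = top) (fun _ => rfl) (hB M hM) hu ((hA a ha).2.1 M hM) (hr.sub hM)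
      (fun a' h => (hA a' h).2.2.2 a ha) (fun _ _ _ h => h) hd⟩

theorem tg_sub {p₀ a : P} {M : U} (h : a ≤ p₀) (hp : cd p₀ ∈ M) (h0 : TG univ a M)
    (hc : CapB univ (fun (u : U) (w : P) (_ : Unit) => w ≤ p₀ ∧ cd w ∈ u) M) :
    TG (univ : Set {q // q ≤ p₀}) ⟨a, h⟩ M := fun u hu hd => by
  obtain ⟨w, -, k1, k2, -, -, k3, k4⟩ := h0.use hc trivial (y := u) hu hp h fun q _ hq =>
    let ⟨w, _, j1, j2⟩ := hd ⟨q, hq⟩ trivial; ⟨w.1, trivial, j1, (), w.2, j2⟩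
  exact ⟨⟨w, k3⟩, trivial, k4, k1, k2⟩

theorem rst : RstStmt := by
  intro P _ _ _ p₀ V hV ⟨Q, hQ, H⟩
  refine ⟨_, hQ.and ((ev_const p₀).and ((ev_cap univ fun (u : U) (w : P) (c : Pk) =>
    (c = top ∨ ∃ h : w ≤ p₀, V ⟨w, h⟩ c) ∧ cd (w, c) ∈ u).and
    (ev_capB univ fun (u : U) (w : P) (_ : Unit) => w ≤ p₀ ∧ cd w ∈ u))),
    fun S β B N N' A h₀ c₀ hS hSN hr hB hN' j1 j2 j3 hne hA k1 k2 k3 => ?_⟩
  obtain ⟨a, ha⟩ := List.exists_mem_of_ne_nil A hne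
  by_cases hap : a ≤ p₀
  swap
  · have ht : ∀ w c, a ≤ w → (c = top ∨ ∃ h : w ≤ p₀, V ⟨w, h⟩ c) → c = top :=
      fun w c h h' => h'.resolve_right fun ⟨k, _⟩ => hap (h.trans k)
    exact ⟨B, fun _ h => h, hr, top, (ht _ _ (hA a ha).2.2.1 k3).ge, fun _ _ => Or.inl rfl,
      fun M hM u hu hd => meet (Val := fun w c => c = top ∨ ∃ h : w ≤ p₀, V ⟨w, h⟩ c)
        (fun _ => Or.inl rfl) (hB M hM).2.2.1 hu ((hA a ha).2.1 M hM) (hr.sub hM)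
        (fun a' h => (hA a' h).2.2.2 a ha) ht hd⟩
  have hp : ∀ a' ∈ A, a' ≤ p₀ := fun a' h =>
    (hA a' h).2.2.2 a ha p₀ trivial (hB N hr.mem).2.1 hap
  obtain ⟨h₁, e1, e2, e3⟩ : ∃ h₁ : {q // q ≤ p₀}, cd h₁ ∈ N ∧ V h₁ c₀ ∧ ∀ a' ∈ A, a' ≤ h₁.1 := by
    rcases k3 with rfl | ⟨h, k3⟩
    · exact ⟨⟨p₀, le_rfl⟩, (hB N hr.mem).2.1, hV _, hp⟩
    · exact ⟨⟨h₀, h⟩, k1, k3, fun a' h => (hA a' h).2.2.1⟩
  have hm : ∀ x : {q // q ≤ p₀}, x ∈ A.attachWith (· ≤ p₀) hp ↔ x.1 ∈ A := fun x =>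
    List.mem_attachWith hp x
  obtain ⟨B', b1, b2, c, b3, b4, b5⟩ := H S β B N N' (A.attachWith (· ≤ p₀) hp) h₁ c₀ hS hSN hr
    (fun M hM => (hB M hM).1) hN'.1 j1 j2 j3
    (List.ne_nil_of_mem ((hm ⟨a, hap⟩).2 ha)) (fun x hx =>
      have k := hA x.1 ((hm x).1 hx)
      ⟨tg_sub x.2 hN'.2.1 k.1 hN'.2.2.2,
        fun M hM => tg_sub x.2 (hB M hM).2.1 (k.2.1 M hM) (hB M hM).2.2.2, e3 _ ((hm x).1 hx),
        fun y hy p _ i1 i2 => k.2.2.2 y.1 ((hm y).1 hy) p.1 trivial i1 i2⟩) e1 k2 e2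
  refine ⟨B', b1, b2, c, b3, fun a' h => Or.inr ⟨hp a' h, b4 _ ((hm _).2 h)⟩,
    fun M hM u hu hd => ?_⟩
  obtain ⟨h, c', i1, i2, i3, i4, i5⟩ := b5 M hM u hu fun p c hc => by
    obtain ⟨p', l1, c', l2, l3, l4⟩ := hd p.1 c (Or.inr ⟨p.2, hc⟩)
    refine ⟨⟨p', l1.trans p.2⟩, l1, c', l2, ?_, l4⟩
    rcases l3 with rfl | ⟨_, l3⟩
    · exact hV _
    · exact l3
  exact ⟨h.1, c', i1, i2, i3, i4, fun a' k => i5 ⟨a', hp a' k⟩ ((hm _).2 k)⟩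

variable (P) in
/-- dense sets of pairs -/
def DenC (u : U) : Prop :=
  ∀ (p : P) c, ValC c → ∃ p' ≤ p, ∃ c' ≤ c, ValC c' ∧ cd (p', c') ∈ u

/-- `(a, c)` is below a member of every dense set in the models of `B` -/
def Gn (a : P) (c : Pk) (B : U) : Prop := ∀ M ∈ B, ∀ u ∈ M, DenC P u →
  ∃ h c', cd (h, c') ∈ u ∧ cd h ∈ M ∧ cd c' ∈ M ∧ c ≤ c' ∧ a ≤ h

/-- the output of the induction -/
def Out (x : U × Ordinal.{0} × U × U × P × Pk) (z : U × Pk) : Prop :=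
  z.1 ⊆ x.2.2.1 ∧ Rk x.1 x.2.1 z.1 x.2.2.2.1 ∧ z.2 ≤ x.2.2.2.2.2 ∧ ValC z.2 ∧
    Gn x.2.2.2.2.1 z.2 z.1

variable (P) in
/-- the closure properties of the models -/
def QC (M : U) : Prop := Mod0 M ∧ Cap univ (psiDec (univ : Set P)) M ∧
  Cap univ (fun (y : U × Pk) (w : P) (c : Pk) => c ≤ y.2 ∧ ValC c ∧ cd (w, c) ∈ y.1) M ∧
  El (Out (P := P)) M

theorem ss (hP : Dist (univ : Set P)) (β : Ordinal.{0}) : ∀ (S B N : U) (a : P) (c₀ : Pk),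
    (S : Set U).Countable → S ∈ N → (∀ M ∈ B, QC P M ∧ TG univ a M) → Rk S β B N → cd c₀ ∈ N →
    ValC c₀ → ∃ z, Out (S, β, B, N, a, c₀) z := by
  induction β using WellFoundedLT.induction with
  | _ β ih =>
  intro S B N a c₀ hS hSN hB hr hc hv
  obtain ⟨⟨h0, h1, h2, h3⟩, haN⟩ := hB N hr.mem
  let I1 := {x : U // x ∈ N}
  let I2 := {x : Ordinal.{0} × U // x.1 < β ∧ cd x.1 ∈ S ∧ x.2 ∈ N}
  have c1 : Countable I1 := h0.ctble.to_subtype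
  have c2 : Countable I2 := (((hS.preimage (Cd.inj (X := Ordinal.{0}))).prod h0.ctble).mono
    (s₁ := {x : Ordinal.{0} × U | x.1 < β ∧ cd x.1 ∈ S ∧ x.2 ∈ N}) fun _ h => h.2).to_subtype
  have : Nonempty (I1 ⊕ I2) := ⟨.inl ⟨∅, h0.emp⟩⟩
  obtain ⟨f, f0, f1, f2⟩ := Sch.run (ι := I1 ⊕ I2) (fun c : Pk => cd c ∈ N ∧ ValC c)
    (fun c' c => c' ≤ c) (fun i _ c' => match i with
      | .inl x => DenC P x.1 → ∃ h : P, cd (h, c') ∈ x.1 ∧ cd h ∈ N ∧ a ≤ h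
      | .inr x => ∃ z : U × U, z.1 ∈ N ∧ z.2 ∈ N ∧ x.1.2 ∈ z.1 ∧ z.2 ⊆ B ∧
          Rk S x.1.1 z.2 z.1 ∧ Gn a c' z.2) c₀ ⟨hc, hv⟩ (by
      rintro (x | x) c ⟨k1, k2⟩
      · by_cases hd : DenC P x.1
        · obtain ⟨w, -, j1, j2, c', j3, j4, j5, j6⟩ := haN.use0 h2 (y := (x.1, c))
            (h0.prod.2 ⟨x.2, k1⟩) fun q _ =>
              let ⟨p', i1, c', i2⟩ := hd q c k2; ⟨p', trivial, i1, c', i2⟩
          exact ⟨c', ⟨j3, j5⟩, j4, fun _ => ⟨w, j6, j1, j2⟩⟩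
        · exact ⟨c, ⟨k1, k2⟩, le_rfl, fun h => absurd h hd⟩
      · obtain ⟨M, B1, j1, j2, j3, j4, j5⟩ := hr.wit x.2.1 x.2.2.1 (x := cd (x.1.2, S, c))
          (h0.prod.2 ⟨x.2.2.2, h0.prod.2 ⟨hSN, k1⟩⟩)
        have hM := (hB M (j4 j5.mem)).1.1
        rw [hM.prod, hM.prod] at j3
        obtain ⟨b, -, b1, b2, b3⟩ := haN.exists_dec hP h1 j1 hM.ctble
        obtain ⟨z, z1, z2, z3, z4, z5, z6⟩ := h3 (S, x.1.1, B1, M, b, c)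
          (by
            simp only [h0.prod]
            exact ⟨hSN, h0.sub S hSN hS x.2.2.1, j2, j1, b1, k1⟩)
          (ih _ x.2.1 S B1 M b c hS j3.2.1 (fun M' h => ⟨(hB M' (j4 h)).1,
            b3.tg (j5.sub h) (hB M' (j4 h)).2.gen ⟨a, trivial, b2, le_rfl⟩⟩) j5 j3.2.2 k2)
        have z7 := h0.prod.1 (show cd (z.1, z.2) ∈ N from z1)
        refine ⟨z.2, ⟨z7.2, z5⟩, z4, (M, z.1), j1, z7.1, j3.1, fun _ h => j4 (z2 h), z3,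
          fun M' i1 u i2 i3 => ?_⟩
        obtain ⟨h, c', i4, i5, i6, i7, i8⟩ := z6 M' i1 u i2 i3
        exact ⟨h, c', i4, i5, i6, i7, b2.trans i8⟩)
  have m1 : Antitone f := antitone_nat_of_succ_le fun n => (f1 n).2
  obtain ⟨α, hα⟩ := exists_ge_all fun n => (f n).α
  let c : Pk := ⟨α, ⋃ n, (f n).R, ∅⟩
  have cle : ∀ n, c ≤ f n := fun n => ⟨(hα n).le, subset_iUnion (fun n => (f n).R) n,
    fun y hy k => by
      obtain ⟨m, hm⟩ := mem_iUnion.1 hy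
      rcases le_total m n with e | e
      · exact (m1 e).2.1 hm
      · exact (m1 e).2.2.1 y hm k, (f1 n).1.2.2.2.le⟩
  choose mm _ z z1 z2 z3 z4 z5 z6 using fun x : I2 => f2 (.inr x) 0
  refine ⟨(insert N (ZFSet.iUnion fun x => (z x).2), c), fun M hM => ?_,
    rk_iff.2 ⟨ZFSet.mem_insert _ _, fun M hM => ?_, fun β' k1 k2 x k3 => ?_⟩, f0 ▸ cle 0,
    ⟨countable_iUnion fun n => (f1 n).1.2.1, fun y hy => ?_, rfl⟩, fun M hM u hu hd => ?_⟩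
  · rcases ZFSet.mem_insert_iff.1 hM with rfl | hM
    · exact hr.mem
    · exact let ⟨x, hx⟩ := ZFSet.mem_iUnion.1 hM; z4 x hx
  · rcases ZFSet.mem_insert_iff.1 hM with rfl | hM
    · exact fun _ h => h
    · exact let ⟨x, hx⟩ := ZFSet.mem_iUnion.1 hM; hr.sub (z4 x hx)
  · let i : I2 := ⟨(β', x), k1, k2, k3⟩
    exact ⟨_, _, z1 i, z2 i, z3 i, fun M hM => ZFSet.mem_insert_of_mem _
      (ZFSet.mem_iUnion.2 ⟨i, hM⟩), z5 i⟩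
  · obtain ⟨n, hn⟩ := mem_iUnion.1 hy
    exact ((f1 n).1.2.2.1 y hn).trans (hα n)
  · rcases ZFSet.mem_insert_iff.1 hM with rfl | hM
    · obtain ⟨m, -, k⟩ := f2 (.inl ⟨u, hu⟩) 0
      obtain ⟨h, k1, k2, k3⟩ := k hd
      exact ⟨h, _, k1, k2, (f1 _).1.1, cle _, k3⟩
    · obtain ⟨x, hx⟩ := ZFSet.mem_iUnion.1 hM
      obtain ⟨h, c', k1, k2, k3, k4, k5⟩ := z6 x M hx u hu hd
      exact ⟨h, c', k1, k2, k3, (cle _).trans k4, k5⟩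

theorem chs : ChsStmt := by
  intro P _ _ _ hP
  refine ⟨QC P, ev_mod0.and ((ev_cap univ _).and ((ev_cap univ _).and (ev_el _))),
    fun S β B N N' A h₀ c₀ hS hSN hr hB _ _ _ _ hne hA _ k2 k3 => ?_⟩
  obtain ⟨a, ha⟩ := List.exists_mem_of_ne_nil A hne
  obtain ⟨z, z1, z2, z3, z4, z5⟩ := ss hP β S B N a c₀ hS hSN
    (fun M hM => ⟨hB M hM, (hA a ha).2.1 M hM⟩) hr k2 k3
  refine ⟨z.1, z1, z2, z.2, z3, fun _ _ => z4, fun M hM u hu hd => ?_⟩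
  obtain ⟨h, c', i1, i2, i3, i4, i5⟩ := z5 M hM u hu hd
  exact ⟨h, c', i1, i2, i3, i4, fun a' k =>
    (hA a' k).2.2.2 a ha h trivial (hr.sub (z1 hM) i2) i5⟩

end Pool.Agent.Ctry.AK.Rst
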