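import Pool.Agent.MP_b60a07_lc.AK.Sch1

/-! Weak properness and finite completeness of the forcing of PROJECT AK. -/

open Filter Set

namespace Pool.Agent.Ctry.AK.Sch

variable {P : Type 1} [Preorder P] [Cd P] {D : Dt P} {Φ : Set (Sg → P → Prop)}
  {S B N N' : U} {β : Ordinal.{0}} {a₀ a b : P} {f : ℕ → Sg} {s : St P}

theorem Gn.lb {c : Pk} (h : Gn D Φ a₀ c B) (h1 : ∀ M ∈ B, M ⊆ N) (h2 : LB univ N a a₀) :
    Gn D Φ a c B := fun M hM u hu hd =>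
  let ⟨x, d, j1, j2, j3, j4, j5⟩ := h M hM u hu hd
  ⟨x, d, j1, j2, j3, j4, h2 x trivial (h1 M hM j2) j5⟩

omit [Preorder P] [Cd P] in
theorem Le.chain {F : ℕ → St P} (h : ∀ n, Le (F (n + 1)) (F n)) {n m : ℕ} (k : n ≤ m) :
    Le (F m) (F n) := by
  induction k with
  | refl => exact ⟨le_rfl, le_rfl, fun _ _ => rfl⟩
  | step _ ih => exact ⟨(h _).1.trans ih.1, ih.2.1.trans (h _).2.1, fun i hi =>
      ((h _).2.2 i (hi.trans_le ih.2.1)).trans (ih.2.2 i hi)⟩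

variable [Small.{0} P]

/-- the lower bound -/
theorem ll (hg : GenStmt) (hn : NewStmt) (hz : ZonStmt) (hc : CoaStmt) (ha : AclStmt)
    (H : Cx D Φ S β B N a₀ f) (hN' : QQ D Φ N') (hNN : N ∈ N') (A : List P)
    (hA : ∀ a ∈ A, Ver D N N' a₀ f a) (hs : Ok D Φ N f a₀ s) :
    ∃ B' ⊆ B, Rk S β B' N ∧ ∃ c ≤ s.c, Gn D Φ a₀ c B' ∧ ∀ a ∈ A, (∀ i < s.n, (s.t i).1 = a) →
      Adm D Φ a c (Mg s.n fun i => (s.t i).2.2) := by
  have hN := H.q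
  let I1 := {u : U // u ∈ N}
  let I2 := {x : Ordinal.{0} × U // x.1 < β ∧ cd x.1 ∈ S ∧ x.2 ∈ N}
  let I3 := {x : P × U // x.1 ∈ A ∧ x.2 ∈ N}
  have c1 : Countable I1 := hN.m0.ctble.to_subtype
  have c2 : Countable I2 := (((H.hS.preimage (Cd.inj (X := Ordinal.{0}))).prod hN.m0.ctble).mono
    (s₁ := {x : Ordinal.{0} × U | x.1 < β ∧ cd x.1 ∈ S ∧ x.2 ∈ N}) fun _ h => h.2).to_subtype
  have c3 : Countable I3 := ((List.finite_toSet A).countable.prod hN.m0.ctble).to_subtype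
  have : Nonempty (I1 ⊕ I2 ⊕ I3) := ⟨.inl ⟨∅, hN.m0.emp⟩⟩
  obtain ⟨F, f0, f1, f2⟩ := Ctry.Sch.run (ι := I1 ⊕ I2 ⊕ I3) (Ok D Φ N f a₀) Le
    (fun i s s' => match i with
      | .inl x => Den D Φ x.1 → ∃ h, cd (h, s'.c) ∈ x.1 ∧ cd h ∈ N ∧ a₀ ≤ h
      | .inr (.inl x) => ∃ z : U × U, z.1 ∈ N ∧ z.2 ∈ N ∧ x.1.2 ∈ z.1 ∧ z.2 ⊆ B ∧
          Rk S x.1.1 z.2 z.1 ∧ Gn D Φ a₀ s'.c z.2
      | .inr (.inr x) => x.1.2 ∈ s.c.G → s.n < s'.n ∧ (s'.t s.n).1 = x.1.1 ∧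
          (s'.t s.n).2.1 = x.1.2 ∧ Zone D Φ (nm x.1.2) (s'.t s.n).2.2 x.1.1) s hs (by
      rintro (x | x | x) s hs
      · by_cases hd : Den D Φ x.1
        · exact let ⟨s', k1, k2, k3⟩ := stepA hg hc H hs x.2 hd; ⟨s', k1, k2, fun _ => k3⟩
        · exact ⟨s, hs, ⟨le_rfl, le_rfl, fun _ _ => rfl⟩, fun h => absurd h hd⟩
      · exact stepT hc H hs x.2.1 x.2.2.1 x.2.2.2
      · by_cases hx : x.1.2 ∈ s.c.G
        · exact let ⟨s', k1, k2, k3⟩ := stepN hn hz ha H hN' hNN hs (hA _ x.2.1) hx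
            ⟨s', k1, k2, fun _ => k3⟩
        · exact ⟨s, hs, ⟨le_rfl, le_rfl, fun _ _ => rfl⟩, fun h => absurd h hx⟩)
  have m1 : ∀ {n m}, n ≤ m → Le (F m) (F n) := Le.chain fun n => (f1 n).2
  have hα : ∀ n, (F n).c.α < del N := fun n => (hN.pk (f1 n).1.cN).1
  let c : Pk := ⟨del N, ⋃ n, (F n).c.R, ZFSet.iUnion fun n => (F n).c.G⟩
  have cle : ∀ n, c ≤ (F n).c := fun n => ⟨(hα n).le, subset_iUnion (fun n => (F n).c.R) n,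
    fun y hy k => by
      obtain ⟨m, hm⟩ := mem_iUnion.1 hy
      rcases le_total m n with e | e
      · exact (m1 e).1.2.1 hm
      · exact (m1 e).1.2.2.1 y hm k,
    ZFSet.subset_iUnion (fun n => (F n).c.G) n⟩
  have sl : ∀ a ∈ A, ∀ m, Base D Φ a (F m).c (F m).n (F m).w := fun a h m =>
    Base.tr hN H.tg (lb_self N a₀) (hA a h).1 (f1 m).1.cN (f1 m).1.wN (f1 m).1.base
  have rf : ∀ {a m m' i}, m ≤ m' → i < (F m).n → ((F m).t i).1 = a →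
      Ref D ((F m).t i).2.2 ((F m').w i) a := fun {a m m' i} k1 k2 k3 => by
    rw [← k3, ← (m1 k1).2.2 i k2]
    exact ((f1 m').1.slot i (k2.trans_le (m1 k1).2.1)).2.2.1
  have av : ∀ a ∈ A, ∀ m i, i < (F m).n → ((F m).t i).1 = a → Av D ((F m).t i).2.2 c a :=
    fun a h m i k1 k2 e he y hy => by
      obtain ⟨m', k3⟩ := mem_iUnion.1 hy
      exact Av.ref (all_mg.1 (sl a h (max m m')).1.av i (k1.trans_le (m1 (le_max_left _ _)).2.1))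
        (rf (le_max_left _ _) k1 k2) e he y ((m1 (le_max_right m m')).1.2.1 k3)
  have cp : ∀ a ∈ A, ∀ m i m' j, i < (F m).n → j < (F m').n → ((F m).t i).1 = a →
      ((F m').t j).1 = a → (i = j → (F m).t i = (F m').t j → False) →
      Cpt D ((F m).t i).2.2 ((F m').t j).2.2 a := fun a h m i m' j k1 k2 k3 k4 k5 =>
    ((sl a h (max m m')).2.2 i (k1.trans_le (m1 (le_max_left _ _)).2.1) j
      (k2.trans_le (m1 (le_max_right _ _)).2.1) fun e => k5 e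
        (((m1 (le_max_left m m')).2.2 i k1).symm.trans
          (e ▸ (m1 (le_max_right m m')).2.2 j k2))).ref₂
      (rf (le_max_left _ _) k1 k3) (rf (le_max_right _ _) k2 k4)
  choose mm _ z z1 z2 z3 z4 z5 z6 using fun x : I2 => f2 (.inr (.inl x)) 0
  have zs : ∀ x, ∀ M ∈ (z x).2, M ⊆ N := fun x M hM _ h =>
    hN.m0.sub' (H.hB _ (z4 x (z5 x).mem)).m0 (z1 x) ((z5 x).sub hM h)
  refine ⟨insert N (ZFSet.iUnion fun x => (z x).2), fun M hM => ?_,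
    rk_iff.2 ⟨ZFSet.mem_insert _ _, fun M hM => ?_, fun β' k1 k2 x k3 => ?_⟩, c, f0 ▸ cle 0,
    fun M hM => ?_, fun a h h' => ?_⟩
  · rcases ZFSet.mem_insert_iff.1 hM with rfl | hM
    · exact H.NB
    · exact let ⟨x, hx⟩ := ZFSet.mem_iUnion.1 hM; z4 x hx
  · rcases ZFSet.mem_insert_iff.1 hM with rfl | hM
    · exact fun _ h => h
    · exact let ⟨x, hx⟩ := ZFSet.mem_iUnion.1 hM; zs x M hx
  · let i : I2 := ⟨(β', x), k1, k2, k3⟩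
    exact ⟨_, _, z1 i, z2 i, z3 i, fun M hM => ZFSet.mem_insert_of_mem _
      (ZFSet.mem_iUnion.2 ⟨i, hM⟩), z5 i⟩
  · rcases ZFSet.mem_insert_iff.1 hM with rfl | hM
    · intro u hu hd
      obtain ⟨m, -, k⟩ := f2 (.inl ⟨u, hu⟩) 0
      obtain ⟨h, k1, k2, k3⟩ := k hd
      exact ⟨h, _, k1, k2, (f1 _).1.cN, cle _, k3⟩
    · obtain ⟨x, hx⟩ := ZFSet.mem_iUnion.1 hM
      exact (z6 x).mono le_rfl (cle _) M hx
  · have key : ∀ g ∈ c.G, ∃ m i, s.n ≤ i ∧ i < (F m).n ∧ ((F m).t i).1 = a ∧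
        ((F m).t i).2.1 = g ∧ Zone D Φ (nm g) ((F m).t i).2.2 a := fun g hg => by
      obtain ⟨n, hn⟩ := ZFSet.mem_iUnion.1 hg
      obtain ⟨m, k1, k2⟩ := f2 (.inr (.inr ⟨(a, g), h,
        hN.m0.sub _ (hN.pk (f1 n).1.cN).2 (f1 n).1.base.1.ctG hn⟩)) n
      exact ⟨m + 1, (F m).n, f0 ▸ (m1 m.zero_le).2.1, k2 ((m1 k1).1.2.2.2 hn)⟩
    choose! m i k1 k2 k3 k4 k5 using key
    subst f0
    refine ⟨countable_iUnion fun n => (f1 n).1.base.1.ctR, fun y hy => ?_, ?_, fun g hg => ?_,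
      all_mg.2 fun j hj => av a h 0 j hj (h' j hj), fun g => ((F (m g)).t (i g)).2.2,
      fun g hg => ⟨k3 g hg ▸ ((f1 _).1.slot _ (k2 g hg)).2.1, k5 g hg,
        av a h _ _ (k2 g hg) (k3 g hg), all_mg.2 fun j hj => cp a h 0 j _ _ hj (k2 g hg) (h' j hj)
          (k3 g hg) fun e _ => (hj.trans_le (k1 g hg)).ne e⟩,
      fun g hg g' hg' e => cp a h _ _ _ _ (k2 g hg) (k2 g' hg') (k3 g hg) (k3 g' hg')
        fun _ e' => e ((k4 g hg).symm.trans (e' ▸ k4 g' hg'))⟩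
    · obtain ⟨n, hn⟩ := mem_iUnion.1 hy
      exact ((f1 n).1.base.1.lab y hn).imp_left (·.trans (hα n))
    · change ((ZFSet.iUnion fun n => (F n).c.G : U) : Set U).Countable
      rw [ZFSet.coe_iUnion]
      exact countable_iUnion fun n => (f1 n).1.base.1.ctG
    · exact let ⟨n, hn⟩ := ZFSet.mem_iUnion.1 hg; (f1 n).1.base.1.can g hn

variable (D Φ) in
/-- the statement proved by induction on the rank -/
def SS (β : Ordinal.{0}) : Prop := ∀ (S B M M' : U) (b : P), (S : Set U).Countable → S ∈ M →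
  Rk S β B M → (∀ M₁ ∈ B, QQ D Φ M₁) → QQ D Φ M' → M ∈ M' → B ∈ M' → cd β ∈ M' →
  TG univ b M' → (∀ M₁ ∈ B, TG univ b M₁) → ∃ σ, Out D Φ (S, β, B, M, b) σ

variable (D Φ) in
/-- one term of a serving sequence -/
def Stp (S : U) (β : Ordinal.{0}) (B N : U) (b : P) (l : List U) (σ : Sg) : Prop :=
  cd σ ∈ N ∧ ψUb D Φ l b σ ∧ ∀ β' < β, cd β' ∈ S → cd β' ∈ l → ∀ x ∈ l, ∃ M B' : U, ∃ b' : P,
    M ∈ N ∧ B' ∈ N ∧ cd b' ∈ N ∧ b ≤ b' ∧ M ∈ B ∧ x ∈ M ∧ B' ⊆ B ∧ Good D Φ b' σ S β' B' M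

omit [Small.{0} P] in
theorem exists_stp (hP : Dist (univ : Set P)) (hΦ : Flt D Φ) (hS : (S : Set U).Countable)
    (hSN : S ∈ N) (hr : Rk S β B N) (hB : ∀ M ∈ B, QQ D Φ M) (hb : ∀ M ∈ B, TG univ b M)
    (ih : ∀ β' < β, SS D Φ β') {l : List U} (hl : ∀ x ∈ l, x ∈ N) :
    ∃ σ, Stp D Φ S β B N b l σ := by
  have hN := hB N hr.mem
  have lN : cd l ∈ N := hN.m0.list.2 hl
  by_cases h : {β' | β' < β ∧ cd β' ∈ S ∧ cd β' ∈ l}.Nonempty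
  · obtain ⟨β', ⟨h1, h2, -⟩, h3⟩ := exists_max_image _ id (((List.finite_toSet l).preimage
      (Cd.inj (X := Ordinal.{0})).injOn).subset fun _ k => k.2.2) h
    have βN : cd β' ∈ N := hN.m0.sub S hSN hS h2
    obtain ⟨M, B1, k1, k2, k3, k4, k5⟩ := hr.wit h1 h2 (x := cd (S, l)) (hN.m0.prod.2 ⟨hSN, lN⟩)
    have hM := hB M (k4 k5.mem)
    rw [hM.m0.prod, hM.m0.list] at k3
    obtain ⟨M', B2, j1, -, j2, j3, j4⟩ := hr.wit h1 h2 (x := cd (M, B1, β'))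
      (hN.m0.prod.2 ⟨k1, hN.m0.prod.2 ⟨k2, βN⟩⟩)
    have hM' := hB M' (j3 j4.mem)
    rw [hM'.m0.prod, hM'.m0.prod] at j2
    obtain ⟨b', -, b1, b2, b3⟩ := (hb N hr.mem).exists_dec hP hN.cDec j1 hM'.m0.ctble
    have b4 : ∀ M₁ ∈ B, M₁ ⊆ M' → TG univ b' M₁ := fun M₁ i1 i2 =>
      b3.tg i2 (hb M₁ i1).gen ⟨b, trivial, b2, le_rfl⟩
    obtain ⟨σ, s1, s2, s3, s4, s5⟩ := hN.eOut (S, β', B1, M, b') (by
      simp only [hN.m0.prod]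
      exact ⟨hSN, βN, k2, k1, b1⟩) (ih β' h1 S B1 M M' b' hS k3.1 k5 (fun M₁ i => hB M₁ (k4 i)) hM'
        j2.1 j2.2.1 j2.2.2 (b4 M' (j3 j4.mem) fun _ i => i) fun M₁ i => b4 M₁ (k4 i)
          fun _ i' => hM'.m0.sub' hM.m0 j2.1 (k5.sub i i'))
    exact ⟨σ, s1, ⟨s2.mono b2, fun g hg => ⟨fun i e => ((hM.dl i).1 (e ▸ k3.2 g hg)).trans_eq
      s3.symm, fun i => hΦ.opn i (s4 g (k3.2 g hg) i) b2⟩⟩, fun γ i1 i2 i3 x hx =>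
        ⟨M, B1, b', k1, k2, b1, b2, k4 k5.mem, k3.2 x hx, k4, s5.mono (h3 γ ⟨i1, i2, i3⟩)⟩⟩
  · obtain ⟨G, k1, k2⟩ := hΦ.set (t := {g | g ∈ l ∧ nm g ∈ Φ}) (F := fun g => nm g)
      ((List.finite_toSet l).countable.mono fun _ k => k.1) fun _ k => k.2
    obtain ⟨q, k3, σ, k4, k5, k6⟩ := hΦ.unb G k1 b (del N)
    obtain ⟨w, -, j1, τ, j2, j3, j4⟩ := hN.pUb l lN b b (hb N hr.mem) (lb_self N b)
      ⟨q, k3, σ, k5, fun g hg => ⟨fun i e => ((hN.dl i).1 (e ▸ hl g hg)).trans_le k4,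
        fun i => k2 σ q k6 g ⟨hg, i⟩⟩⟩
    exact ⟨τ, j2, ⟨j3.mono j1, fun g hg => ⟨(j4 g hg).1, fun i => hΦ.opn i ((j4 g hg).2 i) j1⟩⟩,
      fun γ i1 i2 i3 => absurd ⟨γ, i1, i2, i3⟩ h⟩

omit [Small.{0} P] in
theorem exists_srv (hN : QQ D Φ N) (hS : S ⊆ N)
    (h : ∀ l : List U, (∀ x ∈ l, x ∈ N) → ∃ σ, Stp D Φ S β B N b l σ) :
    ∃ f, Srv D Φ S β B N b f := by
  obtain ⟨e, e1, e2⟩ := hN.m0.enum
  obtain ⟨σ₀, h0⟩ := h [e 0] (by simpa using e1 0)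
  obtain ⟨f, -, hf⟩ := rec_choice (fun k σ => ∃ l, (∀ j ≤ k, e j ∈ l) ∧ Stp D Φ S β B N b l σ)
    (fun _ σ σ' => σ.δ < σ'.δ) σ₀ ⟨[e 0], by simp, h0⟩ fun k σ ⟨_, _, k1⟩ => by
      obtain ⟨τ, k2⟩ := h (cd σ.δ :: (List.range (k + 2)).map e) (List.forall_mem_cons.2
        ⟨(hN.dl _).2 (hN.sgd k1.1).1, List.forall_mem_map.2 fun j _ => e1 j⟩)
      exact ⟨τ, ⟨_, fun j hj => List.mem_cons_of_mem _ (List.mem_map_of_mem
        (List.mem_range.2 (Nat.lt_succ_of_le hj))), k2⟩, (k2.2.1.2 _ List.mem_cons_self).1 _ rfl⟩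
  choose l l1 l2 l3 l4 using fun k => (hf k).1
  have ev : ∀ x ∈ N, ∀ᶠ k in atTop, x ∈ l k := fun x hx =>
    let ⟨j, hj⟩ := e2 x hx; eventually_atTop.2 ⟨j, fun k hk => hj ▸ l1 k j hk⟩
  refine ⟨f, l2, fun k => (l3 k).1, strictMono_nat_of_lt_succ fun k => (hf k).2,
    ⟨forall_mem_range.2 fun k => (hN.sgd (l2 k)).1.le, fun γ hγ => not_lt.1 fun i => ?_⟩,
    fun g hg i => (ev g hg).mono fun k j => ((l3 k).2 g j).2 i, fun β' i1 i2 x hx =>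
      ((ev _ (hS i2)).and (ev x hx)).mono fun k j => l4 k β' i1 i2 j.1 x j.2⟩
  obtain ⟨k, hk⟩ := (ev _ ((hN.dl γ).2 i)).exists
  exact (((l3 k).2 _ hk).1 γ rfl).not_ge (hγ (mem_range_self k))

omit [Small.{0} P] in
theorem prep (hP : Dist (univ : Set P)) (h0 : GS D) (hΦ : Flt D Φ) (hS : (S : Set U).Countable)
    (hSN : S ∈ N) (hr : Rk S β B N) (hB : ∀ M ∈ B, QQ D Φ M) (hN' : QQ D Φ N') (h1 : N ∈ N')
    (h2 : B ∈ N') (h3 : cd β ∈ N') (h4 : TG univ b N') (hb : ∀ M ∈ B, TG univ b M)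
    (ih : ∀ β' < β, SS D Φ β') : Dec univ b N ∧ ∃ f, cd f ∈ N' ∧ Cx D Φ S β B N b f := by
  have hN := hB N hr.mem
  obtain ⟨b', -, b1, b2, b3⟩ := h4.exists_dec hP hN'.cDec h1 hN.m0.ctble
  have b4 : ∀ M ∈ B, TG univ b' M := fun M i =>
    b3.tg (hr.sub i) (hb M i).gen ⟨b, trivial, b2, le_rfl⟩
  obtain ⟨f, k1, k2⟩ := hN'.eSrv (S, β, B, N, b') (by
    simp only [hN'.m0.prod]
    exact ⟨hN'.m0.sub' hN.m0 h1 hSN, h3, h2, h1, b1⟩) (exists_srv hN (hN.m0.sub S hSN hS)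
      fun l hl => exists_stp hP hΦ hS hSN hr hB b4 ih hl)
  exact ⟨b3.mono b2, f, k1, hP, h0, hΦ, hS, hSN, hB, hr.mem, hb N hr.mem,
    Srv.tr hN k2 (b4 N hr.mem) (LB.of_le b2)⟩

omit [Small.{0} P] in
theorem lims (hl : LimStmt) (H : Cx D Φ S β B N a₀ f) (hN' : QQ D Φ N') (h1 : N ∈ N')
    (h2 : cd f ∈ N') (h3 : LB univ N a a₀) (h4 : TG univ a N') :
    ∃ σ, cd σ ∈ N' ∧ σ.δ = del N ∧ Lim D f σ a := by
  obtain ⟨w, -, k1, σ, k2, k3, k4⟩ := hN'.pLim (f, del N) (hN'.m0.prod.2 ⟨h2, hN'.delf N h1⟩) a a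
    h4 (lb_self N' a) (hl P H.dist D H.gs f (del N) a H.srv.mono H.srv.lub
      (H.srv.tr H.q H.tg h3).sec)
  exact ⟨σ, k2, k3, k4.mono' k1⟩

theorem ss (hg : GenStmt) (hn : NewStmt) (hz : ZonStmt) (hc : CoaStmt) (ha : AclStmt)
    (hl : LimStmt) (hP : Dist (univ : Set P)) (h0 : GS D) (hΦ : Flt D Φ) (β : Ordinal.{0}) :
    SS D Φ β := by
  induction β using WellFoundedLT.induction with
  | _ β ih =>
  intro S B M M' b hS hSM hr hB hM' h1 h2 h3 h4 hb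
  obtain ⟨k0, f, k1, H⟩ := prep hP h0 hΦ hS hSM hr hB hM' h1 h2 h3 h4 hb ih
  obtain ⟨σ, k2, k3, k4⟩ := lims hl H hM' h1 k1 (lb_self M b) h4
  refine ⟨σ, k4.sec', k3, fun g i1 i2 => (hΦ.clo _ i2).2 b f σ k4 (ev_hyp (H.srv.flt g i1 i2)),
    fun r j1 c j2 n z w j3 j4 j5 => ?_⟩
  obtain ⟨γ, i1, i2⟩ := Cnd.rank (D := D) (p := r) (z := Mg n z) (all_mg.2 fun i hi => (j5 i hi).1)
    (max (del M) σ.γ)
  obtain ⟨r', i3, L, i4⟩ := h0.dec r γ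
  have i5 := i3.trans j1
  have H' : Cx D Φ S β B M r' f := ⟨hP, h0, hΦ, hS, hSM, hB, H.NB, H.tg.mono i5,
    H.srv.tr H.q H.tg (LB.of_le i5)⟩
  obtain ⟨B', l1, l2, c', l3, l4, l5⟩ := ll (s := ⟨c, n, fun i => (r', ∅, z i), w⟩) hg hn hz hc ha
    H' hM' h1 [r'] (List.forall_mem_singleton.2 ⟨lb_self M r', h4.mono i5, σ, k2, k4.mono' i5⟩)
    ⟨j2, j3, ⟨j4.1.mono h0 i3, fun i hi => (j4.2.1 i hi).mono h0 i3, fun i hi j hj e =>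
      (j4.2.2 i hi j hj e).mono i3⟩, fun i hi => ⟨lb_self M r', (j5 i hi).1.mono h0 i3,
        (j5 i hi).2.1.mono i3, app_of ha H' (k4.mono' i5) i4 (le_of_max_le_left i1)
          (le_of_max_le_right i1) (fun e he => (i2 e (mem_mg.2 ⟨i, hi, he⟩)).inv)
          ((j5 i hi).1.mono h0 i3) ((j5 i hi).2.2.mono i3)⟩⟩
  exact ⟨r', i3, B', c', l1, l2, l3, l4.lb (fun _ => l2.sub) (k0.lb trivial i5),
    l5 r' List.mem_cons_self fun _ _ => rfl⟩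

theorem sch (hg : GenStmt) (hn : NewStmt) (hz : ZonStmt) (hc : CoaStmt) (ha : AclStmt)
    (hl : LimStmt) : SchStmt' := by
  intro P _ _ _ hP D h0 Φ hΦ
  refine ⟨QQ D Φ, ev_QQ h0 hΦ, fun S β B N N' A h₀ c₀ hS hSN hr hB hN' h1 h2 h3 hne hA k1 k2 k3 =>
    ?_⟩
  obtain ⟨a₀, ha₀⟩ := List.exists_mem_of_ne_nil A hne
  obtain ⟨-, f, k4, H⟩ := prep hP h0 hΦ hS hSN hr hB hN' h1 h2 h3 (hA a₀ ha₀).1 (hA a₀ ha₀).2.1
    fun β' _ => ss hg hn hz hc ha hl hP h0 hΦ β'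
  obtain ⟨B', l1, l2, c, l3, l4, l5⟩ := ll (s := ⟨c₀, 0, fun _ => (a₀, ∅, []), fun _ => []⟩)
    hg hn hz hc ha H hN' h1 A (fun a h =>
      let ⟨σ, i1, _, i2⟩ := lims hl H hN' h1 k4 ((hA a h).2.2.2 a₀ ha₀) (hA a h).1
      ⟨(hA a h).2.2.2 a₀ ha₀, (hA a h).1, σ, i1, i2⟩)
    ⟨k2, fun _ h => absurd h (Nat.not_lt_zero _), ⟨k3.mono h0 (hA a₀ ha₀).2.2.1,
      fun _ h => absurd h (Nat.not_lt_zero _), fun _ h => absurd h (Nat.not_lt_zero _)⟩,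
      fun _ h => absurd h (Nat.not_lt_zero _)⟩
  refine ⟨B', l1, l2, c, l3, fun a h => l5 a h fun _ h => absurd h (Nat.not_lt_zero _),
    fun M hM u hu hd => ?_⟩
  obtain ⟨x, d, j1, j2, j3, j4, j5⟩ := l4 M hM u hu hd
  exact ⟨x, d, j1, j2, j3, j4, fun a h => (hA a h).2.2.2 a₀ ha₀ x trivial (l2.sub hM j2) j5⟩

end Pool.Agent.Ctry.AK.Sch
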