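import Pool.Agent.MP_77405c_lc.Sch
import Pool.Agent.MP_b60a07_lc.AK.Basic

/-! Merged candidates, reflection into models and the closure properties of the models. -/

open Filter Set

namespace Pool.Agent.Ctry.AK.Sch

/-- the concatenation of the first `n` candidates -/
def Mg (n : ℕ) (w : ℕ → Cand) : Cand := (List.range n).flatMap w

theorem mg_succ (n : ℕ) (w : ℕ → Cand) : Mg (n + 1) w = Mg n w ++ w n := by
  simp [Mg, List.range_succ]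

theorem mem_mg {n : ℕ} {w : ℕ → Cand} {e : Lf} : e ∈ Mg n w ↔ ∃ i < n, e ∈ w i := by simp [Mg]

theorem all_mg {n : ℕ} {w : ℕ → Cand} {φ : Lf → Prop} :
    (∀ e ∈ Mg n w, φ e) ↔ ∀ i < n, ∀ e ∈ w i, φ e :=
  ⟨fun h i hi e he => h e (mem_mg.2 ⟨i, hi, he⟩),
    fun h e he => let ⟨i, hi, he⟩ := mem_mg.1 he; h i hi e he⟩

theorem mg_congr {n : ℕ} {w w' : ℕ → Cand} (h : ∀ i < n, w i = w' i) : Mg n w = Mg n w' :=
  List.flatMap_congr fun i hi => h i (List.mem_range.1 hi)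

variable {P : Type 1} [Preorder P] {D : Dt P} {Φ : Set (Sg → P → Prop)}

theorem ref_mg {n : ℕ} {z w : ℕ → Cand} {p : P} (h : ∀ i < n, Ref D (z i) (w i) p) :
    Ref D (Mg n z) (Mg n w) p := by
  induction n with
  | zero => exact List.Forall₂.nil
  | succ n ih =>
    rw [mg_succ, mg_succ]
    exact (ih fun i hi => h i (hi.trans n.lt_succ_self)).append (h n n.lt_succ_self)

theorem acc_mg (h0 : GS D) {n : ℕ} {w : ℕ → Cand} {p : P} {σ : Sg} (hs : Sec D σ p)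
    (h1 : ∀ i < n, Cnd D (w i) p ∧ Acc D σ (w i) p ∧ ∀ e ∈ w i, e.1 = σ.δ)
    (h2 : ∀ i < n, ∀ j < n, i ≠ j → Cpt D (w i) (w j) p) : Acc D σ (Mg n w) p := by
  refine all_mg.2 fun i hi e he => ⟨((h1 i hi).2.2 e he).ge, all_mg.2 fun j hj e' he' b => ?_⟩
  by_cases k : i = j
  · subst k
    exact ((h1 i hi).2.1 e he).2 e' he' b
  · have k1 := (h1 i hi).2.2 e he
    refine (h2 i hi j hj k e he e' he').1.sub (inter_subset_inter_left _ ?_)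
    have k2 := (hs.2 p le_rfl _ (h0.t_cut ((h1 i hi).1 e he).1 k1.ge) b).2
    exact cyl_sub (k1.trans_le hs.1) (k1 ▸ k2.trans (ag_cut _ _))

variable [Cd P]

/-- witnesses found below a version are found in the model -/
def Pul {Y Z : Type*} [Cd Y] [Cd Z] (ψ : Y → P → Z → Prop) (N : U) : Prop :=
  ∀ y, cd y ∈ N → ∀ a₀ a, TG univ a₀ N → LB univ N a a₀ → (∃ a' ≤ a, ∃ z, ψ y a' z) →
    ∃ w, cd w ∈ N ∧ a₀ ≤ w ∧ ∃ z, cd z ∈ N ∧ ψ y w z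

/-- all versions agree on `φ` for parameters in the model -/
def Trf {Y : Type*} [Cd Y] (φ : Y → P → Prop) (N : U) : Prop :=
  ∀ y, cd y ∈ N → ∀ a₀ a a', TG univ a₀ N → LB univ N a a₀ → LB univ N a' a₀ → φ y a → φ y a'

theorem ev_pul [Small.{0} P] {Y Z : Type*} [Cd Y] [Cd Z] (ψ : Y → P → Z → Prop) :
    ∀ᶠ N in club, Pul ψ N := by
  filter_upwards [ev_cap univ fun y w z => ψ y w z ∨ ∀ w' ≤ w, ∀ z', ¬ ψ y w' z'] with N h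
  rintro y hy a₀ a h1 h2 ⟨a', h3, z₀, h4⟩
  obtain ⟨w, -, k1, k2, z, k3, k4⟩ := h1.use0 h hy fun q _ => by
    by_cases k : ∃ w ≤ q, ∃ z, ψ y w z
    · exact let ⟨w, k1, z, k2⟩ := k; ⟨w, trivial, k1, z, Or.inl k2⟩
    · exact ⟨q, trivial, le_rfl, z₀, Or.inr fun w k1 z k2 => k ⟨w, k1, z, k2⟩⟩
  exact ⟨w, k1, k2, z, k3,
    k4.resolve_right fun k => k a' (h3.trans (h2 w trivial k1 k2)) z₀ h4⟩

theorem ev_trf [Small.{0} P] {Y : Type*} [Cd Y] (φ : Y → P → Prop) (h : Opn φ) :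
    ∀ᶠ N in club, Trf φ N := by
  filter_upwards [ev_pul fun y w (_ : Unit) => φ y w] with N hN y hy a₀ a a' h1 h2 h3 h4
  obtain ⟨w, k1, k2, -, -, k3⟩ := hN y hy a₀ a h1 h2 ⟨a, le_rfl, (), h4⟩
  exact h y w a' (h3 w trivial k1 k2) k3

theorem lb_self (N : U) (a : P) : LB univ N a a := LB.of_le le_rfl

variable (D Φ)

/-- `c` with `b` is below a member of every dense set in the models of `B` -/
def Gn (b : P) (c : Pk) (B : U) : Prop := ∀ M ∈ B, ∀ u ∈ M, Den D Φ u →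
  ∃ h c', cd (h, c') ∈ u ∧ cd h ∈ M ∧ cd c' ∈ M ∧ c ≤ c' ∧ b ≤ h

/-- pairwise compatible candidates admitted by `c` -/
def Base (p : P) (c : Pk) (n : ℕ) (w : ℕ → Cand) : Prop := Adm D Φ p c (Mg n w) ∧
  (∀ i < n, Cnd D (w i) p) ∧ ∀ i < n, ∀ j < n, i ≠ j → Cpt D (w i) (w j) p

/-- refinements accepted by `σ` are admitted by a generic condition for a subtower -/
def Good (b : P) (σ : Sg) (S : U) (β : Ordinal.{0}) (B M : U) : Prop :=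
  ∀ r ≤ b, ∀ c : Pk, cd c ∈ M → ∀ (n : ℕ) (z w : ℕ → Cand), (∀ i < n, cd (w i) ∈ M) →
    Base D Φ r c n w → (∀ i < n, Cnd D (z i) r ∧ Ref D (z i) (w i) r ∧ Acc D σ (z i) r) →
    ∃ r' ≤ r, ∃ B' c', B' ⊆ B ∧ Rk S β B' M ∧ c' ≤ c ∧ Gn D Φ b c' B' ∧ Adm D Φ r' c' (Mg n z)

/-- the output of the main induction -/
def Out (y : U × Ordinal.{0} × U × U × P) (σ : Sg) : Prop :=
  Sec D σ y.2.2.2.2 ∧ σ.δ = del y.2.2.2.1 ∧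
    (∀ g ∈ y.2.2.2.1, nm g ∈ Φ → nm g σ y.2.2.2.2) ∧ Good D Φ y.2.2.2.2 σ y.1 y.2.1 y.2.2.1 y.2.2.2.1

/-- a sequence of sections serving the tower -/
structure Srv (S : U) (β : Ordinal.{0}) (B N : U) (b : P) (f : ℕ → Sg) : Prop where
  mem : ∀ k, cd (f k) ∈ N
  sec : ∀ k, Sec D (f k) b
  mono : StrictMono fun k => (f k).δ
  lub : IsLUB (range fun k => (f k).δ) (del N)
  flt : ∀ g ∈ N, nm g ∈ Φ → ∀ᶠ k in atTop, nm g (f k) b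
  twr : ∀ β' < β, cd β' ∈ S → ∀ x ∈ N, ∀ᶠ k in atTop, ∃ M B' : U, ∃ b' : P, M ∈ N ∧ B' ∈ N ∧
    cd b' ∈ N ∧ b ≤ b' ∧ M ∈ B ∧ x ∈ M ∧ B' ⊆ B ∧ Good D Φ b' (f k) S β' B' M

def ψT (β : Om) (w : P) (W : U) : Prop :=
  (W : Set U).Countable ∧ ∀ r ≤ w, ∀ t, D.T β t r → cd t ∈ W

def ψGen (y : Pk × Cand × U) (w : P) (g : U) : Prop := nm g ∈ Φ ∧ ∀ q ≤ w, ∀ σ z, Sec D σ q →
  nm g σ q → Cnd D z q → Ref D z y.2.1 q → Acc D σ z q →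
    ∃ r ≤ q, ∃ h c', cd (h, c') ∈ y.2.2 ∧ r ≤ h ∧ c' ≤ y.1 ∧ Adm D Φ r c' z

def ψOut (y : U × Pk × Cand) (w : P) (z : P × Pk) : Prop :=
  cd z ∈ y.1 ∧ w ≤ z.1 ∧ z.2 ≤ y.2.1 ∧ Adm D Φ w z.2 y.2.2

def ψTw (y : (U × Ordinal.{0} × U × U) × P × Pk × Cand) (w : P) (z : U × Pk) : Prop :=
  z.1 ⊆ y.1.2.2.1 ∧ Rk y.1.1 y.1.2.1 z.1 y.1.2.2.2 ∧ z.2 ≤ y.2.2.1 ∧ Gn D Φ y.2.1 z.2 z.1 ∧
    Adm D Φ w z.2 y.2.2.2

def ψNew (y : Pk × Cand × U) (w : P) (z : Cand) : Prop :=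
  Cnd D z w ∧ Zone D Φ (nm y.2.2) z w ∧ Cpt D y.2.1 z w ∧ Adm D Φ w y.1 (y.2.1 ++ z)

def ψZF (y : U × Cand) (w : P) (g : U) : Prop := nm g ∈ Φ ∧ ∀ q ≤ w, ∀ σ, Sec D σ q → nm g σ q →
  ∃ r ≤ q, Hit D (fun z' r => Ref D z' y.2 r ∧ Zone D Φ (nm y.1) z' r) σ r

def ψHit (y : U × Cand × Sg) (w : P) (z : Cand) : Prop :=
  (Ref D z y.2.1 w ∧ Zone D Φ (nm y.1) z w) ∧ Cnd D z w ∧ Acc D y.2.2 z w

def ψUb (l : List U) (w : P) (σ : Sg) : Prop :=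
  Sec D σ w ∧ ∀ g ∈ l, (∀ i : Om, cd i = g → i < σ.δ) ∧ (nm g ∈ Φ → nm g σ w)

/-- the closure properties of the models -/
structure QQ (M : U) : Prop where
  m0 : Mod0 M
  dl : ∀ a : Om, cd a ∈ M ↔ a < del M
  delf : ∀ N ∈ M, cd (del N) ∈ M
  bas : ∀ V : Set Cb, (Bas (del M) V → cd V ∈ M) ∧ ((∃ β, Bas β V) → cd V ∈ M → Bas (del M) V)
  sg : ∀ σ : Sg, cd σ ∈ M → cd (σ.δ, σ.γ) ∈ M
  cDec : Cap univ (psiDec (univ : Set P)) M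
  tCnd : Trf (Cnd D) M
  tRef : Trf (fun y : Cand × Cand => Ref D y.1 y.2) M
  tAcc : Trf (fun y : Sg × Cand => Acc D y.1 y.2) M
  tCpt : Trf (fun y : Cand × Cand => Cpt D y.1 y.2) M
  tAdm : Trf (fun (y : Pk × Cand) p => Adm D Φ p y.1 y.2) M
  tSec : Trf (Sec D) M
  tNm : Trf (fun (y : U × Sg) (p : P) => nm y.1 ∈ Φ ∧ nm y.1 y.2 p) M
  pT : Pul (ψT D) M
  pGen : Pul (ψGen D Φ) M
  pOut : Pul (ψOut D Φ) M
  pTw : Pul (ψTw D Φ) M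
  pNew : Pul (ψNew D Φ) M
  pZF : Pul (ψZF D Φ) M
  pHit : Pul (ψHit D Φ) M
  pUb : Pul (ψUb D Φ) M
  pLv : Pul (fun (β : Om) w L => D.Lv β L w) M
  pLim : Pul (fun (y : (ℕ → Sg) × Om) w σ => σ.δ = y.2 ∧ Lim D y.1 σ w) M
  eOut : El (Out D Φ) M
  eSrv : El (fun (y : U × Ordinal.{0} × U × U × P) f =>
    Srv D Φ y.1 y.2.1 y.2.2.1 y.2.2.2.1 y.2.2.2.2 f) M
  eLev : El (fun (y : Sg × Cand × Om) (β : Om) =>
    y.2.2 ≤ β ∧ y.1.γ ≤ β ∧ ∀ e ∈ y.2.1, Inv β e.2.2) M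

variable {D Φ}

theorem ev_QQ [Small.{0} P] (h0 : GS D) (hΦ : Flt D Φ) : ∀ᶠ M in club, QQ D Φ M := by
  filter_upwards [ev_mod0, ev_del, ev_fun del, ev_bas, ev_fun fun σ : Sg => (σ.δ, σ.γ),
    ev_cap univ (psiDec (univ : Set P)),
    ev_trf (Cnd D) fun _ _ _ k h => h.mono h0 k,
    ev_trf (fun y : Cand × Cand => Ref D y.1 y.2) fun _ _ _ k h => h.mono k,
    ev_trf (fun y : Sg × Cand => Acc D y.1 y.2) fun _ _ _ k h => h.mono k,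
    ev_trf (fun y : Cand × Cand => Cpt D y.1 y.2) fun _ _ _ k h => h.mono k,
    ev_trf (fun (y : Pk × Cand) p => Adm D Φ p y.1 y.2) fun _ _ _ k h => h.mono h0 k,
    ev_trf (Sec D) fun _ _ _ k h => h.mono k,
    ev_trf (fun (y : U × Sg) (p : P) => nm y.1 ∈ Φ ∧ nm y.1 y.2 p)
      fun _ _ _ k h => ⟨h.1, hΦ.opn h.1 h.2 k⟩,
    ev_pul (ψT D), ev_pul (ψGen D Φ), ev_pul (ψOut D Φ), ev_pul (ψTw D Φ), ev_pul (ψNew D Φ),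
    ev_pul (ψZF D Φ), ev_pul (ψHit D Φ), ev_pul (ψUb D Φ),
    ev_pul fun (β : Om) w L => D.Lv β L w,
    ev_pul fun (y : (ℕ → Sg) × Om) w σ => σ.δ = y.2 ∧ Lim D y.1 σ w, ev_el (Out D Φ),
    ev_el fun (y : U × Ordinal.{0} × U × U × P) f =>
      Srv D Φ y.1 y.2.1 y.2.2.1 y.2.2.2.1 y.2.2.2.2 f,
    ev_el fun (y : Sg × Cand × Om) (β : Om) => y.2.2 ≤ β ∧ y.1.γ ≤ β ∧ ∀ e ∈ y.2.1, Inv β e.2.2]
    with M h1 h2 h3 h4 h5 h6 h7 h8 h9 h10 h11 h12 h13 h14 h15 h16 h17 h18 h19 h20 h21 h22 h23 h24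
      h25 h26
  exact ⟨h1, h2, h3, h4, h5, h6, h7, h8, h9, h10, h11, h12, h13, h14, h15, h16, h17, h18, h19, h20,
    h21, h22, h23, h24, h25, h26⟩

variable {M N : U}

theorem QQ.sgd (h : QQ D Φ M) {σ : Sg} (k : cd σ ∈ M) : σ.δ < del M ∧ σ.γ < del M :=
  (h.m0.prod.1 (h.sg σ k)).imp (h.dl _).1 (h.dl _).1

theorem QQ.pk (h : QQ D Φ M) {c : Pk} (k : cd c ∈ M) : c.α < del M ∧ c.G ∈ M :=
  have k' := h.m0.prod.1 (show cd (c.α, c.R, c.G) ∈ M from k)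
  ⟨(h.dl _).1 k'.1, (h.m0.prod.1 k'.2).2⟩

theorem QQ.mg (h : QQ D Φ M) {n : ℕ} {w : ℕ → Cand} (k : ∀ i < n, cd (w i) ∈ M) :
    cd (Mg n w) ∈ M := h.m0.list.2 (all_mg.2 fun i hi => h.m0.list.1 (k i hi))

theorem Gn.mono {b b' : P} {c c' : Pk} {B : U} (h : Gn D Φ b c B) (k : b' ≤ b) (k' : c' ≤ c) :
    Gn D Φ b' c' B := fun M hM u hu hd =>
  let ⟨a, d, j1, j2, j3, j4, j5⟩ := h M hM u hu hd
  ⟨a, d, j1, j2, j3, k'.trans j4, k.trans j5⟩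

theorem Good.mono {b : P} {σ : Sg} {S B : U} {β β' : Ordinal.{0}} (h : Good D Φ b σ S β B M)
    (k : β' ≤ β) : Good D Φ b σ S β' B M := fun r j1 c j2 n z w j3 j4 j5 =>
  let ⟨r', i1, B', c', i2, i3, i4⟩ := h r j1 c j2 n z w j3 j4 j5
  ⟨r', i1, B', c', i2, i3.mono k, i4⟩

theorem Base.tr (hM : QQ D Φ M) {a₀ a a' : P} (h1 : TG univ a₀ M) (h2 : LB univ M a a₀)
    (h3 : LB univ M a' a₀) {c : Pk} (hc : cd c ∈ M) {n : ℕ} {w : ℕ → Cand}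
    (hw : ∀ i < n, cd (w i) ∈ M) (h : Base D Φ a c n w) : Base D Φ a' c n w :=
  ⟨hM.tAdm (c, Mg n w) (hM.m0.prod.2 ⟨hc, hM.mg hw⟩) a₀ a a' h1 h2 h3 h.1,
    fun i hi => hM.tCnd _ (hw i hi) a₀ a a' h1 h2 h3 (h.2.1 i hi), fun i hi j hj k =>
      hM.tCpt (w i, w j) (hM.m0.prod.2 ⟨hw i hi, hw j hj⟩) a₀ a a' h1 h2 h3 (h.2.2 i hi j hj k)⟩

theorem Srv.tr (hN : QQ D Φ N) {S B : U} {β : Ordinal.{0}} {b a : P} {f : ℕ → Sg}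
    (h : Srv D Φ S β B N b f) (h1 : TG univ b N) (h2 : LB univ N a b) : Srv D Φ S β B N a f :=
  ⟨h.mem, fun k => hN.tSec _ (h.mem k) b b a h1 (lb_self N b) h2 (h.sec k), h.mono, h.lub,
    fun g hg k => (h.flt g hg k).mono fun n j => (hN.tNm (g, f n) (hN.m0.prod.2 ⟨hg, h.mem n⟩)
      b b a h1 (lb_self N b) h2 ⟨k, j⟩).2,
    fun β' j1 j2 x hx => (h.twr β' j1 j2 x hx).mono fun _ ⟨M, B', b', i1, i2, i3, i4, i5⟩ =>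
      ⟨M, B', b', i1, i2, i3, h2 b' trivial i3 i4, i5⟩⟩

end Pool.Agent.Ctry.AK.Sch
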