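import Pool.Agent.MP_b60a07_lc.AK.Sch0

/-! The steps of the construction of a lower bound. -/

open Filter Set

namespace Pool.Agent.Ctry.AK.Sch

variable {P : Type 1} [Preorder P] [Cd P] (D : Dt P) (Φ : Set (Sg → P → Prop))

/-- states: a precondition, slots (version, promise, candidate) and their bases -/
structure St (P : Type 1) where
  c : Pk
  n : ℕ
  t : ℕ → P × U × Cand
  w : ℕ → Cand

/-- almost all terms accept `z` -/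
def App (N : U) (f : ℕ → Sg) (a : P) (z : Cand) : Prop := ∃ β L, D.Lv β L a ∧ del N ≤ β ∧
  (∀ e ∈ z, Inv β e.2.2) ∧ ∀ᶠ k in hyperfilter ℕ, Acc D (f k) z a

/-- the invariant of the construction -/
structure Ok (N : U) (f : ℕ → Sg) (a₀ : P) (s : St P) : Prop where
  cN : cd s.c ∈ N
  wN : ∀ i < s.n, cd (s.w i) ∈ N
  base : Base D Φ a₀ s.c s.n s.w
  slot : ∀ i < s.n, LB univ N (s.t i).1 a₀ ∧ Cnd D (s.t i).2.2 (s.t i).1 ∧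
    Ref D (s.t i).2.2 (s.w i) (s.t i).1 ∧ App D N f (s.t i).1 (s.t i).2.2

/-- the order of the states -/
def Le (s' s : St P) : Prop := s'.c ≤ s.c ∧ s.n ≤ s'.n ∧ ∀ i < s.n, s'.t i = s.t i

/-- the context of the construction -/
structure Cx (S : U) (β : Ordinal.{0}) (B N : U) (a₀ : P) (f : ℕ → Sg) : Prop where
  dist : Dist (univ : Set P)
  gs : GS D
  flt : Flt D Φ
  hS : (S : Set U).Countable
  SN : S ∈ N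
  hB : ∀ M ∈ B, QQ D Φ M
  NB : N ∈ B
  tg : TG univ a₀ N
  srv : Srv D Φ S β B N a₀ f

/-- a version with a limit section -/
def Ver (N N' : U) (a₀ : P) (f : ℕ → Sg) (a : P) : Prop :=
  LB univ N a a₀ ∧ TG univ a N' ∧ ∃ σ, cd σ ∈ N' ∧ Lim D f σ a

variable {D Φ} {S B N N' : U} {β : Ordinal.{0}} {a₀ a : P} {f : ℕ → Sg} {s : St P}

theorem Cx.q (H : Cx D Φ S β B N a₀ f) : QQ D Φ N := H.hB N H.NB

theorem node_mem (H : Cx D Φ S β B N a₀ f) (ha : LB univ N a a₀) {δ : Om} (hδ : δ < del N)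
    {t : Cb} (ht : D.T δ t a) : cd t ∈ N := by
  obtain ⟨q, k1, W, k2, k3⟩ := (H.gs a).ctb a le_rfl δ
  obtain ⟨W', k4, k5⟩ := exists_code_ctble k2
  obtain ⟨w, j1, j2, W'', j3, j4, j5⟩ := H.q.pT δ ((H.q.dl δ).2 hδ) a₀ a H.tg ha
    ⟨q, k1, W', k4, fun r hr t ht => (k5 t).2 (k3 r hr t ht)⟩
  exact H.q.m0.sub W'' j3 j4 (j5 a (ha w trivial j1 j2) t ht)

/-- new bases in the model, accepted by a term of the sequence -/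
theorem apx (hc : CoaStmt) (H : Cx D Φ S β B N a₀ f) (hs : Ok D Φ N f a₀ s) {E : ℕ → Prop}
    (hE : ∀ᶠ k in atTop, E k) : ∃ k w, E k ∧ Ok D Φ N f a₀ ⟨s.c, s.n, s.t, w⟩ ∧
      Acc D (f k) (Mg s.n w) a₀ ∧ ∀ i < s.n, Ref D (w i) (s.w i) a₀ ∧ Acc D (f k) (w i) a₀ := by
  have hN := H.q
  have h1 : ∀ᶠ k in hyperfilter ℕ, ∀ i ∈ {i | i < s.n}, Acc D (f k) (s.t i).2.2 (s.t i).1 :=
    (eventually_all_finite (finite_lt_nat s.n)).2 fun i hi =>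
      let ⟨_, _, _, _, _, h⟩ := (hs.slot i hi).2.2.2; h
  have h2 : ∀ᶠ k in atTop, ∀ e ∈ {e | e ∈ Mg s.n s.w}, e.1 ≤ (f k).δ :=
    (eventually_all_finite (List.finite_toSet _)).2 fun e he => by
      obtain ⟨k, hk⟩ := exists_of_lub H.srv.lub
        ((hN.dl _).1 (hN.m0.prod.1 (hN.m0.list.1 (hN.mg hs.wN) e he)).1)
      exact eventually_atTop.2 ⟨k, fun m hm => hk.le.trans (H.srv.mono.monotone hm)⟩
  obtain ⟨k, k1, k2, k3⟩ := (h1.and (ev_hyp (h2.and hE))).exists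
  have hγ := hN.sgd (H.srv.mem k)
  have key : ∀ i < s.n, ∃ y : Cand, cd y ∈ N ∧ (∀ e ∈ y, e.1 = (f k).δ) ∧ Cnd D y a₀ ∧
      Ref D (s.t i).2.2 y (s.t i).1 ∧ Ref D y (s.w i) a₀ ∧ Acc D (f k) y a₀ := fun i hi => by
    obtain ⟨j1, j2, j3, γ, L, j4, j5, j6, -⟩ := hs.slot i hi
    obtain ⟨y, l1, l2, l3, l4, l5⟩ := hc P D H.gs (f k) _ γ (del N) L _ (s.w i)
      (hN.tSec _ (H.srv.mem k) a₀ a₀ _ H.tg (lb_self N a₀) j1 (H.srv.sec k)) j4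
      (hγ.2.le.trans j5) j6 j2 j3 (k1 i hi) hγ.2.le fun e he => ⟨k2 e (mem_mg.2 ⟨i, hi, he⟩),
        (hN.bas _).2 (hs.base.2.1 i hi e he).2
          (hN.m0.prod.1 (hN.m0.prod.1 (hN.m0.list.1 (hs.wN i hi) e he)).2).2⟩
    have l6 : cd y ∈ N := hN.m0.list.2 fun e he =>
      have l7 : e.1 < del N := (l1 e he).1.trans_lt hγ.1
      hN.m0.prod.2 ⟨(hN.dl _).2 l7, hN.m0.prod.2
        ⟨node_mem H j1 l7 (l2 e he).1, (hN.bas _).1 (l1 e he).2⟩⟩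
    exact ⟨y, l6, fun e he => (l1 e he).1, hN.tCnd y l6 a₀ _ a₀ H.tg j1 (lb_self N a₀) l2, l3,
      hN.tRef (y, s.w i) (hN.m0.prod.2 ⟨l6, hs.wN i hi⟩) a₀ _ a₀ H.tg j1 (lb_self N a₀) l4,
      hN.tAcc (f k, y) (hN.m0.prod.2 ⟨H.srv.mem k, l6⟩) a₀ _ a₀ H.tg j1 (lb_self N a₀) l5⟩
  choose! w w1 w2 w3 w4 w5 w6 using key
  have w7 : ∀ i < s.n, ∀ j < s.n, i ≠ j → Cpt D (w i) (w j) a₀ := fun i hi j hj e =>
    (hs.base.2.2 i hi j hj e).ref₂ (w5 i hi) (w5 j hj)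
  exact ⟨k, w, k3, ⟨hs.cN, w1, ⟨hs.base.1.ref (ref_mg w5), w3, w7⟩, fun i hi =>
    ⟨(hs.slot i hi).1, (hs.slot i hi).2.1, w4 i hi, (hs.slot i hi).2.2.2⟩⟩,
    acc_mg H.gs (H.srv.sec k) (fun i hi => ⟨w3 i hi, w6 i hi, w2 i hi⟩) w7,
    fun i hi => ⟨w5 i hi, w6 i hi⟩⟩

theorem Ok.chg (hs : Ok D Φ N f a₀ s) {c : Pk} (h1 : cd c ∈ N)
    (h2 : Adm D Φ a₀ c (Mg s.n s.w)) : Ok D Φ N f a₀ ⟨c, s.n, s.t, s.w⟩ :=
  ⟨h1, hs.wN, ⟨h2, hs.base.2⟩, hs.slot⟩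

theorem stepT (hc : CoaStmt) (H : Cx D Φ S β B N a₀ f) (hs : Ok D Φ N f a₀ s)
    {β' : Ordinal.{0}} (h1 : β' < β) (h2 : cd β' ∈ S) {x : U} (hx : x ∈ N) :
    ∃ s', Ok D Φ N f a₀ s' ∧ Le s' s ∧ ∃ z : U × U, z.1 ∈ N ∧ z.2 ∈ N ∧ x ∈ z.1 ∧ z.2 ⊆ B ∧
      Rk S β' z.2 z.1 ∧ Gn D Φ a₀ s'.c z.2 := by
  have hN := H.q
  obtain ⟨k, w, ⟨M, B', b, k1, k2, k3, k4, k5, k6, k7, k8⟩, j1, -, j2⟩ := apx hc H hs
    (H.srv.twr β' h1 h2 (cd (x, s.c, (List.range s.n).map s.w)) (hN.m0.prod.2 ⟨hx, hN.m0.prod.2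
      ⟨hs.cN, hN.m0.list.2 (by simpa using hs.wN)⟩⟩))
  have hM := H.hB M k5
  rw [hM.m0.prod, hM.m0.prod, hM.m0.list] at k6
  obtain ⟨r, l1, B1, c1, l2⟩ := k8 a₀ k4 s.c k6.2.1 s.n w s.w (by simpa using k6.2.2) hs.base
    fun i hi => ⟨j1.base.2.1 i hi, j2 i hi⟩
  obtain ⟨q, -, i1, z, i2, i3, i4, i5, i6, i7⟩ := hN.pTw ((S, β', B', M), b, s.c, Mg s.n w) (by
    simp only [hN.m0.prod]
    exact ⟨⟨H.SN, hN.m0.sub S H.SN H.hS h2, k2, k1⟩, k3, hs.cN, hN.mg j1.wN⟩) a₀ a₀ H.tg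
    (lb_self N a₀) ⟨r, l1, (B1, c1), l2⟩
  have i8 := hN.m0.prod.1 (show cd (z.1, z.2) ∈ N from i2)
  exact ⟨_, j1.chg i8.2 (i7.mono H.gs i1), ⟨i5, le_rfl, fun _ _ => rfl⟩, (M, z.1), k1, i8.1, k6.1,
    fun _ h => k7 (i3 h), i4, i6.mono k4 le_rfl⟩

variable [Small.{0} P]

theorem stepA (hg : GenStmt) (hc : CoaStmt) (H : Cx D Φ S β B N a₀ f) (hs : Ok D Φ N f a₀ s)
    {u : U} (hu : u ∈ N) (hd : Den D Φ u) : ∃ s', Ok D Φ N f a₀ s' ∧ Le s' s ∧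
      ∃ h, cd (h, s'.c) ∈ u ∧ cd h ∈ N ∧ a₀ ≤ h := by
  have hN := H.q
  obtain ⟨F, k1, k2⟩ := hg P H.dist D H.gs Φ H.flt a₀ s.c _ u hs.base.1
    (all_mg.2 hs.base.2.1) hd
  obtain ⟨q, -, k3, g, k4, k5, k6⟩ := hN.pGen (s.c, Mg s.n s.w, u) (hN.m0.prod.2 ⟨hs.cN,
    hN.m0.prod.2 ⟨hN.mg hs.wN, hu⟩⟩) a₀ a₀ H.tg (lb_self N a₀)
    ⟨a₀, le_rfl, Ctry.Sch.cn F, by rw [ψGen, Ctry.Sch.nm_cn]; exact ⟨k1, k2⟩⟩
  obtain ⟨k, w, j1, j2, j3, j4⟩ := apx hc H hs (H.srv.flt g k4 k5)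
  obtain ⟨r, l1, h, c, l2⟩ := k6 a₀ k3 (f k) (Mg s.n w) (H.srv.sec k) j1 (all_mg.2 j2.base.2.1)
    (ref_mg fun i hi => (j4 i hi).1) j3
  obtain ⟨q', -, i1, z, i2, i3, i4, i5, i6⟩ := hN.pOut (u, s.c, Mg s.n w) (hN.m0.prod.2 ⟨hu,
    hN.m0.prod.2 ⟨hs.cN, hN.mg j2.wN⟩⟩) a₀ a₀ H.tg (lb_self N a₀) ⟨r, l1, (h, c), l2⟩
  have i8 := hN.m0.prod.1 (show cd (z.1, z.2) ∈ N from i2)
  exact ⟨_, j2.chg i8.2 (i6.mono H.gs i1), ⟨i5, le_rfl, fun _ _ => rfl⟩, z.1, i3, i8.1,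
    i1.trans i4⟩

omit [Small.{0} P] in
theorem app_of (ha : AclStmt) (H : Cx D Φ S β B N a₀ f) {σ : Sg} {z : Cand} {γ : Om} {L : Set Cb}
    (h1 : Lim D f σ a) (h2 : D.Lv γ L a) (h3 : del N ≤ γ) (h4 : σ.γ ≤ γ)
    (h5 : ∀ e ∈ z, Inv γ e.2.2) (h6 : Cnd D z a) (h7 : Acc D σ z a) : App D N f a z :=
  ⟨γ, L, h2, h3, h5, ha P D H.gs f σ a γ L z h1 h2
    (fun n => (H.q.sgd (H.srv.mem n)).2.le.trans h3) h4 h5 h6 h7⟩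

theorem stepN (hn : NewStmt) (hz : ZonStmt) (ha : AclStmt) (H : Cx D Φ S β B N a₀ f)
    (hN' : QQ D Φ N') (hNN : N ∈ N') (hs : Ok D Φ N f a₀ s) (hv : Ver D N N' a₀ f a) {g : U}
    (hg : g ∈ s.c.G) : ∃ s', Ok D Φ N f a₀ s' ∧ Le s' s ∧ s.n < s'.n ∧ (s'.t s.n).1 = a ∧
      (s'.t s.n).2.1 = g ∧ Zone D Φ (nm g) (s'.t s.n).2.2 a := by
  have hN := H.q
  obtain ⟨v1, v2, σ, v3, v4⟩ := hv
  have gN : g ∈ N := hN.m0.sub _ (hN.pk hs.cN).2 hs.base.1.ctG hg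
  have sub := hN'.m0.sub' hN.m0 hNN
  obtain ⟨q, -, k1, y, k2, k3, k4, k5, k6⟩ := hN.pNew (s.c, Mg s.n s.w, g) (hN.m0.prod.2 ⟨hs.cN,
    hN.m0.prod.2 ⟨hN.mg hs.wN, gN⟩⟩) a₀ a₀ H.tg (lb_self N a₀)
    (hn P H.dist D H.gs Φ H.flt a₀ s.c _ g hs.base.1 hg)
  replace k3 := k3.mono H.gs k1
  obtain ⟨q1, j1, F, j2, j3⟩ := hz P H.dist D H.gs Φ H.flt (nm g) y a₀ (hs.base.1.can g hg).2 k3
    (k4.mono k1)
  obtain ⟨q2, j4, j5, g', j6, j7, j8⟩ := hN.pZF (g, y) (hN.m0.prod.2 ⟨gN, k2⟩) a₀ a₀ H.tg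
    (lb_self N a₀) ⟨q1, j1, Ctry.Sch.cn F, by rw [ψZF, Ctry.Sch.nm_cn]; exact ⟨j2, j3⟩⟩
  obtain ⟨q3, -, l1, z, l2, ⟨l3, l4⟩, l5, l6⟩ := hN'.pHit (g, y, σ) (hN'.m0.prod.2 ⟨sub gN,
    hN'.m0.prod.2 ⟨sub k2, v3⟩⟩) a a v2 (lb_self N' a) (j8 a (v1 q2 trivial j4 j5) σ v4.sec'
      ((H.flt.clo _ j7).2 a f σ v4 (ev_hyp ((H.srv.tr hN H.tg v1).flt g' j6 j7))))
  replace l5 := l5.mono H.gs l1
  obtain ⟨γ, m1, m2, m3, m4⟩ := hN'.eLev (σ, z, del N) (hN'.m0.prod.2 ⟨v3, hN'.m0.prod.2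
    ⟨l2, hN'.delf N hNN⟩⟩) (let ⟨γ, i1, i2⟩ := l5.rank (max (del N) σ.γ)
      ⟨γ, le_of_max_le_left i1, le_of_max_le_right i1, fun e he => (i2 e he).inv⟩)
  obtain ⟨q4, -, m5, L, -, m6⟩ := hN'.pLv γ m1 a a v2 (lb_self N' a) (H.gs.dec a γ)
  have e1 : ∀ {A : Type 1} (t : ℕ → A) (x : A), ∀ i < s.n, Function.update t s.n x i = t i :=
    fun t x i hi => Function.update_of_ne hi.ne x t
  have e2 : ∀ i < s.n, Function.update s.w s.n y i = s.w i :=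
    fun i hi => Function.update_of_ne hi.ne y s.w
  have k7 : ∀ i < s.n, Cpt D (s.w i) y a₀ := all_mg.1 (k5.mono k1)
  refine ⟨⟨s.c, s.n + 1, Function.update s.t s.n (a, g, z), Function.update s.w s.n y⟩,
    ⟨hs.cN, ?_, ⟨?_, ?_, ?_⟩, ?_⟩, ⟨le_rfl, s.n.le_succ, e1 _ _⟩, s.n.lt_succ_self, by simp,
    by simp, by simpa using l4.mono l1⟩ <;> dsimp only
  · rw [Nat.forall_lt_succ_right, Function.update_self]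
    exact ⟨fun i hi => e2 i hi ▸ hs.wN i hi, k2⟩
  · rw [mg_succ, mg_congr e2, Function.update_self]
    exact k6.mono H.gs k1
  · rw [Nat.forall_lt_succ_right, Function.update_self]
    exact ⟨fun i hi => e2 i hi ▸ hs.base.2.1 i hi, k3⟩
  · simp only [Nat.forall_lt_succ_right, Function.update_self]
    exact ⟨fun i hi => e2 i hi ▸ ⟨fun j hj => e2 j hj ▸ hs.base.2.2 i hi j hj, fun _ => k7 i hi⟩,
      fun j hj _ => e2 j hj ▸ (k7 j hj).symm, fun h => absurd rfl h⟩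
  · rw [Nat.forall_lt_succ_right, Function.update_self, Function.update_self]
    exact ⟨fun i hi => e1 s.t _ i hi ▸ e2 i hi ▸ hs.slot i hi, v1, l5, l3.mono l1,
      app_of ha H v4 (H.gs.lv m6 m5) m2 m3 m4 l5 (l6.mono l1)⟩

end Pool.Agent.Ctry.AK.Sch
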