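import Pool.Agent.MP_b60a07_lc.AK.Basic

/-! PROJECT AK, row THR: points of the countable powers of the space. -/

open Filter Set

namespace Pool.Agent.Ctry.AK.Thr

theorem cls_one {J : Type} {x : J → Cb} {j : J} {B : Set Cb} : Cls x [(j, B)] ↔ x j ∈ B := by
  simp [Cls]

theorem cls_closed {J : Type} {β : Om} {l : List (J × Set Cb)} (h : ∀ y ∈ l, Bas β y.2) :
    IsClosed {x : J → Cb | Cls x l} := by
  have : {x : J → Cb | Cls x l} = ⋃ y ∈ {y | y ∈ l}, (fun x : J → Cb => x y.1) ⁻¹' y.2 := by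
    ext x; simp [Cls]
  rw [this]
  exact (List.finite_toSet l).isClosed_biUnion fun y hy =>
    (h y hy).closed.preimage (continuous_apply y.1)

theorem thr (h : NlcStmt) : ThrStmt := by
  intro P _ hP Lv p h0 J _ 𝒞 hC _ hF
  obtain ⟨pt, h1, h2, h3, h4⟩ := h P hP (J → Cb) (fun β x x' => ∀ j, Ag β (x j) (x' j))
    (fun β => {V | ∃ l : List (J × Set Cb), (∀ y ∈ l, Bas β y.2) ∧ V = {x | Cls x l}})
    (fun β => ((ctble_lists ((countable_univ (α := J)).prod (ctble_bas β))).image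
      fun l => {x : J → Cb | Cls x l}).mono fun _ k => by
        obtain ⟨l, k1, k2⟩ := k
        exact ⟨l, fun y hy => mem_prod.2 ⟨trivial, k1 y hy⟩, k2.symm⟩)
    (fun α β k _ ⟨l, k1, k2⟩ => ⟨l, fun y hy => (k1 y hy).mono k, k2⟩)
    (fun β _ ⟨l, k1, k2⟩ => k2 ▸ cls_closed k1)
    (fun β s s' k => by
      obtain ⟨j, k⟩ := not_forall.1 k
      obtain ⟨V, W, k1, k2, k3, k4, k5⟩ := prime k
      refine ⟨_, ⟨[(j, V)], by simpa using k1, rfl⟩, _, ⟨[(j, W)], by simpa using k2, rfl⟩,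
        eq_univ_of_forall fun x => ?_, fun i => k4 (cls_one.1 i), fun i => k5 (cls_one.1 i)⟩
      exact (k3 ▸ mem_univ (x j) : x j ∈ V ∪ W).imp cls_one.2 cls_one.2)
    (fun V r => (∃ l, 𝒞 l r ∧ V = {x | Cls x l}) ∨ ∃ j β L B, Lv β L r ∧ Bas β B ∧ L ⊆ B ∧
      V = {x | Cls x [(j, B)]}) p
    (fun V a b k i => i.imp (fun ⟨l, i1, i2⟩ => ⟨l, hC l a b k i1, i2⟩)
      fun ⟨j, β, L, B, i1, i2⟩ => ⟨j, β, L, B, h0.opn β L a b k i1, i2⟩)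
    (fun q hq l hl => by
      have key : ∃ (ls : List (List (J × Set Cb))) (β₀ : Om), (∀ c ∈ ls, 𝒞 c q) ∧
          ∀ r ≤ q, ∀ β L, β₀ ≤ β → Lv β L r → ∀ x : J → Cb, (∀ j, x j ∈ L) →
            (∀ c ∈ ls, Cls x c) → ∀ V ∈ l, x ∈ V := by
        induction l with
        | nil => exact ⟨[], ⊥, by simp, by simp⟩
        | cons V l ih =>
          obtain ⟨ls, β₀, k1, k2⟩ := ih fun W hW => hl W (List.mem_cons_of_mem _ hW)
          rcases hl V List.mem_cons_self with ⟨c, k3, rfl⟩ | ⟨j, α, L', B, k3, -, k4, rfl⟩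
          · refine ⟨c :: ls, β₀, List.forall_mem_cons.2 ⟨k3, k1⟩,
              fun r hr β L i1 i2 x i3 i4 => List.forall_mem_cons.2 ⟨i4 c List.mem_cons_self,
                k2 r hr β L i1 i2 x i3 fun d hd => i4 d (List.mem_cons_of_mem _ hd)⟩⟩
          · refine ⟨ls, max β₀ α, k1, fun r hr β L i1 i2 x i3 i4 => List.forall_mem_cons.2
              ⟨cls_one.2 (k4 ((h0.mono (hr.trans hq)).sub (le_of_max_le_right i1)
                (h0.opn α L' q r hr k3) i2 (i3 j))),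
                k2 r hr β L (le_of_max_le_left i1) i2 x i3 i4⟩⟩
      obtain ⟨ls, β₀, k1, k2⟩ := key
      obtain ⟨r, hr, β, L, i1, i2, x, i3, i4⟩ := hF q hq ls k1 β₀
      exact ⟨x, k2 r hr β L i1 i2 x i3 i4⟩)
  refine ⟨pt, h1, h2, fun j => ⟨fun β s a b k ⟨x, i1, i2⟩ => ⟨x, h1 β x a b k i1, i2⟩,
    fun q hq β => ?_, ?_, ?_⟩, fun q hq β x l k1 k2 k3 =>
      h4 q hq β x _ ⟨l, k2, rfl⟩ (Or.inl ⟨l, k1, rfl⟩) k3⟩
  · exact let ⟨r, i1, x, i2⟩ := h2 q hq β; ⟨r, i1, x j, x, i2, rfl⟩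
  · rintro q hq α β _ _ k ⟨x, i1, rfl⟩ ⟨x', i2, rfl⟩
    exact h3 q hq α β x x' k i1 i2 j
  · rintro q hq β _ L ⟨x, i1, rfl⟩ i2
    by_contra hn
    obtain ⟨B, k1, k2, k3⟩ := sep' ((h0.mono hq).closed i2)
      (disjoint_iff_inter_eq_empty.2 (((h0.mono hq).inv i2).cyl_disjoint hn))
    exact k3 (cls_one.1 (h4 q hq β x _ ⟨[(j, B)], by simpa using k1, rfl⟩
      (Or.inr ⟨j, β, L, B, i2, k1, k2, rfl⟩) i1))

theorem thru (h : ThrStmt) : ThruStmt := by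
  intro P _ hP Lv p h0 β L w hL hw
  obtain ⟨pt, -, -, h3, h4⟩ := h P hP Lv p h0 Unit
    (fun l _ => ∃ B, l = [((), B)] ∧ Bas β B ∧ w ∈ B) (fun _ _ _ _ i => i)
    (by
      rintro _ _ ⟨B, rfl, k, -⟩ y hy
      exact ⟨β, List.mem_singleton.1 hy ▸ k⟩)
    (fun q hq ls hl β₀ => by
      obtain ⟨r, hr, L', k1⟩ := h0.dns q hq (max β β₀)
      obtain ⟨w', k2, k3⟩ := (h0.mono (hr.trans hq)).lift (le_max_left β β₀)
        (h0.opn β L p r (hr.trans hq) hL) k1 hw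
      refine ⟨r, hr, _, L', le_max_right _ _, k1, fun _ => w', fun _ => k2, fun l i => ?_⟩
      obtain ⟨B, rfl, i1, i2⟩ := hl l i
      exact cls_one.2 (i1.inv w w' k3.symm i2))
  refine ⟨_, h3 (), ?_⟩
  rintro q hq _ ⟨x, i1, rfl⟩
  by_contra hn
  obtain ⟨V, W, k1, -, k3, k4, k5⟩ := prime hn
  exact k4 (cls_one.1 (h4 q hq β x [((), V)] ⟨V, rfl, k1,
    (k3 ▸ mem_univ w : w ∈ V ∪ W).resolve_right k5⟩ (by simpa using k1) i1))

theorem pt (h : ThrStmt) : PtStmt := by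
  intro P _ hP Lv p h0 hc J _ 𝒞 hC hB hF γ₀
  obtain ⟨pt, h1, h2, h3, h4⟩ := h P hP Lv p h0 J 𝒞 hC hB hF
  obtain ⟨r₀, -, j0, hD⟩ := hP.ctble (p := p) trivial
    (fun (j : J) r => ∃ γ s, (∃ x, pt γ x r ∧ x j = s) ∧ Term Lv γ s r)
    (fun j a b _ k ⟨γ, s, i1, i2⟩ => ⟨γ, s, (h3 j).opn γ s a b k i1, i2.mono k⟩)
    fun j q _ hq => let ⟨r, i1, i2⟩ := hc q hq _ ((h3 j).mono hq); ⟨r, trivial, i1, i2⟩
  choose g s k1 k2 using hD
  obtain ⟨γ₁, hγ⟩ := exists_ge_all g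
  have hg : ∀ j, g j ≤ max γ₀ γ₁ := fun j => (hγ j).le.trans (le_max_right _ _)
  obtain ⟨r₁, j1, x, hx⟩ := h2 r₀ j0 (max γ₀ γ₁)
  obtain ⟨r, j2, L, hL⟩ := h0.dns r₁ (j1.trans j0) (max γ₀ γ₁)
  have hr : r ≤ p := j2.trans (j1.trans j0)
  have hx' := h1 _ x r₁ r j2 hx
  have hT : ∀ j, Term Lv (max γ₀ γ₁) (x j) r := fun j =>
    ((k2 j).mono (j2.trans j1)).up (h0.mono hr) (hg j) hL
      ((h3 j).mem r hr _ _ L ⟨x, hx', rfl⟩ hL)
      ((h3 j).coh r hr _ _ _ _ (hg j) ((h3 j).opn _ _ r₀ r (j2.trans j1) (k1 j))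
        ⟨x, hx', rfl⟩).symm
  refine ⟨r, hr, _, x, le_max_left _ _, hT, fun q hq l hl => ?_⟩
  obtain ⟨β, i1, i2⟩ := exists_rank (t := Prod.snd '' {y | y ∈ l})
    ((List.finite_toSet l).countable.image _) (forall_mem_image.2 fun y hy => hB l q hl y hy)
    (max γ₀ γ₁)
  obtain ⟨q₁, i3, w, hw⟩ := h2 q (hq.trans hr) β
  obtain ⟨q₂, i4, L', hL'⟩ := h0.dns q₁ (i3.trans (hq.trans hr)) β
  have i5 : q₂ ≤ r := i4.trans (i3.trans hq)
  have hw' := h1 _ w q₁ q₂ i4 hw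
  obtain ⟨y, i6, i7⟩ := h4 q₂ (i5.trans hr) β w l (hC l q q₂ (i4.trans i3) hl)
    (fun y hy => i2 _ (mem_image_of_mem _ hy)) hw'
  exact ⟨q₂, i4.trans i3, y, i6, (((hT y.1).mono i5).inP_iff (h0.mono (i5.trans hr)) i1 hL'
    (i2 _ (mem_image_of_mem _ i6)).inv ((h3 y.1).mem q₂ (i5.trans hr) _ _ L' ⟨w, hw', rfl⟩ hL')
    ((h3 y.1).coh q₂ (i5.trans hr) _ _ _ _ i1 ⟨x, h1 _ x r q₂ i5 hx', rfl⟩
      ⟨w, hw', rfl⟩).symm).2 i7⟩

end Pool.Agent.Ctry.AK.Thr
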