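import Mathlib.Analysis.SpecificLimits.Basic
import Pool.Agent.MP_b60a07_lc.AK.Names

/-! PROJECT AK, row UNIT: binary expansions and order neighbourhoods. -/

open Filter Set

namespace Pool.Agent.Ctry.AK.Unit

/-- the remainders of the binary expansion -/
noncomputable def rm (y : ℝ) : ℕ → ℝ
  | 0 => y
  | n + 1 => if 1 / 2 < rm y n then 2 * rm y n - 1 else 2 * rm y n

theorem rm_succ (y : ℝ) (n : ℕ) :
    rm y (n + 1) = if 1 / 2 < rm y n then 2 * rm y n - 1 else 2 * rm y n := rfl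

theorem rm_mem (y : Iv) (n : ℕ) : 0 ≤ rm y n ∧ rm y n ≤ 1 := by
  induction n with
  | zero => exact y.2
  | succ n ih =>
    rw [rm_succ]
    split_ifs with h <;> constructor <;> linarith [ih.1, ih.2]

theorem rm_pos {y : ℝ} (h : 0 < y) (n : ℕ) : 0 < rm y n := by
  induction n with
  | zero => exact h
  | succ n ih =>
    rw [rm_succ]
    split_ifs with h <;> linarith

theorem rm_zero (n : ℕ) : rm 0 n = 0 := by
  induction n with
  | zero => rfl
  | succ n ih => rw [rm_succ, ih]; norm_num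

theorem rm_diff (y y' : ℝ) (n : ℕ) (h : ∀ m < n, (1 / 2 < rm y m ↔ 1 / 2 < rm y' m)) :
    rm y' n - rm y n = 2 ^ n * (y' - y) := by
  induction n with
  | zero => simp [rm]
  | succ n ih =>
    have h1 := ih fun m hm => h m (hm.trans n.lt_succ_self)
    have h2 := h n n.lt_succ_self
    rw [rm_succ, rm_succ, pow_succ]
    by_cases k : 1 / 2 < rm y n
    · rw [if_pos k, if_pos (h2.1 k)]; linarith
    · rw [if_neg k, if_neg (mt h2.2 k)]; linarith

theorem big {d : ℝ} (h : 0 < d) : ∃ n : ℕ, 1 < 2 ^ n * d := by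
  obtain ⟨n, hn⟩ := pow_unbounded_of_one_lt (1 / d) (one_lt_two (α := ℝ))
  exact ⟨n, (div_lt_iff₀ h).1 hn⟩

theorem rm_unit (y : Iv) : UnitP fun n => 1 / 2 < rm y n := by
  rcases y.2.1.eq_or_lt with h | h
  · exact Or.inl fun n (k : 1 / 2 < rm y n) => by
      rw [← h, rm_zero] at k
      norm_num at k
  · refine Or.inr fun n => by_contra fun hn => ?_
    have key : ∀ j, rm y (n + 1 + j) = 2 ^ j * rm y (n + 1) := fun j => by
      induction j with
      | zero => simp
      | succ j ih =>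
        rw [← add_assoc, rm_succ, if_neg fun k => hn ⟨_, k, by omega⟩, ih, pow_succ]
        ring
    obtain ⟨j, hj⟩ := big (rm_pos h (n + 1))
    exact (key j ▸ hj : 1 < rm y (n + 1 + j)).not_ge (rm_mem y _).2

theorem rm_lt {y y' : Iv} (h : y < y') :
    LexLt (fun n => 1 / 2 < rm y n) fun n => 1 / 2 < rm y' n := by
  classical
  have hd : (0 : ℝ) < y' - y := sub_pos.2 h
  have ex : ∃ n, ¬ (1 / 2 < rm y n ↔ 1 / 2 < rm y' n) := by
    by_contra hn
    obtain ⟨j, hj⟩ := big hd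
    rw [← rm_diff y y' j fun m _ => by_contra fun k => hn ⟨m, k⟩] at hj
    linarith [(rm_mem y j).1, (rm_mem y' j).2]
  have h1 : ∀ m < Nat.find ex, (1 / 2 < rm y m ↔ 1 / 2 < rm y' m) := fun m hm =>
    not_not.1 (Nat.find_min ex hm)
  have h2 := rm_diff y y' _ h1
  have h3 : rm y (Nat.find ex) < rm y' (Nat.find ex) := by
    rw [← sub_pos, h2]; positivity
  have h4 := Nat.find_spec ex
  have h5 : ¬ 1 / 2 < rm y (Nat.find ex) := fun k => h4 (iff_of_true k (k.trans h3))
  exact ⟨_, by_contra fun k => h4 (iff_of_false h5 k), h5, h1⟩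

theorem lex_asymm {s t : ℕ → Prop} (h : LexLt s t) (h' : LexLt t s) : False := by
  obtain ⟨n, j1, j2, j3⟩ := h
  obtain ⟨m, k1, k2, k3⟩ := h'
  rcases lt_trichotomy n m with i | rfl | i
  · exact j2 ((k3 n i).1 j1)
  · exact j2 k1
  · exact k2 ((j3 m i).1 k1)

open Classical in
/-- the terms of a tail -/
noncomputable def tm (s : ℕ → Prop) (n k : ℕ) : ℝ := if s (n + k) then 1 / 2 / 2 ^ k else 0

theorem tm_nonneg (s : ℕ → Prop) (n k : ℕ) : 0 ≤ tm s n k := by
  unfold tm; split_ifs <;> positivity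

theorem tm_le (s : ℕ → Prop) (n k : ℕ) : tm s n k ≤ 1 / 2 / 2 ^ k := by
  unfold tm; split_ifs
  · exact le_rfl
  · positivity

theorem tm_sum (s : ℕ → Prop) (n : ℕ) : Summable (tm s n) :=
  Summable.of_nonneg_of_le (tm_nonneg s n) (tm_le s n) (summable_geometric_two' 1)

theorem tl_mem (s : ℕ → Prop) (n : ℕ) : ∑' k, tm s n k ∈ unitInterval :=
  ⟨tsum_nonneg (tm_nonneg s n), ((tm_sum s n).tsum_le_tsum (tm_le s n)
    (summable_geometric_two' 1)).trans (tsum_geometric_two' 1).le⟩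

theorem tl_succ (s : ℕ → Prop) (n : ℕ) :
    ∑' k, tm s n k = tm s n 0 + (∑' k, tm s (n + 1) k) / 2 := by
  rw [(tm_sum s n).tsum_eq_zero_add, ← tsum_div_const]
  refine congrArg _ (tsum_congr fun k => ?_)
  unfold tm
  rw [show n + (k + 1) = n + 1 + k by omega]
  split_ifs
  · rw [pow_succ]; ring
  · simp

theorem tl_iff {s : ℕ → Prop} (h : UnitP s) (n : ℕ) : 1 / 2 < ∑' k, tm s n k ↔ s n := by
  rw [tl_succ]
  by_cases k : s n
  · obtain ⟨m, k1, k2⟩ := (h.resolve_left fun i => i n k) n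
    have h1 : 0 < ∑' k, tm s (n + 1) k :=
      (tm_sum s _).tsum_pos (tm_nonneg s _) (m - (n + 1)) (by
        unfold tm
        rw [if_pos (by rwa [Nat.add_sub_cancel' k2])]
        positivity)
    have h2 : tm s n 0 = 1 / 2 := by simp [tm, k]
    exact iff_of_true (by linarith) k
  · have h2 : tm s n 0 = 0 := by simp [tm, k]
    exact iff_of_false (by linarith [(tl_mem s (n + 1)).2]) k

theorem rm_tl {s : ℕ → Prop} (h : UnitP s) (n : ℕ) : rm (∑' k, tm s 0 k) n = ∑' k, tm s n k := by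
  induction n with
  | zero => rfl
  | succ n ih =>
    have h1 := tl_succ s n
    rw [rm_succ, ih]
    by_cases k : s n
    · have h2 : tm s n 0 = 1 / 2 := by simp [tm, k]
      rw [if_pos ((tl_iff h n).2 k)]; linarith
    · have h2 : tm s n 0 = 0 := by simp [tm, k]
      rw [if_neg (mt (tl_iff h n).1 k)]; linarith

theorem unit : UnitStmt := by
  refine ⟨fun y n => 1 / 2 < rm y n, rm_unit, fun s hs => ⟨⟨_, tl_mem s 0⟩, funext fun n => ?_⟩,
    fun y y' => ⟨rm_lt, fun h => ?_⟩⟩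
  · exact propext (rm_tl hs n ▸ tl_iff hs n)
  · rcases lt_trichotomy y y' with k | rfl | k
    · exact k
    · exact (lex_asymm h h).elim
    · exact (lex_asymm h (rm_lt k)).elim

theorem side {a : Iv} {U : Set Iv} (h : IsOpen U) (ha : a ∈ U) : ∃ lo hi : Iv, ∀ x,
    (lo < a → lo < x) → (a < hi → x < hi) → x ∈ U := by
  obtain ⟨lo, h1⟩ : ∃ lo : Iv, ∀ x < a, (lo < a → lo < x) → x ∈ U := by
    by_cases k : ∃ l, l < a
    · obtain ⟨l, k1, k2⟩ := exists_Ioc_subset_of_mem_nhds (h.mem_nhds ha) k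
      exact ⟨l, fun x i j => k2 ⟨j k1, i.le⟩⟩
    · exact ⟨a, fun x i _ => absurd ⟨x, i⟩ k⟩
  obtain ⟨hi, h2⟩ : ∃ hi : Iv, ∀ x, a < x → (a < hi → x < hi) → x ∈ U := by
    by_cases k : ∃ l, a < l
    · obtain ⟨l, k1, k2⟩ := exists_Ico_subset_of_mem_nhds (h.mem_nhds ha) k
      exact ⟨l, fun x i j => k2 ⟨i.le, j k1⟩⟩
    · exact ⟨a, fun x i _ => absurd ⟨x, i⟩ k⟩
  refine ⟨lo, hi, fun x i j => ?_⟩
  rcases lt_trichotomy x a with k | rfl | k
  · exact h1 x k i
  · exact ha
  · exact h2 x k j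

theorem nb : NbStmt := by
  refine ⟨fun l s => ?_, fun V s β hV hI hs => ?_⟩
  · have : Nb l s = ⋂ y ∈ {y | y ∈ l}, (⋂ _ : s y.1 < y.2, {v : Cb | v y.1 < y.2}) ∩
        ⋂ _ : y.2 < s y.1, {v : Cb | y.2 < v y.1} := by
      ext v; simp only [Nb, mem_iInter, mem_inter_iff, mem_ofPred_eq]
    rw [this]
    exact (List.finite_toSet l).isOpen_biInter fun y _ =>
      (isOpen_iInter_of_finite fun _ => isOpen_lt (continuous_apply y.1) continuous_const).inter
        (isOpen_iInter_of_finite fun _ => isOpen_lt continuous_const (continuous_apply y.1))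
  · obtain ⟨I, u, h1, h2⟩ := isOpen_pi_iff.1 hV s hs
    have h3 : ∀ a, ∃ lo hi : Iv, a ∈ I → ∀ x, (lo < s a → lo < x) → (s a < hi → x < hi) →
        x ∈ u a := fun a => by
      by_cases k : a ∈ I
      · exact let ⟨lo, hi, i⟩ := side (h1 a k).1 (h1 a k).2; ⟨lo, hi, fun _ => i⟩
      · exact ⟨0, 0, fun i => absurd i k⟩
    choose lo hi h3 using h3
    refine ⟨(I.filter (· < β)).toList.flatMap fun a => [(a, lo a), (a, hi a)], fun y hy => ?_,
      fun v hv => hI (fun i => if i < β then v i else s i) v (fun i k => if_pos k)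
        (h2 fun a ha => ?_)⟩
    · obtain ⟨a, k1, k2⟩ := List.mem_flatMap.1 hy
      have k3 := (Finset.mem_filter.1 (Finset.mem_toList.1 k1)).2
      rcases List.mem_pair.1 k2 with rfl | rfl <;> exact k3
    · by_cases k : a < β
      · have k1 : a ∈ (I.filter (· < β)).toList :=
          Finset.mem_toList.2 (Finset.mem_filter.2 ⟨ha, k⟩)
        simp only [if_pos k]
        exact h3 a ha _ (hv (a, lo a) (List.mem_flatMap.2 ⟨a, k1, by simp⟩)).2
          (hv (a, hi a) (List.mem_flatMap.2 ⟨a, k1, by simp⟩)).1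
      · simp only [if_neg k]
        exact (h1 a ha).2

end Pool.Agent.Ctry.AK.Unit
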