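import Pool.Agent.MP_b60a07_lc.AK.Basic

/-! Zones: coarsening, subzones, splitting. -/

open Filter Set

namespace Pool.Agent.Ctry.AK.Zon

theorem mid {R A B : Lf → Lf → Prop} (g : Lf → Lf → Lf) {z' z : Cand} (h : List.Forall₂ R z' z)
    (k : ∀ e' ∈ z', ∀ e ∈ z, R e' e → A e' (g e' e) ∧ B (g e' e) e) :
    ∃ z'' : Cand, (∀ e'' ∈ z'', ∃ e' ∈ z', ∃ e ∈ z, e'' = g e' e) ∧ List.Forall₂ A z' z'' ∧
      List.Forall₂ B z'' z := by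
  induction h with
  | nil => exact ⟨[], by simp, List.Forall₂.nil, List.Forall₂.nil⟩
  | @cons a b l l' j _ ih =>
    obtain ⟨y, i1, i2, i3⟩ := ih fun e' he' e he =>
      k e' (List.mem_cons_of_mem _ he') e (List.mem_cons_of_mem _ he)
    have i4 := k a List.mem_cons_self b List.mem_cons_self j
    refine ⟨g a b :: y, fun e'' he => ?_, List.Forall₂.cons i4.1 i2, List.Forall₂.cons i4.2 i3⟩
    rcases List.mem_cons.1 he with rfl | he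
    · exact ⟨a, List.mem_cons_self, b, List.mem_cons_self, rfl⟩
    · obtain ⟨e', l1, e, l2, l3⟩ := i1 e'' he
      exact ⟨e', List.mem_cons_of_mem _ l1, e, List.mem_cons_of_mem _ l2, l3⟩

theorem coa : CoaStmt := by
  intro P _ D hD σ r β β₁ L z' z _ hL hγ hI hC hR hA hβ hz
  have hK : IsClosed ((⋃ e' ∈ {e' | e' ∈ z'}, e'.2.2) ∩ L) :=
    ((List.finite_toSet z').isClosed_biUnion fun e' he' =>
      let ⟨_, k⟩ := (hC e' he').2; k.closed).inter ((hD.s0 r).closed hL)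
  have h1 : ∀ y : Lf × Bool, ∃ B, y.1 ∈ z' → Bas σ.γ B ∧
      (⋃ e' ∈ {e' | e' ∈ z'}, e'.2.2) ∩ L ⊆ B ∧ σ.x y.2 (cut σ.δ y.1.2.1) ∉ B := by
    intro y
    by_cases hy : y.1 ∈ z'
    · obtain ⟨B, k⟩ := sep' (β := σ.γ) (x := σ.x y.2 (cut σ.δ y.1.2.1)) hK
        (disjoint_left.2 fun v j1 j2 => by
          obtain ⟨e', i1, i2⟩ := mem_iUnion₂.1 j2.1
          exact disjoint_left.1 (((hD.s0 r).mis_iff (((inv_cyl _ _).mono hγ).inter (hI e' i1))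
            hL).1 ((hA y.1 hy).2 e' i1 y.2)) ⟨j1, i2⟩ j2.2)
      exact ⟨B, fun _ => k⟩
    · exact ⟨∅, fun k => absurd k hy⟩
  choose B hB using h1
  have hfin : ({e | e ∈ z'} ×ˢ (univ : Set Bool)).Finite :=
    (List.finite_toSet z').prod finite_univ
  set B₀ : Set Cb := ⋂ y ∈ {e | e ∈ z'} ×ˢ (univ : Set Bool), B y with hB₀
  have b1 : Bas σ.γ B₀ := bas_biInter hfin fun y hy => (hB y hy.1).1
  have b2 : ∀ e' ∈ z', Mis D.Lv (e'.2.2 \ B₀) r := fun e' he' =>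
    (hD.s0 r).mis_of hL (disjoint_left.2 fun v j1 j2 => j1.2 (mem_iInter₂.2 fun y hy =>
      (hB y hy.1).2.1 ⟨mem_iUnion₂.2 ⟨e', he', j1.1⟩, j2⟩))
  have b3 : ∀ e' ∈ z', ∀ i, σ.x i (cut σ.δ e'.2.1) ∉ B₀ := fun e' he' i k =>
    (hB (e', i) he').2.2 (mem_iInter₂.1 k (e', i) ⟨he', trivial⟩)
  obtain ⟨z'', k1, k2, k3⟩ := mid
    (A := fun e' e : Lf => e.1 ≤ e'.1 ∧ Ag e.1 e'.2.1 e.2.1 ∧ Mis D.Lv (e'.2.2 \ e.2.2) r)
    (B := fun e' e : Lf => e.1 ≤ e'.1 ∧ Ag e.1 e'.2.1 e.2.1 ∧ Mis D.Lv (e'.2.2 \ e.2.2) r)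
    (fun e' e => (σ.δ, cut σ.δ e'.2.1, e.2.2 ∩ B₀)) hR fun e' he' e he j =>
      ⟨⟨(hA e' he').1, (ag_cut _ _).symm, (j.2.2.union (b2 e' he')).sub fun v hv => by
          by_contra hn
          exact hv.2 ⟨by_contra fun i => hn (Or.inl ⟨hv.1, i⟩),
            by_contra fun i => hn (Or.inr ⟨hv.1, i⟩)⟩⟩,
        (hz e he).1, ((ag_cut _ _).mono (hz e he).1).trans j.2.1,
        mis_of_eq (eq_empty_of_forall_notMem fun v hv => hv.2 hv.1.1)⟩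
  refine ⟨z'', fun e'' he => ?_, fun e'' he => ?_, k2, k3, fun e'' he => ?_⟩
  · obtain ⟨e', -, e, j, rfl⟩ := k1 e'' he
    exact ⟨rfl, (hz e j).2.inter (b1.mono hβ)⟩
  · obtain ⟨e', i, e, j, rfl⟩ := k1 e'' he
    exact ⟨hD.t_cut (hC e' i).1 (hA e' i).1, β₁, (hz e j).2.inter (b1.mono hβ)⟩
  · obtain ⟨e', i, e, -, rfl⟩ := k1 e'' he
    refine ⟨le_rfl, fun f'' hf j => ?_⟩
    obtain ⟨f', -, f, -, rfl⟩ := k1 f'' hf
    refine (mis_of_eq (b1.inv.cyl_disjoint (b3 e' i j))).sub fun v hv => ⟨?_, hv.2.2⟩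
    have := hv.1
    dsimp only at this
    rwa [cut_cut le_rfl] at this

section

variable {P : Type 1} [Preorder P] {D : Dt P} {Φ : Set (Sg → P → Prop)} {S : Cand → P → Prop}
  {z : Cand} {p : P}

/-- no member of `F` accepts a refinement of `z` in `S` that `σ` accepts -/
def Nul (D : Dt P) (S : Cand → P → Prop) (z : Cand) (σ : Sg) (F : Sg → P → Prop) (q : P) : Prop :=
  ∀ r ≤ q, ∀ σ', F σ' r → ∀ z', S z' r → Cnd D z' r → Ref D z' z r → Acc D σ z' r →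
    ¬ Acc D σ' z' r

theorem lemA (h1 : CoaStmt) (h4 : CloStmt) (hP : Dist (univ : Set P)) (hD : GS D) (hΦ : Flt D Φ)
    (hS : Opn S) (hz : Cnd D z p) {G : Sg → P → Prop} (hG : G ∈ Φ)
    (hG' : ∀ q ≤ p, ∀ σ, G σ q → ¬ Hit D (fun z' r => Ref D z' z r ∧ Zone D Φ S z' r) σ q)
    {q : P} (hq : q ≤ p) {σ : Sg} (k1 : Sec D σ q) (k2 : G σ q) (k3 : ∀ e ∈ z, e.1 ≤ σ.δ) :
    ∃ q' ≤ q, ∃ F ∈ Φ, Nul D S z σ F q' := by
  obtain ⟨β₁, j1, j2⟩ := hz.rank σ.γ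
  obtain ⟨q₁, j3, W, j4, j5⟩ := hD.t_dec hP q σ.δ
  have hI := ctble_lists ((countable_singleton σ.δ).prod (j4.prod (ctble_bas β₁)))
  obtain ⟨q', -, j6, j7⟩ := hP.set hI (p := q₁) trivial
    (fun y a => ∃ F ∈ Φ, ∀ b ≤ a, ∀ σ', F σ' b → Cnd D y b → Ref D y z b → Acc D σ y b →
      ¬ Hit D (fun w r => S w r ∧ Ref D w y r) σ' b)
    (fun y _ a a' _ k ⟨F, i1, i2⟩ => ⟨F, i1, fun b l => i2 b (l.trans k)⟩) fun y _ a _ ha => by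
      rcases hΦ.dich h4 hD (Y := fun w r => S w r ∧ Ref D w y r)
        (fun w b c k i => ⟨hS w b c k i.1, i.2.mono k⟩) a with ⟨F, i1, i2⟩ | ⟨b, i1, i2⟩
      · exact ⟨a, trivial, le_rfl, F, i1, fun b l σ' i _ _ _ => i2 b l σ' i⟩
      · refine ⟨b, trivial, i1, G, hG, fun c l σ' _ l1 l2 l3 _ => ?_⟩
        have l4 : c ≤ q := l.trans (i1.trans (ha.trans j3))
        exact hG' c (l4.trans hq) σ (hΦ.opn hG k2 l4) ⟨y, ⟨l2, Zone.mono i2 l⟩, l1, l3⟩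
  choose! F hF hF' using j7
  obtain ⟨F₀, i1, i2⟩ := hΦ.set hI hF
  refine ⟨q', j6.trans j3, F₀, i1, fun r l σ' l1 z' l2 l3 l4 l5 l6 => ?_⟩
  obtain ⟨β, m1, m2⟩ := l3.rank σ.γ
  obtain ⟨r', m3, L, m4⟩ := hD.dec r β
  have m5 : r' ≤ q' := m3.trans l
  obtain ⟨y, n1, n2, n3, n4, n5⟩ := h1 P D hD σ r' β β₁ L z' z (k1.mono (m5.trans (j6.trans j3)))
    m4 m1 (fun e he => (m2 e he).inv) (l3.mono hD m3) (l4.mono m3) (l5.mono m3) j1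
    fun e he => ⟨k3 e he, j2 e he⟩
  have n6 : ∀ e ∈ y, e ∈ ({σ.δ} : Set Om) ×ˢ W ×ˢ {V | Bas β₁ V} := fun e he =>
    ⟨(n1 e he).1, (j5 r' (m5.trans j6) _).1 ((n1 e he).1 ▸ (n2 e he).1), (n1 e he).2⟩
  exact hF' y n6 r' m5 σ' (i2 σ' r' (hΦ.opn i1 l1 m3) y n6) n2 n4 n5
    ⟨z', ⟨hS z' r r' m3 l2, n3⟩, l3.mono hD m3, l6.mono m3⟩

end

theorem zon (h1 : CoaStmt) (h2 : LimStmt) (h3 : AclStmt) (h4 : CloStmt) : ZonStmt := by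
  intro P _ hP D hD Φ hΦ S z p hS hz hZ
  refine (hΦ.dich h4 hD (Y := fun z' r => Ref D z' z r ∧ Zone D Φ S z' r)
    (fun w b c k i => ⟨i.1.mono k, i.2.mono k⟩) p).resolve_left ?_
  rintro ⟨G, hG, hG'⟩
  obtain ⟨F₀, hF, hF'⟩ := hZ
  obtain ⟨δ₀, hδ⟩ := exists_bound ((List.finite_toSet z).countable.image fun e : Lf => e.1)
  let Iv : Sg × (Sg → P → Prop) → Prop := fun s =>
    s.2 ∈ Φ ∧ (∀ σ r, s.2 σ r → F₀ σ r ∧ G σ r) ∧ δ₀ ≤ s.1.δ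
  let R : ℕ → P → Sg × (Sg → P → Prop) → Sg × (Sg → P → Prop) → Prop := fun _ q s s' =>
    Iv s ∧ Iv s' ∧ (∀ σ r, s'.2 σ r → s.2 σ r) ∧ s.1.δ < s'.1.δ ∧ Sec D s'.1 q ∧ s.2 s'.1 q ∧
      Nul D S z s'.1 s'.2 q
  have step : ∀ n, ∀ q ≤ p, ∀ s, Iv s → ∃ q' ∈ (univ : Set P), q' ≤ q ∧ ∃ s', R n q' s s' := by
    intro n q hq s hs
    obtain ⟨δ₁, i1⟩ := exists_ge_all fun _ : Unit => s.1.δ
    obtain ⟨q₁, i2, σ, i3, i4, i5⟩ := hΦ.unb _ hs.1 q δ₁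
    have i6 : s.1.δ < σ.δ := (i1 ()).trans_le i3
    obtain ⟨q', j1, F, j2, j3⟩ := lemA h1 h4 hP hD hΦ hS hz hG hG' (i2.trans hq) i4
      (hs.2.1 σ q₁ i5).2 fun e he => (hδ _ (mem_image_of_mem _ he)).le.trans (hs.2.2.trans i6.le)
    exact ⟨q', trivial, j1.trans i2, (σ, fun σ' r => F σ' r ∧ s.2 σ' r), hs,
      ⟨hΦ.and j2 hs.1, fun σ' r k => hs.2.1 σ' r k.2, hs.2.2.trans i6.le⟩, fun _ _ k => k.2, i6,
      i4.mono j1, hΦ.opn hs.1 i5 j1, fun r k σ' l => j3 r k σ' l.1⟩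
  obtain ⟨q, -, hq, f, -, hf⟩ := hP.rec R
    (fun n a s s' a' _ k ⟨i1, i2, i3, i4, i5, i6, i7⟩ => ⟨i1, i2, i3, i4, i5.mono k,
      hΦ.opn i1.1 i6 k, fun r l => i7 r (l.trans k)⟩) (p := p) trivial
    (⟨δ₀, δ₀, fun _ t => t⟩, fun σ r => F₀ σ r ∧ G σ r)
    (fun q _ hq => step 0 q hq _ ⟨hΦ.and hF hG, fun _ _ k => k, le_rfl⟩)
    fun n q _ hq s s' k => step (n + 1) q hq s' k.2.1
  have hm : StrictMono fun n => (f (n + 1)).1.δ :=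
    strictMono_nat_of_lt_succ fun n => (hf (n + 1)).2.2.2.1
  obtain ⟨δ, hl⟩ := exists_lub fun n => (f (n + 1)).1.δ
  obtain ⟨q', j1, σ, -, j2⟩ := h2 P hP D hD (fun n => (f (n + 1)).1) δ q hm hl
    fun n => (hf n).2.2.2.2.1
  have dec : ∀ m n, m ≤ n → ∀ σ r, (f n).2 σ r → (f m).2 σ r := fun m n k => by
    induction k with
    | refl => exact fun _ _ i => i
    | step _ ih => exact fun σ r i => ih σ r ((hf _).2.2.1 σ r i)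
  have all : ∀ m, (f m).2 σ q' := fun m => (hΦ.clo _ (hf m).1.1).2 q' _ σ j2
    (ev_hyp (eventually_atTop.2 ⟨m, fun n k =>
      dec m n k _ _ (hΦ.opn (hf n).1.1 (hf n).2.2.2.2.2.1 j1)⟩))
  obtain ⟨r, j3, z', j4, j5, j6⟩ := hF' q' (j1.trans hq) σ j2.sec' ((hf 0).1.2.1 σ q' (all 0)).1
  obtain ⟨β₀, j7⟩ := exists_ge_all fun n => (f (n + 1)).1.γ
  obtain ⟨β, j8, j9⟩ := j5.rank (max β₀ σ.γ)
  obtain ⟨r', k1, L, k2⟩ := hD.dec r β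
  obtain ⟨n, hn⟩ := (h3 P D hD _ σ r' β L z' (j2.mono' (k1.trans j3)) k2
    (fun n => (j7 n).le.trans ((le_max_left _ _).trans j8)) ((le_max_right _ _).trans j8)
    (fun e he => (j9 e he).inv) (j5.mono hD k1) (j6.mono k1)).exists
  exact (hf n).2.2.2.2.2.2 r' (k1.trans (j3.trans j1)) σ
    (hΦ.opn (hf n).2.1.1 (all (n + 1)) (k1.trans j3)) z' (hS z' r r' k1 j4.1) (j5.mono hD k1)
    (j4.2.mono k1) hn (j6.mono k1)

theorem spl (h : ZonStmt) : SplStmt := by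
  intro P _ hP D hD Φ hΦ S z p hS hz hZ
  obtain ⟨q, j1, j2⟩ := h P hP D hD Φ hΦ S z p hS hz hZ
  obtain ⟨r, k1, z₁, z₂, k2, k3, k4, k5, k6⟩ :=
    j2.pair hΦ fun w b c k i => ⟨i.1.mono k, i.2.mono k⟩
  exact ⟨r, k1.trans j1, z₁, z₂, k4, k5, k2.1, k3.1, k2.2, k3.2, k6⟩

end Pool.Agent.Ctry.AK.Zon
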